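import Pool.Agent.GSX.GDefs
import Pool.Agent.PLN.RatFF

/-!
# GSX: linear independence over the field of the base

`indepK`: `x 1, …, x 5` are linearly independent over `KK`.
`nd`: the component in `U` of the generic point is in general position.
`top_of`: a field over `KK` which contains the ratios of the coordinates of the point of `U` is `Ω`.
-/

set_option autoImplicit false

noncomputable section

namespace Pool.Agent.GSX

open MvPolynomial Matrix Pool.Agent.GSH

/-- homogenisation -/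
theorem hom3 (n : MvPolynomial (Fin 2) ℂ) (N : ℕ) (hN : n.totalDegree ≤ N) :
    ∃ h : MvPolynomial (Fin 3) ℂ, h.IsHomogeneous N ∧
      ∀ (R : Type) [CommRing R] [Algebra ℂ R] (μ s t : R),
        aeval ![μ, μ * s, μ * t] h = μ ^ N * aeval ![s, t] n := by
  set r : MvPolynomial (Fin 3) ℂ := rename Fin.succ n with hr
  refine ⟨∑ i ∈ Finset.range (N + 1), X 0 ^ (N - i) * homogeneousComponent i r, ?_, ?_⟩
  · refine IsHomogeneous.sum _ _ _ fun i hi => ?_
    have h1 : ((X 0 : MvPolynomial (Fin 3) ℂ) ^ (N - i)).IsHomogeneous (N - i) := by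
      have := (isHomogeneous_X ℂ (0 : Fin 3)).pow (N - i)
      rwa [one_mul] at this
    have h2 := h1.mul (homogeneousComponent_isHomogeneous i r)
    rw [Finset.mem_range] at hi
    rwa [Nat.sub_add_cancel (by omega)] at h2
  · intro R _ _ μ s t
    have hμ : (![μ, μ * s, μ * t] : Fin 3 → R) = fun i => μ * (![1, s, t] : Fin 3 → R) i := by
      funext i
      fin_cases i
      · simp
      · simp
      · simp
    have h1 : ∀ i ∈ Finset.range (N + 1),
        aeval ![μ, μ * s, μ * t] (X 0 ^ (N - i) * homogeneousComponent i r) =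
          μ ^ N * aeval ![1, s, t] (homogeneousComponent i r) := by
      intro i hi
      rw [Finset.mem_range] at hi
      rw [map_mul, map_pow, aeval_X, hμ,
        PLN.aeval_smul_hom (homogeneousComponent_isHomogeneous i r)]
      have h2 : μ ^ N = μ ^ (N - i) * μ ^ i := by
        rw [← pow_add, Nat.sub_add_cancel (by omega)]
      rw [h2]
      simp
      ring
    rw [map_sum, Finset.sum_congr rfl h1, ← Finset.mul_sum, ← map_sum]
    congr 1
    have hdeg : r.totalDegree ≤ N := (totalDegree_rename_le _ _).trans hN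
    have h3 : ∑ i ∈ Finset.range (N + 1), homogeneousComponent i r = r := by
      conv_rhs => rw [← sum_homogeneousComponent r]
      symm
      refine Finset.sum_subset (Finset.range_mono (by omega)) fun i _ hi => ?_
      refine homogeneousComponent_eq_zero _ _ ?_
      rw [Finset.mem_range] at hi
      omega
    rw [h3, hr, aeval_rename]
    congr 2

variable {D : Cub ℂ} {Ω : Type} [Field Ω] [Algebra ℂ Ω] [Algebra KK Ω]
  [IsScalarTower ℂ KK Ω] {x : Fin 6 → Ω}

theorem algebraMap_poly (n : MvPolynomial (Fin 2) ℂ) :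
    algebraMap KK Ω (algebraMap (MvPolynomial (Fin 2) ℂ) KK n) =
      aeval ![algebraMap KK Ω sK, algebraMap KK Ω tK] n := by
  have h1 : (((IsScalarTower.toAlgHom ℂ KK Ω).comp
      (IsScalarTower.toAlgHom ℂ (MvPolynomial (Fin 2) ℂ) KK)) : MvPolynomial (Fin 2) ℂ →ₐ[ℂ] Ω) =
      aeval ![algebraMap KK Ω sK, algebraMap KK Ω tK] := by
    refine MvPolynomial.algHom_ext fun i => ?_
    rw [aeval_X]
    fin_cases i <;> rfl
  exact DFunLike.congr_fun h1 n

theorem lin_hom (c : Fin 6 → ℂ) : (lin c).IsHomogeneous 1 := by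
  refine IsHomogeneous.sum _ _ _ fun k _ => ?_
  have := (isHomogeneous_C (Fin 6) (c k)).mul (isHomogeneous_X ℂ k)
  rwa [zero_add] at this

theorem coeff_lin (c : Fin 6 → ℂ) (k : Fin 6) : coeff (Finsupp.single k 1) (lin c) = c k := by
  unfold lin
  rw [coeff_sum, Finset.sum_eq_single k]
  · rw [coeff_C_mul, coeff_X', if_pos rfl, mul_one]
  · intro j _ hj
    rw [coeff_C_mul, coeff_X', if_neg, mul_zero]
    intro h
    exact hj ((Finsupp.single_left_inj one_ne_zero).1 h)
  · intro h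
    exact absurd (Finset.mem_univ k) h

theorem Cub.A00 (D : Cub ℂ) : D.A 0 0 = lin fun k => D.a k 0 := rfl
theorem Cub.A01 (D : Cub ℂ) : D.A 0 1 = lin fun k => D.a k 1 := rfl
theorem Cub.A10 (D : Cub ℂ) : D.A 1 0 = lin fun k => D.a k 1 := rfl
theorem Cub.A11 (D : Cub ℂ) : D.A 1 1 = lin fun k => D.a k 2 := rfl
theorem Cub.B00 (D : Cub ℂ) : D.B 0 0 = lin fun k => D.b k 0 := rfl
theorem Cub.B01 (D : Cub ℂ) : D.B 0 1 = lin fun k => D.b k 1 := rfl
theorem Cub.B10 (D : Cub ℂ) : D.B 1 0 = lin fun k => D.b k 1 := rfl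
theorem Cub.B11 (D : Cub ℂ) : D.B 1 1 = lin fun k => D.b k 2 := rfl

theorem Cub.A_hom (D : Cub ℂ) (i j : Fin 2) : (D.A i j).IsHomogeneous 1 := by
  fin_cases i <;> fin_cases j
  · show (D.A 0 0).IsHomogeneous 1
    rw [D.A00]; exact lin_hom _
  · show (D.A 0 1).IsHomogeneous 1
    rw [D.A01]; exact lin_hom _
  · show (D.A 1 0).IsHomogeneous 1
    rw [D.A10]; exact lin_hom _
  · show (D.A 1 1).IsHomogeneous 1
    rw [D.A11]; exact lin_hom _

theorem Cub.B_hom (D : Cub ℂ) (i j : Fin 2) : (D.B i j).IsHomogeneous 1 := by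
  fin_cases i <;> fin_cases j
  · show (D.B 0 0).IsHomogeneous 1
    rw [D.B00]; exact lin_hom _
  · show (D.B 0 1).IsHomogeneous 1
    rw [D.B01]; exact lin_hom _
  · show (D.B 1 0).IsHomogeneous 1
    rw [D.B10]; exact lin_hom _
  · show (D.B 1 1).IsHomogeneous 1
    rw [D.B11]; exact lin_hom _

theorem base_hom (D : Cub ℂ) (k : Fin 3) : (base D.A D.B k).IsHomogeneous 2 := by
  have hX : ∀ i j : Fin 6, (X i * X j : S6).IsHomogeneous 2 := fun i j =>
    (isHomogeneous_X ℂ i).mul (isHomogeneous_X ℂ j)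
  have hX2 : ∀ i : Fin 6, (X i ^ 2 : S6).IsHomogeneous 2 := fun i => by
    rw [pow_two]; exact hX i i
  have hL : ∀ i j : Fin 2, (X 5 * (D.A i j + D.B i j) : S6).IsHomogeneous 2 := fun i j =>
    (isHomogeneous_X ℂ 5).mul ((D.A_hom i j).add (D.B_hom i j))
  fin_cases k
  · show (X 1 ^ 2 + X 3 ^ 2 + X 5 * (D.A 0 0 + D.B 0 0) : S6).IsHomogeneous 2
    exact ((hX2 1).add (hX2 3)).add (hL 0 0)
  · show (X 1 * X 2 + X 3 * X 4 + X 5 * (D.A 0 1 + D.B 0 1) : S6).IsHomogeneous 2
    exact ((hX 1 2).add (hX 3 4)).add (hL 0 1)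
  · show (X 2 ^ 2 + X 4 ^ 2 + X 5 * (D.A 1 1 + D.B 1 1) : S6).IsHomogeneous 2
    exact ((hX2 2).add (hX2 4)).add (hL 1 1)

/-- the first coefficients do not all vanish -/
theorem Cub.exists_coeff (h0 : D.a 0 ≠ 0) : ∃ i j, coeff (Finsupp.single 0 1) (D.A i j) ≠ 0 ∨
    coeff (Finsupp.single 0 1) (D.B i j) ≠ 0 := by
  by_contra hcon
  push Not at hcon
  apply h0
  have h1 := (hcon 0 0).1
  have h2 := (hcon 0 1).1
  have h3 := (hcon 1 1).1
  rw [D.A00, coeff_lin] at h1
  rw [D.A01, coeff_lin] at h2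
  rw [D.A11, coeff_lin] at h3
  funext i
  fin_cases i
  · exact h1
  · exact h2
  · exact h3

theorem Gen.m0_ne (hG : Gen D x) (h0 : D.a 0 ≠ 0) : D.mv x 0 ≠ 0 := by
  intro h
  have h1 := (hG.ker _ 2 (base_hom D 0)).1 h
  have h4 : ∑ k, aeval (base D.A D.B) ((fun k : Fin 5 => if k = 0 then (X 0 : MvPolynomial (Fin 3) ℂ)
      else 0) k) * lc k = base D.A D.B 0 * lc 0 := by
    rw [Finset.sum_eq_single (0 : Fin 5)]
    · simp only [if_pos]
      rw [aeval_X]
    · intro k _ hk
      simp only [if_neg hk]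
      rw [map_zero, zero_mul]
    · intro h5
      exact absurd (Finset.mem_univ _) h5
  have h2 := indep D.A_hom D.B_hom (D.A10.trans D.A01.symm) (D.B10.trans D.B01.symm)
    (Cub.exists_coeff h0) (fun k => if k = 0 then X 0 else 0) (by
      rw [h4]
      exact Dvd.dvd.mul_right h1 _) 0
  rw [if_pos rfl] at h2
  exact X_ne_zero 0 h2

/-- `x 1, …, x 5` are linearly independent over `KK` -/
theorem Gen.indepK (hG : Gen D x) (h0 : D.a 0 ≠ 0) (c : Fin 5 → KK)
    (h : ∑ k : Fin 5, algebraMap KK Ω (c k) * x k.succ = 0) : ∀ k, c k = 0 := by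
  obtain ⟨b, hb⟩ := IsLocalization.exist_integer_multiples_of_finite
    (nonZeroDivisors (MvPolynomial (Fin 2) ℂ)) c
  choose n hn using hb
  have hb0 : algebraMap (MvPolynomial (Fin 2) ℂ) KK b ≠ 0 :=
    IsFractionRing.to_map_ne_zero_of_mem_nonZeroDivisors b.2
  have hn' : ∀ k, algebraMap (MvPolynomial (Fin 2) ℂ) KK (n k) =
      algebraMap (MvPolynomial (Fin 2) ℂ) KK b * c k := by
    intro k
    rw [hn k, Algebra.smul_def]
  set N := Finset.univ.sup fun k => (n k).totalDegree with hN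
  have hNk : ∀ k, (n k).totalDegree ≤ N := fun k =>
    Finset.le_sup (f := fun k => (n k).totalDegree) (Finset.mem_univ k)
  choose H hH1 hH2 using fun k => hom3 (n k) N (hNk k)
  have hm : (fun k => D.mv x k) = ![D.mv x 0, D.mv x 0 * algebraMap KK Ω sK,
      D.mv x 0 * algebraMap KK Ω tK] := by
    funext k
    fin_cases k
    · rfl
    · exact hG.hs.symm
    · exact hG.ht.symm
  have h1 : aeval x (∑ k, aeval (base D.A D.B) (H k) * lc k) = 0 := by
    rw [map_sum]
    have h2 : ∀ k, aeval x (aeval (base D.A D.B) (H k) * lc k) =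
        D.mv x 0 ^ N * algebraMap KK Ω (algebraMap (MvPolynomial (Fin 2) ℂ) KK b) *
          (algebraMap KK Ω (c k) * x k.succ) := by
      intro k
      have h3 : aeval x (aeval (base D.A D.B) (H k)) = aeval (fun k => D.mv x k) (H k) := by
        rw [comp_aeval_apply]
        rfl
      have h4 : aeval x (lc k) = x k.succ := by
        fin_cases k <;> simp [lc]
      rw [map_mul, h3, h4, hm, hH2, ← algebraMap_poly, hn', map_mul]
      ring
    rw [Finset.sum_congr rfl fun k _ => h2 k, ← Finset.mul_sum, h, mul_zero]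
  have h2 : (∑ k, aeval (base D.A D.B) (H k) * lc k).IsHomogeneous (2 * N + 1) := by
    refine IsHomogeneous.sum _ _ _ fun k _ => ?_
    refine IsHomogeneous.mul ((hH1 k).aeval _ (base_hom D)) ?_
    fin_cases k <;> exact isHomogeneous_X _ _
  have h3 := indep D.A_hom D.B_hom (D.A10.trans D.A01.symm) (D.B10.trans D.B01.symm)
    (Cub.exists_coeff h0) H ((hG.ker _ _ h2).1 h1)
  intro k
  have h4 := hH2 k (MvPolynomial (Fin 2) ℂ) 1 (X 0) (X 1)
  have h5 : (![X 0, X 1] : Fin 2 → MvPolynomial (Fin 2) ℂ) = X := by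
    funext i
    fin_cases i <;> rfl
  rw [h3 k, map_zero, one_pow, one_mul, h5, aeval_X_left_apply] at h4
  have h6 := hn' k
  rw [← h4, map_zero] at h6
  exact (mul_eq_zero.1 h6.symm).resolve_left hb0

theorem dK_ne : tK - sK ^ 2 ≠ 0 := by
  intro h
  have h1 : algebraMap (MvPolynomial (Fin 2) ℂ) KK (X 1 - X 0 ^ 2) = 0 := by
    rw [map_sub, map_pow]
    exact h
  have h2 := (IsFractionRing.injective (MvPolynomial (Fin 2) ℂ) KK) (h1.trans (map_zero _).symm)
  have h3 := congrArg (eval ![0, 1]) h2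
  simp at h3

theorem Gen.x5_ne (hG : Gen D x) (h0 : D.a 0 ≠ 0) : x 5 ≠ 0 := by
  intro h
  have h1 := hG.indepK h0 ![0, 0, 0, 0, 1] (by
    rw [Fin.sum_univ_five]
    simp
    exact h) 4
  exact one_ne_zero h1

/-- the component in `U` of the generic point is in general position -/
theorem Gen.nd (hG : Gen D x) (h0 : D.a 0 ≠ 0) : ND D.pen.S (Cub.uu sK tK x) := by
  intro f h1 h2
  have hS : (mK D.pen.S *ᵥ Cub.uu sK tK x : Fin 6 → Ω) = _ :=
    Herm.S_mulVec ((D.map (algebraMap ℂ KK)).herm sK tK) (Cub.uu sK tK x)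
  rw [hS] at h2
  have hd : ((D.map (algebraMap ℂ KK)).herm sK tK).d = tK - sK ^ 2 := rfl
  rw [hd] at h2
  simp only [dotProduct, vK, Fin.sum_univ_six, Cub.uu] at h1 h2
  simp at h1 h2
  have k1 := hG.indepK h0 ![f 0 * tK - f 1 * sK, f 1 - f 0 * sK, -f 4, f 3, f 2] (by
    rw [Fin.sum_univ_five]
    simp
    have e1 : x ((0 : Fin 5).succ) = x 1 := rfl
    have e2 : x ((1 : Fin 5).succ) = x 2 := rfl
    have e3 : x ((2 : Fin 5).succ) = x 3 := rfl
    have e4 : x ((3 : Fin 5).succ) = x 4 := rfl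
    have e5 : x ((4 : Fin 5).succ) = x 5 := rfl
    linear_combination h1)
  have k10 : f 0 * tK - f 1 * sK = 0 := k1 0
  have k11 : f 1 - f 0 * sK = 0 := k1 1
  have k12 : -f 4 = 0 := k1 2
  have k13 : f 3 = 0 := k1 3
  have k14 : f 2 = 0 := k1 4
  have f4 : f 4 = 0 := neg_eq_zero.1 k12
  have f0 : f 0 = 0 := by
    have h3 : f 0 * (tK - sK ^ 2) = 0 := by linear_combination k10 + sK * k11
    exact (mul_eq_zero.1 h3).resolve_right dK_ne
  have f1 : f 1 = 0 := by rw [f0, zero_mul, sub_zero] at k11; exact k11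
  rw [f0, f1, k13, f4] at h2
  simp only [map_zero, zero_mul, add_zero, zero_add, neg_zero] at h2
  have f5 : f 5 = 0 := by
    have h3 : f 5 = 0 ∨ x 5 = 0 := by simpa using h2
    exact h3.resolve_right (hG.x5_ne h0)
  funext i
  fin_cases i
  · exact f0
  · exact f1
  · exact k14
  · exact k13
  · exact f4
  · exact f5

end Pool.Agent.GSX
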