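import Pool.Agent.GSX.SqP
import Pool.Agent.GSX.GenK

/-!
# GSX: the field of the base is quadratically closed in the function field

`Gen.sq_closed`, `Gen.nsq`: an element of `KK` which is not a square in `KK` is not a square in `Ω`;
`nsq_dX`: this applies to `t - s ^ 2`.
-/

set_option autoImplicit false

noncomputable section

namespace Pool.Agent.GSX

open MvPolynomial Matrix Pool.Agent.GSH

/-- The conditions on the cubic: `det A_0 ≠ det B_0`, `A_0 ≠ 0`, `B_0 ≠ 0`. -/
structure Cub.NonDeg (D : Cub ℂ) : Prop where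
  det : D.a 0 0 * D.a 0 2 - D.a 0 1 ^ 2 ≠ D.b 0 0 * D.b 0 2 - D.b 0 1 ^ 2
  a0 : D.a 0 ≠ 0
  b0 : D.b 0 ≠ 0

variable {D : Cub ℂ} {Ω : Type} [Field Ω] [Algebra ℂ Ω] [Algebra KK Ω] [IsScalarTower ℂ KK Ω]
  {x : Fin 6 → Ω}

/-- `m00 ≠ 0` -/
theorem Gen.mv0_ne (h : Gen D x) (hn : D.NonDeg) : D.mv x 0 ≠ 0 := h.m0_ne hn.a0

/-- **The field of the base is quadratically closed in the function field.** -/
theorem Gen.sq_closed (h : Gen D x) (hn : D.NonDeg) (hirr : Irreducible D.F) {δ : KK}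
    (hδ : IsSquare (algebraMap KK Ω δ)) : IsSquare δ := by
  have c : ∀ (a : Fin 6 → Fin 3 → ℂ) (i : Fin 3),
      coeff (Finsupp.single 0 1) (lin fun k => a k i) = a 0 i := fun a i => coeff_lin _ 0
  have hm := h.mv0_ne hn
  refine Sq.sq_closed (A := D.A) (B := D.B) D.A_hom D.B_hom rfl rfl ?_ ?_ ?_ hirr h.x0 h.ker h.top
    hm ?_ ?_ hδ
  · change coeff (Finsupp.single 0 1) (lin fun k => D.a k 0) *
      coeff (Finsupp.single 0 1) (lin fun k => D.a k 2) -
      coeff (Finsupp.single 0 1) (lin fun k => D.a k 1) ^ 2 ≠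
      coeff (Finsupp.single 0 1) (lin fun k => D.b k 0) *
      coeff (Finsupp.single 0 1) (lin fun k => D.b k 2) -
      coeff (Finsupp.single 0 1) (lin fun k => D.b k 1) ^ 2
    rw [c, c, c, c, c, c]
    exact hn.det
  · obtain ⟨k, hk⟩ : ∃ k, D.a 0 k ≠ 0 := by
      by_contra hc
      push Not at hc
      exact hn.a0 (funext hc)
    fin_cases k
    · refine ⟨0, 0, ?_⟩
      change coeff (Finsupp.single 0 1) (lin fun k => D.a k 0) ≠ 0
      rw [c]
      exact hk
    · refine ⟨0, 1, ?_⟩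
      change coeff (Finsupp.single 0 1) (lin fun k => D.a k 1) ≠ 0
      rw [c]
      exact hk
    · refine ⟨1, 1, ?_⟩
      change coeff (Finsupp.single 0 1) (lin fun k => D.a k 2) ≠ 0
      rw [c]
      exact hk
  · obtain ⟨k, hk⟩ : ∃ k, D.b 0 k ≠ 0 := by
      by_contra hc
      push Not at hc
      exact hn.b0 (funext hc)
    fin_cases k
    · refine ⟨0, 0, ?_⟩
      change coeff (Finsupp.single 0 1) (lin fun k => D.b k 0) ≠ 0
      rw [c]
      exact hk
    · refine ⟨0, 1, ?_⟩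
      change coeff (Finsupp.single 0 1) (lin fun k => D.b k 1) ≠ 0
      rw [c]
      exact hk
    · refine ⟨1, 1, ?_⟩
      change coeff (Finsupp.single 0 1) (lin fun k => D.b k 2) ≠ 0
      rw [c]
      exact hk
  · refine (eq_div_iff hm).mpr ?_
    rw [mul_comm]
    exact h.hs
  · refine (eq_div_iff hm).mpr ?_
    rw [mul_comm]
    exact h.ht

theorem Gen.nsq (h : Gen D x) (hn : D.NonDeg) (hirr : Irreducible D.F) {δ : KK}
    (hδ : ¬ IsSquare δ) : NSq Ω δ := by
  intro f hf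
  exact hδ (h.sq_closed hn hirr ⟨f, by rw [← hf, sq]⟩)

theorem not_isSquare_dX : ¬ IsSquare (tK - sK ^ 2) := by
  rintro ⟨w, hw⟩
  apply Sq.not_isSquare_disc
  refine ⟨algebraMap ℂ KK Complex.I * w, ?_⟩
  have hI : algebraMap ℂ KK Complex.I * algebraMap ℂ KK Complex.I = -1 := by
    rw [← map_mul, Complex.I_mul_I, map_neg, map_one]
  have h1 : algebraMap ℂ KK Complex.I * w * (algebraMap ℂ KK Complex.I * w) =
      (algebraMap ℂ KK Complex.I * algebraMap ℂ KK Complex.I) * (w * w) := by ring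
  rw [h1, hI, ← hw]
  change sK ^ 2 - tK = _
  ring

/-- the discriminant of the pencil is not a square in the function field -/
theorem Gen.nsq_dX (h : Gen D x) (hn : D.NonDeg) (hirr : Irreducible D.F) :
    NSq Ω (tK - sK ^ 2) := h.nsq hn hirr not_isSquare_dX

end Pool.Agent.GSX
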