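import Pool.Agent.GSX.GenX

/-!
# GSX: independence of all six coordinates over the field of the base

`indep6`: if `F` divides `∑ C_k(base) X_k`, `k = 0, …, 5`, then all `C_k` are zero, provided that `X0`
occurs in `A + B`. `Gen.indepK6`: `x 0, …, x 5` are linearly independent over `KK`.
-/

set_option autoImplicit false

noncomputable section

namespace Pool.Agent.GSX

open MvPolynomial Matrix Pool.Agent.GSH

/-- the point with `lam = 0` -/
private def pt (x : ℂ) (y : Fin 4 → ℂ) : Fin 6 → ℂ := ![x, y 0, y 1, y 2, y 3, 0]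

private theorem eval_pt_lin {f : S6} (hf : f.IsHomogeneous 1) (x : ℂ) (y : Fin 4 → ℂ) :
    eval (pt x y) f = coeff (Finsupp.single 0 1) f * x + eval (pt 0 y) f := by
  rw [eval_lin hf, eval_lin hf, Fin.sum_univ_six, Fin.sum_univ_six]
  simp [pt]
  ring

private theorem eval_pt_cub {A B : Matrix (Fin 2) (Fin 2) S6}
    (hA : ∀ i j, (A i j).IsHomogeneous 1) (hB : ∀ i j, (B i j).IsHomogeneous 1)
    (x : ℂ) (y : Fin 4 → ℂ) :
    eval (pt x y) (cubF A B) = phi0 A B y * x + eval (pt 0 y) (cubF A B) := by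
  unfold cubF phi0
  simp only [map_add, map_sub, map_mul, map_pow, eval_X, map_ofNat]
  rw [eval_pt_lin (hA 1 1) x y, eval_pt_lin (hA 0 1) x y, eval_pt_lin (hA 0 0) x y,
    eval_pt_lin (hB 1 1) x y, eval_pt_lin (hB 0 1) x y, eval_pt_lin (hB 0 0) x y]
  simp [pt]
  ring

private theorem eval_pt_base (A B : Matrix (Fin 2) (Fin 2) S6) (x : ℂ) (y : Fin 4 → ℂ)
    (k : Fin 3) : eval (pt x y) (base A B k) = base0 y k := by
  fin_cases k
  · simp [base, base0, pt]
  · simp [base, base0, pt]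
  · simp [base, base0, pt]

/-- the product of the values of a binary form at `π` and `π'` -/
private def res (g0 g1 g2 m0 m1 m2 : ℂ) : ℂ :=
  g2 ^ 2 * m0 ^ 2 + g0 ^ 2 * m2 ^ 2 + 4 * g1 ^ 2 * m0 * m2 + g0 * g2 * (4 * m1 ^ 2 - 2 * m0 * m2) -
    4 * g1 * g2 * m0 * m1 - 4 * g0 * g1 * m1 * m2

private theorem exists_zero_num (a0 a1 a2 b0 b1 b2 m0 m1 m2 : ℂ) (hm0 : m0 ≠ 0)
    (hres : res (a0 + b0) (a1 + b1) (a2 + b2) m0 m1 m2 ≠ 0) : ∃ p0 p1 q0 q1 : ℂ,
    p0 ^ 2 + q0 ^ 2 = m0 ∧ p0 * p1 + q0 * q1 = m1 ∧ p1 ^ 2 + q1 ^ 2 = m2 ∧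
    (a2 * p0 ^ 2 - 2 * a1 * (p0 * p1) + a0 * p1 ^ 2) -
      (b2 * q0 ^ 2 - 2 * b1 * (q0 * q1) + b0 * q1 ^ 2) = 0 := by
  have hI : Complex.I * Complex.I = -1 := Complex.I_mul_I
  obtain ⟨r', hr'⟩ : ∃ r', r' ^ 2 = m1 ^ 2 - m0 * m2 :=
    IsAlgClosed.exists_pow_nat_eq _ (by norm_num)
  obtain ⟨r, hrm⟩ : ∃ r, r * m0 = m1 + r' := ⟨(m1 + r') / m0, div_mul_cancel₀ _ hm0⟩
  obtain ⟨s, e1⟩ : ∃ s, s + r * m0 = 2 * m1 := ⟨2 * m1 - r * m0, by ring⟩
  have hrs : r * s = m2 := by
    have h1 : m0 * (r * s) = m0 * m2 := by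
      linear_combination (r * m0) * e1 - (r * m0 - m1 + r') * hrm - hr'
    exact mul_left_cancel₀ hm0 h1
  obtain ⟨G1, hG1⟩ : ∃ G1, G1 = (a2 + b2) - 2 * (a1 + b1) * r + (a0 + b0) * r ^ 2 := ⟨_, rfl⟩
  obtain ⟨G2, hG2⟩ : ∃ G2, G2 = (a2 + b2) * m0 ^ 2 - 2 * (a1 + b1) * (m0 * s) +
    (a0 + b0) * s ^ 2 := ⟨_, rfl⟩
  have hG : G1 * G2 = res (a0 + b0) (a1 + b1) (a2 + b2) m0 m1 m2 := by
    rw [hG1, hG2]
    unfold res
    linear_combination ((a0 + b0) ^ 2 * (r * s + m2) + 4 * (a1 + b1) ^ 2 * m0 -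
      2 * (a0 + b0) * (a2 + b2) * m0 - 4 * (a0 + b0) * (a1 + b1) * m1) * hrs +
      ((a0 + b0) * (a2 + b2) * (s + r * m0 + 2 * m1) - 2 * (a1 + b1) * (a2 + b2) * m0 -
      2 * (a0 + b0) * (a1 + b1) * (r * s)) * e1
  have hG1' : G1 ≠ 0 := by
    intro h
    exact hres (by rw [← hG, h, zero_mul])
  have hG2' : G2 ≠ 0 := by
    intro h
    exact hres (by rw [← hG, h, mul_zero])
  obtain ⟨L, hL⟩ : ∃ L, L = 2 * ((a2 - b2) * m0 - (a1 - b1) * (s + r * m0) +
    (a0 - b0) * (r * s)) := ⟨_, rfl⟩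
  obtain ⟨w, hw⟩ : ∃ w, w ^ 2 = L ^ 2 - 4 * G1 * G2 :=
    IsAlgClosed.exists_pow_nat_eq _ (by norm_num)
  obtain ⟨u, h1⟩ : ∃ u, 2 * G1 * u = -L + w :=
    ⟨(-L + w) / (2 * G1), mul_div_cancel₀ _ (mul_ne_zero two_ne_zero hG1')⟩
  have hu1 : G1 * u ^ 2 + L * u + G2 = 0 := by
    have h2 : 4 * G1 * (G1 * u ^ 2 + L * u + G2) = 0 := by
      linear_combination (2 * G1 * u + L + w) * h1 + hw
    exact (mul_eq_zero.1 h2).resolve_left (mul_ne_zero (by norm_num) hG1')
  have hu0 : u ≠ 0 := by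
    intro h
    rw [h] at hu1
    apply hG2'
    linear_combination hu1
  obtain ⟨z, hz⟩ : ∃ z, z ^ 2 = u := IsAlgClosed.exists_pow_nat_eq _ (by norm_num)
  have hz0 : z ≠ 0 := by
    rintro rfl
    exact hu0 (by rw [← hz]; ring)
  obtain ⟨zi, hzz⟩ : ∃ zi, z * zi = 1 := ⟨z⁻¹, mul_inv_cancel₀ hz0⟩
  rw [← hz, hG1, hG2, hL] at hu1
  refine ⟨(z + m0 * zi) / 2, (z * r + s * zi) / 2, Complex.I * (m0 * zi - z) / 2,
    Complex.I * (s * zi - z * r) / 2, ?_, ?_, ?_, ?_⟩
  · linear_combination (1 / 4 : ℂ) * (m0 * zi - z) ^ 2 * hI + m0 * hzz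
  · linear_combination (1 / 4 : ℂ) * (m0 * zi - z) * (s * zi - z * r) * hI +
      (s + r * m0) / 2 * hzz + (1 / 2 : ℂ) * e1
  · linear_combination (1 / 4 : ℂ) * (s * zi - z * r) ^ 2 * hI + r * s * hzz + hrs
  · linear_combination (-(1 / 4 : ℂ)) * (b2 * (m0 * zi - z) ^ 2 -
      2 * b1 * (m0 * zi - z) * (s * zi - z * r) + b0 * (s * zi - z * r) ^ 2) * hI +
      (1 / 4 : ℂ) * zi ^ 2 * hu1 - (1 / 4 : ℂ) * (((a2 + b2) - 2 * (a1 + b1) * r +
      (a0 + b0) * r ^ 2) * z ^ 2 * (1 + z * zi) + 2 * ((a2 - b2) * m0 -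
      (a1 - b1) * (s + r * m0) + (a0 - b0) * (r * s)) * z * zi) * hzz

/-- a point of `ℂ⁴` over a general `m` where `phi0` vanishes -/
private theorem exists_zero (A B : Matrix (Fin 2) (Fin 2) S6) (m : Fin 3 → ℂ) (hm0 : m 0 ≠ 0)
    (hres : res (coeff (Finsupp.single 0 1) (A 0 0) + coeff (Finsupp.single 0 1) (B 0 0))
      (coeff (Finsupp.single 0 1) (A 0 1) + coeff (Finsupp.single 0 1) (B 0 1))
      (coeff (Finsupp.single 0 1) (A 1 1) + coeff (Finsupp.single 0 1) (B 1 1))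
      (m 0) (m 1) (m 2) ≠ 0) : ∃ y : Fin 4 → ℂ, base0 y = m ∧ phi0 A B y = 0 := by
  obtain ⟨p0, p1, q0, q1, h0, h1, h2, h3⟩ := exists_zero_num _ _ _ _ _ _ _ _ _ hm0 hres
  refine ⟨![p0, p1, q0, q1], ?_, h3⟩
  funext k
  fin_cases k
  · exact h0
  · exact h1
  · exact h2

/-- the polynomial whose value is `res` -/
private def resP (g0 g1 g2 : ℂ) : MvPolynomial (Fin 3) ℂ :=
  C (g2 ^ 2) * X 0 ^ 2 + C (g0 ^ 2) * X 2 ^ 2 + C (4 * g1 ^ 2) * X 0 * X 2 +
    C (g0 * g2) * (4 * X 1 ^ 2 - 2 * X 0 * X 2) - C (4 * g1 * g2) * X 0 * X 1 -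
    C (4 * g0 * g1) * X 1 * X 2

private theorem eval_resP (g0 g1 g2 : ℂ) (m : Fin 3 → ℂ) :
    eval m (resP g0 g1 g2) = res g0 g1 g2 (m 0) (m 1) (m 2) := by
  unfold resP res
  simp only [map_add, map_sub, map_mul, map_pow, eval_C, eval_X, map_ofNat]

private theorem resP_ne {g0 g1 g2 : ℂ} (h : ¬ (g0 = 0 ∧ g1 = 0 ∧ g2 = 0)) :
    resP g0 g1 g2 ≠ 0 := by
  intro h0
  have e : ∀ a b c : ℂ, res g0 g1 g2 a b c = 0 := by
    intro a b c
    have := eval_resP g0 g1 g2 ![a, b, c]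
    rw [h0, map_zero] at this
    exact this.symm
  have e1 := e 1 0 0
  have e2 := e 0 0 1
  have e3 := e 1 0 1
  unfold res at e1 e2 e3
  have h2 : g2 = 0 := by
    have : g2 ^ 2 = 0 := by linear_combination e1
    exact pow_eq_zero_iff (two_ne_zero) |>.mp this
  have h1 : g0 = 0 := by
    have : g0 ^ 2 = 0 := by linear_combination e2
    exact pow_eq_zero_iff (two_ne_zero) |>.mp this
  rw [h2, h1] at e3
  have h3 : g1 = 0 := by
    have : g1 ^ 2 = 0 := by linear_combination (1 / 4 : ℂ) * e3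
    exact pow_eq_zero_iff (two_ne_zero) |>.mp this
  exact h ⟨h1, h3, h2⟩

/-- the polynomial whose value is `phi0` -/
private def phiP (A B : Matrix (Fin 2) (Fin 2) S6) : MvPolynomial (Fin 4) ℂ :=
  (C (coeff (Finsupp.single 0 1) (A 1 1)) * X 0 ^ 2 -
      2 * C (coeff (Finsupp.single 0 1) (A 0 1)) * (X 0 * X 1) +
      C (coeff (Finsupp.single 0 1) (A 0 0)) * X 1 ^ 2) -
    (C (coeff (Finsupp.single 0 1) (B 1 1)) * X 2 ^ 2 -
      2 * C (coeff (Finsupp.single 0 1) (B 0 1)) * (X 2 * X 3) +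
      C (coeff (Finsupp.single 0 1) (B 0 0)) * X 3 ^ 2)

private theorem eval_phiP (A B : Matrix (Fin 2) (Fin 2) S6) (y : Fin 4 → ℂ) :
    eval y (phiP A B) = phi0 A B y := by
  unfold phiP phi0
  simp only [map_add, map_sub, map_mul, map_pow, eval_C, eval_X, map_ofNat]

/-- the coordinates at `lam = 0` as polynomials in `y`, `X0 = x` -/
private def ptP (x : ℂ) : Fin 6 → MvPolynomial (Fin 4) ℂ := ![C x, X 0, X 1, X 2, X 3, 0]

private theorem eval_ptP (x : ℂ) (G : S6) (y : Fin 4 → ℂ) :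
    eval y (aeval (ptP x) G) = eval (pt x y) G := by
  have h : ((aeval y : MvPolynomial (Fin 4) ℂ →ₐ[ℂ] ℂ).comp (aeval (ptP x))) = aeval (pt x y) := by
    refine MvPolynomial.algHom_ext fun i => ?_
    rw [AlgHom.comp_apply, aeval_X, aeval_X]
    fin_cases i
    · change aeval y (C x) = x
      rw [aeval_C]
      rfl
    · change aeval y (X 0) = y 0
      rw [aeval_X]
    · change aeval y (X 1) = y 1
      rw [aeval_X]
    · change aeval y (X 2) = y 2
      rw [aeval_X]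
    · change aeval y (X 3) = y 3
      rw [aeval_X]
    · change aeval y 0 = 0
      rw [map_zero]
  have h1 := DFunLike.congr_fun h G
  rw [AlgHom.comp_apply, aeval_eq_eval, aeval_eq_eval] at h1
  exact h1

/-- the coordinates at `lam = 0`, as polynomials in `X0`, at the point `y` -/
private def ptX (y : Fin 4 → ℂ) : Fin 6 → Polynomial ℂ :=
  ![Polynomial.X, Polynomial.C (y 0), Polynomial.C (y 1), Polynomial.C (y 2), Polynomial.C (y 3), 0]

private theorem eval_ptX (y : Fin 4 → ℂ) (G : S6) (x : ℂ) :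
    Polynomial.eval x (aeval (ptX y) G) = eval (pt x y) G := by
  have h : ((Polynomial.aeval x : Polynomial ℂ →ₐ[ℂ] ℂ).comp (aeval (ptX y))) = aeval (pt x y) := by
    refine MvPolynomial.algHom_ext fun i => ?_
    rw [AlgHom.comp_apply, aeval_X, aeval_X]
    fin_cases i <;> simp [ptX, pt]
  have h1 := DFunLike.congr_fun h G
  rw [AlgHom.comp_apply, aeval_eq_eval, Polynomial.coe_aeval_eq_eval] at h1
  exact h1

/-- All six coordinates are independent over the polynomials in the base. -/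
theorem indep6 {A B : Matrix (Fin 2) (Fin 2) S6} (hA : ∀ i j, (A i j).IsHomogeneous 1)
    (hB : ∀ i j, (B i j).IsHomogeneous 1) (hAs : A 1 0 = A 0 1) (hBs : B 1 0 = B 0 1)
    (hAB : ∃ i j, coeff (Finsupp.single 0 1) (A i j) + coeff (Finsupp.single 0 1) (B i j) ≠ 0)
    (c : Fin 6 → MvPolynomial (Fin 3) ℂ)
    (h : cubF A B ∣ ∑ k, aeval (base A B) (c k) * X k) : ∀ k, c k = 0 := by
  have h0 : ∃ i j, coeff (Finsupp.single 0 1) (A i j) ≠ 0 ∨
      coeff (Finsupp.single 0 1) (B i j) ≠ 0 := by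
    obtain ⟨i, j, hij⟩ := hAB
    refine ⟨i, j, ?_⟩
    by_contra hc
    push Not at hc
    exact hij (by rw [hc.1, hc.2, add_zero])
  have hAB' : ¬ (coeff (Finsupp.single 0 1) (A 0 0) + coeff (Finsupp.single 0 1) (B 0 0) = 0 ∧
      coeff (Finsupp.single 0 1) (A 0 1) + coeff (Finsupp.single 0 1) (B 0 1) = 0 ∧
      coeff (Finsupp.single 0 1) (A 1 1) + coeff (Finsupp.single 0 1) (B 1 1) = 0) := by
    rintro ⟨h1, h2, h3⟩
    obtain ⟨i, j, hij⟩ := hAB
    apply hij
    fin_cases i <;> fin_cases j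
    · exact h1
    · exact h2
    · change coeff (Finsupp.single 0 1) (A 1 0) + coeff (Finsupp.single 0 1) (B 1 0) = 0
      rw [hAs, hBs]
      exact h2
    · exact h3
  have hphi : phiP A B ≠ 0 := by
    intro h1
    have h2 : ∀ y, phi0 A B y = 0 := fun y => by rw [← eval_phiP, h1, map_zero]
    obtain ⟨m, hm0, hres⟩ : ∃ m : Fin 3 → ℂ, m 0 ≠ 0 ∧ eval m (resP
        (coeff (Finsupp.single 0 1) (A 0 0) + coeff (Finsupp.single 0 1) (B 0 0))
        (coeff (Finsupp.single 0 1) (A 0 1) + coeff (Finsupp.single 0 1) (B 0 1))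
        (coeff (Finsupp.single 0 1) (A 1 1) + coeff (Finsupp.single 0 1) (B 1 1))) ≠ 0 := by
      by_contra hc
      push Not at hc
      have h3 := mul_ne_zero (X_ne_zero (0 : Fin 3)) (resP_ne hAB')
      apply h3
      refine MvPolynomial.funext fun m => ?_
      rw [map_mul, map_zero, eval_X]
      by_cases hm : m 0 = 0
      · rw [hm, zero_mul]
      · rw [hc m hm, mul_zero]
    have e1 := h2 ![1, 0, 0, 0]
    have e2 := h2 ![0, 1, 0, 0]
    have e3 := h2 ![1, 1, 0, 0]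
    have e4 := h2 ![0, 0, 1, 0]
    have e5 := h2 ![0, 0, 0, 1]
    have e6 := h2 ![0, 0, 1, 1]
    simp [phi0] at e1 e2 e3 e4 e5 e6
    rw [e1, e2] at e3
    rw [e4, e5] at e6
    apply hAB'
    refine ⟨by rw [e2, e5, add_zero], ?_, by rw [e1, e4, add_zero]⟩
    have e7 : coeff (Finsupp.single 0 1) (A 0 1) = 0 := by simpa using e3
    have e8 : coeff (Finsupp.single 0 1) (B 0 1) = 0 := by simpa using e6
    rw [e7, e8, add_zero]
  have haev : ∀ (C' : MvPolynomial (Fin 3) ℂ) (x : ℂ) (y : Fin 4 → ℂ),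
      eval (pt x y) (aeval (base A B) C') = eval (base0 y) C' := by
    intro C' x y
    have h1 : (fun i => eval (pt x y) (base A B i)) = base0 y :=
      _root_.funext fun i => eval_pt_base A B x y i
    rw [← h1, ← aeval_eq_eval, ← aeval_eq_eval, comp_aeval_apply]
  obtain ⟨H, hH⟩ := h
  -- the value at a point of `lam = 0`
  have hval : ∀ x y, eval (base0 y) (c 0) * x + (eval (base0 y) (c 1) * y 0 +
      eval (base0 y) (c 2) * y 1 + eval (base0 y) (c 3) * y 2 + eval (base0 y) (c 4) * y 3) =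
      (phi0 A B y * x + eval (pt 0 y) (cubF A B)) * eval (pt x y) H := by
    intro x y
    have h1 := congrArg (eval (pt x y)) hH
    rw [map_mul, eval_pt_cub hA hB, map_sum, Fin.sum_univ_six] at h1
    simp only [map_mul, haev, eval_X] at h1
    rw [← h1]
    change _ = eval (base0 y) (c 0) * x + eval (base0 y) (c 1) * y 0 +
      eval (base0 y) (c 2) * y 1 + eval (base0 y) (c 3) * y 2 + eval (base0 y) (c 4) * y 3 +
      eval (base0 y) (c 5) * 0
    ring
  -- `H` does not depend on `X0`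
  have hconst : ∀ y, phi0 A B y ≠ 0 → eval (pt 1 y) H = eval (pt 0 y) H := by
    intro y hy
    set P := aeval (ptX y) H with hP
    have h1 : Polynomial.C (eval (base0 y) (c 0)) * Polynomial.X +
        Polynomial.C (eval (base0 y) (c 1) * y 0 + eval (base0 y) (c 2) * y 1 +
          eval (base0 y) (c 3) * y 2 + eval (base0 y) (c 4) * y 3) =
        (Polynomial.C (phi0 A B y) * Polynomial.X +
          Polynomial.C (eval (pt 0 y) (cubF A B))) * P := by
      refine Polynomial.funext fun x => ?_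
      rw [Polynomial.eval_mul, hP, eval_ptX]
      simp only [Polynomial.eval_add, Polynomial.eval_mul, Polynomial.eval_C, Polynomial.eval_X]
      exact hval x y
    have h2 : P.natDegree = 0 := by
      by_cases hP0 : P = 0
      · rw [hP0, Polynomial.natDegree_zero]
      · have h3 := congrArg Polynomial.natDegree h1
        have hne : (Polynomial.C (phi0 A B y) * Polynomial.X +
            Polynomial.C (eval (pt 0 y) (cubF A B)) : Polynomial ℂ) ≠ 0 := by
          intro h4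
          have h5 := Polynomial.natDegree_linear (b := eval (pt 0 y) (cubF A B)) hy
          rw [h4, Polynomial.natDegree_zero] at h5
          exact zero_ne_one h5
        rw [Polynomial.natDegree_mul hne hP0, Polynomial.natDegree_linear hy] at h3
        have h4 := Polynomial.natDegree_linear_le (a := eval (base0 y) (c 0))
          (b := eval (base0 y) (c 1) * y 0 + eval (base0 y) (c 2) * y 1 +
          eval (base0 y) (c 3) * y 2 + eval (base0 y) (c 4) * y 3)
        omega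
    rw [← eval_ptX, ← eval_ptX, ← hP, Polynomial.eq_C_of_natDegree_eq_zero h2,
      Polynomial.eval_C, Polynomial.eval_C]
  have hconst' : ∀ y, eval (pt 1 y) H = eval (pt 0 y) H := by
    have h1 : (aeval (ptP 1) H - aeval (ptP 0) H) * phiP A B = 0 := by
      refine MvPolynomial.funext fun y => ?_
      rw [map_mul, map_sub, eval_ptP, eval_ptP, eval_phiP, map_zero]
      by_cases hy : phi0 A B y = 0
      · rw [hy, mul_zero]
      · rw [hconst y hy, sub_self, zero_mul]
    have h2 := (mul_eq_zero.1 h1).resolve_right hphi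
    intro y
    have h3 := congrArg (eval y) h2
    rw [map_sub, eval_ptP, eval_ptP, map_zero] at h3
    exact sub_eq_zero.1 h3
  have hc0 : c 0 = 0 := by
    have h1 : c 0 * (X 0 * resP
        (coeff (Finsupp.single 0 1) (A 0 0) + coeff (Finsupp.single 0 1) (B 0 0))
        (coeff (Finsupp.single 0 1) (A 0 1) + coeff (Finsupp.single 0 1) (B 0 1))
        (coeff (Finsupp.single 0 1) (A 1 1) + coeff (Finsupp.single 0 1) (B 1 1))) = 0 := by
      refine MvPolynomial.funext fun m => ?_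
      rw [map_mul, map_mul, map_zero, eval_X, eval_resP]
      by_cases hm : m 0 = 0
      · rw [hm]; ring
      · by_cases hr : res
            (coeff (Finsupp.single 0 1) (A 0 0) + coeff (Finsupp.single 0 1) (B 0 0))
            (coeff (Finsupp.single 0 1) (A 0 1) + coeff (Finsupp.single 0 1) (B 0 1))
            (coeff (Finsupp.single 0 1) (A 1 1) + coeff (Finsupp.single 0 1) (B 1 1))
            (m 0) (m 1) (m 2) = 0
        · rw [hr]; ring
        · obtain ⟨y, hy, hphiy⟩ := exists_zero A B m hm hr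
          have e1 := hval 1 y
          have e0 := hval 0 y
          rw [hphiy, hconst' y] at e1
          rw [hphiy] at e0
          rw [hy] at e0 e1
          have e2 : eval m (c 0) = 0 := by linear_combination e1 - e0
          rw [e2, zero_mul]
    exact (mul_eq_zero.1 h1).resolve_right (mul_ne_zero (X_ne_zero 0) (resP_ne hAB'))
  have h5 := indep hA hB hAs hBs h0 (fun k => c k.succ) (by
    have h6 : ∑ k : Fin 5, aeval (base A B) (c k.succ) * lc k = ∑ k, aeval (base A B) (c k) * X k := by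
      rw [Fin.sum_univ_succ (n := 5), hc0, map_zero, zero_mul, zero_add]
      refine Finset.sum_congr rfl fun k _ => ?_
      congr 1
      fin_cases k <;> rfl
    rw [h6]
    exact ⟨H, hH⟩)
  intro k
  refine Fin.cases hc0 (fun j => h5 j) k

variable {D : Cub ℂ} {Ω : Type} [Field Ω] [Algebra ℂ Ω] [Algebra KK Ω]
  [IsScalarTower ℂ KK Ω] {x : Fin 6 → Ω}

/-- `x 0, …, x 5` are linearly independent over `KK` -/
theorem Gen.indepK6 (hG : Gen D x) (h0 : D.a 0 + D.b 0 ≠ 0) (c : Fin 6 → KK)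
    (h : ∑ k : Fin 6, algebraMap KK Ω (c k) * x k = 0) : ∀ k, c k = 0 := by
  have hAB : ∃ i j, coeff (Finsupp.single 0 1) (D.A i j) + coeff (Finsupp.single 0 1) (D.B i j) ≠
      0 := by
    by_contra hcon
    push Not at hcon
    apply h0
    have h1 := hcon 0 0
    have h2 := hcon 0 1
    have h3 := hcon 1 1
    rw [D.A00, D.B00, coeff_lin, coeff_lin] at h1
    rw [D.A01, D.B01, coeff_lin, coeff_lin] at h2
    rw [D.A11, D.B11, coeff_lin, coeff_lin] at h3
    funext i
    fin_cases i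
    · exact h1
    · exact h2
    · exact h3
  obtain ⟨b, hb⟩ := IsLocalization.exist_integer_multiples_of_finite
    (nonZeroDivisors (MvPolynomial (Fin 2) ℂ)) c
  choose n hn using hb
  have hb0 : algebraMap (MvPolynomial (Fin 2) ℂ) KK b ≠ 0 :=
    IsFractionRing.to_map_ne_zero_of_mem_nonZeroDivisors b.2
  have hn' : ∀ k, algebraMap (MvPolynomial (Fin 2) ℂ) KK (n k) =
      algebraMap (MvPolynomial (Fin 2) ℂ) KK b * c k := by
    intro k
    rw [hn k, Algebra.smul_def]
  set N := Finset.univ.sup fun k => (n k).totalDegree with hN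
  have hNk : ∀ k, (n k).totalDegree ≤ N := fun k =>
    Finset.le_sup (f := fun k => (n k).totalDegree) (Finset.mem_univ k)
  choose H hH1 hH2 using fun k => hom3 (n k) N (hNk k)
  have hm : (fun k => D.mv x k) = ![D.mv x 0, D.mv x 0 * algebraMap KK Ω sK,
      D.mv x 0 * algebraMap KK Ω tK] := by
    funext k
    fin_cases k
    · rfl
    · exact hG.hs.symm
    · exact hG.ht.symm
  have h1 : aeval x (∑ k, aeval (base D.A D.B) (H k) * X k) = 0 := by
    rw [map_sum]
    have h2 : ∀ k, aeval x (aeval (base D.A D.B) (H k) * X k) =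
        D.mv x 0 ^ N * algebraMap KK Ω (algebraMap (MvPolynomial (Fin 2) ℂ) KK b) *
          (algebraMap KK Ω (c k) * x k) := by
      intro k
      have h3 : aeval x (aeval (base D.A D.B) (H k)) = aeval (fun k => D.mv x k) (H k) := by
        rw [comp_aeval_apply]
        rfl
      rw [map_mul, h3, aeval_X, hm, hH2, ← algebraMap_poly, hn', map_mul]
      ring
    rw [Finset.sum_congr rfl fun k _ => h2 k, ← Finset.mul_sum, h, mul_zero]
  have h2 : (∑ k, aeval (base D.A D.B) (H k) * X k).IsHomogeneous (2 * N + 1) := by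
    refine IsHomogeneous.sum _ _ _ fun k _ => ?_
    exact IsHomogeneous.mul ((hH1 k).aeval _ (base_hom D)) (isHomogeneous_X _ _)
  have h3 := indep6 D.A_hom D.B_hom (D.A10.trans D.A01.symm) (D.B10.trans D.B01.symm)
    hAB H ((hG.ker _ _ h2).1 h1)
  intro k
  have h4 := hH2 k (MvPolynomial (Fin 2) ℂ) 1 (X 0) (X 1)
  have h5 : (![X 0, X 1] : Fin 2 → MvPolynomial (Fin 2) ℂ) = X := by
    funext i
    fin_cases i <;> rfl
  rw [h3 k, map_zero, one_pow, one_mul, h5, aeval_X_left_apply] at h4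
  have h6 := hn' k
  rw [← h4, map_zero] at h6
  exact (mul_eq_zero.1 h6.symm).resolve_left hb0

end Pool.Agent.GSX
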