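import Pool.Agent.GSX.Cub2
import Pool.Agent.GSX.Indep6
import Pool.Agent.GSX.GSq

/-!
# GSX: the generic point and the node pencil

`Cub.pen2`: the node pencil of the cubic over `KK`, `Cub.D2` its discriminant.
`Gen.nd2`: general position. `Gen.top_of2`: rationality of the point from its component in `U`.
`Gen.xi2_ne`: the component in `L` does not vanish. `Gen.partX2`: everything together.
-/

set_option autoImplicit false

noncomputable section

namespace Pool.Agent.GSX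

open MvPolynomial Matrix Pool.Agent.GSH

/-- the node pencil of the cubic over `KK` -/
def Cub.pen2 (D : Cub ℂ) : Pen KK := ((D.map (algebraMap ℂ KK)).herm2 sK tK).pen

/-- its discriminant -/
def Cub.D2 (D : Cub ℂ) : KK := (D.map (algebraMap ℂ KK)).d2 sK tK

/-! ### The component in `L` -/

section

variable {K Ω : Type} [Field K] [Field Ω] [Algebra K Ω]

/-- the value of a linear form at `x` -/
def ev (x : Fin 6 → Ω) : (Fin 6 → K) →ₗ[K] Ω where
  toFun a := ∑ k, algebraMap K Ω (a k) * x k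
  map_add' a b := by
    rw [← Finset.sum_add_distrib]
    refine Finset.sum_congr rfl fun k _ => ?_
    rw [Pi.add_apply, map_add, add_mul]
  map_smul' c a := by
    rw [RingHom.id_apply, Finset.smul_sum]
    refine Finset.sum_congr rfl fun k _ => ?_
    rw [Pi.smul_apply, smul_eq_mul, map_mul, mul_assoc, ← Algebra.smul_def]

lemma ev_apply (x : Fin 6 → Ω) (a : Fin 6 → K) : ev x a = ∑ k, algebraMap K Ω (a k) * x k := rfl

lemma ev_smul (x : Fin 6 → Ω) (c : K) (a : Fin 6 → K) : ev x (c • a) = algebraMap K Ω c * ev x a := by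
  rw [map_smul, Algebra.smul_def]

namespace Cub

variable (D : Cub K) (s t : K)

/-- entries of the pencil -/
def al2 (j : Fin 2) : K :=
  D.c s t 0 0 * D.g s t (D.m s t j) 4 - D.c s t 0 1 * D.g s t (D.m s t j) 3

/-- entries of the pencil -/
def be2 (j : Fin 2) : K :=
  D.c s t 0 1 * D.g s t (D.m s t j) 4 - D.c s t 0 2 * D.g s t (D.m s t j) 3

/-- entries of the pencil -/
def ga2 (j : Fin 2) : K := t * D.g s t (D.m s t j) 2 + s * D.g s t (D.m s t j) 1

/-- entries of the pencil -/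
def de2 (j : Fin 2) : K := -(s * D.g s t (D.m s t j) 2) - D.g s t (D.m s t j) 1

/-- the linear form of the component in `L` of the generic point (real part) -/
def xiL : Fin 6 → K :=
  (4 * (t - s ^ 2) ^ 2 * D.c s t 0 0 * D.d2 s t) • (D.c s t 0 2 • (fun k => D.c s t k 0) -
    (2 * D.c s t 0 1) • (fun k => D.c s t k 1) + D.c s t 0 0 • fun k => D.c s t k 2) +
  (2 * (t - s ^ 2)) • (-(D.c s t 0 2 * D.al2 s t 0 + D.c s t 0 0 * D.be2 s t 1) •
      (![0, 0, 0, D.c s t 0 0, D.c s t 0 1, 0] : Fin 6 → K) -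
    (D.c s t 0 0 * D.be2 s t 0) • (![0, 0, 0, -D.c s t 0 1, -D.c s t 0 2, 0] : Fin 6 → K) +
    D.al2 s t 1 • (D.c s t 0 0 • (![0, 0, 0, -D.c s t 0 1, -D.c s t 0 2, 0] : Fin 6 → K) +
      (2 * D.c s t 0 1) • (![0, 0, 0, D.c s t 0 0, D.c s t 0 1, 0] : Fin 6 → K))) +
  (D.al2 s t 0 * D.be2 s t 1 - D.be2 s t 0 * D.al2 s t 1) • (![0, 0, 0, 0, 0, 1] : Fin 6 → K) +
  D.d2 s t • ((2 * (t - s ^ 2)) • ((D.c s t 0 2 * D.ga2 s t 0 + D.c s t 0 0 * D.de2 s t 1) •
      (![0, -t, s, 0, 0, 0] : Fin 6 → K) +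
    (D.c s t 0 0 * D.de2 s t 0) • (![0, -s, 1, 0, 0, 0] : Fin 6 → K) -
    D.ga2 s t 1 • (D.c s t 0 0 • (![0, -s, 1, 0, 0, 0] : Fin 6 → K) +
      (2 * D.c s t 0 1) • (![0, -t, s, 0, 0, 0] : Fin 6 → K))) +
    (D.ga2 s t 0 * D.de2 s t 1 - D.de2 s t 0 * D.ga2 s t 1) • (![0, 0, 0, 0, 0, 1] : Fin 6 → K))

theorem xiL_zero : D.xiL s t 0 = -(8 * (t - s ^ 2) ^ 3 * D.c s t 0 0 * D.d2 s t ^ 2) := by
  have h := D.det_c s t
  simp only [xiL, Pi.add_apply, Pi.sub_apply, Pi.smul_apply, smul_eq_mul, Matrix.cons_val_zero]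
  linear_combination 8 * (t - s ^ 2) ^ 2 * D.c s t 0 0 * D.d2 s t * h

variable {D s t} {x : Fin 6 → Ω} {μ : Ω}

theorem Pt.crR2 [CharZero K] (h : Pt D s t x μ) :
    bl ((D.herm2 s t).crR 2) (D.uu2 s t x) (D.uu2 s t x) = x 5 * ev x (D.xiL s t) := by
  have e00 := h.e00
  have e01 := h.e01
  have e11 := h.e11
  have h2 : algebraMap K Ω 2 = 2 := map_ofNat _ 2
  have h4 : algebraMap K Ω 4 = 4 := map_ofNat _ 4
  have hD := congrArg (algebraMap K Ω) (D.det_c s t)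
  simp only [map_sub, map_mul, map_pow] at hD
  have k2 := (D.herm2 s t).bl_crR 2 (D.uu2 s t x)
  have e5 : (2 : Fin 3) + 1 = 0 := rfl
  have e6 : (2 : Fin 3) + 2 = 1 := rfl
  rw [e5, e6] at k2
  rw [k2]
  have v0 : ev x (fun k => D.c s t k 0) = ∑ k, algebraMap K Ω (D.c s t k 0) * x k := rfl
  have v1 : ev x (fun k => D.c s t k 1) = ∑ k, algebraMap K Ω (D.c s t k 1) * x k := rfl
  have v2 : ev x (fun k => D.c s t k 2) = ∑ k, algebraMap K Ω (D.c s t k 2) * x k := rfl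
  have w0 : ev x (![0, 0, 0, -D.c s t 0 1, -D.c s t 0 2, 0] : Fin 6 → K) =
      -(algebraMap K Ω (D.c s t 0 1) * x 3) - algebraMap K Ω (D.c s t 0 2) * x 4 := by
    rw [ev_apply, Fin.sum_univ_six]
    simp
    ring
  have w1 : ev x (![0, 0, 0, D.c s t 0 0, D.c s t 0 1, 0] : Fin 6 → K) =
      algebraMap K Ω (D.c s t 0 0) * x 3 + algebraMap K Ω (D.c s t 0 1) * x 4 := by
    rw [ev_apply, Fin.sum_univ_six]
    simp
  have w3 : ev x (![0, -s, 1, 0, 0, 0] : Fin 6 → K) = -(algebraMap K Ω s * x 1) + x 2 := by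
    rw [ev_apply, Fin.sum_univ_six]
    simp
  have w4 : ev x (![0, -t, s, 0, 0, 0] : Fin 6 → K) =
      -(algebraMap K Ω t * x 1) + algebraMap K Ω s * x 2 := by
    rw [ev_apply, Fin.sum_univ_six]
    simp
  have w5 : ev x (![0, 0, 0, 0, 0, 1] : Fin 6 → K) = x 5 := by
    rw [ev_apply, Fin.sum_univ_six]
    simp
  have m00 : D.m s t 0 0 = -(2 * D.c s t 0 1) := rfl
  have m01 : D.m s t 0 1 = D.c s t 0 0 := rfl
  have m02 : D.m s t 0 2 = 0 := rfl
  have m10 : D.m s t 1 0 = -D.c s t 0 2 := rfl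
  have m11 : D.m s t 1 1 = 0 := rfl
  have m12 : D.m s t 1 2 = D.c s t 0 0 := rfl
  set dl := algebraMap K Ω t - algebraMap K Ω s ^ 2 with hdl
  have lE00 : (Herm.lv ((D.herm2 s t).E 0 0) (D.uu2 s t x) : Ω) = -(2 * dl *
      algebraMap K Ω (D.c s t 0 0) * (D.uu2 s t x 1)) + algebraMap K Ω (D.al2 s t 0) * x 5 := by
    simp only [Herm.lv, dotProduct, vK, Fin.sum_univ_six, Herm.E, herm2, hp2, hq2, al2, m00, m01, m02,
      uu2, hdl]
    simp [h2]
  have lE01 : (Herm.lv ((D.herm2 s t).E 0 1) (D.uu2 s t x) : Ω) = -(2 * dl *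
      (algebraMap K Ω (D.c s t 0 0) * (D.uu2 s t x 0) +
        2 * algebraMap K Ω (D.c s t 0 1) * (D.uu2 s t x 1))) +
      algebraMap K Ω (D.be2 s t 0) * x 5 := by
    simp only [Herm.lv, dotProduct, vK, Fin.sum_univ_six, Herm.E, herm2, hp2, hq2, be2, m00, m01, m02,
      uu2, hdl]
    simp [h2]
    ring
  have lE10 : (Herm.lv ((D.herm2 s t).E 1 0) (D.uu2 s t x) : Ω) = 2 * dl *
      algebraMap K Ω (D.c s t 0 0) * (D.uu2 s t x 0) + algebraMap K Ω (D.al2 s t 1) * x 5 := by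
    simp only [Herm.lv, dotProduct, vK, Fin.sum_univ_six, Herm.E, herm2, hp2, hq2, al2, m10, m11, m12,
      uu2, hdl]
    simp [h2]
  have lE11 : (Herm.lv ((D.herm2 s t).E 1 1) (D.uu2 s t x) : Ω) = -(2 * dl *
      algebraMap K Ω (D.c s t 0 2) * (D.uu2 s t x 1)) + algebraMap K Ω (D.be2 s t 1) * x 5 := by
    simp only [Herm.lv, dotProduct, vK, Fin.sum_univ_six, Herm.E, herm2, hp2, hq2, be2, m10, m11, m12,
      uu2, hdl]
    simp [h2]
  have lF00 : (Herm.lv ((D.herm2 s t).F 0 0) (D.uu2 s t x) : Ω) = 2 * dl *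
      algebraMap K Ω (D.c s t 0 0) * (D.uu2 s t x 4) + algebraMap K Ω (D.ga2 s t 0) * x 5 := by
    simp only [Herm.lv, dotProduct, vK, Fin.sum_univ_six, Herm.F, herm2, hp2, hq2, ga2, m00, m01, m02,
      uu2, hdl]
    simp [h2]
    ring
  have lF01 : (Herm.lv ((D.herm2 s t).F 0 1) (D.uu2 s t x) : Ω) = 2 * dl *
      (algebraMap K Ω (D.c s t 0 0) * (D.uu2 s t x 3) +
        2 * algebraMap K Ω (D.c s t 0 1) * (D.uu2 s t x 4)) +
      algebraMap K Ω (D.de2 s t 0) * x 5 := by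
    simp only [Herm.lv, dotProduct, vK, Fin.sum_univ_six, Herm.F, herm2, hp2, hq2, de2, m00, m01, m02,
      uu2, hdl]
    simp [h2]
    ring
  have lF10 : (Herm.lv ((D.herm2 s t).F 1 0) (D.uu2 s t x) : Ω) = -(2 * dl *
      algebraMap K Ω (D.c s t 0 0) * (D.uu2 s t x 3)) + algebraMap K Ω (D.ga2 s t 1) * x 5 := by
    simp only [Herm.lv, dotProduct, vK, Fin.sum_univ_six, Herm.F, herm2, hp2, hq2, ga2, m10, m11, m12,
      uu2, hdl]
    simp [h2]
    ring
  have lF11 : (Herm.lv ((D.herm2 s t).F 1 1) (D.uu2 s t x) : Ω) = 2 * dl *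
      algebraMap K Ω (D.c s t 0 2) * (D.uu2 s t x 4) + algebraMap K Ω (D.de2 s t 1) * x 5 := by
    simp only [Herm.lv, dotProduct, vK, Fin.sum_univ_six, Herm.F, herm2, hp2, hq2, de2, m10, m11, m12,
      uu2, hdl]
    simp [h2]
    ring
  rw [lE00, lE01, lE10, lE11, lF00, lF01, lF10, lF11]
  have hd2 : algebraMap K Ω (D.herm2 s t).d = algebraMap K Ω (D.d2 s t) := rfl
  rw [hd2]
  simp only [xiL, map_add (ev x), map_sub (ev x), ev_smul, v0, v1, v2, w0, w1, w3, w4, w5]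
  simp only [map_add, map_sub, map_neg, map_mul, map_pow, h2, h4]
  generalize (∑ k, algebraMap K Ω (D.c s t k 0) * x k) = Y0 at *
  generalize (∑ k, algebraMap K Ω (D.c s t k 1) * x k) = Y1 at *
  generalize (∑ k, algebraMap K Ω (D.c s t k 2) * x k) = Y2 at *
  have u0 : D.uu2 s t x 0 = -(algebraMap K Ω (D.c s t 0 2) * x 4) -
    algebraMap K Ω (D.c s t 0 1) * x 3 := rfl
  have u1 : D.uu2 s t x 1 = algebraMap K Ω (D.c s t 0 1) * x 4 +
    algebraMap K Ω (D.c s t 0 0) * x 3 := rfl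
  have u3 : D.uu2 s t x 3 = -(algebraMap K Ω s * x 1) + x 2 := rfl
  have u4 : D.uu2 s t x 4 = -(algebraMap K Ω t * x 1) + algebraMap K Ω s * x 2 := rfl
  rw [u0, u1, u3, u4]
  rw [← hdl] at *
  generalize algebraMap K Ω (D.c s t 0 0) = c0 at *
  generalize algebraMap K Ω (D.c s t 0 1) = c1 at *
  generalize algebraMap K Ω (D.c s t 0 2) = c2 at *
  generalize algebraMap K Ω (D.d2 s t) = D2 at *
  generalize algebraMap K Ω (D.al2 s t 0) = al0 at *
  generalize algebraMap K Ω (D.al2 s t 1) = al1 at *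
  generalize algebraMap K Ω (D.be2 s t 0) = be0 at *
  generalize algebraMap K Ω (D.be2 s t 1) = be1 at *
  generalize algebraMap K Ω (D.ga2 s t 0) = ga0 at *
  generalize algebraMap K Ω (D.ga2 s t 1) = ga1 at *
  generalize algebraMap K Ω (D.de2 s t 0) = de0 at *
  generalize algebraMap K Ω (D.de2 s t 1) = de1 at *
  generalize algebraMap K Ω s = S at *
  generalize algebraMap K Ω t = T at *
  linear_combination 4 * dl ^ 2 * c0 * D2 * (c2 * e00 - 2 * c1 * e01 + c0 * e11) +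
    4 * dl ^ 2 * c0 * (c2 * x 4 ^ 2 + 2 * c1 * x 3 * x 4 + c0 * x 3 ^ 2) * hD

end Cub

end

/-! ### The generic point -/

variable {D : Cub ℂ} {Ω : Type} [Field Ω] [Algebra ℂ Ω] [Algebra KK Ω]
  [IsScalarTower ℂ KK Ω] {x : Fin 6 → Ω}

/-- the component in `U` of the generic point, for the node pencil -/
abbrev Cub.u2 (D : Cub ℂ) (x : Fin 6 → Ω) : Fin 6 → Ω :=
  (D.map (algebraMap ℂ KK)).uu2 sK tK x

theorem Cub.NonDeg.ab {D : Cub ℂ} (hn : D.NonDeg) : D.a 0 + D.b 0 ≠ 0 := by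
  intro h
  apply hn.det
  have h1 : ∀ i, D.b 0 i = -D.a 0 i := by
    intro i
    have := congrFun h i
    rw [Pi.add_apply, Pi.zero_apply] at this
    linear_combination this
  rw [h1 0, h1 1, h1 2]
  ring

theorem det_ne {D : Cub ℂ} (hD2 : D.D2 ≠ 0) :
    (D.map (algebraMap ℂ KK)).c sK tK 0 1 ^ 2 -
      (D.map (algebraMap ℂ KK)).c sK tK 0 0 * (D.map (algebraMap ℂ KK)).c sK tK 0 2 ≠ 0 := by
  rw [← Cub.det_c]
  exact mul_ne_zero dK_ne hD2

/-- the component in `U` of the generic point is in general position -/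
theorem Gen.nd2 (hG : Gen D x) (h0 : D.a 0 ≠ 0) (hD2 : D.D2 ≠ 0) : ND D.pen2.S (D.u2 x) := by
  intro f h1 h2
  have hS : (mK D.pen2.S *ᵥ D.u2 x : Fin 6 → Ω) = _ :=
    Herm.S_mulVec ((D.map (algebraMap ℂ KK)).herm2 sK tK) (D.u2 x)
  rw [hS] at h2
  set c0 := (D.map (algebraMap ℂ KK)).c sK tK 0 0 with hc0
  set c1 := (D.map (algebraMap ℂ KK)).c sK tK 0 1 with hc1
  set c2 := (D.map (algebraMap ℂ KK)).c sK tK 0 2 with hc2
  have hdet : c1 ^ 2 - c0 * c2 ≠ 0 := det_ne hD2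
  have u0 : D.u2 x 0 = -(algebraMap KK Ω c2 * x 4) - algebraMap KK Ω c1 * x 3 := rfl
  have u1 : D.u2 x 1 = algebraMap KK Ω c1 * x 4 + algebraMap KK Ω c0 * x 3 := rfl
  have u2 : D.u2 x 2 = x 5 := rfl
  have u3 : D.u2 x 3 = -(algebraMap KK Ω sK * x 1) + x 2 := rfl
  have u4 : D.u2 x 4 = -(algebraMap KK Ω tK * x 1) + algebraMap KK Ω sK * x 2 := rfl
  have u5 : D.u2 x 5 = 0 := rfl
  have k1 := hG.indepK h0 ![-(f 3 * sK) - f 4 * tK, f 3 + f 4 * sK, f 1 * c0 - f 0 * c1,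
      f 1 * c1 - f 0 * c2, f 2] (by
    simp only [dotProduct, vK, Fin.sum_univ_six, u0, u1, u2, u3, u4, u5] at h1
    rw [Fin.sum_univ_five]
    simp only [Matrix.cons_val_zero, Matrix.cons_val_one, Matrix.cons_val, map_sub, map_add,
      map_neg, map_mul]
    have e1 : x ((0 : Fin 5).succ) = x 1 := rfl
    have e2 : x ((1 : Fin 5).succ) = x 2 := rfl
    have e3 : x ((2 : Fin 5).succ) = x 3 := rfl
    have e4 : x ((3 : Fin 5).succ) = x 4 := rfl
    have e5 : x ((4 : Fin 5).succ) = x 5 := rfl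
    rw [e1, e2, e3, e4, e5]
    linear_combination h1)
  have k10 : -(f 3 * sK) - f 4 * tK = 0 := k1 0
  have k11 : f 3 + f 4 * sK = 0 := k1 1
  have k12 : f 1 * c0 - f 0 * c1 = 0 := k1 2
  have k13 : f 1 * c1 - f 0 * c2 = 0 := k1 3
  have k14 : f 2 = 0 := k1 4
  have f4 : f 4 = 0 := by
    have h3 : f 4 * (tK - sK ^ 2) = 0 := by linear_combination -k10 - sK * k11
    exact (mul_eq_zero.1 h3).resolve_right dK_ne
  have f3 : f 3 = 0 := by rw [f4, zero_mul, add_zero] at k11; exact k11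
  have f0 : f 0 = 0 := by
    have h3 : f 0 * (c1 ^ 2 - c0 * c2) = 0 := by linear_combination c0 * k13 - c1 * k12
    exact (mul_eq_zero.1 h3).resolve_right hdet
  have f1 : f 1 = 0 := by
    have h3 : f 1 * (c1 ^ 2 - c0 * c2) = 0 := by linear_combination c1 * k13 - c2 * k12
    exact (mul_eq_zero.1 h3).resolve_right hdet
  have f5 : f 5 = 0 := by
    simp only [dotProduct, vK, Fin.sum_univ_six, f0, f1, k14, f3, f4, map_zero, zero_mul,
      zero_add] at h2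
    have h3 : algebraMap KK Ω (f 5) * x 5 = 0 := h2
    exact (map_eq_zero (algebraMap KK Ω)).1 ((mul_eq_zero.1 h3).resolve_right (hG.x5_ne h0))
  funext i
  fin_cases i
  · exact f0
  · exact f1
  · exact k14
  · exact f3
  · exact f4
  · exact f5

/-- a field over `KK` which contains the ratios of the component in `U` is the whole field -/
theorem Gen.top_of2 (hG : Gen D x) (h0 : D.a 0 ≠ 0) (hD2 : D.D2 ≠ 0) (T : IntermediateField KK Ω)
    {c : Ω} (hc : c ≠ 0) (hT : ∀ i, c * D.u2 x i ∈ T) : T = ⊤ := by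
  have hal : ∀ z : KK, algebraMap KK Ω z ∈ T := fun z => T.algebraMap_mem z
  have hs : algebraMap KK Ω sK ∈ T := hal _
  have ht : algebraMap KK Ω tK ∈ T := hal _
  have hd0 : algebraMap KK Ω tK - algebraMap KK Ω sK ^ 2 ≠ 0 := by
    rw [← map_pow, ← map_sub]
    exact (map_ne_zero _).2 dK_ne
  have hd : algebraMap KK Ω tK - algebraMap KK Ω sK ^ 2 ∈ T := sub_mem ht (pow_mem hs 2)
  set c0 := (D.map (algebraMap ℂ KK)).c sK tK 0 0 with hc0
  set c1 := (D.map (algebraMap ℂ KK)).c sK tK 0 1 with hc1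
  set c2 := (D.map (algebraMap ℂ KK)).c sK tK 0 2 with hc2
  have hdet : algebraMap KK Ω (c1 ^ 2 - c0 * c2) ≠ 0 := (map_ne_zero _).2 (det_ne hD2)
  have u0 : c * (-(algebraMap KK Ω c2 * x 4) - algebraMap KK Ω c1 * x 3) ∈ T := hT 0
  have u1 : c * (algebraMap KK Ω c1 * x 4 + algebraMap KK Ω c0 * x 3) ∈ T := hT 1
  have u2 : c * x 5 ∈ T := hT 2
  have u3 : c * (-(algebraMap KK Ω sK * x 1) + x 2) ∈ T := hT 3
  have u4 : c * (-(algebraMap KK Ω tK * x 1) + algebraMap KK Ω sK * x 2) ∈ T := hT 4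
  have c4 : c * x 4 ∈ T := by
    have h1 : c * x 4 = (algebraMap KK Ω c0 * (c * (-(algebraMap KK Ω c2 * x 4) -
        algebraMap KK Ω c1 * x 3)) + algebraMap KK Ω c1 * (c * (algebraMap KK Ω c1 * x 4 +
        algebraMap KK Ω c0 * x 3))) / algebraMap KK Ω (c1 ^ 2 - c0 * c2) := by
      rw [eq_div_iff hdet, map_sub, map_pow, map_mul]
      ring
    rw [h1]
    exact div_mem (add_mem (mul_mem (hal _) u0) (mul_mem (hal _) u1)) (hal _)
  have c3 : c * x 3 ∈ T := by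
    have h1 : c * x 3 = -(algebraMap KK Ω c1 * (c * (-(algebraMap KK Ω c2 * x 4) -
        algebraMap KK Ω c1 * x 3)) + algebraMap KK Ω c2 * (c * (algebraMap KK Ω c1 * x 4 +
        algebraMap KK Ω c0 * x 3))) / algebraMap KK Ω (c1 ^ 2 - c0 * c2) := by
      rw [eq_div_iff hdet, map_sub, map_pow, map_mul]
      ring
    rw [h1]
    exact div_mem (neg_mem (add_mem (mul_mem (hal _) u0) (mul_mem (hal _) u1))) (hal _)
  have c1m : c * x 1 ∈ T := by
    have h1 : c * x 1 = (algebraMap KK Ω sK * (c * (-(algebraMap KK Ω sK * x 1) + x 2)) -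
        c * (-(algebraMap KK Ω tK * x 1) + algebraMap KK Ω sK * x 2)) /
        (algebraMap KK Ω tK - algebraMap KK Ω sK ^ 2) := by
      rw [eq_div_iff hd0]
      ring
    rw [h1]
    exact div_mem (sub_mem (mul_mem hs u3) u4) hd
  have c2m : c * x 2 ∈ T := by
    have h1 : c * x 2 = c * (-(algebraMap KK Ω sK * x 1) + x 2) +
        algebraMap KK Ω sK * (c * x 1) := by ring
    rw [h1]
    exact add_mem u3 (mul_mem hs c1m)
  refine hG.top_of h0 T hc fun i => ?_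
  fin_cases i
  · change c * (algebraMap KK Ω tK * x 1 - algebraMap KK Ω sK * x 2) ∈ T
    rw [mul_sub, mul_left_comm, mul_left_comm c]
    exact sub_mem (mul_mem ht c1m) (mul_mem hs c2m)
  · exact u3
  · exact u2
  · exact c4
  · change c * (-x 3) ∈ T
    rw [mul_neg]
    exact neg_mem c3
  · change c * 0 ∈ T
    rw [mul_zero]
    exact zero_mem _

/-- the component in `L` of the generic point does not vanish -/
theorem Gen.xi2_ne (hG : Gen D x) (hn : D.NonDeg) (hD2 : D.D2 ≠ 0) :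
    ((D.map (algebraMap ℂ KK)).herm2 sK tK).xi (D.u2 x) 0 ≠ 0 := by
  intro h
  have h1 : bl (((D.map (algebraMap ℂ KK)).herm2 sK tK).crR 2) (D.u2 x) (D.u2 x) / x 5 = 0 := h
  have hx5 := hG.x5_ne hn.a0
  rw [(hG.pt hn.a0).crR2, mul_div_cancel_left₀ _ hx5] at h1
  have h2 := hG.indepK6 hn.ab ((D.map (algebraMap ℂ KK)).xiL sK tK) h1 0
  rw [Cub.xiL_zero, neg_eq_zero] at h2
  exact mul_ne_zero (mul_ne_zero (mul_ne_zero (by norm_num) (pow_ne_zero 3 dK_ne))
    (c00_ne hn.a0)) (pow_ne_zero 2 hD2) h2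

theorem Cub.pen2_isPen (D : Cub ℂ) : D.pen2.IsPen := Herm.isPen _

/-- **Part X for the node pencil.** -/
theorem Gen.partX2 (hG : Gen D x) (hn : D.NonDeg) (hD2 : D.D2 ≠ 0) : ∃ w : I8 → Ω,
    w ∈ D.pen2.W Ω ∧ pL w ≠ 0 ∧ ND D.pen2.S (pU w) ∧
    (∃ θ : Fin 6 → KK, θ ≠ 0 ∧ vK θ ⬝ᵥ pU w = 0) ∧
    ∀ T : IntermediateField KK Ω, (∃ c : Ω, c ≠ 0 ∧ ∀ i, c * w i ∈ T) → T = ⊤ := by
  refine ⟨Sum.elim (((D.map (algebraMap ℂ KK)).herm2 sK tK).xi (D.u2 x)) (D.u2 x), ?_, ?_, ?_,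
    ⟨Pi.single 5 1, ?_, ?_⟩, ?_⟩
  · exact Herm.mem_W _ (fun j => (hG.pt hn.a0).iso2 j) rfl (hG.x5_ne hn.a0)
  · intro h
    exact hG.xi2_ne hn hD2 (congrFun h 0)
  · exact hG.nd2 hn.a0 hD2
  · intro h
    have := congrFun h 5
    rw [Pi.single_eq_same, Pi.zero_apply] at this
    exact one_ne_zero this
  · change vK (Pi.single 5 1) ⬝ᵥ D.u2 x = 0
    rw [dotProduct, Fin.sum_univ_six]
    have e : ∀ i : Fin 6, i ≠ 5 → (vK (Pi.single 5 1 : Fin 6 → KK) : Fin 6 → Ω) i = 0 := by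
      intro i hi
      change algebraMap KK Ω ((Pi.single 5 1 : Fin 6 → KK) i) = 0
      rw [Pi.single_eq_of_ne hi, map_zero]
    rw [e 0 (by decide), e 1 (by decide), e 2 (by decide), e 3 (by decide), e 4 (by decide)]
    have e5 : D.u2 x 5 = 0 := rfl
    rw [e5]
    ring
  · rintro T ⟨c, hc, hT⟩
    exact hG.top_of2 hn.a0 hD2 T hc fun i => hT (Sum.inr i)

/-- the discriminant of the node pencil is not a square in the function field -/
theorem Gen.nsq_d2 (hG : Gen D x) (hn : D.NonDeg) (hirr : Irreducible D.F)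
    (hD2 : ¬ IsSquare D.D2) : NSq Ω D.pen2.d := hG.nsq hn hirr hD2

end Pool.Agent.GSX
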