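import Pool.Agent.GSX.Herm

/-!
# GSX: points of the cone `W` of a pencil of hermitian forms

`mem_W`: a vector `u = (x, y)` over `Ω` which is isotropic for both forms, with `x 2 ≠ 0`, `y 2 = 0`,
is the component in `U` of a point of `W`; the component in `L` is the conjugate of
`((B 0 ū) × (B 1 ū)) 2 / x 2`.
-/

set_option autoImplicit false

noncomputable section

namespace Pool.Agent.GSX

open Matrix Pool.Agent.GSH

variable {K Ω : Type} [Field K] [Field Ω] [Algebra K Ω]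

namespace Herm

variable (H : Herm K)

/-- the value of a linear form over `K` -/
def lv (a : Fin 6 → K) (u : Fin 6 → Ω) : Ω := vK a ⬝ᵥ u

theorem bl_sy [CharZero K] (a b : Fin 6 → K) (u : Fin 6 → Ω) :
    bl (sy a b) u u = lv a u * lv b u := by
  have h2 : algebraMap K Ω (1 / 2) * 2 = 1 := by
    have h3 : (1 / 2 : K) * 2 = 1 := by norm_num
    have h4 := congrArg (algebraMap K Ω) h3
    rw [map_mul, map_one, map_ofNat] at h4
    exact h4
  have h1 : ∀ a b : Fin 6 → K, bl (vecMulVec a b) u u = lv a u * lv b u := by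
    intro a b
    unfold bl lv
    have h3 : (mK (vecMulVec a b) *ᵥ u : Fin 6 → Ω) = (vK b ⬝ᵥ u) • (vK a : Fin 6 → Ω) := by
      funext i
      simp only [mulVec, dotProduct, mK, Matrix.map_apply, vecMulVec_apply, map_mul, vK,
        Pi.smul_apply, smul_eq_mul, Finset.sum_mul]
      exact Finset.sum_congr rfl fun j _ => by ring
    rw [h3, dotProduct_smul, smul_eq_mul, dotProduct_comm u, mul_comm]
  unfold sy
  rw [bl_smul_mat, bl_add_mat, h1, h1]
  linear_combination (lv a u * lv b u) * h2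

theorem bl_sub_mat (M N : Matrix (Fin 6) (Fin 6) K) (u v : Fin 6 → Ω) :
    bl (M - N) u v = bl M u v - bl N u v := by
  have h1 : M - N = M + (-1 : K) • N := by rw [neg_one_smul, sub_eq_add_neg]
  rw [h1, bl_add_mat, bl_smul_mat, map_neg, map_one]
  ring

theorem bl_crR [CharZero K] (k : Fin 3) (u : Fin 6 → Ω) : bl (H.crR k) u u =
    lv (H.E 0 (k + 1)) u * lv (H.E 1 (k + 2)) u - lv (H.E 0 (k + 2)) u * lv (H.E 1 (k + 1)) u +
    algebraMap K Ω H.d * (lv (H.F 0 (k + 1)) u * lv (H.F 1 (k + 2)) u -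
      lv (H.F 0 (k + 2)) u * lv (H.F 1 (k + 1)) u) := by
  unfold crR
  rw [bl_add_mat, bl_sub_mat, bl_smul_mat, bl_sub_mat, bl_sy, bl_sy, bl_sy, bl_sy]

theorem bl_crI [CharZero K] (k : Fin 3) (u : Fin 6 → Ω) : bl (H.crI k) u u =
    lv (H.E 0 (k + 1)) u * lv (H.F 1 (k + 2)) u - lv (H.E 0 (k + 2)) u * lv (H.F 1 (k + 1)) u +
    (lv (H.F 0 (k + 1)) u * lv (H.E 1 (k + 2)) u -
      lv (H.F 0 (k + 2)) u * lv (H.E 1 (k + 1)) u) := by
  unfold crI
  rw [bl_add_mat, bl_sub_mat, bl_sub_mat, bl_sy, bl_sy, bl_sy, bl_sy]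

theorem bl_Q (j : Fin 2) (u : Fin 6 → Ω) : bl (H.pen.Q j) u u =
    u 0 * lv (H.E j 0) u + u 1 * lv (H.E j 1) u + u 2 * lv (H.E j 2) u +
    algebraMap K Ω H.d * (u 3 * lv (H.F j 0) u + u 4 * lv (H.F j 1) u +
      u 5 * lv (H.F j 2) u) := by
  have h1 : ∀ a : Fin 6 → K, (lv (H.d • a) u : Ω) = algebraMap K Ω H.d * lv a u := by
    intro a
    simp only [lv, dotProduct, vK, Pi.smul_apply, smul_eq_mul, map_mul, Finset.mul_sum]
    exact Finset.sum_congr rfl fun i _ => by ring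
  have h2 : bl (H.pen.Q j) u u = ∑ i, u i * lv (![H.E j 0, H.E j 1, H.E j 2, H.d • H.F j 0,
      H.d • H.F j 1, H.d • H.F j 2] i) u := rfl
  rw [h2, Fin.sum_univ_six]
  show u 0 * lv (H.E j 0) u + u 1 * lv (H.E j 1) u + u 2 * lv (H.E j 2) u +
    u 3 * lv (H.d • H.F j 0) u + u 4 * lv (H.d • H.F j 1) u + u 5 * lv (H.d • H.F j 2) u = _
  rw [h1, h1, h1]
  ring

/-- the hermitian form has no imaginary part -/
theorem im_zero (j : Fin 2) (u : Fin 6 → Ω) :
    u 0 * lv (H.F j 0) u + u 1 * lv (H.F j 1) u + u 2 * lv (H.F j 2) u +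
    (u 3 * lv (H.E j 0) u + u 4 * lv (H.E j 1) u + u 5 * lv (H.E j 2) u) = 0 := by
  simp only [lv, dotProduct, vK, Fin.sum_univ_six, E, F]
  simp
  ring

/-- the component in `L` of the point of `W` over `u` -/
def xi (u : Fin 6 → Ω) : Fin 2 → Ω := ![bl (H.crR 2) u u / u 2, -(bl (H.crI 2) u u / u 2)]

theorem S_mulVec (u : Fin 6 → Ω) : (mK H.S *ᵥ u : Fin 6 → Ω) =
    ![algebraMap K Ω H.d * u 3, algebraMap K Ω H.d * u 4, algebraMap K Ω H.d * u 5,
      u 0, u 1, u 2] := by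
  funext i
  fin_cases i <;> simp [mulVec, dotProduct, mK, S, Fin.sum_univ_six]

theorem mem_W [CharZero K] {u : Fin 6 → Ω} (h : ∀ j, bl (H.pen.Q j) u u = 0) (h5 : u 5 = 0)
    (h2 : u 2 ≠ 0) : (Sum.elim (H.xi u) u : I8 → Ω) ∈ H.pen.W Ω := by
  refine ⟨h, ?_⟩
  have h0 := h 0
  have h1 := h 1
  rw [bl_Q] at h0 h1
  have g0 := H.im_zero 0 u
  have g1 := H.im_zero 1 u
  rw [h5] at h0 h1 g0 g1
  have k0R := H.bl_crR 0 u
  have k1R := H.bl_crR 1 u
  have k2R := H.bl_crR 2 u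
  have k0I := H.bl_crI 0 u
  have k1I := H.bl_crI 1 u
  have k2I := H.bl_crI 2 u
  have e1 : (0 : Fin 3) + 1 = 1 := rfl
  have e2 : (0 : Fin 3) + 2 = 2 := rfl
  have e3 : (1 : Fin 3) + 1 = 2 := rfl
  have e4 : (1 : Fin 3) + 2 = 0 := rfl
  have e5 : (2 : Fin 3) + 1 = 0 := rfl
  have e6 : (2 : Fin 3) + 2 = 1 := rfl
  rw [e1, e2] at k0R k0I
  rw [e3, e4] at k1R k1I
  rw [e5, e6] at k2R k2I
  have hsm : sm H.pen.S ((Sum.elim (H.xi u) u : I8 → Ω) (Sum.inl 0))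
      (-(Sum.elim (H.xi u) u : I8 → Ω) (Sum.inl 1)) u =
      ![(u 0 * bl (H.crR 2) u u + algebraMap K Ω H.d * u 3 * bl (H.crI 2) u u) / u 2,
        (u 1 * bl (H.crR 2) u u + algebraMap K Ω H.d * u 4 * bl (H.crI 2) u u) / u 2,
        bl (H.crR 2) u u,
        (u 3 * bl (H.crR 2) u u + u 0 * bl (H.crI 2) u u) / u 2,
        (u 4 * bl (H.crR 2) u u + u 1 * bl (H.crI 2) u u) / u 2,
        bl (H.crI 2) u u] := by
    unfold sm
    have hS : (mK H.pen.S *ᵥ u : Fin 6 → Ω) = _ := H.S_mulVec u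
    rw [hS]
    funext i
    fin_cases i
    · simp [xi]
      ring
    · simp [xi]
      ring
    · simp [xi, h5]
      field_simp
    · simp [xi]
      ring
    · simp [xi]
      ring
    · simp [xi, h5]
      field_simp
  intro i
  show bl (H.pen.P i) u u = sm H.pen.S ((Sum.elim (H.xi u) u : I8 → Ω) (Sum.inl 0))
      (-(Sum.elim (H.xi u) u : I8 → Ω) (Sum.inl 1)) u i
  rw [hsm]
  set D := algebraMap K Ω H.d with hD
  fin_cases i
  · show bl (H.crR 0) u u = (u 0 * bl (H.crR 2) u u + D * u 3 * bl (H.crI 2) u u) / u 2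
    rw [eq_div_iff h2, k0R, k2R, k2I]
    linear_combination lv (H.E 0 1) u * h1 - lv (H.E 1 1) u * h0 +
      D * lv (H.F 0 1) u * g1 - D * lv (H.F 1 1) u * g0
  · show bl (H.crR 1) u u = (u 1 * bl (H.crR 2) u u + D * u 4 * bl (H.crI 2) u u) / u 2
    rw [eq_div_iff h2, k1R, k2R, k2I]
    linear_combination -lv (H.E 0 0) u * h1 + lv (H.E 1 0) u * h0 -
      D * lv (H.F 0 0) u * g1 + D * lv (H.F 1 0) u * g0
  · rfl
  · show bl (H.crI 0) u u = (u 3 * bl (H.crR 2) u u + u 0 * bl (H.crI 2) u u) / u 2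
    rw [eq_div_iff h2, k0I, k2R, k2I]
    linear_combination lv (H.F 0 1) u * h1 - lv (H.F 1 1) u * h0 +
      lv (H.E 0 1) u * g1 - lv (H.E 1 1) u * g0
  · show bl (H.crI 1) u u = (u 4 * bl (H.crR 2) u u + u 1 * bl (H.crI 2) u u) / u 2
    rw [eq_div_iff h2, k1I, k2R, k2I]
    linear_combination -lv (H.F 0 0) u * h1 + lv (H.F 1 0) u * h0 -
      lv (H.E 0 0) u * g1 + lv (H.E 1 0) u * g0
  · rfl

end Herm

end Pool.Agent.GSX
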