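import Pool.Agent.GSX.Indep
import Pool.Agent.GSX.HermW

/-!
# GSX: the cubic fourfolds and their pencils of hermitian forms

`Cub R`: the coefficients of two symmetric `2 × 2` matrices `A`, `B` of linear forms in six variables.
`Cub.F`: the cubic form. `Cub.herm`: the pencil of hermitian forms over `K`, for two elements `s`, `t`
of `K`: with `M = (1, s; s, t)`, `R = adj M = (t, -s; -s, 1)`, `d = det M = t - s ^ 2` and
`C_k = d adj(B_k) - R A_k R` the pencil consists of the forms `H_m`, where `m` runs through the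
symmetric matrices over `K` with `tr(m C_0) = 0`; with `g_k = tr(m C_k)`
`H_m (p', q', lam, lam') = 2 d (p'ᵀ m p' - d q'ᵀ m q') - 2 lam (…) + 2 lam' (…) - 2 d g_5 (lam ^ 2 - d lam' ^ 2)`.

`iso`: the point `(R p, J q, lam, 0)` is isotropic for a point `(x0, p, q, lam)` of the cubic over the
point `(1 : s : t)`.
-/

set_option autoImplicit false

noncomputable section

namespace Pool.Agent.GSX

open MvPolynomial Matrix Pool.Agent.GSH

/-- The coefficients of two symmetric matrices `A`, `B` of linear forms in `X0, …, X5`: the entries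
00, 01, 11 of the coefficient of `X k`. -/
structure Cub (R : Type) where
  /-- the coefficients of `A` -/
  a : Fin 6 → Fin 3 → R
  /-- the coefficients of `B` -/
  b : Fin 6 → Fin 3 → R

/-- extension of scalars -/
def Cub.map {R R' : Type} [CommRing R] [CommRing R'] (f : R →+* R') (D : Cub R) : Cub R' where
  a := fun k i => f (D.a k i)
  b := fun k i => f (D.b k i)

/-- a linear form -/
def lin (c : Fin 6 → ℂ) : S6 := ∑ k, C (c k) * X k

/-- the matrix `A` -/
def Cub.A (D : Cub ℂ) : Matrix (Fin 2) (Fin 2) S6 :=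
  !![lin fun k => D.a k 0, lin fun k => D.a k 1; lin fun k => D.a k 1, lin fun k => D.a k 2]

/-- the matrix `B` -/
def Cub.B (D : Cub ℂ) : Matrix (Fin 2) (Fin 2) S6 :=
  !![lin fun k => D.b k 0, lin fun k => D.b k 1; lin fun k => D.b k 1, lin fun k => D.b k 2]

/-- the cubic form `pᵀ adj(A) p - qᵀ adj(B) q + lam (det A - det B)` -/
def Cub.F (D : Cub ℂ) : S6 := cubF D.A D.B

namespace Cub

section pencil

variable {K : Type} [Field K] (D : Cub K) (s t : K)

/-- the entries 00, 01, 11 of `C_k = d adj(B_k) - R A_k R` -/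
def c (k : Fin 6) : Fin 3 → K :=
  ![(t - s ^ 2) * D.b k 2 - (t ^ 2 * D.a k 0 - 2 * s * t * D.a k 1 + s ^ 2 * D.a k 2),
    -((t - s ^ 2) * D.b k 1) + (s * t * D.a k 0 - (s ^ 2 + t) * D.a k 1 + s * D.a k 2),
    (t - s ^ 2) * D.b k 0 - (s ^ 2 * D.a k 0 - 2 * s * D.a k 1 + D.a k 2)]

/-- the trace of the product of two symmetric matrices -/
def tr (m c : Fin 3 → K) : K := m 0 * c 0 + 2 * m 1 * c 1 + m 2 * c 2

/-- `g_k = tr(m C_k)` -/
def g (m : Fin 3 → K) (k : Fin 6) : K := tr m (D.c s t k)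

/-- the symmetric part of the hermitian form `H_m` -/
def hp (m : Fin 3 → K) : Fin 6 → K :=
  ![2 * (t - s ^ 2) * m 0, 2 * (t - s ^ 2) * m 1, -(D.g s t m 1 + s * D.g s t m 2),
    2 * (t - s ^ 2) * m 2, -(s * D.g s t m 1 + t * D.g s t m 2), -(2 * (t - s ^ 2) * D.g s t m 5)]

/-- the antisymmetric part of the hermitian form `H_m` -/
def hq (m : Fin 3 → K) : Fin 3 → K := ![0, -D.g s t m 4, D.g s t m 3]

/-- two symmetric matrices orthogonal to `C_0` -/
def m (j : Fin 2) : Fin 3 → K :=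
  ![![-(2 * D.c s t 0 1), D.c s t 0 0, 0], ![-D.c s t 0 2, 0, D.c s t 0 0]] j

/-- the pencil of hermitian forms -/
def herm : Herm K where
  d := t - s ^ 2
  p := fun j => D.hp s t (D.m s t j)
  q := fun j => D.hq s t (D.m s t j)

theorem tr_m (j : Fin 2) : tr (D.m s t j) (D.c s t 0) = 0 := by
  fin_cases j
  · simp [tr, m]
    ring
  · simp [tr, m]
    ring

end pencil

variable {K Ω : Type} [Field K] [Field Ω] [Algebra K Ω]

/-- the component in `U` of the generic point -/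
def uu (s t : K) (x : Fin 6 → Ω) : Fin 6 → Ω :=
  ![algebraMap K Ω t * x 1 - algebraMap K Ω s * x 2, -(algebraMap K Ω s * x 1) + x 2, x 5, x 4,
    -x 3, 0]

/-- the values of the linear forms -/
def va (D : Cub K) (x : Fin 6 → Ω) (i : Fin 3) : Ω := ∑ k, algebraMap K Ω (D.a k i) * x k

/-- the values of the linear forms -/
def vb (D : Cub K) (x : Fin 6 → Ω) (i : Fin 3) : Ω := ∑ k, algebraMap K Ω (D.b k i) * x k

/-- `x` is a point of the cubic over the point `(1 : s : t)` -/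
structure Pt (D : Cub K) (s t : K) (x : Fin 6 → Ω) (μ : Ω) : Prop where
  ne : μ ≠ 0
  h0 : μ = x 1 ^ 2 + x 3 ^ 2 + x 5 * (D.va x 0 + D.vb x 0)
  h1 : μ * algebraMap K Ω s = x 1 * x 2 + x 3 * x 4 + x 5 * (D.va x 1 + D.vb x 1)
  h2 : μ * algebraMap K Ω t = x 2 ^ 2 + x 4 ^ 2 + x 5 * (D.va x 2 + D.vb x 2)
  hF : (D.va x 2 * x 1 ^ 2 - 2 * D.va x 1 * (x 1 * x 2) + D.va x 0 * x 2 ^ 2) -
    (D.vb x 2 * x 3 ^ 2 - 2 * D.vb x 1 * (x 3 * x 4) + D.vb x 0 * x 4 ^ 2) +
    x 5 * ((D.va x 0 * D.va x 2 - D.va x 1 ^ 2) - (D.vb x 0 * D.vb x 2 - D.vb x 1 ^ 2)) = 0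

section

variable {D : Cub K} {s t : K} {x : Fin 6 → Ω} {μ : Ω}

/-- `μ d = P2 + t P0 - 2 s P1` -/
theorem Pt.star (h : Pt D s t x μ) :
    μ * (algebraMap K Ω t - algebraMap K Ω s ^ 2) = (x 2 ^ 2 + x 5 * D.va x 2) +
      algebraMap K Ω t * (x 1 ^ 2 + x 5 * D.va x 0) -
      2 * algebraMap K Ω s * (x 1 * x 2 + x 5 * D.va x 1) := by
  apply mul_left_cancel₀ h.ne
  set S := algebraMap K Ω s
  set T := algebraMap K Ω t
  have e0 := h.h0
  have e1 := h.h1
  have e2 := h.h2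
  have e3 := h.hF
  set P0 := x 1 ^ 2 + x 5 * D.va x 0 with hP0
  set P1 := x 1 * x 2 + x 5 * D.va x 1 with hP1
  set P2 := x 2 ^ 2 + x 5 * D.va x 2 with hP2
  have q0 : x 3 ^ 2 + x 5 * D.vb x 0 = μ - P0 := by
    rw [e0, hP0]; ring
  have q1 : x 3 * x 4 + x 5 * D.vb x 1 = μ * S - P1 := by
    rw [e1, hP1]; ring
  have q2 : x 4 ^ 2 + x 5 * D.vb x 2 = μ * T - P2 := by
    rw [e2, hP2]; ring
  have e4 : (P0 * P2 - P1 ^ 2) - ((x 3 ^ 2 + x 5 * D.vb x 0) * (x 4 ^ 2 + x 5 * D.vb x 2) -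
      (x 3 * x 4 + x 5 * D.vb x 1) ^ 2) = 0 := by
    rw [hP0, hP1, hP2]
    linear_combination x 5 * e3
  rw [q0, q1, q2] at e4
  linear_combination -e4

/-- the sum `∑ C_k x_k` -/
theorem sum_c0 : ∑ k, algebraMap K Ω (D.c s t k 0) * x k =
    (algebraMap K Ω t - algebraMap K Ω s ^ 2) * D.vb x 2 - (algebraMap K Ω t ^ 2 * D.va x 0 -
      2 * algebraMap K Ω s * algebraMap K Ω t * D.va x 1 + algebraMap K Ω s ^ 2 * D.va x 2) := by
  simp only [c, va, vb, Finset.mul_sum, ← Finset.sum_sub_distrib, ← Finset.sum_add_distrib]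
  refine Finset.sum_congr rfl fun k _ => ?_
  have e2 : algebraMap K Ω 2 = 2 := map_ofNat _ 2
  simp [e2]
  ring

theorem sum_c1 : ∑ k, algebraMap K Ω (D.c s t k 1) * x k =
    -((algebraMap K Ω t - algebraMap K Ω s ^ 2) * D.vb x 1) +
    (algebraMap K Ω s * algebraMap K Ω t * D.va x 0 -
      (algebraMap K Ω s ^ 2 + algebraMap K Ω t) * D.va x 1 + algebraMap K Ω s * D.va x 2) := by
  simp only [c, va, vb, Finset.mul_sum, ← Finset.sum_sub_distrib, ← Finset.sum_add_distrib,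
    ← Finset.sum_neg_distrib]
  refine Finset.sum_congr rfl fun k _ => ?_
  have e2 : algebraMap K Ω 2 = 2 := map_ofNat _ 2
  simp [e2]
  ring

theorem sum_c2 : ∑ k, algebraMap K Ω (D.c s t k 2) * x k =
    (algebraMap K Ω t - algebraMap K Ω s ^ 2) * D.vb x 0 - (algebraMap K Ω s ^ 2 * D.va x 0 -
      2 * algebraMap K Ω s * D.va x 1 + D.va x 2) := by
  simp only [c, va, vb, Finset.mul_sum, ← Finset.sum_sub_distrib, ← Finset.sum_add_distrib]
  refine Finset.sum_congr rfl fun k _ => ?_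
  have e2 : algebraMap K Ω 2 = 2 := map_ofNat _ 2
  simp [e2]
  ring

/-- the identity `p' p'ᵀ - d q' q'ᵀ = lam C`, entry 00 -/
theorem Pt.e00 (h : Pt D s t x μ) :
    (algebraMap K Ω t * x 1 - algebraMap K Ω s * x 2) ^ 2 -
      (algebraMap K Ω t - algebraMap K Ω s ^ 2) * x 4 ^ 2 =
      x 5 * ∑ k, algebraMap K Ω (D.c s t k 0) * x k := by
  rw [sum_c0]
  have e := h.star
  have e2 := h.h2
  linear_combination -algebraMap K Ω t * e +
    (algebraMap K Ω t - algebraMap K Ω s ^ 2) * e2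

/-- the identity `p' p'ᵀ - d q' q'ᵀ = lam C`, entry 01 -/
theorem Pt.e01 (h : Pt D s t x μ) :
    (algebraMap K Ω t * x 1 - algebraMap K Ω s * x 2) * (-(algebraMap K Ω s * x 1) + x 2) +
      (algebraMap K Ω t - algebraMap K Ω s ^ 2) * (x 4 * x 3) =
      x 5 * ∑ k, algebraMap K Ω (D.c s t k 1) * x k := by
  rw [sum_c1]
  have e := h.star
  have e2 := h.h1
  linear_combination algebraMap K Ω s * e -
    (algebraMap K Ω t - algebraMap K Ω s ^ 2) * e2

/-- the identity `p' p'ᵀ - d q' q'ᵀ = lam C`, entry 11 -/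
theorem Pt.e11 (h : Pt D s t x μ) :
    (-(algebraMap K Ω s * x 1) + x 2) ^ 2 -
      (algebraMap K Ω t - algebraMap K Ω s ^ 2) * x 3 ^ 2 =
      x 5 * ∑ k, algebraMap K Ω (D.c s t k 2) * x k := by
  rw [sum_c2]
  have e := h.star
  have e2 := h.h0
  linear_combination -e + (algebraMap K Ω t - algebraMap K Ω s ^ 2) * e2

/-- the generic point is isotropic -/
theorem Pt.iso (h : Pt D s t x μ) (j : Fin 2) :
    bl ((D.herm s t).pen.Q j) (uu s t x) (uu s t x) = 0 := by
  have e00 := h.e00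
  have e01 := h.e01
  have e11 := h.e11
  have htr : ∑ k, algebraMap K Ω (tr (D.m s t j) (D.c s t k)) * x k =
      algebraMap K Ω (D.m s t j 0) * ∑ k, algebraMap K Ω (D.c s t k 0) * x k +
      2 * algebraMap K Ω (D.m s t j 1) * ∑ k, algebraMap K Ω (D.c s t k 1) * x k +
      algebraMap K Ω (D.m s t j 2) * ∑ k, algebraMap K Ω (D.c s t k 2) * x k := by
    simp only [Finset.mul_sum, ← Finset.sum_add_distrib]
    refine Finset.sum_congr rfl fun k _ => ?_
    simp only [tr, map_add, map_mul, map_ofNat]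
    ring
  rw [Fin.sum_univ_six, D.tr_m s t j, map_zero, zero_mul, zero_add] at htr
  rw [Herm.bl_Q]
  have h2 : algebraMap K Ω 2 = 2 := map_ofNat _ 2
  simp only [Herm.lv, dotProduct, vK, Fin.sum_univ_six, Herm.E, Herm.F, herm, hp, hq, g, uu]
  simp [h2]
  generalize (∑ k, algebraMap K Ω (D.c s t k 0) * x k) = Y0 at *
  generalize (∑ k, algebraMap K Ω (D.c s t k 1) * x k) = Y1 at *
  generalize (∑ k, algebraMap K Ω (D.c s t k 2) * x k) = Y2 at *
  linear_combination 2 * (algebraMap K Ω t - algebraMap K Ω s ^ 2) *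
    (algebraMap K Ω (D.m s t j 0) * e00 + 2 * algebraMap K Ω (D.m s t j 1) * e01 +
      algebraMap K Ω (D.m s t j 2) * e11) - 2 * (algebraMap K Ω t - algebraMap K Ω s ^ 2) *
    x 5 * htr

end

end Cub

end Pool.Agent.GSX
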