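import Mathlib

/-! The field `ℂ(s, t)` inside `ℂ(a, b)`: `s = (a + b) / 2`, `t = a b`. -/

set_option autoImplicit false

namespace Pool.Agent.GSX.Sq

open MvPolynomial

/-- `ℂ[s, t]` -/
abbrev S2 : Type := MvPolynomial (Fin 2) ℂ

/-- `ℂ(s, t)` -/
abbrev Kf : Type := FractionRing S2

/-- the first variable -/
noncomputable def ks : Kf := algebraMap S2 Kf (X 0)

/-- the second variable -/
noncomputable def kt : Kf := algebraMap S2 Kf (X 1)

/-- homogenisation (of even degree) -/
theorem hom3 (P : S2) : ∃ (n : ℕ) (Q : MvPolynomial (Fin 3) ℂ), Q.IsHomogeneous (2 * n) ∧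
    ∀ (N : Type) [Field N] [Algebra ℂ N] (A B G : N), A ≠ 0 →
      A ^ (2 * n) * aeval ![B / A, G / A] P = aeval ![A, B, G] Q := by
  have e0 : ∀ (N : Type) [Field N] [Algebra ℂ N] (A B G : N),
      aeval ![A, B, G] (X 0 : MvPolynomial (Fin 3) ℂ) = A := by
    intro N _ _ A B G
    rw [aeval_X]
    rfl
  induction P using MvPolynomial.induction_on with
  | C a => exact ⟨0, C a, isHomogeneous_C _ _, fun N _ _ A B G _ => by simp⟩
  | add P P' hP hP' =>
    obtain ⟨n, Q, hQ, h⟩ := hP
    obtain ⟨m, Q', hQ', h'⟩ := hP'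
    refine ⟨n + m, X 0 ^ (2 * m) * Q + X 0 ^ (2 * n) * Q', ?_, fun N _ _ A B G hG => ?_⟩
    · refine IsHomogeneous.add ?_ ?_
      · have h1 := ((isHomogeneous_X ℂ (0 : Fin 3)).pow (2 * m)).mul hQ
        rwa [show 1 * (2 * m) + 2 * n = 2 * (n + m) by ring] at h1
      · have h1 := ((isHomogeneous_X ℂ (0 : Fin 3)).pow (2 * n)).mul hQ'
        rwa [show 1 * (2 * n) + 2 * m = 2 * (n + m) by ring] at h1
    · simp only [map_add, map_mul, map_pow, e0]
      rw [← h N A B G hG, ← h' N A B G hG]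
      ring
  | mul_X P i hP =>
    obtain ⟨n, Q, hQ, h⟩ := hP
    refine ⟨n + 1, X 0 * (Q * X i.succ), ?_, fun N _ _ A B G hG => ?_⟩
    · have h1 := (isHomogeneous_X ℂ (0 : Fin 3)).mul (hQ.mul (isHomogeneous_X ℂ i.succ))
      rwa [show 1 + (2 * n + 1) = 2 * (n + 1) by ring] at h1
    · rw [map_mul, map_mul, map_mul, e0, ← h N A B G hG, aeval_X, aeval_X]
      fin_cases i
      · change A ^ (2 * (n + 1)) * (aeval ![B / A, G / A] P * (B / A)) = A * (_ * B)
        field_simp
        ring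
      · change A ^ (2 * (n + 1)) * (aeval ![B / A, G / A] P * (G / A)) = A * (_ * G)
        field_simp
        ring

/-- `P(s,t) ↦ P((a+b)/2, a b)` -/
noncomputable def jp : S2 →ₐ[ℂ] S2 := aeval ![C (1 / 2) * (X 0 + X 1), X 0 * X 1]

theorem jp_injective : Function.Injective jp := by
  rw [injective_iff_map_eq_zero]
  intro P hP
  refine MvPolynomial.funext fun v => ?_
  rw [map_zero]
  obtain ⟨r, hr⟩ := IsAlgClosed.exists_pow_nat_eq (v 0 ^ 2 - v 1) (by norm_num : 0 < 2)
  have h1 := congrArg (eval ![v 0 + r, v 0 - r]) hP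
  rw [map_zero] at h1
  have h2 : eval ![v 0 + r, v 0 - r] (jp P) = eval v P := by
    have h3 : ((aeval ![v 0 + r, v 0 - r] : S2 →ₐ[ℂ] ℂ).comp jp) = aeval v := by
      refine MvPolynomial.algHom_ext fun i => ?_
      rw [AlgHom.comp_apply, jp, aeval_X, aeval_X]
      fin_cases i
      · simp
        ring
      · simp
        linear_combination -hr
    rw [← aeval_eq_eval, ← aeval_eq_eval]
    exact DFunLike.congr_fun h3 P
  rw [← h2, h1]

/-- the embedding of `ℂ(s,t)` in `ℂ(a,b)` -/
noncomputable def jj : Kf →+* Kf :=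
  IsFractionRing.lift (g := (algebraMap S2 Kf).comp (jp : S2 →+* S2))
    ((IsFractionRing.injective S2 Kf).comp jp_injective)

lemma jj_algebraMap (P : S2) : jj (algebraMap S2 Kf P) = algebraMap S2 Kf (jp P) :=
  IsFractionRing.lift_algebraMap _ P

lemma jj_sum : jj (2 * ks) = ks + kt := by
  rw [map_mul, map_ofNat, ks, jj_algebraMap, jp, aeval_X]
  change 2 * algebraMap S2 Kf (C (1 / 2) * (X 0 + X 1)) = _
  rw [map_mul, map_add, ← mul_assoc]
  have h : (2 : Kf) * algebraMap S2 Kf (C (1 / 2)) = 1 := by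
    have h1 : (2 : Kf) = algebraMap S2 Kf (C 2) := by
      rw [show (C 2 : S2) = 2 from map_ofNat C 2, map_ofNat]
    rw [h1, ← map_mul, ← C_mul]
    norm_num
  rw [h, one_mul]
  rfl

lemma jj_prod : jj kt = ks * kt := by
  rw [kt, jj_algebraMap, jp, aeval_X]
  change algebraMap S2 Kf (X 0 * X 1) = _
  rw [map_mul]
  rfl

/-- `s ^ 2 - t` is not a square -/
theorem not_isSquare_disc : ¬ IsSquare (ks ^ 2 - kt) := by
  rintro ⟨w, hw⟩
  have h0 : (ks ^ 2 - kt : Kf) = algebraMap S2 Kf (X 0 ^ 2 - X 1) := by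
    rw [map_sub, map_pow]
    rfl
  have h1 : IsIntegral S2 w := by
    apply IsIntegral.of_pow (n := 2) (by norm_num)
    rw [sq, ← hw, h0]
    exact isIntegral_algebraMap
  obtain ⟨w0, rfl⟩ := IsIntegrallyClosed.isIntegral_iff.mp h1
  have h2 : (X 0 ^ 2 - X 1 : S2) = w0 * w0 := by
    apply IsFractionRing.injective S2 Kf
    rw [map_mul, ← hw, h0]
  have h3 := congrArg (aeval (R := ℂ) ![(0 : Polynomial ℂ), Polynomial.X]) h2
  rw [map_mul] at h3
  set w1 := aeval (R := ℂ) ![(0 : Polynomial ℂ), Polynomial.X] w0 with hw1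
  have h4 : aeval (R := ℂ) ![(0 : Polynomial ℂ), Polynomial.X] (X 0 ^ 2 - X 1 : S2) =
      - Polynomial.X := by
    rw [map_sub, map_pow, aeval_X, aeval_X]
    change 0 ^ 2 - Polynomial.X = _
    ring
  rw [h4] at h3
  have h5 := congrArg Polynomial.natDegree h3
  rw [Polynomial.natDegree_neg, Polynomial.natDegree_X] at h5
  have h6 : w1 ≠ 0 := by
    rintro h7
    rw [h7, mul_zero, neg_eq_zero] at h3
    exact Polynomial.X_ne_zero h3
  rw [Polynomial.natDegree_mul h6 h6] at h5
  omega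

/-- `1, a` are independent over `ℂ(s,t)` -/
theorem indep_a {p q : Kf} (h : jj p + jj q * ks = 0) : p = 0 ∧ q = 0 := by
  have hq : q = 0 := by
    by_contra hq
    have hjq : jj q ≠ 0 := (map_ne_zero jj).mpr hq
    set r := -p / q with hr
    have h1 : jj r = ks := by
      rw [hr, map_div₀, map_neg, div_eq_iff hjq]
      linear_combination -h
    have h2 : jj (r ^ 2 - r * (2 * ks) + kt) = 0 := by
      rw [map_add, map_sub, map_pow, map_mul, h1, jj_sum, jj_prod]
      ring
    have h3 := (map_eq_zero jj).mp h2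
    apply not_isSquare_disc
    refine ⟨r - ks, ?_⟩
    linear_combination -h3
  rw [hq, map_zero, zero_mul, add_zero] at h
  exact ⟨(map_eq_zero jj).mp h, hq⟩

/-- twice the first variable -/
noncomputable def k2 : Kf := 2 * ks

lemma jj_k2 : jj k2 = ks + kt := jj_sum

lemma k2_eq : k2 = 2 * ks := rfl

/-- `ℂ(a,b) = ℂ(s,t) + ℂ(s,t) a` -/
theorem exists_pres (y : Kf) : ∃ p q : Kf, y = jj p + jj q * ks := by
  have hsum : kt = jj k2 - ks := by
    rw [jj_k2]
    ring
  have hprod : ks * ks = jj k2 * ks - jj kt := by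
    rw [jj_k2, jj_prod]
    ring
  have key : ∀ P : S2, ∃ p q : Kf, algebraMap S2 Kf P = jj p + jj q * ks := by
    intro P
    induction P using MvPolynomial.induction_on with
    | C a =>
      refine ⟨algebraMap S2 Kf (C a), 0, ?_⟩
      rw [jj_algebraMap, jp, aeval_C, map_zero, zero_mul, add_zero]
      rfl
    | add P P' hP hP' =>
      obtain ⟨p, q, h⟩ := hP
      obtain ⟨p', q', h'⟩ := hP'
      exact ⟨p + p', q + q', by rw [map_add, h, h', map_add, map_add]; ring⟩
    | mul_X P i hP =>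
      obtain ⟨p, q, h⟩ := hP
      fin_cases i
      · refine ⟨-(q * kt), p + q * k2, ?_⟩
        simp only [map_neg, map_add, map_mul]
        rw [h]
        change (jj p + jj q * ks) * ks = _
        linear_combination jj q * hprod
      · refine ⟨p * k2 + q * kt, -p, ?_⟩
        simp only [map_neg, map_add, map_mul]
        rw [h]
        change (jj p + jj q * ks) * kt = _
        linear_combination (jj p + jj q * ks) * hsum - jj q * hprod
  obtain ⟨Y, Z, hZ, rfl⟩ := IsFractionRing.div_surjective (A := S2) y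
  obtain ⟨p, q, h⟩ := key Y
  obtain ⟨p', q', h'⟩ := key Z
  have hZ' : algebraMap S2 Kf Z ≠ 0 := by
    intro h0
    exact nonZeroDivisors.ne_zero hZ ((IsFractionRing.injective S2 Kf) (h0.trans (map_zero _).symm))
  -- the norm
  set n := p' ^ 2 + p' * q' * k2 + q' ^ 2 * kt with hn
  have hn1 : jj n = (jj p' + jj q' * ks) * (jj (p' + q' * k2) - jj q' * ks) := by
    rw [hn]
    simp only [map_add, map_mul, map_pow]
    linear_combination (jj q') ^ 2 * hprod
  have hn0 : n ≠ 0 := by
    intro h0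
    rw [h0, map_zero] at hn1
    rcases mul_eq_zero.mp hn1.symm with h1 | h1
    · exact hZ' (h'.trans h1)
    · have h2 : jj (p' + q' * k2) + jj (-q') * ks = 0 := by
        rw [map_neg]
        linear_combination h1
      obtain ⟨h3, h4⟩ := indep_a h2
      have h5 : q' = 0 := neg_eq_zero.mp h4
      rw [h5, zero_mul, add_zero] at h3
      rw [h3, h5, map_zero, zero_mul, add_zero] at h'
      exact hZ' h'
  have hjn : jj n ≠ 0 := (map_ne_zero jj).mpr hn0
  refine ⟨(p * (p' + q' * k2) + q * q' * kt) / n,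
    (q * (p' + q' * k2) - p * q' - q * q' * k2) / n, ?_⟩
  rw [div_eq_iff hZ', map_div₀, map_div₀, h, h', div_mul_eq_mul_div, ← add_div,
    div_mul_eq_mul_div, eq_div_iff hjn, hn1]
  simp only [map_add, map_sub, map_mul]
  linear_combination (-(jj q * jj q') * (jj p' + jj q' * ks)) * hprod

/-- **Squares of `ℂ(a,b)` in `ℂ(s,t)`.** -/
theorem isSquare_of_jj {k : Kf} (h : IsSquare (jj k)) :
    IsSquare k ∨ IsSquare (k * (ks ^ 2 - kt)) := by
  obtain ⟨y, hy⟩ := h
  obtain ⟨p, q, rfl⟩ := exists_pres y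
  have hprod : ks * ks = jj k2 * ks - jj kt := by
    rw [jj_k2, jj_prod]
    ring
  have h1 : jj (p ^ 2 - q ^ 2 * kt - k) + jj (2 * p * q + q ^ 2 * k2) * ks = 0 := by
    simp only [map_add, map_sub, map_mul, map_pow, map_ofNat]
    linear_combination -hy - (jj q) ^ 2 * hprod
  obtain ⟨h2, h3⟩ := indep_a h1
  by_cases hq : q = 0
  · left
    refine ⟨p, ?_⟩
    rw [hq] at h2
    linear_combination -h2
  · have h4 : p + q * ks = 0 := by
      have : (2 * q) * (p + q * ks) = 0 := by
        rw [k2_eq] at h3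
        linear_combination h3
      exact (mul_eq_zero.mp this).resolve_left (mul_ne_zero two_ne_zero hq)
    right
    refine ⟨q * (ks ^ 2 - kt), ?_⟩
    linear_combination (-(ks ^ 2 - kt)) * h2 + (ks ^ 2 - kt) * (p - q * ks) * h4

end Pool.Agent.GSX.Sq
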