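import Pool.Agent.GSX.Cub

/-!
# GSX: the node pencil of the cubic

`Cub.herm2`: a second pencil of hermitian forms of the cubic, over `K(√D₂)`, where
`D₂ = tr(B_0 R A_0 R) - (det A_0 + det B_0) det M`, `M = (1, s; s, t)`, `R = adj M`. With
`C_k = det M adj(B_k) - R A_k R` (as in `Cub.c`) one has `det C_0 = - det M D₂`. The pencil consists of
forms `H_m`, `tr(m C_0) = 0`; the generic point is `uu2 = (-adj(C_0) q', lam; J p', 0)`,
`p' = R p`, `q' = J q`.
-/

set_option autoImplicit false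

noncomputable section

namespace Pool.Agent.GSX

open MvPolynomial Matrix Pool.Agent.GSH

namespace Cub

section pencil

variable {K : Type} [Field K] (D : Cub K) (s t : K)

/-- `D₂ = tr(B_0 R A_0 R) - (det A_0 + det B_0) det M` -/
def d2 : K :=
  D.b 0 0 * (t ^ 2 * D.a 0 0 - 2 * s * t * D.a 0 1 + s ^ 2 * D.a 0 2) -
    2 * D.b 0 1 * (s * t * D.a 0 0 - (s ^ 2 + t) * D.a 0 1 + s * D.a 0 2) +
    D.b 0 2 * (s ^ 2 * D.a 0 0 - 2 * s * D.a 0 1 + D.a 0 2) -
    (D.a 0 0 * D.a 0 2 - D.a 0 1 ^ 2 + (D.b 0 0 * D.b 0 2 - D.b 0 1 ^ 2)) * (t - s ^ 2)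

/-- `det C_0 = - det M D₂` -/
theorem det_c : (t - s ^ 2) * D.d2 s t = D.c s t 0 1 ^ 2 - D.c s t 0 0 * D.c s t 0 2 := by
  simp [c, d2]
  ring

/-- the symmetric part of the hermitian form `H_m` -/
def hp2 (m : Fin 3 → K) : Fin 6 → K :=
  ![2 * (t - s ^ 2) * m 2, -(2 * (t - s ^ 2) * m 1),
    D.c s t 0 0 * D.g s t m 4 - D.c s t 0 1 * D.g s t m 3, 2 * (t - s ^ 2) * m 0,
    D.c s t 0 1 * D.g s t m 4 - D.c s t 0 2 * D.g s t m 3,
    2 * (t - s ^ 2) * D.d2 s t * D.g s t m 5]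

/-- the antisymmetric part of the hermitian form `H_m` -/
def hq2 (m : Fin 3 → K) : Fin 3 → K :=
  ![0, t * D.g s t m 2 + s * D.g s t m 1, -(s * D.g s t m 2) - D.g s t m 1]

/-- the node pencil -/
def herm2 : Herm K where
  d := D.d2 s t
  p := fun j => D.hp2 s t (D.m s t j)
  q := fun j => D.hq2 s t (D.m s t j)

end pencil

variable {K Ω : Type} [Field K] [Field Ω] [Algebra K Ω]

/-- the component in `U` of the generic point, for the node pencil -/
def uu2 (D : Cub K) (s t : K) (x : Fin 6 → Ω) : Fin 6 → Ω :=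
  ![-(algebraMap K Ω (D.c s t 0 2) * x 4) - algebraMap K Ω (D.c s t 0 1) * x 3,
    algebraMap K Ω (D.c s t 0 1) * x 4 + algebraMap K Ω (D.c s t 0 0) * x 3, x 5,
    -(algebraMap K Ω s * x 1) + x 2, -(algebraMap K Ω t * x 1) + algebraMap K Ω s * x 2, 0]

variable {D : Cub K} {s t : K} {x : Fin 6 → Ω} {μ : Ω}

/-- the generic point is isotropic -/
theorem Pt.iso2 (h : Pt D s t x μ) (j : Fin 2) :
    bl ((D.herm2 s t).pen.Q j) (D.uu2 s t x) (D.uu2 s t x) = 0 := by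
  have e00 := h.e00
  have e01 := h.e01
  have e11 := h.e11
  have htr : ∑ k, algebraMap K Ω (tr (D.m s t j) (D.c s t k)) * x k =
      algebraMap K Ω (D.m s t j 0) * ∑ k, algebraMap K Ω (D.c s t k 0) * x k +
      2 * algebraMap K Ω (D.m s t j 1) * ∑ k, algebraMap K Ω (D.c s t k 1) * x k +
      algebraMap K Ω (D.m s t j 2) * ∑ k, algebraMap K Ω (D.c s t k 2) * x k := by
    simp only [Finset.mul_sum, ← Finset.sum_add_distrib]
    refine Finset.sum_congr rfl fun k _ => ?_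
    simp only [tr, map_add, map_mul, map_ofNat]
    ring
  rw [Fin.sum_univ_six, D.tr_m s t j, map_zero, zero_mul, zero_add] at htr
  have h2 : algebraMap K Ω 2 = 2 := map_ofNat _ 2
  have hτ := congrArg (algebraMap K Ω) (D.tr_m s t j)
  rw [tr] at hτ
  simp only [map_add, map_mul, map_zero, h2] at hτ
  have hD := congrArg (algebraMap K Ω) (D.det_c s t)
  simp only [map_sub, map_mul, map_pow] at hD
  rw [Herm.bl_Q]
  simp only [Herm.lv, dotProduct, vK, Fin.sum_univ_six, Herm.E, Herm.F, herm2, hp2, hq2, g, uu2]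
  simp [h2]
  generalize (∑ k, algebraMap K Ω (D.c s t k 0) * x k) = Y0 at *
  generalize (∑ k, algebraMap K Ω (D.c s t k 1) * x k) = Y1 at *
  generalize (∑ k, algebraMap K Ω (D.c s t k 2) * x k) = Y2 at *
  set dl := algebraMap K Ω t - algebraMap K Ω s ^ 2 with hdl
  set c0 := algebraMap K Ω (D.c s t 0 0)
  set c1 := algebraMap K Ω (D.c s t 0 1)
  set c2 := algebraMap K Ω (D.c s t 0 2)
  set m0 := algebraMap K Ω (D.m s t j 0)
  set m1 := algebraMap K Ω (D.m s t j 1)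
  set m2 := algebraMap K Ω (D.m s t j 2)
  set D2 := algebraMap K Ω (D.d2 s t)
  linear_combination (-2 * dl * D2) * (m0 * e00 + 2 * m1 * e01 + m2 * e11) +
    2 * dl * D2 * x 5 * htr +
    2 * dl * (c2 * x 4 ^ 2 + 2 * c1 * x 3 * x 4 + c0 * x 3 ^ 2) * hτ -
    (2 * dl * (m0 * x 4 ^ 2 - 2 * m1 * x 3 * x 4 + m2 * x 3 ^ 2) +
      2 * x 5 * (algebraMap K Ω (tr (D.m s t j) (D.c s t 3)) * x 3 +
        algebraMap K Ω (tr (D.m s t j) (D.c s t 4)) * x 4)) * hD

end Cub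

end Pool.Agent.GSX
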