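import Pool.Agent.GSX.Cub

/-!
# GSX: the generic point of the cubic

`KK`: the field of rational functions in two variables `s`, `t` over `ℂ`.
`Gen D x`: `x` is the generic point of `D.F = 0`, normalised by `x 0 = 1`, in a field `Ω`, and `Ω` is a
field over `KK` via `s = m01 / m00`, `t = m11 / m00`, where `m = p pᵀ + q qᵀ + lam (A + B)`.
-/

set_option autoImplicit false

noncomputable section

namespace Pool.Agent.GSX

open MvPolynomial Matrix Pool.Agent.GSH

/-- the field of rational functions in two variables over `ℂ` -/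
abbrev KK : Type := FractionRing (MvPolynomial (Fin 2) ℂ)

/-- the first variable -/
def sK : KK := algebraMap (MvPolynomial (Fin 2) ℂ) KK (X 0)

/-- the second variable -/
def tK : KK := algebraMap (MvPolynomial (Fin 2) ℂ) KK (X 1)

/-- the pencil over `KK` of the cubic with the coefficients `D` -/
def Cub.pen (D : Cub ℂ) : Pen KK := ((D.map (algebraMap ℂ KK)).herm sK tK).pen

/-- the values of the three entries of `p pᵀ + q qᵀ + lam (A + B)` -/
def Cub.mv {Ω : Type} [Field Ω] [Algebra ℂ Ω] (D : Cub ℂ) (x : Fin 6 → Ω) (k : Fin 3) : Ω :=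
  aeval x (base D.A D.B k)

/-- `x` is the generic point of the cubic, and `KK` is embedded in `Ω` as the field of the base. -/
structure Gen (D : Cub ℂ) {Ω : Type} [Field Ω] [Algebra ℂ Ω] [Algebra KK Ω]
    [IsScalarTower ℂ KK Ω] (x : Fin 6 → Ω) : Prop where
  x0 : x 0 = 1
  ker : ∀ (G : S6) (m : ℕ), G.IsHomogeneous m → (aeval x G = 0 ↔ D.F ∣ G)
  hs : D.mv x 0 * algebraMap KK Ω sK = D.mv x 1
  ht : D.mv x 0 * algebraMap KK Ω tK = D.mv x 2
  top : IntermediateField.adjoin ℂ (Set.range x) = ⊤

end Pool.Agent.GSX
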