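import Pool.Agent.GSX.SqCore
import Pool.Agent.GSX.SqKf

/-!
# Squares of the function field of the cubic in the field of the base

`Ω = ℂ(X)` the function field of the cubic `cubF A B = 0` (generic point `x`, `x 0 = 1`),
`K = ℂ(s, t)`, `s ↦ m01 / m00`, `t ↦ m11 / m00`, `m = base A B`. If `det A - det B` contains
`x0 ^ 2` then an element `δ` of `K` which is a square in `Ω` is a square in `K`, or
`δ (s ^ 2 - t)` is (`sq_delta`).
-/

set_option autoImplicit false

namespace Pool.Agent.GSX.Sq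

open MvPolynomial Matrix

/-! ### Homogenisation with `X 0` -/

/-- the homogenisation of degree `n` with `X 0` -/
noncomputable def hz (n : ℕ) (P : S6) : S6 :=
  ∑ i ∈ Finset.range (n + 1), X 0 ^ (n - i) * homogeneousComponent i P

theorem hz_hom (n : ℕ) (P : S6) : (hz n P).IsHomogeneous n := by
  refine IsHomogeneous.sum _ _ _ fun i hi => ?_
  have h1 : ((X 0 : S6) ^ (n - i)).IsHomogeneous (n - i) := by
    have := (isHomogeneous_X ℂ (0 : Fin 6)).pow (n - i)
    rwa [one_mul] at this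
  have h2 := h1.mul (homogeneousComponent_isHomogeneous i P)
  have h3 : n - i + i = n := Nat.sub_add_cancel (by have := Finset.mem_range.mp hi; omega)
  rwa [h3] at h2

theorem aeval_hz {n : ℕ} {P : S6} {L : Type} [Field L] [Algebra ℂ L] {z : Fin 6 → L}
    (z0 : z 0 = 1) (h : P.totalDegree ≤ n) : aeval z (hz n P) = aeval z P := by
  unfold hz
  rw [map_sum]
  have h1 : ∀ i ∈ Finset.range (n + 1), aeval z (X 0 ^ (n - i) * homogeneousComponent i P) =
      aeval z (homogeneousComponent i P) := by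
    intro i _
    rw [map_mul, map_pow, aeval_X, z0, one_pow, one_mul]
  rw [Finset.sum_congr rfl h1, ← map_sum]
  congr 1
  have h2 : ∑ i ∈ Finset.range (n + 1), homogeneousComponent i P =
      ∑ i ∈ Finset.range (P.totalDegree + 1), homogeneousComponent i P := by
    symm
    refine Finset.sum_subset (Finset.range_mono (by omega)) fun i _ hi => ?_
    exact homogeneousComponent_eq_zero _ _ (by simpa using hi)
  rw [h2, sum_homogeneousComponent]

/-! ### The data of `A` and `B` -/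

/-- the part of a linear form free of `x0` -/
noncomputable def low (f : S6) : A5 := ∑ i, C (coeff (Finsupp.single (e5 i) 1) f) * X i

lemma lin_dec {f : S6} (hf : f.IsHomogeneous 1) :
    f = C (coeff (Finsupp.single 0 1) f) * X 0 + io (low f) := by
  refine MvPolynomial.funext fun v => ?_
  rw [eval_lin hf, map_add, map_mul, eval_C, eval_X, low, io, map_sum, map_sum]
  have h : ∀ i : Fin 5, eval v (rename e5 (C (coeff (Finsupp.single (e5 i) 1) f) * X i)) =
      coeff (Finsupp.single (e5 i) 1) f * v (e5 i) := by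
    intro i
    rw [map_mul, rename_C, rename_X, map_mul, eval_C, eval_X]
  rw [Finset.sum_congr rfl fun i _ => h i, Fin.sum_univ_six, Fin.sum_univ_five]
  change _ = _ + (coeff (Finsupp.single 5 1) f * v 5 + coeff (Finsupp.single 1 1) f * v 1 +
    coeff (Finsupp.single 2 1) f * v 2 + coeff (Finsupp.single 3 1) f * v 3 +
    coeff (Finsupp.single 4 1) f * v 4)
  ring

/-- the data -/
noncomputable def dat (A B : Matrix (Fin 2) (Fin 2) S6) : Dat where
  a := ![coeff (Finsupp.single 0 1) (A 0 0), coeff (Finsupp.single 0 1) (A 0 1),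
    coeff (Finsupp.single 0 1) (A 1 1)]
  b := ![coeff (Finsupp.single 0 1) (B 0 0), coeff (Finsupp.single 0 1) (B 0 1),
    coeff (Finsupp.single 0 1) (B 1 1)]
  a' := ![low (A 0 0), low (A 0 1), low (A 1 1)]
  b' := ![low (B 0 0), low (B 0 1), low (B 1 1)]

lemma io_X (i : Fin 5) : io (X i) = X (e5 i) := by
  rw [io, rename_X]

lemma io_C (a : ℂ) : io (C a) = C a := by
  rw [io, rename_C]

theorem FF_dat {A B : Matrix (Fin 2) (Fin 2) S6} (hA : ∀ i j, (A i j).IsHomogeneous 1)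
    (hB : ∀ i j, (B i j).IsHomogeneous 1) (hAs : A 1 0 = A 0 1) (hBs : B 1 0 = B 0 1) :
    FF (dat A B) = cubF A B := by
  have x1 : io (X 1) = X 1 := io_X 1
  have x2 : io (X 2) = X 2 := io_X 2
  have x3 : io (X 3) = X 3 := io_X 3
  have x4 : io (X 4) = X 4 := io_X 4
  have x0 : io (X 0) = X 5 := io_X 0
  unfold cubF
  rw [det_fin_two, det_fin_two, hAs, hBs]
  conv_rhs => rw [lin_dec (hA 0 0), lin_dec (hA 0 1), lin_dec (hA 1 1), lin_dec (hB 0 0),
    lin_dec (hB 0 1), lin_dec (hB 1 1)]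
  unfold FF LL NN del
  change X 5 * C (coeff (Finsupp.single 0 1) (A 0 0) * coeff (Finsupp.single 0 1) (A 1 1) -
    coeff (Finsupp.single 0 1) (A 0 1) ^ 2 - (coeff (Finsupp.single 0 1) (B 0 0) *
    coeff (Finsupp.single 0 1) (B 1 1) - coeff (Finsupp.single 0 1) (B 0 1) ^ 2)) * X 0 ^ 2 +
    io ((C (coeff (Finsupp.single 0 1) (A 1 1)) * X 1 ^ 2 -
    2 * C (coeff (Finsupp.single 0 1) (A 0 1)) * (X 1 * X 2) +
    C (coeff (Finsupp.single 0 1) (A 0 0)) * X 2 ^ 2) -
    (C (coeff (Finsupp.single 0 1) (B 1 1)) * X 3 ^ 2 -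
    2 * C (coeff (Finsupp.single 0 1) (B 0 1)) * (X 3 * X 4) +
    C (coeff (Finsupp.single 0 1) (B 0 0)) * X 4 ^ 2) +
    X 0 * (C (coeff (Finsupp.single 0 1) (A 0 0)) * low (A 1 1) +
      C (coeff (Finsupp.single 0 1) (A 1 1)) * low (A 0 0) -
      2 * C (coeff (Finsupp.single 0 1) (A 0 1)) * low (A 0 1) -
      (C (coeff (Finsupp.single 0 1) (B 0 0)) * low (B 1 1) +
      C (coeff (Finsupp.single 0 1) (B 1 1)) * low (B 0 0) -
      2 * C (coeff (Finsupp.single 0 1) (B 0 1)) * low (B 0 1)))) * X 0 +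
    io ((low (A 1 1) * X 1 ^ 2 - 2 * low (A 0 1) * (X 1 * X 2) + low (A 0 0) * X 2 ^ 2) -
    (low (B 1 1) * X 3 ^ 2 - 2 * low (B 0 1) * (X 3 * X 4) + low (B 0 0) * X 4 ^ 2) +
    X 0 * (low (A 0 0) * low (A 1 1) - low (A 0 1) ^ 2 -
      (low (B 0 0) * low (B 1 1) - low (B 0 1) ^ 2))) = _
  simp only [map_add, map_sub, map_mul, map_pow, map_ofNat, io_C, x0, x1, x2, x3, x4]
  ring

theorem bs_dat {A B : Matrix (Fin 2) (Fin 2) S6} (hA : ∀ i j, (A i j).IsHomogeneous 1)
    (hB : ∀ i j, (B i j).IsHomogeneous 1) : bs (dat A B) = base A B := by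
  have x1 : io (X 1) = X 1 := io_X 1
  have x2 : io (X 2) = X 2 := io_X 2
  have x3 : io (X 3) = X 3 := io_X 3
  have x4 : io (X 4) = X 4 := io_X 4
  have x0 : io (X 0) = X 5 := io_X 0
  funext k
  fin_cases k
  · change io (X 1 ^ 2 + X 3 ^ 2 + X 0 * (low (A 0 0) + low (B 0 0))) +
      C (coeff (Finsupp.single 0 1) (A 0 0) + coeff (Finsupp.single 0 1) (B 0 0)) * (X 5 * X 0) =
      X 1 ^ 2 + X 3 ^ 2 + X 5 * (A 0 0 + B 0 0)
    conv_rhs => rw [lin_dec (hA 0 0), lin_dec (hB 0 0)]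
    simp only [map_add, map_mul, map_pow, x0, x1, x2, x3, x4]
    ring
  · change io (X 1 * X 2 + X 3 * X 4 + X 0 * (low (A 0 1) + low (B 0 1))) +
      C (coeff (Finsupp.single 0 1) (A 0 1) + coeff (Finsupp.single 0 1) (B 0 1)) * (X 5 * X 0) =
      X 1 * X 2 + X 3 * X 4 + X 5 * (A 0 1 + B 0 1)
    conv_rhs => rw [lin_dec (hA 0 1), lin_dec (hB 0 1)]
    simp only [map_add, map_mul, map_pow, x0, x1, x2, x3, x4]
    ring
  · change io (X 2 ^ 2 + X 4 ^ 2 + X 0 * (low (A 1 1) + low (B 1 1))) +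
      C (coeff (Finsupp.single 0 1) (A 1 1) + coeff (Finsupp.single 0 1) (B 1 1)) * (X 5 * X 0) =
      X 2 ^ 2 + X 4 ^ 2 + X 5 * (A 1 1 + B 1 1)
    conv_rhs => rw [lin_dec (hA 1 1), lin_dec (hB 1 1)]
    simp only [map_add, map_mul, map_pow, x0, x1, x2, x3, x4]
    ring

theorem base_hom {A B : Matrix (Fin 2) (Fin 2) S6} (hA : ∀ i j, (A i j).IsHomogeneous 1)
    (hB : ∀ i j, (B i j).IsHomogeneous 1) (k : Fin 3) : (base A B k).IsHomogeneous 2 := by
  have hX : ∀ i, (X i : S6).IsHomogeneous 1 := fun i => isHomogeneous_X ℂ i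
  have h2 : ∀ i j : Fin 6, (X i * X j : S6).IsHomogeneous 2 := fun i j => (hX i).mul (hX j)
  have h3 : ∀ i : Fin 6, (X i ^ 2 : S6).IsHomogeneous 2 := fun i => by
    rw [sq]
    exact h2 i i
  have h4 : ∀ f : S6, f.IsHomogeneous 1 → (X 5 * f : S6).IsHomogeneous 2 := fun f hf =>
    (hX 5).mul hf
  fin_cases k
  · exact ((h3 1).add (h3 3)).add (h4 _ ((hA 0 0).add (hB 0 0)))
  · exact ((h2 1 2).add (h2 3 4)).add (h4 _ ((hA 0 1).add (hB 0 1)))
  · exact ((h3 2).add (h3 4)).add (h4 _ ((hA 1 1).add (hB 1 1)))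

/-! ### The slice -/

/-- the point `(π + π') / 2, (π - π') / 2i`, `π = z (1, a)`, `π' = w (1, b)` -/
noncomputable def sl (z w : ℂ) : Fin 4 → S2 :=
  ![C (1 / 2) * (C z + C w), C (1 / 2) * (C z * X 0 + C w * X 1),
    C (-Complex.I / 2) * (C z - C w), C (-Complex.I / 2) * (C z * X 0 - C w * X 1)]

lemma sl_base (z w : ℂ) (k : Fin 3) : aeval (sl z w) (b0p k) =
    C (z * w) * (![1, C (1 / 2) * (X 0 + X 1), X 0 * X 1] : Fin 3 → S2) k := by
  have hI : (C (-Complex.I / 2) : S2) * C (-Complex.I / 2) = - (C (1 / 2) * C (1 / 2)) := by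
    rw [← C_mul, ← C_mul, ← C_neg]
    congr 1
    linear_combination (1 / 4 : ℂ) * Complex.I_mul_I
  have h2 : (C (1 / 2) : S2) * 2 = 1 := by
    rw [show (2 : S2) = C 2 from (map_ofNat C 2).symm, ← C_mul]
    norm_num
  have a0 : aeval (sl z w) (X 0 : B4) = C (1 / 2) * (C z + C w) := by rw [aeval_X]; rfl
  have a1 : aeval (sl z w) (X 1 : B4) = C (1 / 2) * (C z * X 0 + C w * X 1) := by
    rw [aeval_X]; rfl
  have a2 : aeval (sl z w) (X 2 : B4) = C (-Complex.I / 2) * (C z - C w) := by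
    rw [aeval_X]; rfl
  have a3 : aeval (sl z w) (X 3 : B4) = C (-Complex.I / 2) * (C z * X 0 - C w * X 1) := by
    rw [aeval_X]; rfl
  fin_cases k
  · change aeval (sl z w) (X 0 ^ 2 + X 2 ^ 2) = C (z * w) * 1
    rw [map_add, map_pow, map_pow, a0, a2, C_mul]
    linear_combination (C z - C w) ^ 2 * hI + C z * C w * (C (1 / 2) * 2 + 1) * h2
  · change aeval (sl z w) (X 0 * X 1 + X 2 * X 3) = C (z * w) * (C (1 / 2) * (X 0 + X 1))
    rw [map_add, map_mul, map_mul, a0, a1, a2, a3, C_mul]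
    linear_combination (C z - C w) * (C z * X 0 - C w * X 1) * hI +
      C z * C w * C (1 / 2) * (X 0 + X 1) * h2
  · change aeval (sl z w) (X 1 ^ 2 + X 3 ^ 2) = C (z * w) * (X 0 * X 1)
    rw [map_add, map_pow, map_pow, a1, a3, C_mul]
    linear_combination (C z * X 0 - C w * X 1) ^ 2 * hI +
      C z * C w * X 0 * X 1 * (C (1 / 2) * 2 + 1) * h2

theorem exists_slice {r : B4} (hr : r ≠ 0) :
    ∃ z w : ℂ, z ≠ 0 ∧ w ≠ 0 ∧ aeval (sl z w) r ≠ 0 := by
  have h1 : r * ((X 0 + C Complex.I * X 2) * (X 0 - C Complex.I * X 2)) ≠ 0 := by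
    refine mul_ne_zero hr (mul_ne_zero ?_ ?_)
    · intro h
      have := congrArg (eval ![(1 : ℂ), 0, 0, 0]) h
      simp at this
    · intro h
      have := congrArg (eval ![(1 : ℂ), 0, 0, 0]) h
      simp at this
  obtain ⟨v, hv⟩ : ∃ v, eval v (r * ((X 0 + C Complex.I * X 2) * (X 0 - C Complex.I * X 2))) ≠ 0 := by
    by_contra hc
    push Not at hc
    exact h1 (MvPolynomial.funext fun v => by rw [hc v, map_zero])
  rw [map_mul, map_mul] at hv
  simp only [map_add, map_sub, map_mul, eval_X, eval_C] at hv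
  have hv1 : eval v r ≠ 0 := left_ne_zero_of_mul hv
  have hv2 := right_ne_zero_of_mul hv
  have hz : v 0 + Complex.I * v 2 ≠ 0 := left_ne_zero_of_mul hv2
  have hw : v 0 - Complex.I * v 2 ≠ 0 := right_ne_zero_of_mul hv2
  refine ⟨_, _, hz, hw, fun h0 => hv1 ?_⟩
  set z := v 0 + Complex.I * v 2 with hzd
  set w := v 0 - Complex.I * v 2 with hwd
  have h2 := congrArg (aeval (R := ℂ)
    ![(v 1 + Complex.I * v 3) / z, (v 1 - Complex.I * v 3) / w]) h0
  rw [map_zero] at h2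
  have h3 : ((aeval (R := ℂ) ![(v 1 + Complex.I * v 3) / z, (v 1 - Complex.I * v 3) / w]).comp
      (aeval (sl z w)) : B4 →ₐ[ℂ] ℂ) = aeval v := by
    refine MvPolynomial.algHom_ext fun i => ?_
    rw [AlgHom.comp_apply, aeval_X, aeval_X]
    fin_cases i
    · simp [sl]
      rw [hzd, hwd]
      ring
    · simp [sl]
      rw [mul_div_cancel₀ _ hz, mul_div_cancel₀ _ hw]
      ring
    · simp [sl]
      rw [hzd, hwd]
      linear_combination (-v 2) * Complex.I_mul_I
    · simp [sl]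
      rw [mul_div_cancel₀ _ hz, mul_div_cancel₀ _ hw]
      linear_combination (-v 3) * Complex.I_mul_I
  have h4 := DFunLike.congr_fun h3 r
  rw [AlgHom.comp_apply, h2, aeval_eq_eval] at h4
  exact h4.symm

/-- the polynomial statement: a polynomial `P` in `s, t` whose homogenisation is a square modulo
the cubic is a square in `ℂ(a, b)`, `s = (a + b) / 2`, `t = a b` -/
theorem isSquare_jj (D : Dat) (hD : del D ≠ 0) (hF : Irreducible (FF D)) (P : S2) (n : ℕ)
    (Q : MvPolynomial (Fin 3) ℂ)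
    (hQ : ∀ (N : Type) [Field N] [Algebra ℂ N] (A B G : N), A ≠ 0 →
      A ^ (2 * n) * aeval ![B / A, G / A] P = aeval ![A, B, G] Q)
    (Y Z : S6) (h : FF D ∣ aeval (bs D) Q * Z ^ 2 - Y ^ 2) (hZ : ¬ FF D ∣ Z) :
    IsSquare (jj (algebraMap S2 Kf P)) := by
  obtain ⟨r, w, hr, hw⟩ := core D hD hF Q Y Z h hZ
  obtain ⟨z, z', hz, hz', hr'⟩ := exists_slice hr
  have h1 := congrArg (fun f => algebraMap S2 Kf (aeval (sl z z') f)) hw
  simp only [map_mul, map_pow] at h1
  have hinj := IsFractionRing.injective S2 Kf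
  set A : Kf := algebraMap S2 Kf (C (z * z')) with hA
  have hA0 : A ≠ 0 := by
    rw [hA]
    intro h0
    have h2 := hinj (h0.trans (map_zero _).symm)
    exact mul_ne_zero hz hz' (C_eq_zero.mp h2)
  have hr0 : algebraMap S2 Kf (aeval (sl z z') r) ≠ 0 := fun h0 =>
    hr' (hinj (h0.trans (map_zero _).symm))
  set s1 : Kf := algebraMap S2 Kf (C (1 / 2) * (X 0 + X 1)) with hs1
  set s2 : Kf := algebraMap S2 Kf (X 0 * X 1) with hs2
  have h3 : algebraMap S2 Kf (aeval (sl z z') (aeval b0p Q)) = aeval ![A, A * s1, A * s2] Q := by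
    have h4 : ((IsScalarTower.toAlgHom ℂ S2 Kf).comp ((aeval (sl z z')).comp (aeval b0p)) :
        MvPolynomial (Fin 3) ℂ →ₐ[ℂ] Kf) = aeval ![A, A * s1, A * s2] := by
      refine MvPolynomial.algHom_ext fun k => ?_
      rw [AlgHom.comp_apply, AlgHom.comp_apply, aeval_X, sl_base, aeval_X]
      change algebraMap S2 Kf _ = _
      rw [map_mul]
      fin_cases k
      · change A * algebraMap S2 Kf 1 = A
        rw [map_one, mul_one]
      · rfl
      · rfl
    exact DFunLike.congr_fun h4 Q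
  have h5 : aeval ![A, A * s1, A * s2] Q = A ^ (2 * n) * algebraMap S2 Kf (jp P) := by
    rw [← hQ Kf A (A * s1) (A * s2) hA0, mul_div_cancel_left₀ _ hA0, mul_div_cancel_left₀ _ hA0]
    congr 1
    have h6 : (aeval ![s1, s2] : S2 →ₐ[ℂ] Kf) = (IsScalarTower.toAlgHom ℂ S2 Kf).comp jp := by
      refine MvPolynomial.algHom_ext fun k => ?_
      rw [AlgHom.comp_apply, jp, aeval_X, aeval_X]
      fin_cases k
      · rfl
      · rfl
    rw [h6]
    rfl
  rw [h3, h5] at h1
  rw [jj_algebraMap]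
  refine ⟨algebraMap S2 Kf (aeval (sl z z') w) / (algebraMap S2 Kf (aeval (sl z z') r) * A ^ n), ?_⟩
  rw [div_mul_div_comm, eq_div_iff (mul_ne_zero (mul_ne_zero hr0 (pow_ne_zero _ hA0))
    (mul_ne_zero hr0 (pow_ne_zero _ hA0)))]
  linear_combination -h1

/-- **Squares of `ℂ(X)` in the field of the base.** -/
theorem sq_delta {A B : Matrix (Fin 2) (Fin 2) S6} (hA : ∀ i j, (A i j).IsHomogeneous 1)
    (hB : ∀ i j, (B i j).IsHomogeneous 1) (hAs : A 1 0 = A 0 1) (hBs : B 1 0 = B 0 1)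
    (hdet : coeff (Finsupp.single 0 1) (A 0 0) * coeff (Finsupp.single 0 1) (A 1 1) -
      coeff (Finsupp.single 0 1) (A 0 1) ^ 2 ≠ coeff (Finsupp.single 0 1) (B 0 0) *
      coeff (Finsupp.single 0 1) (B 1 1) - coeff (Finsupp.single 0 1) (B 0 1) ^ 2)
    (hF : Irreducible (cubF A B)) {Ω : Type} [Field Ω] [Algebra ℂ Ω] {x : Fin 6 → Ω}
    (x0 : x 0 = 1)
    (hker : ∀ (G : S6) (m : ℕ), G.IsHomogeneous m → (aeval x G = 0 ↔ cubF A B ∣ G))
    (hgen : IntermediateField.adjoin ℂ (Set.range x) = ⊤)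
    [Algebra Kf Ω] [IsScalarTower ℂ Kf Ω]
    (hm : aeval x (base A B 0) ≠ 0)
    (hs : algebraMap Kf Ω ks = aeval x (base A B 1) / aeval x (base A B 0))
    (ht : algebraMap Kf Ω kt = aeval x (base A B 2) / aeval x (base A B 0))
    {δ : Kf} (h : IsSquare (algebraMap Kf Ω δ)) :
    IsSquare δ ∨ IsSquare (δ * (ks ^ 2 - kt)) := by
  have hD : del (dat A B) ≠ 0 := sub_ne_zero.mpr hdet
  have hFF := FF_dat hA hB hAs hBs
  have hbs := bs_dat hA hB
  obtain ⟨P1, P2, hP2, rfl⟩ := IsFractionRing.div_surjective (A := S2) δ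
  have hP2' : algebraMap S2 Kf P2 ≠ 0 := by
    intro h0
    exact nonZeroDivisors.ne_zero hP2
      ((IsFractionRing.injective S2 Kf) (h0.trans (map_zero _).symm))
  set P : S2 := P1 * P2 with hP
  have hδ : algebraMap S2 Kf P1 / algebraMap S2 Kf P2 =
      algebraMap S2 Kf P / algebraMap S2 Kf P2 ^ 2 := by
    rw [hP, map_mul]
    field_simp
  obtain ⟨y, hy⟩ := h
  set m : Fin 3 → Ω := fun k => aeval x (base A B k) with hmd
  -- the image of `P`
  have hσ : algebraMap Kf Ω (algebraMap S2 Kf P) = aeval ![m 1 / m 0, m 2 / m 0] P := by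
    have h1 : ((IsScalarTower.toAlgHom ℂ Kf Ω).comp (IsScalarTower.toAlgHom ℂ S2 Kf) :
        S2 →ₐ[ℂ] Ω) = aeval ![m 1 / m 0, m 2 / m 0] := by
      refine MvPolynomial.algHom_ext fun k => ?_
      rw [AlgHom.comp_apply, aeval_X]
      fin_cases k
      · exact hs
      · exact ht
    exact DFunLike.congr_fun h1 P
  obtain ⟨n, Q, hQh, hQ⟩ := hom3 P
  have h1 := hQ Ω (m 0) (m 1) (m 2) hm
  rw [← hσ] at h1
  have h2 : aeval ![m 0, m 1, m 2] Q = aeval x (aeval (base A B) Q) := by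
    have h3 : (aeval ![m 0, m 1, m 2] : MvPolynomial (Fin 3) ℂ →ₐ[ℂ] Ω) =
        (aeval x).comp (aeval (base A B)) := by
      refine MvPolynomial.algHom_ext fun k => ?_
      rw [AlgHom.comp_apply, aeval_X, aeval_X]
      fin_cases k <;> rfl
    exact DFunLike.congr_fun h3 Q
  rw [h2] at h1
  -- the square root
  have hP2'' : algebraMap Kf Ω (algebraMap S2 Kf P2) ≠ 0 := (map_ne_zero _).mpr hP2'
  set u : Ω := m 0 ^ n * (y * algebraMap Kf Ω (algebraMap S2 Kf P2)) with hu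
  have hu2 : u ^ 2 = aeval x (aeval (base A B) Q) := by
    rw [← h1, hu]
    have h3 : algebraMap Kf Ω (algebraMap S2 Kf P) =
        y * y * algebraMap Kf Ω (algebraMap S2 Kf P2) ^ 2 := by
      rw [← hy, ← map_pow, ← map_mul]
      congr 1
      rw [hP, map_mul]
      field_simp
    rw [h3]
    ring
  have humem : u ∈ IntermediateField.adjoin ℂ (Set.range x) := by
    rw [hgen]
    trivial
  obtain ⟨Y, Z, hYZ⟩ := (IntermediateField.mem_adjoin_range_iff ℂ x u).1 humem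
  have hcase : ∃ Y Z : S6, aeval x Z ≠ 0 ∧ u * aeval x Z = aeval x Y := by
    by_cases hZ0 : aeval x Z = 0
    · refine ⟨0, 1, by rw [map_one]; exact one_ne_zero, ?_⟩
      rw [hYZ, hZ0, div_zero, zero_mul, map_zero]
    · exact ⟨Y, Z, hZ0, by rw [hYZ, div_mul_cancel₀ _ hZ0]⟩
  obtain ⟨Y, Z, hZ0, hYZ⟩ := hcase
  set d := max Y.totalDegree Z.totalDegree with hd
  have hY1 : aeval x (hz (d + 2 * n) Y) = aeval x Y :=
    aeval_hz x0 (le_trans (le_max_left _ _) (Nat.le_add_right _ _))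
  have hZ1 : aeval x (hz d Z) = aeval x Z := aeval_hz x0 (le_max_right _ _)
  have hhom : (aeval (base A B) Q * hz d Z ^ 2 - hz (d + 2 * n) Y ^ 2).IsHomogeneous
      (2 * (d + 2 * n)) := by
    have h3 : (aeval (base A B) Q).IsHomogeneous (2 * (2 * n)) := by
      have := hQh.aeval (fun k => base A B k) (fun k => base_hom hA hB k)
      exact this
    have h4 := h3.mul ((hz_hom d Z).pow 2)
    have h5 := (hz_hom (d + 2 * n) Y).pow 2
    rw [show 2 * (2 * n) + d * 2 = 2 * (d + 2 * n) by ring] at h4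
    rw [show (d + 2 * n) * 2 = 2 * (d + 2 * n) by ring] at h5
    exact h4.sub h5
  have hdvd : cubF A B ∣ aeval (base A B) Q * hz d Z ^ 2 - hz (d + 2 * n) Y ^ 2 := by
    rw [← hker _ _ hhom, map_sub, map_mul, map_pow, map_pow, hZ1, hY1, ← hu2, ← hYZ]
    ring
  have hZ2 : ¬ cubF A B ∣ hz d Z := by
    rw [← hker _ _ (hz_hom d Z), hZ1]
    exact hZ0
  have hfin := isSquare_jj (dat A B) hD (by rw [hFF]; exact hF) P n Q hQ (hz (d + 2 * n) Y)
    (hz d Z) (by rw [hFF, hbs]; exact hdvd) (by rw [hFF]; exact hZ2)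
  rw [hδ]
  rcases isSquare_of_jj hfin with h3 | h3
  · left
    obtain ⟨c, hc⟩ := h3
    refine ⟨c / algebraMap S2 Kf P2, ?_⟩
    rw [hc]
    field_simp
  · right
    obtain ⟨c, hc⟩ := h3
    refine ⟨c / algebraMap S2 Kf P2, ?_⟩
    rw [div_mul_eq_mul_div, hc]
    field_simp

end Pool.Agent.GSX.Sq
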