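import Pool.Agent.GSX.GenK

/-!
# GSX: the generic point lies over the base; rationality of the point from its component in `U`

`Gen.pt`: the generic point `x` of the cubic is a point over `(1 : s : t)`.
`Gen.top_of`: if a field `T` over `KK` contains the ratios of the component in `U`, then `T = Ω`.
-/

set_option autoImplicit false

noncomputable section

namespace Pool.Agent.GSX

open MvPolynomial Matrix Pool.Agent.GSH

variable {D : Cub ℂ} {Ω : Type} [Field Ω] [Algebra ℂ Ω] [Algebra KK Ω]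
  [IsScalarTower ℂ KK Ω] {x : Fin 6 → Ω}

theorem aeval_lin (c : Fin 6 → ℂ) :
    aeval x (lin c) = ∑ k, algebraMap KK Ω (algebraMap ℂ KK (c k)) * x k := by
  unfold lin
  rw [map_sum]
  refine Finset.sum_congr rfl fun k _ => ?_
  rw [map_mul, aeval_X, aeval_C, ← IsScalarTower.algebraMap_apply]

theorem mv0 (D : Cub ℂ) : D.mv x 0 = x 1 ^ 2 + x 3 ^ 2 +
    x 5 * ((D.map (algebraMap ℂ KK)).va x 0 + (D.map (algebraMap ℂ KK)).vb x 0) := by
  have h1 : D.mv x 0 = aeval x (X 1 ^ 2 + X 3 ^ 2 + X 5 * (D.A 0 0 + D.B 0 0) : S6) := rfl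
  rw [h1, D.A00, D.B00]
  simp only [map_add, map_mul, map_pow, aeval_X]
  rw [aeval_lin, aeval_lin]
  rfl

theorem mv1 (D : Cub ℂ) : D.mv x 1 = x 1 * x 2 + x 3 * x 4 +
    x 5 * ((D.map (algebraMap ℂ KK)).va x 1 + (D.map (algebraMap ℂ KK)).vb x 1) := by
  have h1 : D.mv x 1 = aeval x (X 1 * X 2 + X 3 * X 4 + X 5 * (D.A 0 1 + D.B 0 1) : S6) := rfl
  rw [h1, D.A01, D.B01]
  simp only [map_add, map_mul, aeval_X]
  rw [aeval_lin, aeval_lin]
  rfl

theorem mv2 (D : Cub ℂ) : D.mv x 2 = x 2 ^ 2 + x 4 ^ 2 +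
    x 5 * ((D.map (algebraMap ℂ KK)).va x 2 + (D.map (algebraMap ℂ KK)).vb x 2) := by
  have h1 : D.mv x 2 = aeval x (X 2 ^ 2 + X 4 ^ 2 + X 5 * (D.A 1 1 + D.B 1 1) : S6) := rfl
  rw [h1, D.A11, D.B11]
  simp only [map_add, map_mul, map_pow, aeval_X]
  rw [aeval_lin, aeval_lin]
  rfl

theorem aeval_F (D : Cub ℂ) : aeval x D.F =
    ((D.map (algebraMap ℂ KK)).va x 2 * x 1 ^ 2 -
      2 * (D.map (algebraMap ℂ KK)).va x 1 * (x 1 * x 2) +
      (D.map (algebraMap ℂ KK)).va x 0 * x 2 ^ 2) -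
    ((D.map (algebraMap ℂ KK)).vb x 2 * x 3 ^ 2 -
      2 * (D.map (algebraMap ℂ KK)).vb x 1 * (x 3 * x 4) +
      (D.map (algebraMap ℂ KK)).vb x 0 * x 4 ^ 2) +
    x 5 * (((D.map (algebraMap ℂ KK)).va x 0 * (D.map (algebraMap ℂ KK)).va x 2 -
        (D.map (algebraMap ℂ KK)).va x 1 ^ 2) -
      ((D.map (algebraMap ℂ KK)).vb x 0 * (D.map (algebraMap ℂ KK)).vb x 2 -
        (D.map (algebraMap ℂ KK)).vb x 1 ^ 2)) := by
  have a0 : aeval x (D.A 0 0) = (D.map (algebraMap ℂ KK)).va x 0 := by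
    rw [D.A00, aeval_lin]; rfl
  have a1 : aeval x (D.A 0 1) = (D.map (algebraMap ℂ KK)).va x 1 := by
    rw [D.A01, aeval_lin]; rfl
  have a1' : aeval x (D.A 1 0) = (D.map (algebraMap ℂ KK)).va x 1 := by
    rw [D.A10, aeval_lin]; rfl
  have a2 : aeval x (D.A 1 1) = (D.map (algebraMap ℂ KK)).va x 2 := by
    rw [D.A11, aeval_lin]; rfl
  have b0 : aeval x (D.B 0 0) = (D.map (algebraMap ℂ KK)).vb x 0 := by
    rw [D.B00, aeval_lin]; rfl
  have b1 : aeval x (D.B 0 1) = (D.map (algebraMap ℂ KK)).vb x 1 := by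
    rw [D.B01, aeval_lin]; rfl
  have b1' : aeval x (D.B 1 0) = (D.map (algebraMap ℂ KK)).vb x 1 := by
    rw [D.B10, aeval_lin]; rfl
  have b2 : aeval x (D.B 1 1) = (D.map (algebraMap ℂ KK)).vb x 2 := by
    rw [D.B11, aeval_lin]; rfl
  unfold Cub.F cubF
  rw [Matrix.det_fin_two, Matrix.det_fin_two]
  simp only [map_add, map_sub, map_mul, map_pow, aeval_X, map_ofNat, a0, a1, a1', a2, b0, b1,
    b1', b2]
  ring

theorem Cub.F_hom (D : Cub ℂ) : D.F.IsHomogeneous 3 := by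
  have hX : ∀ i j : Fin 6, (X i * X j : S6).IsHomogeneous 2 := fun i j =>
    (isHomogeneous_X ℂ i).mul (isHomogeneous_X ℂ j)
  have hX2 : ∀ i : Fin 6, (X i ^ 2 : S6).IsHomogeneous 2 := fun i => by
    rw [pow_two]; exact hX i i
  have h2 : ∀ f : S6, f.IsHomogeneous 1 → (2 * f).IsHomogeneous 1 := by
    intro f hf
    have h3 : (2 : S6) * f = f + f := two_mul f
    rw [h3]
    exact hf.add hf
  unfold Cub.F cubF
  rw [Matrix.det_fin_two, Matrix.det_fin_two]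
  exact ((((((D.A_hom 1 1).mul (hX2 1)).sub ((h2 _ (D.A_hom 0 1)).mul (hX 1 2))).add
    ((D.A_hom 0 0).mul (hX2 2)))).sub
    ((((D.B_hom 1 1).mul (hX2 3)).sub ((h2 _ (D.B_hom 0 1)).mul (hX 3 4))).add
    ((D.B_hom 0 0).mul (hX2 4)))).add ((isHomogeneous_X ℂ 5).mul
    ((((D.A_hom 0 0).mul (D.A_hom 1 1)).sub ((D.A_hom 0 1).mul (D.A_hom 1 0))).sub
    (((D.B_hom 0 0).mul (D.B_hom 1 1)).sub ((D.B_hom 0 1).mul (D.B_hom 1 0)))))

/-- the generic point is a point over `(1 : s : t)` -/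
theorem Gen.pt (hG : Gen D x) (h0 : D.a 0 ≠ 0) :
    Cub.Pt (D.map (algebraMap ℂ KK)) sK tK x (D.mv x 0) where
  ne := hG.m0_ne h0
  h0 := mv0 D
  h1 := by rw [hG.hs, mv1]
  h2 := by rw [hG.ht, mv2]
  hF := by rw [← aeval_F]; exact (hG.ker _ 3 D.F_hom).2 dvd_rfl

/-- the entry 00 of `C_0` -/
theorem c00_ne (h0 : D.a 0 ≠ 0) : (D.map (algebraMap ℂ KK)).c sK tK 0 0 ≠ 0 := by
  intro h
  have h1 : (D.map (algebraMap ℂ KK)).c sK tK 0 0 = algebraMap (MvPolynomial (Fin 2) ℂ) KK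
      ((X 1 - X 0 ^ 2) * C (D.b 0 2) - (X 1 ^ 2 * C (D.a 0 0) - 2 * X 0 * X 1 * C (D.a 0 1) +
        X 0 ^ 2 * C (D.a 0 2))) := by
    have hC : ∀ z : ℂ, algebraMap (MvPolynomial (Fin 2) ℂ) KK (C z) = algebraMap ℂ KK z := by
      intro z
      rw [IsScalarTower.algebraMap_apply ℂ (MvPolynomial (Fin 2) ℂ) KK, MvPolynomial.algebraMap_eq]
    simp only [map_sub, map_add, map_mul, map_pow, map_ofNat, hC]
    rfl
  rw [h1] at h
  have h2 := (IsFractionRing.injective (MvPolynomial (Fin 2) ℂ) KK) (h.trans (map_zero _).symm)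
  have e1 := congrArg (eval ![0, 1]) h2
  have e2 := congrArg (eval ![0, 2]) h2
  have e3 := congrArg (eval ![1, 0]) h2
  have e4 := congrArg (eval ![1, 1]) h2
  simp at e1 e2 e3 e4
  have k0 : D.a 0 0 = 0 := by linear_combination e1 - e2 / 2
  have kb : D.b 0 2 = 0 := by linear_combination 2 * e1 - e2 / 2
  have k2 : D.a 0 2 = 0 := by linear_combination -e3 - kb
  have k1 : D.a 0 1 = 0 := by linear_combination e4 / 2 + k0 / 2 + k2 / 2
  apply h0
  funext i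
  fin_cases i
  · exact k0
  · exact k1
  · exact k2

/-- a field over `KK` which contains the ratios of the component in `U` is the whole field -/
theorem Gen.top_of (hG : Gen D x) (h0 : D.a 0 ≠ 0) (T : IntermediateField KK Ω) {c : Ω}
    (hc : c ≠ 0) (hT : ∀ i, c * Cub.uu sK tK x i ∈ T) : T = ⊤ := by
  have hs : algebraMap KK Ω sK ∈ T := T.algebraMap_mem _
  have ht : algebraMap KK Ω tK ∈ T := T.algebraMap_mem _
  have hd0 : algebraMap KK Ω tK - algebraMap KK Ω sK ^ 2 ≠ 0 := by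
    have h1 : algebraMap KK Ω (tK - sK ^ 2) ≠ 0 := by
      intro h
      exact dK_ne ((algebraMap KK Ω).injective (h.trans (map_zero _).symm))
    rwa [map_sub, map_pow] at h1
  have hd : algebraMap KK Ω tK - algebraMap KK Ω sK ^ 2 ∈ T := sub_mem ht (pow_mem hs 2)
  have u0 : c * (algebraMap KK Ω tK * x 1 - algebraMap KK Ω sK * x 2) ∈ T := hT 0
  have u1 : c * (-(algebraMap KK Ω sK * x 1) + x 2) ∈ T := hT 1
  have u2 : c * x 5 ∈ T := hT 2
  have u3 : c * x 4 ∈ T := hT 3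
  have u4 : c * (-x 3) ∈ T := hT 4
  have c3 : c * x 3 ∈ T := by
    have h1 : c * x 3 = -(c * (-x 3)) := by ring
    rw [h1]
    exact neg_mem u4
  have c1 : c * x 1 ∈ T := by
    have h1 : c * x 1 = (c * (algebraMap KK Ω tK * x 1 - algebraMap KK Ω sK * x 2) +
        algebraMap KK Ω sK * (c * (-(algebraMap KK Ω sK * x 1) + x 2))) /
        (algebraMap KK Ω tK - algebraMap KK Ω sK ^ 2) := by
      rw [eq_div_iff hd0]
      ring
    rw [h1]
    exact div_mem (add_mem u0 (mul_mem hs u1)) hd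
  have c2 : c * x 2 ∈ T := by
    have h1 : c * x 2 = (algebraMap KK Ω sK * (c * (algebraMap KK Ω tK * x 1 -
        algebraMap KK Ω sK * x 2)) +
        algebraMap KK Ω tK * (c * (-(algebraMap KK Ω sK * x 1) + x 2))) /
        (algebraMap KK Ω tK - algebraMap KK Ω sK ^ 2) := by
      rw [eq_div_iff hd0]
      ring
    rw [h1]
    exact div_mem (add_mem (mul_mem hs u0) (mul_mem ht u1)) hd
  have hx5 := hG.x5_ne h0
  have r : ∀ y : Ω, c * y ∈ T → y / x 5 ∈ T := by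
    intro y hy
    have h1 : y / x 5 = (c * y) / (c * x 5) := by field_simp
    rw [h1]
    exact div_mem hy u2
  -- `x 0 / x 5`
  have e00 := (hG.pt h0).e00
  rw [Fin.sum_univ_six] at e00
  have hcc : algebraMap KK Ω ((D.map (algebraMap ℂ KK)).c sK tK 0 0) ≠ 0 := by
    intro h
    exact c00_ne h0 ((algebraMap KK Ω).injective (h.trans (map_zero _).symm))
  have hal : ∀ k, algebraMap KK Ω ((D.map (algebraMap ℂ KK)).c sK tK k 0) ∈ T := fun k =>
    T.algebraMap_mem _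
  set γ := fun k => algebraMap KK Ω ((D.map (algebraMap ℂ KK)).c sK tK k 0) with hγ
  have h1 : x 0 / x 5 = ((algebraMap KK Ω tK * (x 1 / x 5) -
      algebraMap KK Ω sK * (x 2 / x 5)) ^ 2 - (algebraMap KK Ω tK - algebraMap KK Ω sK ^ 2) *
      (x 4 / x 5) ^ 2 - (γ 1 * (x 1 / x 5) + γ 2 * (x 2 / x 5) + γ 3 * (x 3 / x 5) +
      γ 4 * (x 4 / x 5) + γ 5)) / γ 0 := by
    rw [eq_div_iff hcc]
    field_simp
    linear_combination -e00
  have h2 : x 0 / x 5 ∈ T := by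
    rw [h1]
    refine div_mem (sub_mem (sub_mem (pow_mem (sub_mem (mul_mem ht (r _ c1))
      (mul_mem hs (r _ c2))) 2) (mul_mem hd (pow_mem (r _ u3) 2))) ?_) (hal 0)
    exact add_mem (add_mem (add_mem (add_mem (mul_mem (hal 1) (r _ c1))
      (mul_mem (hal 2) (r _ c2))) (mul_mem (hal 3) (r _ c3))) (mul_mem (hal 4) (r _ u3))) (hal 5)
  rw [hG.x0] at h2
  have h3 : ∀ i, x i ∈ T := by
    have h4 : ∀ y : Ω, y / x 5 ∈ T → y ∈ T := by
      intro y hy
      have h5 : y = (y / x 5) / (1 / x 5) := by field_simp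
      rw [h5]
      exact div_mem hy h2
    intro i
    fin_cases i
    · show x 0 ∈ T
      rw [hG.x0]; exact one_mem _
    · exact h4 _ (r _ c1)
    · exact h4 _ (r _ c2)
    · exact h4 _ (r _ c3)
    · exact h4 _ (r _ u3)
    · exact h4 _ (r _ u2)
  have h4 : (⊤ : IntermediateField ℂ Ω) ≤ T.restrictScalars ℂ := by
    rw [← hG.top, IntermediateField.adjoin_le_iff]
    rintro _ ⟨i, rfl⟩
    exact h3 i
  rw [eq_top_iff]
  intro y _
  exact h4 (IntermediateField.mem_top)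

end Pool.Agent.GSX
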