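import Pool.Agent.GSX.GSq
import Pool.Agent.GSX.GenX

/-!
# GSX: existence of the generic point

`exists_gen`: the field of rational functions of an irreducible cubic `D.F = 0`, as a field over
`KK = ℂ(s, t)`.
-/

set_option autoImplicit false

noncomputable section

namespace Pool.Agent.GSX

open MvPolynomial Matrix Pool.Agent.GSH

/-- forms in the entries of the base do not vanish at the generic point -/
private theorem base_ne' {D : Cub ℂ} (h0 : D.a 0 ≠ 0) {Ω : Type} [Field Ω] [Algebra ℂ Ω]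
    {x : Fin 6 → Ω}
    (hker : ∀ (G : S6) (m : ℕ), G.IsHomogeneous m → (aeval x G = 0 ↔ D.F ∣ G))
    {P : MvPolynomial (Fin 3) ℂ} {n : ℕ} (hP : P.IsHomogeneous n) (hP0 : P ≠ 0) :
    aeval (fun k => aeval x (base D.A D.B k)) P ≠ 0 := by
  intro h1
  rw [← comp_aeval_apply] at h1
  have h2 : (aeval (base D.A D.B) P).IsHomogeneous (2 * n) := hP.aeval _ (base_hom D)
  rw [hker _ _ h2] at h1
  have h3 := indep D.A_hom D.B_hom (D.A10.trans D.A01.symm) (D.B10.trans D.B01.symm)
    (Cub.exists_coeff h0) ![0, 0, 0, 0, P] (by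
    rw [Fin.sum_univ_five]
    simp only [Matrix.cons_val_zero, Matrix.cons_val_one, Matrix.cons_val, map_zero, zero_mul,
      zero_add]
    exact h1.mul_right _)
  exact hP0 (h3 4)

/-- the homogenisation of a nonzero polynomial is not zero -/
theorem hom3_ne {P : Sq.S2} (hP : P ≠ 0) {n : ℕ} {Q : MvPolynomial (Fin 3) ℂ}
    (hQ : ∀ (N : Type) [Field N] [Algebra ℂ N] (A B G : N), A ≠ 0 →
      A ^ (2 * n) * aeval ![B / A, G / A] P = aeval ![A, B, G] Q) : Q ≠ 0 := by
  rintro rfl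
  apply hP
  refine MvPolynomial.funext fun v => ?_
  have h1 := hQ ℂ 1 (v 0) (v 1) one_ne_zero
  rw [map_zero, one_pow, one_mul, div_one, div_one] at h1
  have h2 : ![v 0, v 1] = v := by
    funext i
    fin_cases i <;> rfl
  rw [h2, aeval_eq_eval] at h1
  rw [map_zero]
  exact h1

/-- the function field of an irreducible form of degree 3, normalised by `x 0 = 1` -/
theorem exists_pt {F : S6} (hF : F.IsHomogeneous 3) (hirr : Irreducible F) :
    ∃ (Ω : Type) (_ : Field Ω) (_ : Algebra ℂ Ω) (x : Fin 6 → Ω), x 0 = 1 ∧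
      (∀ (G : S6) (m : ℕ), G.IsHomogeneous m → (aeval x G = 0 ↔ F ∣ G)) ∧
      IntermediateField.adjoin ℂ (Set.range x) = ⊤ := by
  haveI hpr : (Ideal.span {F}).IsPrime :=
    (Ideal.span_singleton_prime hirr.ne_zero).2 hirr.prime
  let Q := S6 ⧸ Ideal.span {F}
  let L := FractionRing Q
  let ι : S6 →ₐ[ℂ] L := (IsScalarTower.toAlgHom ℂ Q L).comp (Ideal.Quotient.mkₐ ℂ (Ideal.span {F}))
  have hι0 : ∀ G : S6, ι G = 0 ↔ F ∣ G := by
    intro G
    change algebraMap Q L (Ideal.Quotient.mk _ G) = 0 ↔ _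
    rw [map_eq_zero_iff _ (IsFractionRing.injective Q L), Ideal.Quotient.eq_zero_iff_mem,
      Ideal.mem_span_singleton]
  have hX0 : ι (X 0) ≠ 0 := by
    rw [Ne, hι0]
    rintro ⟨H, hH⟩
    have hH0 : H ≠ 0 := by
      rintro rfl
      rw [mul_zero] at hH
      exact X_ne_zero _ hH
    have h1 := congrArg totalDegree hH
    rw [totalDegree_X, totalDegree_mul_of_isDomain hirr.ne_zero hH0,
      hF.totalDegree hirr.ne_zero] at h1
    omega
  let x : Fin 6 → L := fun i => ι (X i) / ι (X 0)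
  have x0 : x 0 = 1 := div_self hX0
  have hker : ∀ (G : S6) (m : ℕ), G.IsHomogeneous m → (aeval x G = 0 ↔ F ∣ G) := by
    intro G m hG
    rw [← hι0]
    have h1 := PLN.aeval_smul_hom hG (ι (X 0)) x
    have h2 : aeval (fun i => ι (X 0) * x i) G = ι G := by
      have h3 : aeval (fun i => ι (X 0) * x i) = ι := by
        refine MvPolynomial.algHom_ext fun i => ?_
        rw [aeval_X]
        exact mul_div_cancel₀ _ hX0
      rw [h3]
    rw [h2] at h1
    rw [h1]
    constructor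
    · intro h3
      rw [h3, mul_zero]
    · intro h3
      rcases mul_eq_zero.1 h3 with h4 | h4
      · exact absurd h4 (pow_ne_zero _ hX0)
      · exact h4
  let Ω := IntermediateField.adjoin ℂ (Set.range x)
  let y : Fin 6 → Ω := fun i => ⟨x i, IntermediateField.subset_adjoin _ _ ⟨i, rfl⟩⟩
  have hy : ∀ G : S6, ((aeval y G : Ω) : L) = aeval x G := by
    intro G
    have h1 : Ω.val.comp (aeval y) = aeval x := by
      refine MvPolynomial.algHom_ext fun i => ?_
      rw [AlgHom.comp_apply, aeval_X, aeval_X]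
      rfl
    exact DFunLike.congr_fun h1 G
  refine ⟨Ω, inferInstance, inferInstance, y, Subtype.ext x0, fun G m hG => ?_, ?_⟩
  · rw [← hker G m hG, ← hy]
    exact (ZeroMemClass.coe_eq_zero (x := aeval y G)).symm
  · rw [eq_top_iff]
    intro z _
    obtain ⟨r, s, hrs⟩ := (IntermediateField.mem_adjoin_range_iff ℂ x (z : L)).1 z.2
    refine (IntermediateField.mem_adjoin_range_iff ℂ y z).2 ⟨r, s, ?_⟩
    apply Subtype.ext
    rw [hrs, ← hy, ← hy]
    rfl

/-- **Existence of the generic point.** -/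
theorem exists_gen {D : Cub ℂ} (hn : D.NonDeg) (hirr : Irreducible D.F) :
    ∃ (Ω : Type) (_ : Field Ω) (_ : Algebra ℂ Ω) (_ : Algebra KK Ω) (_ : IsScalarTower ℂ KK Ω)
      (x : Fin 6 → Ω), Gen D x := by
  obtain ⟨Ω, _, _, x, x0, hker, htop⟩ := exists_pt D.F_hom hirr
  set m : Fin 3 → Ω := fun k => aeval x (base D.A D.B k) with hmd
  have hm0 : m 0 ≠ 0 := by
    have h1 := base_ne' hn.a0 hker (isHomogeneous_X ℂ (0 : Fin 3)) (X_ne_zero 0)
    rwa [aeval_X] at h1
  let τ : MvPolynomial (Fin 2) ℂ →ₐ[ℂ] Ω := aeval ![m 1 / m 0, m 2 / m 0]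
  have hτ : Function.Injective τ := by
    rw [injective_iff_map_eq_zero]
    intro P hP
    by_contra hP0
    obtain ⟨n, Q, hQh, hQ⟩ := Sq.hom3 P
    have h1 := hQ Ω (m 0) (m 1) (m 2) hm0
    change m 0 ^ (2 * n) * τ P = _ at h1
    rw [hP, mul_zero] at h1
    refine base_ne' hn.a0 hker hQh (hom3_ne hP0 hQ) ?_
    rw [h1]
    congr 2
    funext k
    fin_cases k <;> rfl
  let σ : KK →+* Ω := IsFractionRing.lift (g := (τ : MvPolynomial (Fin 2) ℂ →+* Ω)) hτ
  have hσ : ∀ P : MvPolynomial (Fin 2) ℂ, σ (algebraMap _ KK P) = τ P := fun P =>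
    IsFractionRing.lift_algebraMap hτ P
  letI : Algebra KK Ω := σ.toAlgebra
  haveI : IsScalarTower ℂ KK Ω := by
    refine IsScalarTower.of_algebraMap_eq fun a => ?_
    change algebraMap ℂ Ω a = σ (algebraMap (MvPolynomial (Fin 2) ℂ) KK (C a))
    rw [hσ]
    exact (τ.commutes a).symm
  refine ⟨Ω, inferInstance, inferInstance, inferInstance, inferInstance, x, x0, hker, ?_, ?_, htop⟩
  · change m 0 * σ (algebraMap _ KK (X 0)) = m 1
    rw [hσ]
    change m 0 * aeval ![m 1 / m 0, m 2 / m 0] (X 0) = m 1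
    rw [aeval_X]
    exact mul_div_cancel₀ _ hm0
  · change m 0 * σ (algebraMap _ KK (X 1)) = m 2
    rw [hσ]
    change m 0 * aeval ![m 1 / m 0, m 2 / m 0] (X 1) = m 2
    rw [aeval_X]
    exact mul_div_cancel₀ _ hm0

end Pool.Agent.GSX
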