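import Pool.Agent.GSX.XiNe

/-!
# GSX: the component in `L` of the generic point is not zero, conclusion

`Gen.xi_ne`, and the summary `Gen.partX`.
-/

set_option autoImplicit false

noncomputable section

namespace Pool.Agent.GSX

open MvPolynomial Matrix Pool.Agent.GSH

namespace Cub

section nat

variable {K K' : Type} [Field K] [Field K'] (f : K →+* K') (D : Cub K) (s t : K)

theorem map_c (k : Fin 6) (i : Fin 3) : f (D.c s t k i) = (D.map f).c (f s) (f t) k i := by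
  have e2 : f 2 = 2 := map_ofNat _ 2
  fin_cases i <;> simp [c, Cub.map, e2]

theorem map_m (j : Fin 2) (i : Fin 3) : f (D.m s t j i) = (D.map f).m (f s) (f t) j i := by
  have e2 : f 2 = 2 := map_ofNat _ 2
  have h := D.map_c f s t 0
  fin_cases j
  · fin_cases i
    · simp [m, ← h, e2]
    · simp [m, ← h]
    · simp [m]
  · fin_cases i
    · simp [m, ← h]
    · simp [m]
    · simp [m, ← h]

theorem map_g (j : Fin 2) (k : Fin 6) : f (D.g s t (D.m s t j) k) =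
    (D.map f).g (f s) (f t) ((D.map f).m (f s) (f t) j) k := by
  have e2 : f 2 = 2 := map_ofNat _ 2
  simp only [g, tr, map_add, map_mul, e2, D.map_c f s t, D.map_m f s t]

theorem map_d : f (D.herm s t).d = ((D.map f).herm (f s) (f t)).d := by
  show f (t - s ^ 2) = f t - f s ^ 2
  rw [map_sub, map_pow]

theorem map_p (j : Fin 2) (i : Fin 6) : f ((D.herm s t).p j i) =
    ((D.map f).herm (f s) (f t)).p j i := by
  have e2 : f 2 = 2 := map_ofNat _ 2
  have hm := D.map_m f s t j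
  have hg := D.map_g f s t j
  show f (D.hp s t (D.m s t j) i) = (D.map f).hp (f s) (f t) ((D.map f).m (f s) (f t) j) i
  fin_cases i <;> simp [hp, ← hm, ← hg, e2]

theorem map_q (j : Fin 2) (i : Fin 3) : f ((D.herm s t).q j i) =
    ((D.map f).herm (f s) (f t)).q j i := by
  have hg := D.map_g f s t j
  show f (D.hq s t (D.m s t j) i) = (D.map f).hq (f s) (f t) ((D.map f).m (f s) (f t) j) i
  fin_cases i <;> simp [hq, ← hg]

theorem map_E (j : Fin 2) (i : Fin 3) (k : Fin 6) : f ((D.herm s t).E j i k) =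
    ((D.map f).herm (f s) (f t)).E j i k := by
  have hp := D.map_p f s t j
  have hq := D.map_q f s t j
  have hd := D.map_d f s t
  fin_cases i <;> fin_cases k <;> simp [Herm.E, ← hp, ← hq, ← hd]

theorem map_F (j : Fin 2) (i : Fin 3) (k : Fin 6) : f ((D.herm s t).F j i k) =
    ((D.map f).herm (f s) (f t)).F j i k := by
  have hp := D.map_p f s t j
  have hq := D.map_q f s t j
  fin_cases i <;> fin_cases k <;> simp [Herm.F, ← hp, ← hq]

end nat

/-- the coefficients of `a` as a linear form in `x 1, …, x 5` -/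
def al {K : Type} [Field K] (s t : K) (a : Fin 6 → K) : Fin 5 → K :=
  ![a 0 * t - a 1 * s, a 1 - a 0 * s, -a 4, a 3, a 2]

theorem map_al {K K' : Type} [Field K] [Field K'] (f : K →+* K') (s t : K) (a : Fin 6 → K)
    (k : Fin 5) : f (al s t a k) = al (f s) (f t) (fun i => f (a i)) k := by
  fin_cases k <;> simp [al]

theorem lv_uu {K Ω : Type} [Field K] [Field Ω] [Algebra K Ω] (s t : K) (a : Fin 6 → K)
    (x : Fin 6 → Ω) : Herm.lv a (uu s t x) = ∑ k : Fin 5, algebraMap K Ω (al s t a k) *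
      x k.succ := by
  rw [Fin.sum_univ_five]
  simp only [Herm.lv, dotProduct, vK, Fin.sum_univ_six, uu, al]
  simp
  have e1 : x ((0 : Fin 5).succ) = x 1 := rfl
  have e2 : x ((1 : Fin 5).succ) = x 2 := rfl
  have e3 : x ((2 : Fin 5).succ) = x 3 := rfl
  have e4 : x ((3 : Fin 5).succ) = x 4 := rfl
  have e5 : x ((4 : Fin 5).succ) = x 5 := rfl
  ring

/-- the coefficients of the real part of the last component of the cross product -/
def cc {K : Type} [Field K] (H : Herm K) (s t : K) (k : Fin 5 × Fin 5) : K :=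
  al s t (H.E 0 0) k.1 * al s t (H.E 1 1) k.2 - al s t (H.E 0 1) k.1 * al s t (H.E 1 0) k.2 +
    H.d * (al s t (H.F 0 0) k.1 * al s t (H.F 1 1) k.2 -
      al s t (H.F 0 1) k.1 * al s t (H.F 1 0) k.2)

theorem bl_cc {K Ω : Type} [Field K] [Field Ω] [Algebra K Ω] [CharZero K] (H : Herm K)
    (s t : K) (x : Fin 6 → Ω) : bl (H.crR 2) (uu s t x) (uu s t x) =
      ∑ k, algebraMap K Ω (cc H s t k) * (x k.1.succ * x k.2.succ) := by
  have e5 : (2 : Fin 3) + 1 = 0 := rfl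
  have e6 : (2 : Fin 3) + 2 = 1 := rfl
  have h := H.bl_crR 2 (uu s t x)
  rw [e5, e6] at h
  rw [h]
  have h1 : ∀ a b : Fin 6 → K, Herm.lv a (uu s t x) * Herm.lv b (uu s t x) =
      ∑ k : Fin 5 × Fin 5, algebraMap K Ω (al s t a k.1 * al s t b k.2) *
        (x k.1.succ * x k.2.succ) := by
    intro a b
    rw [lv_uu, lv_uu, Finset.sum_mul_sum, Fintype.sum_prod_type]
    refine Finset.sum_congr rfl fun i _ => Finset.sum_congr rfl fun j _ => ?_
    rw [map_mul]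
    ring
  rw [h1, h1, h1, h1, ← Finset.sum_sub_distrib, ← Finset.sum_sub_distrib, Finset.mul_sum,
    ← Finset.sum_add_distrib]
  refine Finset.sum_congr rfl fun k _ => ?_
  simp only [cc, map_add, map_sub, map_mul]
  ring

end Cub

/-- the value of the numerator at `lam = 0` -/
theorem val4 {K : Type} [Field K] [CharZero K] (D : Cub K) {s t y0 y1 y2 y3 : K}
    (h0 : y0 ^ 2 + y2 ^ 2 ≠ 0) (hs : s = (y0 * y1 + y2 * y3) / (y0 ^ 2 + y2 ^ 2))
    (ht : t = (y1 ^ 2 + y3 ^ 2) / (y0 ^ 2 + y2 ^ 2)) :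
    bl ((D.herm s t).crR 2) (Cub.uu s t ![0, y0, y1, y2, y3, 0])
      (Cub.uu s t ![0, y0, y1, y2, y3, 0]) =
    -8 * (t - s ^ 2) ^ 4 * D.c s t 0 0 *
      ((D.a 0 2 * y0 ^ 2 - 2 * D.a 0 1 * (y0 * y1) + D.a 0 0 * y1 ^ 2) -
      (D.b 0 2 * y2 ^ 2 - 2 * D.b 0 1 * (y2 * y3) + D.b 0 0 * y3 ^ 2)) := by
  have r1 : (t * y0 - s * y1) ^ 2 = (t - s ^ 2) * y3 ^ 2 := by
    rw [hs, ht]; field_simp; ring
  have r2 : (t * y0 - s * y1) * (-(s * y0) + y1) = -(t - s ^ 2) * (y2 * y3) := by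
    rw [hs, ht]; field_simp; ring
  have r3 : (-(s * y0) + y1) ^ 2 = (t - s ^ 2) * y2 ^ 2 := by
    rw [hs, ht]; field_simp; ring
  have q1 : (t * y2 - s * y3) ^ 2 = (t - s ^ 2) * y1 ^ 2 := by
    rw [hs, ht]; field_simp; ring
  have q2 : (t * y2 - s * y3) * (-(s * y2) + y3) = -(t - s ^ 2) * (y0 * y1) := by
    rw [hs, ht]; field_simp; ring
  have q3 : (-(s * y2) + y3) ^ 2 = (t - s ^ 2) * y0 ^ 2 := by
    rw [hs, ht]; field_simp; ring
  have e5 : (2 : Fin 3) + 1 = 0 := rfl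
  have e6 : (2 : Fin 3) + 2 = 1 := rfl
  have h := (D.herm s t).bl_crR 2 (Cub.uu s t ![0, y0, y1, y2, y3, 0])
  rw [e5, e6] at h
  rw [h]
  have hγ : D.c s t 0 0 * y2 ^ 2 + 2 * D.c s t 0 1 * (y2 * y3) + D.c s t 0 2 * y3 ^ 2 =
      -(t - s ^ 2) * ((D.a 0 2 * y0 ^ 2 - 2 * D.a 0 1 * (y0 * y1) + D.a 0 0 * y1 ^ 2) -
      (D.b 0 2 * y2 ^ 2 - 2 * D.b 0 1 * (y2 * y3) + D.b 0 0 * y3 ^ 2)) := by
    simp only [Cub.c]
    simp
    linear_combination -D.a 0 0 * q1 - 2 * D.a 0 1 * q2 - D.a 0 2 * q3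
  simp only [Herm.lv, dotProduct, vK, Fin.sum_univ_six, Herm.E, Herm.F, Cub.herm, Cub.hp,
    Cub.hq, Cub.m, Cub.uu]
  simp
  linear_combination 4 * (t - s ^ 2) ^ 2 * D.c s t 0 0 *
    (D.c s t 0 0 * r3 - 2 * D.c s t 0 1 * r2 + D.c s t 0 2 * r1) +
    8 * (t - s ^ 2) ^ 3 * D.c s t 0 0 * hγ

variable {D : Cub ℂ} {Ω : Type} [Field Ω] [Algebra ℂ Ω] [Algebra KK Ω]
  [IsScalarTower ℂ KK Ω] {x : Fin 6 → Ω}

theorem kapD (D : Cub ℂ) : (D.map (algebraMap ℂ KK)).map kap = D.map (algebraMap ℂ K4) := by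
  unfold Cub.map
  simp only [kap_C]

/-- the numerator of the component in `L` is not zero -/
theorem Gen.crR_ne (hG : Gen D x) (h0 : D.a 0 ≠ 0) :
    bl (((D.map (algebraMap ℂ KK)).herm sK tK).crR 2) (Cub.uu sK tK x) (Cub.uu sK tK x) ≠ 0 := by
  intro h
  rw [Cub.bl_cc] at h
  have h1 := hG.place h0 _ h
  set D' := D.map (algebraMap ℂ K4) with hD'
  have hc : ∀ k, kap (Cub.cc ((D.map (algebraMap ℂ KK)).herm sK tK) sK tK k) =
      Cub.cc (D'.herm (kap sK) (kap tK)) (kap sK) (kap tK) k := by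
    intro k
    unfold Cub.cc
    simp only [map_add, map_sub, map_mul, Cub.map_al, Cub.map_E, Cub.map_F, Cub.map_d, kapD]
    rfl
  have h2 := Cub.bl_cc (D'.herm (kap sK) (kap tK)) (kap sK) (kap tK)
    (![0, yK 0, yK 1, yK 2, yK 3, 0] : Fin 6 → K4)
  have h3 : ∑ k : Fin 5 × Fin 5, algebraMap K4 K4 (Cub.cc (D'.herm (kap sK) (kap tK)) (kap sK)
      (kap tK) k) * ((![0, yK 0, yK 1, yK 2, yK 3, 0] : Fin 6 → K4) k.1.succ *
      (![0, yK 0, yK 1, yK 2, yK 3, 0] : Fin 6 → K4) k.2.succ) = 0 := by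
    refine Eq.trans (Finset.sum_congr rfl fun k _ => ?_) h1
    rw [hc, Algebra.algebraMap_self, RingHom.id_apply]
    obtain ⟨k1, k2⟩ := k
    have e : ∀ k : Fin 5, (![0, yK 0, yK 1, yK 2, yK 3, 0] : Fin 6 → K4) k.succ = yy k := by
      intro k
      fin_cases k <;> rfl
    rw [e, e]
  rw [h3] at h2
  have hb0 : (yK 0 ^ 2 + yK 2 ^ 2 : K4) = bK 0 := by
    simp [yK, bK, b4]
  have hb1 : (yK 0 * yK 1 + yK 2 * yK 3 : K4) = bK 1 := by
    simp [yK, bK, b4]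
  have hb2 : (yK 1 ^ 2 + yK 3 ^ 2 : K4) = bK 2 := by
    simp [yK, bK, b4]
  rw [val4 D' (y0 := yK 0) (y1 := yK 1) (y2 := yK 2) (y3 := yK 3)
    (by rw [hb0]; exact bK0_ne) (by rw [hb0, hb1]; exact kap_s)
    (by rw [hb0, hb2]; exact kap_t)] at h2
  have hd : kap tK - kap sK ^ 2 ≠ 0 := by
    rw [← map_pow, ← map_sub]
    intro h5
    exact dK_ne (kap.injective (h5.trans (map_zero _).symm))
  have hc0 : D'.c (kap sK) (kap tK) 0 0 ≠ 0 := by
    rw [hD', ← kapD, ← Cub.map_c]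
    intro h5
    exact c00_ne h0 (kap.injective (h5.trans (map_zero _).symm))
  have hφ : (D'.a 0 2 * yK 0 ^ 2 - 2 * D'.a 0 1 * (yK 0 * yK 1) + D'.a 0 0 * yK 1 ^ 2) -
      (D'.b 0 2 * yK 2 ^ 2 - 2 * D'.b 0 1 * (yK 2 * yK 3) + D'.b 0 0 * yK 3 ^ 2) ≠ 0 := by
    have hC : ∀ z : ℂ, algebraMap R4 K4 (C z) = algebraMap ℂ K4 z := by
      intro z
      rw [IsScalarTower.algebraMap_apply ℂ R4 K4, MvPolynomial.algebraMap_eq]
    have e1 : algebraMap R4 K4 (phK D) = (D'.a 0 2 * yK 0 ^ 2 -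
        2 * D'.a 0 1 * (yK 0 * yK 1) + D'.a 0 0 * yK 1 ^ 2) -
        (D'.b 0 2 * yK 2 ^ 2 - 2 * D'.b 0 1 * (yK 2 * yK 3) + D'.b 0 0 * yK 3 ^ 2) := by
      unfold phK yK
      simp only [map_add, map_sub, map_mul, map_pow, map_ofNat, hC]
      rfl
    rw [← e1]
    intro h5
    exact phK_ne h0 (alg4_inj (h5.trans (map_zero _).symm))
  refine mul_ne_zero (mul_ne_zero (mul_ne_zero ?_ (pow_ne_zero _ hd)) hc0) hφ h2
  norm_num

/-- **Part X.** The generic point of the cubic and the pencil over the field of the base. -/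
theorem Gen.partX (hG : Gen D x) (h0 : D.a 0 ≠ 0) :
    ∃ w ∈ D.pen.W Ω, pU w = Cub.uu sK tK x ∧ pL w ≠ 0 ∧ pU w ≠ 0 ∧ ND D.pen.S (pU w) ∧
      (∃ θ : Fin 6 → KK, θ ≠ 0 ∧ vK θ ⬝ᵥ pU w = 0) ∧
      ∀ (T : IntermediateField KK Ω) (c : Ω), c ≠ 0 → (∀ i, c * pU w i ∈ T) → T = ⊤ := by
  have h2 : Cub.uu sK tK x 2 ≠ 0 := hG.x5_ne h0
  refine ⟨Sum.elim (((D.map (algebraMap ℂ KK)).herm sK tK).xi (Cub.uu sK tK x))
    (Cub.uu sK tK x), ?_, rfl, ?_, ?_, hG.nd h0, ⟨Pi.single 5 1, ?_, ?_⟩, ?_⟩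
  · exact ((D.map (algebraMap ℂ KK)).herm sK tK).mem_W (hG.pt h0).iso rfl h2
  · intro h
    have h3 := congrFun h 0
    have h4 : bl (((D.map (algebraMap ℂ KK)).herm sK tK).crR 2) (Cub.uu sK tK x)
      (Cub.uu sK tK x) / Cub.uu sK tK x 2 = 0 := h3
    exact div_ne_zero (hG.crR_ne h0) h2 h4
  · intro h
    exact h2 (congrFun h 2)
  · intro h
    have h3 := congrFun h 5
    rw [Pi.single_eq_same] at h3
    exact one_ne_zero h3
  · have h3 : (vK (Pi.single 5 1 : Fin 6 → KK) : Fin 6 → Ω) = Pi.single 5 1 := by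
      funext i
      unfold vK
      by_cases hi : i = 5
      · rw [hi, Pi.single_eq_same, Pi.single_eq_same, map_one]
      · rw [Pi.single_eq_of_ne hi, Pi.single_eq_of_ne hi, map_zero]
    rw [h3, single_one_dotProduct]
    rfl
  · intro T c hc hT
    exact hG.top_of h0 T hc hT

end Pool.Agent.GSX
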