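import Pool.Agent.GSX.Indep

/-!
# GSX: the determinant of the base is not a square on the cubic (generic arc)

`det_nsq`: `F = cubF A B` irreducible, `m = base A B`. If `F` divides
`z₁ ^ 2 - z₂ ^ 2 (m₀ m₂ - m₁ ^ 2)` then `F` divides `z₂`. Hypothesis: the forms `pᵀ adj(A) p` and
`pᵀ adj(B) p` are not proportional on the points `(x, p, c p, 0)`.

Proof: for general complex numbers `p₀, p₁, c, s` there is a formal arc
`(ξ(t), p₀, p₁, c p₀, c p₁ + s t, t)` on `F = 0` along which the determinant has order one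
(`arc_one`), so `z₂` vanishes on the arc. Eliminating `X₀` from `F` and `z₂` (`elim`) one obtains a
polynomial which vanishes on all these arcs, hence everywhere.
-/

set_option autoImplicit false

namespace Pool.Agent.GSX

section Elim

open Polynomial

/-- elimination of one variable from a prime polynomial and a polynomial which it does not
divide -/
theorem elim {R : Type} [CommRing R] [IsDomain R] [UniqueFactorizationMonoid R] {f g : R[X]}
    (hf : Irreducible f) (hd : f.natDegree ≠ 0) (hg : ¬ f ∣ g) :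
    ∃ (u v : R[X]) (r : R), r ≠ 0 ∧ u * f + v * g = C r := by
  classical
  set K := FractionRing R
  have hinj : Function.Injective (Polynomial.map (algebraMap R K)) :=
    Polynomial.map_injective _ (IsFractionRing.injective R K)
  have hfK : Irreducible (f.map (algebraMap R K)) :=
    ((hf.isPrimitive hd).irreducible_iff_irreducible_map_fraction_map (K := K)).1 hf
  have hsm : ∀ (b : R) (p : R[X]), (b • p).map (algebraMap R K) =
      b • p.map (algebraMap R K) := by
    intro b p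
    rw [Polynomial.smul_eq_C_mul, Polynomial.map_mul, Polynomial.map_C]
    rw [Algebra.smul_def]
    rfl
  have hgK : ¬ f.map (algebraMap R K) ∣ g.map (algebraMap R K) := by
    rintro ⟨h, hh⟩
    obtain ⟨b, hb, hb'⟩ := IsLocalization.integerNormalization_spec (nonZeroDivisors R) h
    apply hg
    have h1 : b • g = f * IsLocalization.integerNormalization (nonZeroDivisors R) h := by
      apply hinj
      rw [hsm, hh, Polynomial.map_mul, hb', mul_smul_comm]
    have h2 : f ∣ C b * g := ⟨_, by rw [← Polynomial.smul_eq_C_mul, h1]⟩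
    rcases hf.prime.dvd_or_dvd h2 with h3 | h3
    · exfalso
      apply hd
      have h4 : C b ≠ 0 := by
        rw [Ne, C_eq_zero]
        exact nonZeroDivisors.ne_zero hb
      have h5 := natDegree_le_of_dvd h3 h4
      rw [natDegree_C] at h5
      omega
    · exact h3
  obtain ⟨a, c, hac⟩ := hfK.coprime_iff_not_dvd.2 hgK
  obtain ⟨b1, hb1, hb1'⟩ := IsLocalization.integerNormalization_spec (nonZeroDivisors R) a
  obtain ⟨b2, hb2, hb2'⟩ := IsLocalization.integerNormalization_spec (nonZeroDivisors R) c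
  refine ⟨b2 • IsLocalization.integerNormalization (nonZeroDivisors R) a,
    b1 • IsLocalization.integerNormalization (nonZeroDivisors R) c, b1 * b2,
    mul_ne_zero (nonZeroDivisors.ne_zero hb1) (nonZeroDivisors.ne_zero hb2), ?_⟩
  apply hinj
  rw [Polynomial.map_add, Polynomial.map_mul, Polynomial.map_mul, hsm, hsm, hb1', hb2',
    Polynomial.map_C]
  have h1 : b2 • b1 • a * Polynomial.map (algebraMap R K) f +
      b1 • b2 • c * Polynomial.map (algebraMap R K) g =
      (b1 * b2) • (a * Polynomial.map (algebraMap R K) f +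
        c * Polynomial.map (algebraMap R K) g) := by
    simp only [Algebra.smul_def, map_mul]
    ring
  rw [h1, hac, Algebra.smul_def, mul_one]
  rfl

end Elim

section Series

open PowerSeries

/-- a root of a quadratic polynomial with leading coefficient divisible by `t` and invertible
linear coefficient -/
theorem root {k : Type} [Field k] (e : k⟦X⟧) {L N : k⟦X⟧} (hL : constantCoeff L ≠ 0) :
    ∃ ξ : k⟦X⟧, X * e * ξ ^ 2 + L * ξ + N = 0 := by
  have hmem : ∀ a : k⟦X⟧, a ∈ Ideal.span {(X : k⟦X⟧)} ↔ constantCoeff a = 0 := fun a => by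
    rw [Ideal.mem_span_singleton, X_dvd_iff]
  set f : Polynomial k⟦X⟧ := Polynomial.X ^ 2 + Polynomial.C L * Polynomial.X +
    Polynomial.C (X * e * N) with hf
  have hm : f.Monic := by
    have h1 : f = Polynomial.X ^ 2 + (Polynomial.C L * Polynomial.X +
        Polynomial.C (X * e * N)) := by rw [hf, add_assoc]
    rw [h1]
    refine Polynomial.monic_X_pow_add ?_
    refine lt_of_le_of_lt (Polynomial.degree_linear_le) ?_
    norm_num
  have h1 : f.eval 0 ∈ Ideal.span {(X : k⟦X⟧)} := by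
    rw [hmem, hf]
    simp
  have h2 : IsUnit (Ideal.Quotient.mk (Ideal.span {(X : k⟦X⟧)}) (f.derivative.eval 0)) := by
    apply IsUnit.map
    rw [isUnit_iff_constantCoeff, hf]
    simpa using hL
  have : HenselianRing k⟦X⟧ (Ideal.span {(X : k⟦X⟧)}) := IsAdicComplete.henselianRing _ _
  obtain ⟨y, hy, hy0⟩ := HenselianRing.is_henselian _ hm 0 h1 h2
  rw [sub_zero, hmem] at hy0
  have h3 : y ^ 2 + L * y + X * e * N = 0 := by
    have h4 : f.eval y = 0 := hy
    rw [hf] at h4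
    simpa using h4
  have h4 : IsUnit (y + L) := by
    rw [isUnit_iff_constantCoeff, map_add, hy0, zero_add]
    exact hL.isUnit
  obtain ⟨w, hw⟩ := h4.exists_right_inv
  refine ⟨-(N * w), ?_⟩
  linear_combination (N * w ^ 2) * h3 + (-N - N * w * y - N * w * L + L * N * w) * hw

/-- `2 * order` is even -/
theorem odd_order {k : Type} [Field k] {z₁ z₂ D : k⟦X⟧} (hD : constantCoeff D ≠ 0)
    (h : z₁ ^ 2 = z₂ ^ 2 * (X * D)) : z₂ = 0 := by
  by_contra hz
  have hD0 : D ≠ 0 := by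
    rintro rfl
    exact hD (map_zero _)
  have hz1 : z₁ ≠ 0 := by
    rintro rfl
    rw [zero_pow (by norm_num)] at h
    exact mul_ne_zero (pow_ne_zero 2 hz) (mul_ne_zero X_ne_zero hD0) h.symm
  have h1 := congrArg order h
  have hDo : D.order = 0 := by
    have := coeff_order hD0
    rw [← nonpos_iff_eq_zero]
    apply order_le
    rwa [coeff_zero_eq_constantCoeff_apply]
  rw [order_mul, order_mul, order_pow, order_pow, order_X, hDo, add_zero] at h1
  obtain ⟨n, hn⟩ := ENat.ne_top_iff_exists.1 (fun h => hz1 (order_eq_top.1 h))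
  obtain ⟨m, hm⟩ := ENat.ne_top_iff_exists.1 (fun h => hz (order_eq_top.1 h))
  rw [← hn, ← hm] at h1
  have h2 : 2 * n = 2 * m + 1 := by
    have : ((2 * n : ℕ) : ℕ∞) = ((2 * m + 1 : ℕ) : ℕ∞) := by
      push_cast
      simpa [nsmul_eq_mul] using h1
    exact_mod_cast this
  omega

end Series

open MvPolynomial Matrix

/-- a linear form at a point of a commutative algebra -/
theorem aeval_lin {f : S6} (hf : f.IsHomogeneous 1) {T : Type} [CommRing T] [Algebra ℂ T]
    (v : Fin 6 → T) : aeval v f = ∑ i, algebraMap ℂ T (coeff (Finsupp.single i 1) f) * v i := by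
  have h1 : f = ∑ i, C (coeff (Finsupp.single i 1) f) * X i := by
    refine MvPolynomial.funext fun w => ?_
    rw [eval_lin hf, map_sum]
    refine Finset.sum_congr rfl fun i _ => ?_
    rw [map_mul, eval_C, eval_X]
  conv_lhs => rw [h1]
  rw [map_sum]
  refine Finset.sum_congr rfl fun i _ => ?_
  rw [map_mul, aeval_X, ← algebraMap_eq, AlgHom.commutes]

/-- the form `pᵀ adj(M) p` at the point `v` -/
noncomputable def frm (M : Matrix (Fin 2) (Fin 2) S6) (v : Fin 6 → ℂ) : ℂ :=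
  eval v (M 1 1) * v 1 ^ 2 - 2 * eval v (M 0 1) * (v 1 * v 2) + eval v (M 0 0) * v 2 ^ 2

/-- the points with `lam = 0`, `q = c p` -/
def pq (x p0 p1 c : ℂ) : Fin 6 → ℂ := ![x, p0, p1, c * p0, c * p1, 0]

/-- the arc -/
noncomputable def arcv (ξ : PowerSeries ℂ) (p0 p1 c s : ℂ) : Fin 6 → PowerSeries ℂ :=
  ![ξ, PowerSeries.C p0, PowerSeries.C p1, PowerSeries.C c * PowerSeries.C p0,
    PowerSeries.C c * PowerSeries.C p1 + PowerSeries.C s * PowerSeries.X, PowerSeries.X]

/-- the cubic form has a zero on a formal arc along which the determinant of the base has order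
one -/
theorem arc_one {A B : Matrix (Fin 2) (Fin 2) S6} (hA : ∀ i j, (A i j).IsHomogeneous 1)
    (hB : ∀ i j, (B i j).IsHomogeneous 1) (hAs : A 1 0 = A 0 1) (hBs : B 1 0 = B 0 1)
    {p0 p1 c : ℂ} (s : ℂ) (hc : 1 + c ^ 2 ≠ 0)
    (hL : frm A (pq 1 p0 p1 c) - frm A (pq 0 p0 p1 c) -
      c ^ 2 * (frm B (pq 1 p0 p1 c) - frm B (pq 0 p0 p1 c)) ≠ 0)
    (hE : frm A (pq 1 p0 p1 c) * frm B (pq 0 p0 p1 c) -
      frm A (pq 0 p0 p1 c) * frm B (pq 1 p0 p1 c) ≠ 0) :
    ∃ ξ D : PowerSeries ℂ, PowerSeries.constantCoeff D ≠ 0 ∧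
      aeval (arcv ξ p0 p1 c s) (cubF A B) = 0 ∧
      aeval (arcv ξ p0 p1 c s) (base A B 0 * base A B 2 - base A B 1 ^ 2) =
        PowerSeries.X * D := by
  -- the linear forms on the arc
  have hl : ∀ {f : S6}, f.IsHomogeneous 1 → ∀ ξ, aeval (arcv ξ p0 p1 c s) f =
      PowerSeries.C (coeff (Finsupp.single 0 1) f) * ξ + aeval (arcv 0 p0 p1 c s) f := by
    intro f hf ξ
    rw [aeval_lin hf, aeval_lin hf, Fin.sum_univ_six, Fin.sum_univ_six]
    simp only [arcv]
    simp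
    ring
  have hk : ∀ {f : S6}, f.IsHomogeneous 1 →
      PowerSeries.constantCoeff (aeval (arcv 0 p0 p1 c s) f) = eval (pq 0 p0 p1 c) f := by
    intro f hf
    rw [aeval_lin hf, eval_lin hf, map_sum]
    refine Finset.sum_congr rfl fun i _ => ?_
    rw [map_mul]
    congr 1
    fin_cases i <;> simp [arcv, pq]
  have hx : ∀ {f : S6}, f.IsHomogeneous 1 → eval (pq 1 p0 p1 c) f =
      coeff (Finsupp.single 0 1) f + eval (pq 0 p0 p1 c) f := by
    intro f hf
    rw [eval_lin hf, eval_lin hf, Fin.sum_univ_six, Fin.sum_univ_six]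
    simp [pq]
    ring
  set a11 := coeff (Finsupp.single 0 1) (A 1 1) with ha11
  set a01 := coeff (Finsupp.single 0 1) (A 0 1) with ha01
  set a00 := coeff (Finsupp.single 0 1) (A 0 0) with ha00
  set b11 := coeff (Finsupp.single 0 1) (B 1 1) with hb11
  set b01 := coeff (Finsupp.single 0 1) (B 0 1) with hb01
  set b00 := coeff (Finsupp.single 0 1) (B 0 0) with hb00
  set A11 := aeval (arcv 0 p0 p1 c s) (A 1 1) with hA11
  set A01 := aeval (arcv 0 p0 p1 c s) (A 0 1) with hA01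
  set A00 := aeval (arcv 0 p0 p1 c s) (A 0 0) with hA00
  set B11 := aeval (arcv 0 p0 p1 c s) (B 1 1) with hB11
  set B01 := aeval (arcv 0 p0 p1 c s) (B 0 1) with hB01
  set B00 := aeval (arcv 0 p0 p1 c s) (B 0 0) with hB00
  have kA11 := hk (hA 1 1)
  have kA01 := hk (hA 0 1)
  have kA00 := hk (hA 0 0)
  have kB11 := hk (hB 1 1)
  have kB01 := hk (hB 0 1)
  have kB00 := hk (hB 0 0)
  rw [← hA11] at kA11
  rw [← hA01] at kA01
  rw [← hA00] at kA00
  rw [← hB11] at kB11
  rw [← hB01] at kB01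
  rw [← hB00] at kB00
  simp only [frm, hx (hA 1 1), hx (hA 0 1), hx (hA 0 0), hx (hB 1 1), hx (hB 0 1),
    hx (hB 0 0), ← ha11, ← ha01, ← ha00, ← hb11, ← hb01, ← hb00] at hL hE
  have e1 : ∀ x, pq x p0 p1 c 1 = p0 := fun x => rfl
  have e2 : ∀ x, pq x p0 p1 c 2 = p1 := fun x => rfl
  simp only [e1, e2, ← kA11, ← kA01, ← kA00, ← kB11, ← kB01, ← kB00] at hL hE
  -- the coefficients of the equation of `x0`
  set P0 : PowerSeries ℂ := PowerSeries.C p0 with hP0
  set P1 : PowerSeries ℂ := PowerSeries.C p1 with hP1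
  set Q0 : PowerSeries ℂ := PowerSeries.C c * P0 with hQ0
  set Q1 : PowerSeries ℂ := PowerSeries.C c * P1 + PowerSeries.C s * PowerSeries.X with hQ1
  set e : PowerSeries ℂ := PowerSeries.C (a00 * a11 - a01 * a01 - (b00 * b11 - b01 * b01)) with he
  set L : PowerSeries ℂ := (PowerSeries.C a11 * P0 ^ 2 - 2 * PowerSeries.C a01 * (P0 * P1) +
      PowerSeries.C a00 * P1 ^ 2) - (PowerSeries.C b11 * Q0 ^ 2 -
      2 * PowerSeries.C b01 * (Q0 * Q1) + PowerSeries.C b00 * Q1 ^ 2) +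
      PowerSeries.X * (PowerSeries.C a00 * A11 + PowerSeries.C a11 * A00 -
        2 * PowerSeries.C a01 * A01 - (PowerSeries.C b00 * B11 + PowerSeries.C b11 * B00 -
        2 * PowerSeries.C b01 * B01)) with hLd
  set N : PowerSeries ℂ := (A11 * P0 ^ 2 - 2 * A01 * (P0 * P1) + A00 * P1 ^ 2) -
      (B11 * Q0 ^ 2 - 2 * B01 * (Q0 * Q1) + B00 * Q1 ^ 2) +
      PowerSeries.X * (A00 * A11 - A01 * A01 - (B00 * B11 - B01 * B01)) with hNd
  have hL0 : PowerSeries.constantCoeff L ≠ 0 := by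
    have : PowerSeries.constantCoeff L = (a11 * p0 ^ 2 - 2 * a01 * (p0 * p1) + a00 * p1 ^ 2) -
        c ^ 2 * (b11 * p0 ^ 2 - 2 * b01 * (p0 * p1) + b00 * p1 ^ 2) := by
      rw [hLd, hQ0, hQ1]
      simp [hP0, hP1, map_ofNat]
      ring
    rw [this]
    intro h0
    apply hL
    linear_combination h0
  obtain ⟨ξ, hξ⟩ := root e (N := N) hL0
  set D : PowerSeries ℂ := (PowerSeries.C s * P0) ^ 2 * PowerSeries.X +
    ((P0 ^ 2 + Q0 ^ 2) * (PowerSeries.C a11 * ξ + A11 + (PowerSeries.C b11 * ξ + B11)) +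
     (P1 ^ 2 + Q1 ^ 2) * (PowerSeries.C a00 * ξ + A00 + (PowerSeries.C b00 * ξ + B00)) -
     2 * (P0 * P1 + Q0 * Q1) * (PowerSeries.C a01 * ξ + A01 + (PowerSeries.C b01 * ξ + B01))) +
    PowerSeries.X * ((PowerSeries.C a00 * ξ + A00 + (PowerSeries.C b00 * ξ + B00)) *
      (PowerSeries.C a11 * ξ + A11 + (PowerSeries.C b11 * ξ + B11)) -
      (PowerSeries.C a01 * ξ + A01 + (PowerSeries.C b01 * ξ + B01)) ^ 2) with hD
  have h0 : (arcv ξ p0 p1 c s) 0 = ξ := rfl
  have h1 : (arcv ξ p0 p1 c s) 1 = P0 := rfl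
  have h2 : (arcv ξ p0 p1 c s) 2 = P1 := rfl
  have h3 : (arcv ξ p0 p1 c s) 3 = Q0 := rfl
  have h4 : (arcv ξ p0 p1 c s) 4 = Q1 := rfl
  have h5 : (arcv ξ p0 p1 c s) 5 = PowerSeries.X := rfl
  have lA11 : aeval (arcv ξ p0 p1 c s) (A 1 1) = PowerSeries.C a11 * ξ + A11 := hl (hA 1 1) ξ
  have lA01 : aeval (arcv ξ p0 p1 c s) (A 0 1) = PowerSeries.C a01 * ξ + A01 := hl (hA 0 1) ξ
  have lA00 : aeval (arcv ξ p0 p1 c s) (A 0 0) = PowerSeries.C a00 * ξ + A00 := hl (hA 0 0) ξ
  have lB11 : aeval (arcv ξ p0 p1 c s) (B 1 1) = PowerSeries.C b11 * ξ + B11 := hl (hB 1 1) ξ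
  have lB01 : aeval (arcv ξ p0 p1 c s) (B 0 1) = PowerSeries.C b01 * ξ + B01 := hl (hB 0 1) ξ
  have lB00 : aeval (arcv ξ p0 p1 c s) (B 0 0) = PowerSeries.C b00 * ξ + B00 := hl (hB 0 0) ξ
  refine ⟨ξ, D, ?_, ?_, ?_⟩
  · -- the constant coefficient
    have g1 := congrArg PowerSeries.constantCoeff hξ
    set x := PowerSeries.constantCoeff ξ with hx
    have g2 : ((a11 * p0 ^ 2 - 2 * a01 * (p0 * p1) + a00 * p1 ^ 2) -
        c ^ 2 * (b11 * p0 ^ 2 - 2 * b01 * (p0 * p1) + b00 * p1 ^ 2)) * x +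
        ((PowerSeries.constantCoeff A11 * p0 ^ 2 - 2 * PowerSeries.constantCoeff A01 * (p0 * p1) +
          PowerSeries.constantCoeff A00 * p1 ^ 2) -
        c ^ 2 * (PowerSeries.constantCoeff B11 * p0 ^ 2 -
          2 * PowerSeries.constantCoeff B01 * (p0 * p1) +
          PowerSeries.constantCoeff B00 * p1 ^ 2)) = 0 := by
      rw [← (map_zero (PowerSeries.constantCoeff (R := ℂ))), ← g1, hLd, hNd, hQ0, hQ1]
      simp [hP0, hP1, ← hx, map_ofNat]
      ring
    have g3 : PowerSeries.constantCoeff D = (1 + c ^ 2) *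
        ((a11 * p0 ^ 2 - 2 * a01 * (p0 * p1) + a00 * p1 ^ 2) * x +
        (PowerSeries.constantCoeff A11 * p0 ^ 2 - 2 * PowerSeries.constantCoeff A01 * (p0 * p1) +
          PowerSeries.constantCoeff A00 * p1 ^ 2) +
        ((b11 * p0 ^ 2 - 2 * b01 * (p0 * p1) + b00 * p1 ^ 2) * x +
        (PowerSeries.constantCoeff B11 * p0 ^ 2 - 2 * PowerSeries.constantCoeff B01 * (p0 * p1) +
          PowerSeries.constantCoeff B00 * p1 ^ 2))) := by
      rw [hD, hQ0, hQ1]
      simp [hP0, hP1, ← hx, map_ofNat]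
      ring
    rw [g3]
    intro g4
    apply hE
    have g5 := (mul_eq_zero.1 g4).resolve_left hc
    have g6 : (1 + c ^ 2) * ((b11 * p0 ^ 2 - 2 * b01 * (p0 * p1) + b00 * p1 ^ 2) * x +
        (PowerSeries.constantCoeff B11 * p0 ^ 2 - 2 * PowerSeries.constantCoeff B01 * (p0 * p1) +
          PowerSeries.constantCoeff B00 * p1 ^ 2)) = 0 := by
      linear_combination g5 - g2
    have g7 := (mul_eq_zero.1 g6).resolve_left hc
    have g8 : ((a11 * p0 ^ 2 - 2 * a01 * (p0 * p1) + a00 * p1 ^ 2) * x +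
        (PowerSeries.constantCoeff A11 * p0 ^ 2 - 2 * PowerSeries.constantCoeff A01 * (p0 * p1) +
          PowerSeries.constantCoeff A00 * p1 ^ 2)) = 0 := by
      linear_combination g5 - g7
    linear_combination (a11 * p0 ^ 2 - 2 * a01 * (p0 * p1) + a00 * p1 ^ 2) * g7 -
      (b11 * p0 ^ 2 - 2 * b01 * (p0 * p1) + b00 * p1 ^ 2) * g8
  · unfold cubF
    rw [det_fin_two, det_fin_two]
    simp only [hAs, hBs, map_add, map_sub, map_mul, map_pow, aeval_X, map_ofNat, lA11, lA01,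
      lA00, lB11, lB01, lB00, h1, h2, h3, h4, h5]
    rw [← hξ, he, hLd, hNd]
    simp only [map_sub, map_mul]
    ring
  · have m0 : aeval (arcv ξ p0 p1 c s) (base A B 0) = P0 ^ 2 + Q0 ^ 2 +
        PowerSeries.X * (PowerSeries.C a00 * ξ + A00 + (PowerSeries.C b00 * ξ + B00)) := by
      show aeval _ (X 1 ^ 2 + X 3 ^ 2 + X 5 * (A 0 0 + B 0 0)) = _
      simp only [map_add, map_mul, map_pow, aeval_X, lA00, lB00, h1, h3, h5]
    have m1 : aeval (arcv ξ p0 p1 c s) (base A B 1) = P0 * P1 + Q0 * Q1 +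
        PowerSeries.X * (PowerSeries.C a01 * ξ + A01 + (PowerSeries.C b01 * ξ + B01)) := by
      show aeval _ (X 1 * X 2 + X 3 * X 4 + X 5 * (A 0 1 + B 0 1)) = _
      simp only [map_add, map_mul, aeval_X, lA01, lB01, h1, h2, h3, h4, h5]
    have m2 : aeval (arcv ξ p0 p1 c s) (base A B 2) = P1 ^ 2 + Q1 ^ 2 +
        PowerSeries.X * (PowerSeries.C a11 * ξ + A11 + (PowerSeries.C b11 * ξ + B11)) := by
      show aeval _ (X 2 ^ 2 + X 4 ^ 2 + X 5 * (A 1 1 + B 1 1)) = _
      simp only [map_add, map_mul, map_pow, aeval_X, lA11, lB11, h2, h4, h5]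
    rw [map_sub, map_mul, map_pow, m0, m1, m2, hD, hQ1, hQ0]
    ring

/-- the forms as polynomials in `p₀, p₁, c` -/
private noncomputable def frmP (M : Matrix (Fin 2) (Fin 2) S6) (x : ℂ) : MvPolynomial (Fin 5) ℂ :=
  aeval ![C x, X 0, X 1, X 2 * X 0, X 2 * X 1, 0] (M 1 1) * X 0 ^ 2 -
    2 * aeval ![C x, X 0, X 1, X 2 * X 0, X 2 * X 1, 0] (M 0 1) * (X 0 * X 1) +
    aeval ![C x, X 0, X 1, X 2 * X 0, X 2 * X 1, 0] (M 0 0) * X 1 ^ 2

private theorem eval_frmP (M : Matrix (Fin 2) (Fin 2) S6) (x : ℂ) (y : Fin 5 → ℂ) :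
    eval y (frmP M x) = frm M (pq x (y 0) (y 1) (y 2)) := by
  have h1 : ∀ f : S6, eval y (aeval ![C x, X 0, X 1, X 2 * X 0, X 2 * X 1, 0] f) =
      eval (pq x (y 0) (y 1) (y 2)) f := by
    intro f
    have h2 : (fun i => eval y ((![C x, X 0, X 1, X 2 * X 0, X 2 * X 1, 0] :
        Fin 6 → MvPolynomial (Fin 5) ℂ) i)) = pq x (y 0) (y 1) (y 2) := by
      funext i
      fin_cases i <;> simp [pq]
    rw [← h2, ← aeval_eq_eval, ← aeval_eq_eval, comp_aeval_apply]
  unfold frmP frm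
  simp only [map_add, map_sub, map_mul, map_pow, map_ofNat, h1, eval_X]
  rfl

/-- The determinant of the base is not a square on the cubic. -/
theorem det_nsq {A B : Matrix (Fin 2) (Fin 2) S6} (hA : ∀ i j, (A i j).IsHomogeneous 1)
    (hB : ∀ i j, (B i j).IsHomogeneous 1) (hAs : A 1 0 = A 0 1) (hBs : B 1 0 = B 0 1)
    (hirr : Irreducible (cubF A B))
    (hE : ∃ p0 p1 c : ℂ, frm A (pq 1 p0 p1 c) * frm B (pq 0 p0 p1 c) ≠
      frm A (pq 0 p0 p1 c) * frm B (pq 1 p0 p1 c)) {z₁ z₂ : S6}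
    (h : cubF A B ∣ z₁ ^ 2 - z₂ ^ 2 * (base A B 0 * base A B 2 - base A B 1 ^ 2)) :
    cubF A B ∣ z₂ := by
  classical
  by_contra hz
  obtain ⟨p0, p1, c, hE⟩ := hE
  -- the polynomials `L` and `E`
  set PL : MvPolynomial (Fin 5) ℂ := frmP A 1 - frmP A 0 - X 2 ^ 2 * (frmP B 1 - frmP B 0)
    with hPL
  set PE : MvPolynomial (Fin 5) ℂ := frmP A 1 * frmP B 0 - frmP A 0 * frmP B 1 with hPE
  have hPLe : ∀ y, eval y PL = frm A (pq 1 (y 0) (y 1) (y 2)) - frm A (pq 0 (y 0) (y 1) (y 2)) -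
      y 2 ^ 2 * (frm B (pq 1 (y 0) (y 1) (y 2)) - frm B (pq 0 (y 0) (y 1) (y 2))) := by
    intro y
    rw [hPL]
    simp only [map_sub, map_mul, map_pow, eval_X, eval_frmP]
  have hPEe : ∀ y, eval y PE = frm A (pq 1 (y 0) (y 1) (y 2)) * frm B (pq 0 (y 0) (y 1) (y 2)) -
      frm A (pq 0 (y 0) (y 1) (y 2)) * frm B (pq 1 (y 0) (y 1) (y 2)) := by
    intro y
    rw [hPE]
    simp only [map_sub, map_mul, eval_frmP]
  -- the difference of the values of the forms at `x = 1`, `x = 0` does not depend on `c`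
  have hdiff : ∀ (M : Matrix (Fin 2) (Fin 2) S6), (∀ i j, (M i j).IsHomogeneous 1) →
      ∀ c', frm M (pq 1 p0 p1 c') - frm M (pq 0 p0 p1 c') =
        coeff (Finsupp.single 0 1) (M 1 1) * p0 ^ 2 -
          2 * coeff (Finsupp.single 0 1) (M 0 1) * (p0 * p1) +
          coeff (Finsupp.single 0 1) (M 0 0) * p1 ^ 2 := by
    intro M hM c'
    have hx : ∀ {f : S6}, f.IsHomogeneous 1 → eval (pq 1 p0 p1 c') f =
        coeff (Finsupp.single 0 1) f + eval (pq 0 p0 p1 c') f := by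
      intro f hf
      rw [eval_lin hf, eval_lin hf, Fin.sum_univ_six, Fin.sum_univ_six]
      simp [pq]
      ring
    unfold frm
    rw [hx (hM 1 1), hx (hM 0 1), hx (hM 0 0)]
    have e1 : ∀ x, pq x p0 p1 c' 1 = p0 := fun x => rfl
    have e2 : ∀ x, pq x p0 p1 c' 2 = p1 := fun x => rfl
    simp only [e1, e2]
    ring
  have hPL0 : PL ≠ 0 := by
    intro h0
    apply hE
    have k0 := hPLe ![p0, p1, 0, 0, 0]
    have k1 := hPLe ![p0, p1, 1, 0, 0]
    rw [h0, map_zero] at k0 k1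
    simp only [Matrix.cons_val_zero, Matrix.cons_val_one, Matrix.cons_val] at k0 k1
    rw [hdiff A hA, hdiff B hB] at k0 k1
    have j1 : frm A (pq 1 p0 p1 c) - frm A (pq 0 p0 p1 c) = 0 := by
      rw [hdiff A hA]
      linear_combination -k0
    have j2 : frm B (pq 1 p0 p1 c) - frm B (pq 0 p0 p1 c) = 0 := by
      rw [hdiff B hB]
      linear_combination k1 - k0
    linear_combination frm B (pq 0 p0 p1 c) * j1 - frm A (pq 0 p0 p1 c) * j2
  have hPE0 : PE ≠ 0 := by
    intro h0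
    apply hE
    have k0 := hPEe ![p0, p1, c, 0, 0]
    rw [h0, map_zero] at k0
    simp only [Matrix.cons_val_zero, Matrix.cons_val_one, Matrix.cons_val] at k0
    linear_combination -k0
  set G : MvPolynomial (Fin 5) ℂ := PL * PE * (1 + X 2 ^ 2) with hG
  have hG0 : G ≠ 0 := by
    refine mul_ne_zero (mul_ne_zero hPL0 hPE0) ?_
    intro h0
    have k0 := congrArg (eval (0 : Fin 5 → ℂ)) h0
    simp at k0
  -- the degree in `X 0`
  have hdeg : (finSuccEquiv ℂ 5 (cubF A B)).natDegree ≠ 0 := by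
    intro h0
    apply hPL0
    rw [Polynomial.natDegree_eq_zero] at h0
    obtain ⟨g, hg⟩ := h0
    have k1 : cubF A B = rename Fin.succ g := by
      apply (finSuccEquiv ℂ 5).injective
      rw [← hg]
      symm
      have : ((finSuccEquiv ℂ 5 : MvPolynomial (Fin 6) ℂ →ₐ[ℂ] _).comp (rename Fin.succ)) =
          (Polynomial.CAlgHom (R := ℂ) (A := MvPolynomial (Fin 5) ℂ)) := by
        refine MvPolynomial.algHom_ext fun i => ?_
        simp [finSuccEquiv_X_succ]
      exact DFunLike.congr_fun this g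
    refine MvPolynomial.funext fun y => ?_
    rw [hPLe, map_zero]
    have k2 : ∀ x, eval (pq x (y 0) (y 1) (y 2)) (cubF A B) =
        frm A (pq x (y 0) (y 1) (y 2)) - y 2 ^ 2 * frm B (pq x (y 0) (y 1) (y 2)) := by
      intro x
      unfold cubF frm
      simp only [map_add, map_sub, map_mul, map_pow, eval_X, map_ofNat]
      simp [pq]
      ring
    have k3 : eval (pq 1 (y 0) (y 1) (y 2)) (cubF A B) =
        eval (pq 0 (y 0) (y 1) (y 2)) (cubF A B) := by
      rw [k1, eval_rename, eval_rename]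
      rfl
    rw [k2, k2] at k3
    linear_combination k3
  -- elimination
  have hirr' : Irreducible (finSuccEquiv ℂ 5 (cubF A B)) :=
    (MulEquiv.irreducible_iff (finSuccEquiv ℂ 5)).2 hirr
  have hz' : ¬ finSuccEquiv ℂ 5 (cubF A B) ∣ finSuccEquiv ℂ 5 z₂ := by
    rintro ⟨w, hw⟩
    apply hz
    refine ⟨(finSuccEquiv ℂ 5).symm w, ?_⟩
    apply (finSuccEquiv ℂ 5).injective
    rw [map_mul, AlgEquiv.apply_symm_apply, hw]
  obtain ⟨u, v, r, hr0, hr⟩ := elim hirr' hdeg hz'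
  have hUV : (finSuccEquiv ℂ 5).symm u * cubF A B + (finSuccEquiv ℂ 5).symm v * z₂ =
      rename Fin.succ r := by
    apply (finSuccEquiv ℂ 5).injective
    rw [map_add, map_mul, map_mul, AlgEquiv.apply_symm_apply, AlgEquiv.apply_symm_apply, hr]
    have : ((finSuccEquiv ℂ 5 : MvPolynomial (Fin 6) ℂ →ₐ[ℂ] _).comp (rename Fin.succ)) =
        (Polynomial.CAlgHom (R := ℂ) (A := MvPolynomial (Fin 5) ℂ)) := by
      refine MvPolynomial.algHom_ext fun i => ?_
      simp [finSuccEquiv_X_succ]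
    exact (DFunLike.congr_fun this r).symm
  -- `r` vanishes on the arcs
  have harc : ∀ y : Fin 5 → ℂ, eval y G ≠ 0 →
      eval ![y 0, y 1, y 2 * y 0, y 2 * y 1 + y 3 * y 4, y 4] r = 0 := by
    intro y hy
    rw [hG, map_mul, map_mul, hPLe, hPEe] at hy
    have hL := left_ne_zero_of_mul (left_ne_zero_of_mul hy)
    have hE' := right_ne_zero_of_mul (left_ne_zero_of_mul hy)
    have hc : 1 + y 2 ^ 2 ≠ 0 := by
      have := right_ne_zero_of_mul hy
      simpa using this
    obtain ⟨ξ, D, hD, hF, hdet⟩ := arc_one hA hB hAs hBs (y 3) hc hL hE'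
    have k1 : aeval (arcv ξ (y 0) (y 1) (y 2) (y 3)) z₁ ^ 2 =
        aeval (arcv ξ (y 0) (y 1) (y 2) (y 3)) z₂ ^ 2 * (PowerSeries.X * D) := by
      obtain ⟨w, hw⟩ := h
      have k2 := congrArg (aeval (arcv ξ (y 0) (y 1) (y 2) (y 3))) hw
      rw [map_sub, map_pow, map_mul, map_pow, hdet, map_mul, hF, zero_mul] at k2
      exact sub_eq_zero.1 k2
    have k2 := odd_order hD k1
    have k3 := congrArg (aeval (arcv ξ (y 0) (y 1) (y 2) (y 3))) hUV
    rw [map_add, map_mul, map_mul, hF, k2, mul_zero, mul_zero, add_zero, aeval_rename] at k3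
    -- polynomials in `t`
    set P : Fin 5 → Polynomial ℂ := ![Polynomial.C (y 0), Polynomial.C (y 1),
      Polynomial.C (y 2) * Polynomial.C (y 0),
      Polynomial.C (y 2) * Polynomial.C (y 1) + Polynomial.C (y 3) * Polynomial.X,
      Polynomial.X] with hP
    have k4 : arcv ξ (y 0) (y 1) (y 2) (y 3) ∘ Fin.succ =
        fun i => Polynomial.coeToPowerSeries.algHom ℂ (P i) := by
      funext i
      fin_cases i <;> simp [arcv, hP, Polynomial.coeToPowerSeries.algHom_apply]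
    rw [k4, ← comp_aeval_apply] at k3
    have k5 : aeval P r = 0 := by
      have : Function.Injective (Polynomial.coeToPowerSeries.algHom (R := ℂ) ℂ) := by
        intro a b hab
        simpa [Polynomial.coeToPowerSeries.algHom_apply] using hab
      apply this
      rw [map_zero]
      exact k3.symm
    have k6 := congrArg (Polynomial.aeval (y 4)) k5
    rw [map_zero, comp_aeval_apply] at k6
    rw [← k6, ← aeval_eq_eval]
    congr 2
    funext i
    fin_cases i <;> simp [hP]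
  set ΦP : Fin 5 → MvPolynomial (Fin 5) ℂ := ![X 0, X 1, X 2 * X 0, X 2 * X 1 + X 3 * X 4, X 4]
    with hΦP
  have hΦe : ∀ y, eval y (aeval ΦP r) =
      eval ![y 0, y 1, y 2 * y 0, y 2 * y 1 + y 3 * y 4, y 4] r := by
    intro y
    have h2 : (fun i => eval y (ΦP i)) =
        ![y 0, y 1, y 2 * y 0, y 2 * y 1 + y 3 * y 4, y 4] := by
      funext i
      fin_cases i <;> simp [hΦP]
    rw [← h2, ← aeval_eq_eval, ← aeval_eq_eval, comp_aeval_apply]
  have hΦ0 : aeval ΦP r = 0 := by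
    have k1 : aeval ΦP r * G = 0 := by
      refine MvPolynomial.funext fun y => ?_
      rw [map_mul, map_zero, hΦe]
      by_cases hy : eval y G = 0
      · rw [hy, mul_zero]
      · rw [harc y hy, zero_mul]
    exact (mul_eq_zero.1 k1).resolve_right hG0
  have hr1 : r * (X 0 * X 4) = 0 := by
    refine MvPolynomial.funext fun w => ?_
    rw [map_mul, map_mul, eval_X, eval_X, map_zero]
    by_cases h0 : w 0 = 0
    · rw [h0, zero_mul, mul_zero]
    by_cases h4 : w 4 = 0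
    · rw [h4, mul_zero, mul_zero]
    have k1 := hΦe ![w 0, w 1, w 2 / w 0, (w 3 - w 2 / w 0 * w 1) / w 4, w 4]
    rw [hΦ0, map_zero] at k1
    have k2 : (![(![w 0, w 1, w 2 / w 0, (w 3 - w 2 / w 0 * w 1) / w 4, w 4] : Fin 5 → ℂ) 0,
        (![w 0, w 1, w 2 / w 0, (w 3 - w 2 / w 0 * w 1) / w 4, w 4] : Fin 5 → ℂ) 1,
        (![w 0, w 1, w 2 / w 0, (w 3 - w 2 / w 0 * w 1) / w 4, w 4] : Fin 5 → ℂ) 2 *
        (![w 0, w 1, w 2 / w 0, (w 3 - w 2 / w 0 * w 1) / w 4, w 4] : Fin 5 → ℂ) 0,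
        (![w 0, w 1, w 2 / w 0, (w 3 - w 2 / w 0 * w 1) / w 4, w 4] : Fin 5 → ℂ) 2 *
        (![w 0, w 1, w 2 / w 0, (w 3 - w 2 / w 0 * w 1) / w 4, w 4] : Fin 5 → ℂ) 1 +
        (![w 0, w 1, w 2 / w 0, (w 3 - w 2 / w 0 * w 1) / w 4, w 4] : Fin 5 → ℂ) 3 *
        (![w 0, w 1, w 2 / w 0, (w 3 - w 2 / w 0 * w 1) / w 4, w 4] : Fin 5 → ℂ) 4,
        (![w 0, w 1, w 2 / w 0, (w 3 - w 2 / w 0 * w 1) / w 4, w 4] : Fin 5 → ℂ) 4] :
        Fin 5 → ℂ) = w := by
      funext i
      fin_cases i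
      · rfl
      · rfl
      · show w 2 / w 0 * w 0 = w 2
        rw [div_mul_cancel₀ _ h0]
      · show w 2 / w 0 * w 1 + (w 3 - w 2 / w 0 * w 1) / w 4 * w 4 = w 3
        rw [div_mul_cancel₀ _ h4]
        ring
      · rfl
    rw [k2] at k1
    rw [← k1, zero_mul]
  rcases mul_eq_zero.1 hr1 with h0 | h0
  · exact hr0 h0
  · exact mul_ne_zero (X_ne_zero 0) (X_ne_zero 4) h0

end Pool.Agent.GSX
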