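import Pool.Agent.GSX.Arc

/-!
# GSX: the determinant of the base is not a square in the function field

`nsq_det`: `x` a generic point of `F = cubF A B = 0` over a field `Ω`, normalised by `x 0 = 1`,
which generates `Ω`. The determinant of the base at `x` is not a square in `Ω`.
-/

set_option autoImplicit false

namespace Pool.Agent.GSX

open MvPolynomial Matrix

/-- an element of a field generated by a point `x` with `x 0 = 1` is a quotient of two values of
forms whose degrees differ by a given number -/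
theorem exists_forms {m : ℕ} {Ω : Type} [Field Ω] [Algebra ℂ Ω] {x : Fin (m + 1) → Ω}
    (x0 : x 0 = 1) (k : ℕ) {y : Ω} (hy : y ∈ IntermediateField.adjoin ℂ (Set.range x)) :
    ∃ (n : ℕ) (r s : MvPolynomial (Fin (m + 1)) ℂ), r.IsHomogeneous (n + k) ∧ s.IsHomogeneous n ∧
      aeval x s ≠ 0 ∧ aeval x r = aeval x s * y := by
  have hz : ∀ (n : ℕ) (P : MvPolynomial (Fin (m + 1)) ℂ), P.totalDegree ≤ n →
      ∃ P' : MvPolynomial (Fin (m + 1)) ℂ, P'.IsHomogeneous n ∧ aeval x P' = aeval x P := by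
    intro n P h
    refine ⟨∑ i ∈ Finset.range (n + 1), X 0 ^ (n - i) * homogeneousComponent i P, ?_, ?_⟩
    · refine IsHomogeneous.sum _ _ _ fun i hi => ?_
      have h1 : ((X 0 : MvPolynomial (Fin (m + 1)) ℂ) ^ (n - i)).IsHomogeneous (n - i) :=
        isHomogeneous_X_pow _ _
      have h2 := h1.mul (homogeneousComponent_isHomogeneous i P)
      rw [Finset.mem_range] at hi
      rwa [Nat.sub_add_cancel (by omega)] at h2
    · rw [map_sum]
      have h1 : ∀ i ∈ Finset.range (n + 1), aeval x (X 0 ^ (n - i) * homogeneousComponent i P) =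
          aeval x (homogeneousComponent i P) := by
        intro i _
        rw [map_mul, map_pow, aeval_X, x0, one_pow, one_mul]
      rw [Finset.sum_congr rfl h1, ← map_sum]
      congr 1
      conv_rhs => rw [← sum_homogeneousComponent P]
      symm
      refine Finset.sum_subset (Finset.range_mono (by omega)) fun i _ hi => ?_
      refine homogeneousComponent_eq_zero _ _ ?_
      rw [Finset.mem_range] at hi
      omega
  obtain ⟨r, s, hs, hrs⟩ : ∃ r s : MvPolynomial (Fin (m + 1)) ℂ, aeval x s ≠ 0 ∧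
      aeval x r = aeval x s * y := by
    obtain ⟨r, s, hrs⟩ := (IntermediateField.mem_adjoin_range_iff ℂ x y).1 hy
    by_cases hs : aeval x s = 0
    · refine ⟨0, 1, by rw [map_one]; exact one_ne_zero, ?_⟩
      rw [hrs, hs, div_zero, map_zero, mul_zero]
    · refine ⟨r, s, hs, ?_⟩
      rw [hrs, mul_div_cancel₀ _ hs]
  obtain ⟨r', hr', hr''⟩ := hz (max r.totalDegree s.totalDegree + k) r (by omega)
  obtain ⟨s', hs', hs''⟩ := hz (max r.totalDegree s.totalDegree) s (by omega)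
  exact ⟨_, r', s', hr', hs', by rwa [hs''], by rw [hr'', hs'', hrs]⟩

theorem base_hom {A B : Matrix (Fin 2) (Fin 2) S6} (hA : ∀ i j, (A i j).IsHomogeneous 1)
    (hB : ∀ i j, (B i j).IsHomogeneous 1) (k : Fin 3) : (base A B k).IsHomogeneous 2 := by
  have h1 : ∀ i j : Fin 6, (X i * X j : S6).IsHomogeneous 2 := fun i j =>
    (isHomogeneous_X ℂ i).mul (isHomogeneous_X ℂ j)
  have h2 : ∀ i j, (X 5 * (A i j + B i j) : S6).IsHomogeneous 2 := fun i j =>
    (isHomogeneous_X ℂ 5).mul ((hA i j).add (hB i j))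
  fin_cases k
  · show (X 1 ^ 2 + X 3 ^ 2 + X 5 * (A 0 0 + B 0 0) : S6).IsHomogeneous 2
    rw [pow_two, pow_two]
    exact ((h1 1 1).add (h1 3 3)).add (h2 0 0)
  · show (X 1 * X 2 + X 3 * X 4 + X 5 * (A 0 1 + B 0 1) : S6).IsHomogeneous 2
    exact ((h1 1 2).add (h1 3 4)).add (h2 0 1)
  · show (X 2 ^ 2 + X 4 ^ 2 + X 5 * (A 1 1 + B 1 1) : S6).IsHomogeneous 2
    rw [pow_two, pow_two]
    exact ((h1 2 2).add (h1 4 4)).add (h2 1 1)

/-- The determinant of the base is not a square in the function field. -/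
theorem nsq_det {A B : Matrix (Fin 2) (Fin 2) S6} (hA : ∀ i j, (A i j).IsHomogeneous 1)
    (hB : ∀ i j, (B i j).IsHomogeneous 1) (hAs : A 1 0 = A 0 1) (hBs : B 1 0 = B 0 1)
    (hirr : Irreducible (cubF A B))
    (hE : ∃ p0 p1 c : ℂ, frm A (pq 1 p0 p1 c) * frm B (pq 0 p0 p1 c) ≠
      frm A (pq 0 p0 p1 c) * frm B (pq 1 p0 p1 c))
    {Ω : Type} [Field Ω] [Algebra ℂ Ω] {x : Fin 6 → Ω} (x0 : x 0 = 1)
    (hker : ∀ (G : S6) (m : ℕ), G.IsHomogeneous m → (aeval x G = 0 ↔ cubF A B ∣ G))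
    {y : Ω} (hy : y ∈ IntermediateField.adjoin ℂ (Set.range x)) :
    y ^ 2 ≠ aeval x (base A B 0) * aeval x (base A B 2) - aeval x (base A B 1) ^ 2 := by
  intro hsq
  obtain ⟨n, r, s, hr, hs, hs0, hrs⟩ := exists_forms x0 2 hy
  apply hs0
  rw [hker s n hs]
  refine det_nsq hA hB hAs hBs hirr hE (z₁ := r) ?_
  have h1 : (r ^ 2 - s ^ 2 * (base A B 0 * base A B 2 - base A B 1 ^ 2)).IsHomogeneous
      ((n + 2) * 2) := by
    have h2 := hr.pow 2
    have h3 : (base A B 0 * base A B 2 - base A B 1 ^ 2).IsHomogeneous 4 :=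
      ((base_hom hA hB 0).mul (base_hom hA hB 2)).sub ((base_hom hA hB 1).pow 2)
    have h4 := (hs.pow 2).mul h3
    rw [show n * 2 + 4 = (n + 2) * 2 by ring] at h4
    exact h2.sub h4
  rw [← hker _ _ h1]
  simp only [map_sub, map_mul, map_pow]
  rw [← hsq, hrs]
  ring

/-- The same for the normalised base. -/
theorem nsq_det' {A B : Matrix (Fin 2) (Fin 2) S6} (hA : ∀ i j, (A i j).IsHomogeneous 1)
    (hB : ∀ i j, (B i j).IsHomogeneous 1) (hAs : A 1 0 = A 0 1) (hBs : B 1 0 = B 0 1)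
    (hirr : Irreducible (cubF A B))
    (hE : ∃ p0 p1 c : ℂ, frm A (pq 1 p0 p1 c) * frm B (pq 0 p0 p1 c) ≠
      frm A (pq 0 p0 p1 c) * frm B (pq 1 p0 p1 c))
    {Ω : Type} [Field Ω] [Algebra ℂ Ω] {x : Fin 6 → Ω} (x0 : x 0 = 1)
    (hker : ∀ (G : S6) (m : ℕ), G.IsHomogeneous m → (aeval x G = 0 ↔ cubF A B ∣ G))
    (hgen : IntermediateField.adjoin ℂ (Set.range x) = ⊤)
    (h0 : aeval x (base A B 0) ≠ 0) (y : Ω) :
    y ^ 2 ≠ aeval x (base A B 2) / aeval x (base A B 0) -
      (aeval x (base A B 1) / aeval x (base A B 0)) ^ 2 := by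
  intro hsq
  refine nsq_det hA hB hAs hBs hirr hE x0 hker (y := y * aeval x (base A B 0))
    (by rw [hgen]; exact IntermediateField.mem_top) ?_
  rw [mul_pow, hsq]
  field_simp

end Pool.Agent.GSX
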