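import Pool.Agent.GSH.Pen

/-!
# GSX: pencils of hermitian forms on `L ^ 3`

`Herm K`: `L = K(√d)`, two hermitian matrices `B j = p j + √d q j` over `L`, `p j` symmetric with
entries `p j 0, …, p j 5` (in the order 00, 01, 02, 11, 12, 22) and `q j` antisymmetric with
entries `q j 0, q j 1, q j 2` (in the order 01, 02, 12) over `K`.

A vector of `L ^ 3` is `x + √d y`, written `(x, y)` in `K ^ 6`. `Herm.pen` is the pencil in the sense
of `Pool.Agent.GSH.Pen`: the two hermitian forms `u ↦ uᵀ B j ū` and the quadratic map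
`u ↦ (B 0 ū) × (B 1 ū)`.
-/

set_option autoImplicit false

noncomputable section

namespace Pool.Agent.GSX

open Matrix Pool.Agent.GSH

/-- A pencil of hermitian forms on `L ^ 3`. -/
structure Herm (K : Type) [Field K] where
  /-- `L = K(√d)` -/
  d : K
  /-- the symmetric parts -/
  p : Fin 2 → Fin 6 → K
  /-- the antisymmetric parts -/
  q : Fin 2 → Fin 3 → K

variable {K Ω : Type} [Field K] [Field Ω] [Algebra K Ω]

namespace Herm

variable (H : Herm K)

/-- the component `i` of the real part of `B j ū` as a linear form in `u = (x, y)` -/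
def E (j : Fin 2) (i : Fin 3) : Fin 6 → K :=
  ![![H.p j 0, H.p j 1, H.p j 2, 0, -(H.d * H.q j 0), -(H.d * H.q j 1)],
    ![H.p j 1, H.p j 3, H.p j 4, H.d * H.q j 0, 0, -(H.d * H.q j 2)],
    ![H.p j 2, H.p j 4, H.p j 5, H.d * H.q j 1, H.d * H.q j 2, 0]] i

/-- the component `i` of the coefficient of `√d` in `B j ū` as a linear form in `u = (x, y)` -/
def F (j : Fin 2) (i : Fin 3) : Fin 6 → K :=
  ![![0, H.q j 0, H.q j 1, -H.p j 0, -H.p j 1, -H.p j 2],
    ![-H.q j 0, 0, H.q j 2, -H.p j 1, -H.p j 3, -H.p j 4],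
    ![-H.q j 1, -H.q j 2, 0, -H.p j 2, -H.p j 4, -H.p j 5]] i

/-- multiplication by `√d` -/
def S : Matrix (Fin 6) (Fin 6) K :=
  !![0, 0, 0, H.d, 0, 0; 0, 0, 0, 0, H.d, 0; 0, 0, 0, 0, 0, H.d;
    1, 0, 0, 0, 0, 0; 0, 1, 0, 0, 0, 0; 0, 0, 1, 0, 0, 0]

/-- the matrix of the product of two linear forms -/
def sy (a b : Fin 6 → K) : Matrix (Fin 6) (Fin 6) K :=
  (1 / 2 : K) • (vecMulVec a b + vecMulVec b a)

/-- the real part of the component `k` of the cross product -/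
def crR (k : Fin 3) : Matrix (Fin 6) (Fin 6) K :=
  sy (H.E 0 (k + 1)) (H.E 1 (k + 2)) - sy (H.E 0 (k + 2)) (H.E 1 (k + 1)) +
    H.d • (sy (H.F 0 (k + 1)) (H.F 1 (k + 2)) - sy (H.F 0 (k + 2)) (H.F 1 (k + 1)))

/-- the coefficient of `√d` of the component `k` of the cross product -/
def crI (k : Fin 3) : Matrix (Fin 6) (Fin 6) K :=
  sy (H.E 0 (k + 1)) (H.F 1 (k + 2)) - sy (H.E 0 (k + 2)) (H.F 1 (k + 1)) +
    (sy (H.F 0 (k + 1)) (H.E 1 (k + 2)) - sy (H.F 0 (k + 2)) (H.E 1 (k + 1)))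

/-- the pencil -/
def pen : Pen K where
  d := H.d
  S := H.S
  Q := fun j => Matrix.of ![H.E j 0, H.E j 1, H.E j 2, H.d • H.F j 0, H.d • H.F j 1, H.d • H.F j 2]
  P := ![H.crR 0, H.crR 1, H.crR 2, H.crI 0, H.crI 1, H.crI 2]

theorem sy_symm (a b : Fin 6 → K) : (sy a b)ᵀ = sy a b := by
  unfold sy
  rw [transpose_smul, transpose_add, transpose_vecMulVec, transpose_vecMulVec, add_comm]

theorem D_sy (T : Matrix (Fin 6) (Fin 6) K) (a b : Fin 6 → K) :
    Tᵀ * sy a b + sy a b * T = sy (a ᵥ* T) b + sy a (b ᵥ* T) := by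
  unfold sy
  rw [Matrix.mul_smul, Matrix.smul_mul, Matrix.mul_add, Matrix.add_mul, mul_vecMulVec,
    mul_vecMulVec, vecMulVec_mul, vecMulVec_mul, mulVec_transpose, mulVec_transpose]
  rw [← smul_add, ← smul_add]
  congr 1
  abel

theorem sy_smul_left (c : K) (a b : Fin 6 → K) : sy (c • a) b = c • sy a b := by
  unfold sy
  rw [smul_vecMulVec, vecMulVec_smul, ← smul_add, smul_comm]

theorem sy_smul_right (c : K) (a b : Fin 6 → K) : sy a (c • b) = c • sy a b := by
  unfold sy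
  rw [smul_vecMulVec, vecMulVec_smul, ← smul_add, smul_comm]

theorem E_S (j : Fin 2) (i : Fin 3) : H.E j i ᵥ* H.S = (-H.d) • H.F j i := by
  funext k
  fin_cases i <;> fin_cases k <;>
    simp [E, F, S, vecMul, dotProduct, Fin.sum_univ_six] <;> ring

theorem F_S (j : Fin 2) (i : Fin 3) : H.F j i ᵥ* H.S = (-1 : K) • H.E j i := by
  funext k
  fin_cases i <;> fin_cases k <;>
    simp [E, F, S, vecMul, dotProduct, Fin.sum_univ_six] <;> ring

theorem D_crR (k : Fin 3) : H.Sᵀ * H.crR k + H.crR k * H.S = (-2 * H.d) • H.crI k := by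
  have h : H.Sᵀ * H.crR k + H.crR k * H.S =
      (H.Sᵀ * sy (H.E 0 (k + 1)) (H.E 1 (k + 2)) + sy (H.E 0 (k + 1)) (H.E 1 (k + 2)) * H.S) -
      (H.Sᵀ * sy (H.E 0 (k + 2)) (H.E 1 (k + 1)) + sy (H.E 0 (k + 2)) (H.E 1 (k + 1)) * H.S) +
      H.d • ((H.Sᵀ * sy (H.F 0 (k + 1)) (H.F 1 (k + 2)) +
        sy (H.F 0 (k + 1)) (H.F 1 (k + 2)) * H.S) -
      (H.Sᵀ * sy (H.F 0 (k + 2)) (H.F 1 (k + 1)) +
        sy (H.F 0 (k + 2)) (H.F 1 (k + 1)) * H.S)) := by
    unfold crR
    simp only [Matrix.mul_add, Matrix.mul_sub, Matrix.add_mul, Matrix.sub_mul, Matrix.mul_smul,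
      Matrix.smul_mul, smul_sub, smul_add]
    abel
  rw [h, D_sy, D_sy, D_sy, D_sy]
  simp only [E_S, F_S, sy_smul_left, sy_smul_right]
  unfold crI
  simp only [smul_sub, smul_add, smul_smul]
  module

theorem D_crI (k : Fin 3) : H.Sᵀ * H.crI k + H.crI k * H.S = (-2 : K) • H.crR k := by
  have h : H.Sᵀ * H.crI k + H.crI k * H.S =
      (H.Sᵀ * sy (H.E 0 (k + 1)) (H.F 1 (k + 2)) + sy (H.E 0 (k + 1)) (H.F 1 (k + 2)) * H.S) -
      (H.Sᵀ * sy (H.E 0 (k + 2)) (H.F 1 (k + 1)) + sy (H.E 0 (k + 2)) (H.F 1 (k + 1)) * H.S) +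
      ((H.Sᵀ * sy (H.F 0 (k + 1)) (H.E 1 (k + 2)) +
        sy (H.F 0 (k + 1)) (H.E 1 (k + 2)) * H.S) -
      (H.Sᵀ * sy (H.F 0 (k + 2)) (H.E 1 (k + 1)) +
        sy (H.F 0 (k + 2)) (H.E 1 (k + 1)) * H.S)) := by
    unfold crI
    simp only [Matrix.mul_add, Matrix.mul_sub, Matrix.add_mul, Matrix.sub_mul]
    abel
  rw [h, D_sy, D_sy, D_sy, D_sy]
  simp only [E_S, F_S, sy_smul_left, sy_smul_right]
  unfold crR
  simp only [smul_sub, smul_add, smul_smul]
  module

theorem crR_symm (k : Fin 3) : (H.crR k)ᵀ = H.crR k := by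
  unfold crR
  simp only [transpose_add, transpose_sub, transpose_smul, sy_symm]

theorem crI_symm (k : Fin 3) : (H.crI k)ᵀ = H.crI k := by
  unfold crI
  simp only [transpose_add, transpose_sub, sy_symm]

theorem isPen : H.pen.IsPen where
  sq := by
    show H.S * H.S = H.d • 1
    ext i j
    fin_cases i <;> fin_cases j <;>
      simp [S, Matrix.mul_apply, Fin.sum_univ_six, Matrix.one_apply]
  symQ := by
    intro k
    show (Matrix.of ![H.E k 0, H.E k 1, H.E k 2, H.d • H.F k 0, H.d • H.F k 1,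
      H.d • H.F k 2])ᵀ = Matrix.of _
    ext i j
    fin_cases i <;> fin_cases j <;> simp [E, F]
  herQ := by
    intro k
    show H.Sᵀ * Matrix.of ![H.E k 0, H.E k 1, H.E k 2, H.d • H.F k 0, H.d • H.F k 1,
      H.d • H.F k 2] + Matrix.of ![H.E k 0, H.E k 1, H.E k 2, H.d • H.F k 0, H.d • H.F k 1,
      H.d • H.F k 2] * H.S = 0
    ext i j
    fin_cases i <;> fin_cases j <;>
      (simp [E, F, S, Matrix.mul_apply, Fin.sum_univ_six]; try ring)
  symP := by
    intro i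
    fin_cases i
    · exact H.crR_symm 0
    · exact H.crR_symm 1
    · exact H.crR_symm 2
    · exact H.crI_symm 0
    · exact H.crI_symm 1
    · exact H.crI_symm 2
  herP := by
    intro i
    rw [Fin.sum_univ_six]
    fin_cases i
    · refine (H.D_crR 0).trans ?_
      simp [pen, S]
    · refine (H.D_crR 1).trans ?_
      simp [pen, S]
    · refine (H.D_crR 2).trans ?_
      simp [pen, S]
    · refine (H.D_crI 0).trans ?_
      simp [pen, S]
    · refine (H.D_crI 1).trans ?_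
      simp [pen, S]
    · refine (H.D_crI 2).trans ?_
      simp [pen, S]

end Herm

end Pool.Agent.GSX
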