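import Pool.Agent.GSX.X4
import Pool.Agent.GSX.GDefs

/-!
# GSX: the generic point is rational over the field of its component in `U`

`Gen.hwx`: if the component `uu` in `U` of the generic point `x` of the cubic is rational over a
field `T` between `KK` and `Ω` up to a factor then so is `x`.
-/

set_option autoImplicit false

noncomputable section

namespace Pool.Agent.GSX

open MvPolynomial Matrix

theorem lin_hom (c : Fin 6 → ℂ) : (lin c).IsHomogeneous 1 := by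
  refine IsHomogeneous.sum _ _ _ fun i _ => ?_
  have := (isHomogeneous_C (Fin 6) (c i)).mul (isHomogeneous_X ℂ i)
  rwa [zero_add] at this

theorem coeff_lin (c : Fin 6 → ℂ) (k : Fin 6) : coeff (Finsupp.single k 1) (lin c) = c k := by
  classical
  unfold lin
  rw [coeff_sum, Finset.sum_eq_single k]
  · rw [coeff_C_mul, coeff_X, if_pos rfl, mul_one]
  · intro i _ hi
    rw [coeff_C_mul, coeff_X, if_neg, mul_zero]
    intro h
    exact hi ((Finsupp.single_left_inj one_ne_zero).1 h)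
  · intro h
    exact absurd (Finset.mem_univ k) h

namespace Cub

variable (D : Cub ℂ)

theorem A00 : D.A 0 0 = lin fun k => D.a k 0 := rfl
theorem A01 : D.A 0 1 = lin fun k => D.a k 1 := rfl
theorem A10 : D.A 1 0 = lin fun k => D.a k 1 := rfl
theorem A11 : D.A 1 1 = lin fun k => D.a k 2 := rfl
theorem B00 : D.B 0 0 = lin fun k => D.b k 0 := rfl
theorem B01 : D.B 0 1 = lin fun k => D.b k 1 := rfl
theorem B10 : D.B 1 0 = lin fun k => D.b k 1 := rfl
theorem B11 : D.B 1 1 = lin fun k => D.b k 2 := rfl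

theorem A_hom : ∀ i j : Fin 2, (D.A i j).IsHomogeneous 1 := by
  rw [Fin.forall_fin_two, Fin.forall_fin_two, Fin.forall_fin_two, A00, A01, A10, A11]
  exact ⟨⟨lin_hom _, lin_hom _⟩, ⟨lin_hom _, lin_hom _⟩⟩

theorem B_hom : ∀ i j : Fin 2, (D.B i j).IsHomogeneous 1 := by
  rw [Fin.forall_fin_two, Fin.forall_fin_two, Fin.forall_fin_two, B00, B01, B10, B11]
  exact ⟨⟨lin_hom _, lin_hom _⟩, ⟨lin_hom _, lin_hom _⟩⟩

theorem A_symm : D.A 1 0 = D.A 0 1 := rfl

theorem B_symm : D.B 1 0 = D.B 0 1 := rfl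

variable {D}

theorem exists_coeff (h0 : D.a 0 ≠ 0 ∨ D.b 0 ≠ 0) : ∃ i j,
    coeff (Finsupp.single 0 1) (D.A i j) ≠ 0 ∨ coeff (Finsupp.single 0 1) (D.B i j) ≠ 0 := by
  rcases h0 with h0 | h0
  · obtain ⟨k, hk⟩ := Function.ne_iff.1 h0
    have hk' : D.a 0 k ≠ 0 := hk
    rcases (show k = 0 ∨ k = 1 ∨ k = 2 by fin_cases k <;> simp) with rfl | rfl | rfl
    · exact ⟨0, 0, Or.inl (by rw [A00, coeff_lin]; exact hk')⟩
    · exact ⟨0, 1, Or.inl (by rw [A01, coeff_lin]; exact hk')⟩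
    · exact ⟨1, 1, Or.inl (by rw [A11, coeff_lin]; exact hk')⟩
  · obtain ⟨k, hk⟩ := Function.ne_iff.1 h0
    have hk' : D.b 0 k ≠ 0 := hk
    rcases (show k = 0 ∨ k = 1 ∨ k = 2 by fin_cases k <;> simp) with rfl | rfl | rfl
    · exact ⟨0, 0, Or.inr (by rw [B00, coeff_lin]; exact hk')⟩
    · exact ⟨0, 1, Or.inr (by rw [B01, coeff_lin]; exact hk')⟩
    · exact ⟨1, 1, Or.inr (by rw [B11, coeff_lin]; exact hk')⟩

end Cub

variable {D : Cub ℂ} {Ω : Type} [Field Ω] [Algebra ℂ Ω] [Algebra KK Ω] [IsScalarTower ℂ KK Ω]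
  {x : Fin 6 → Ω}

/-- `s ^ 2 ≠ t` in `KK` -/
theorem st_ne : tK - sK * sK ≠ 0 := by
  unfold tK sK
  rw [← map_mul, ← map_sub]
  intro h
  have h1 : (X 1 - X 0 * X 0 : MvPolynomial (Fin 2) ℂ) = 0 :=
    IsFractionRing.injective (MvPolynomial (Fin 2) ℂ) KK (by rw [h, map_zero])
  have h2 := congrArg (eval ![0, 1]) h1
  simp at h2

theorem Gen.mv_ne (h : Gen D x) (h0 : D.a 0 ≠ 0 ∨ D.b 0 ≠ 0) : D.mv x 0 ≠ 0 :=
  m00_ne D.A_hom D.B_hom D.A_symm D.B_symm (Cub.exists_coeff h0) h.ker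

theorem Gen.x5_ne (h : Gen D x) (h0 : D.a 0 ≠ 0 ∨ D.b 0 ≠ 0) : x 5 ≠ 0 :=
  Pool.Agent.GSX.x5_ne D.A_hom D.B_hom D.A_symm D.B_symm (Cub.exists_coeff h0) h.ker

/-- The generic point is rational over the field of its component in `U`. -/
theorem Gen.hwx (h : Gen D x) (h0 : D.a 0 ≠ 0 ∨ D.b 0 ≠ 0) (T : IntermediateField KK Ω) {c : Ω}
    (hc : c ≠ 0) (hT : ∀ i, c * Cub.uu sK tK x i ∈ T) (i : Fin 6) : x i ∈ T := by
  have hm := h.mv_ne h0
  have ms : algebraMap KK Ω sK ∈ T := T.algebraMap_mem _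
  have mt : algebraMap KK Ω tK ∈ T := T.algebraMap_mem _
  have hd : algebraMap KK Ω tK - algebraMap KK Ω sK * algebraMap KK Ω sK ≠ 0 := by
    rw [← map_mul, ← map_sub]
    exact (map_ne_zero _).2 st_ne
  have hs : D.mv x 1 / D.mv x 0 = algebraMap KK Ω sK := by
    rw [div_eq_iff hm, mul_comm]
    exact h.hs.symm
  have ht : D.mv x 2 / D.mv x 0 = algebraMap KK Ω tK := by
    rw [div_eq_iff hm, mul_comm]
    exact h.ht.symm
  have u0 : c * (algebraMap KK Ω tK * x 1 - algebraMap KK Ω sK * x 2) ∈ T := hT 0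
  have u1 : c * (-(algebraMap KK Ω sK * x 1) + x 2) ∈ T := hT 1
  have u2 : c * x 5 ∈ T := hT 2
  have u3 : c * x 4 ∈ T := hT 3
  have u4 : c * -x 3 ∈ T := hT 4
  have e1 : c * x 1 = (c * (algebraMap KK Ω tK * x 1 - algebraMap KK Ω sK * x 2) +
      algebraMap KK Ω sK * (c * (-(algebraMap KK Ω sK * x 1) + x 2))) /
      (algebraMap KK Ω tK - algebraMap KK Ω sK * algebraMap KK Ω sK) := by
    rw [eq_div_iff hd]
    ring
  have m1 : c * x 1 ∈ T := by
    rw [e1]
    exact div_mem (add_mem u0 (mul_mem ms u1)) (sub_mem mt (mul_mem ms ms))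
  have m2 : c * x 2 ∈ T := by
    have e2 : c * x 2 = c * (-(algebraMap KK Ω sK * x 1) + x 2) +
        algebraMap KK Ω sK * (c * x 1) := by ring
    rw [e2]
    exact add_mem u1 (mul_mem ms m1)
  have m3 : c * x 3 ∈ T := by
    have e3 : c * x 3 = -(c * -x 3) := by ring
    rw [e3]
    exact neg_mem u4
  have hall : ∀ i, i ≠ 0 → c * x i ∈ T.restrictScalars ℂ := by
    intro i hi
    rw [IntermediateField.mem_restrictScalars]
    fin_cases i
    · exact absurd rfl hi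
    · exact m1
    · exact m2
    · exact m3
    · exact u3
    · exact u2
  have h1 := x4_div D.A_hom D.B_hom D.A_symm D.B_symm (Cub.exists_coeff h0) h.ker
    (T := T.restrictScalars ℂ) (by change D.mv x 1 / D.mv x 0 ∈ _; rw [hs]; exact ms)
    (by change D.mv x 2 / D.mv x 0 ∈ _; rw [ht]; exact mt) hc hall i 0
  rw [h.x0, div_one] at h1
  exact h1

end Pool.Agent.GSX
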