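import Mathlib

/-!
# GSX: the cubics of `C_24` in symmetric form; independence over the field of the base (X1)

`F = pᵀ adj(A) p - qᵀ adj(B) q + lam (det A - det B)`, `p = (X1, X2)`, `q = (X3, X4)`, `lam = X5`, `A`, `B`
symmetric matrices of linear forms in `X0, …, X5`; `base = p pᵀ + q qᵀ + lam (A + B)`.

`indep`: if `F` divides `∑ C_k(base) l_k`, `l = (X1, …, X5)`, `C_k` polynomials in the three entries of
`base`, then all `C_k` are zero, provided that `X0` occurs in `A` or `B`.
-/

set_option autoImplicit false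

namespace Pool.Agent.GSX

open MvPolynomial Matrix

/-- forms in six variables -/
abbrev S6 : Type := MvPolynomial (Fin 6) ℂ

/-- the cubic form -/
noncomputable def cubF (A B : Matrix (Fin 2) (Fin 2) S6) : S6 :=
  (A 1 1 * X 1 ^ 2 - 2 * A 0 1 * (X 1 * X 2) + A 0 0 * X 2 ^ 2) -
    (B 1 1 * X 3 ^ 2 - 2 * B 0 1 * (X 3 * X 4) + B 0 0 * X 4 ^ 2) + X 5 * (A.det - B.det)

/-- the three entries of `p pᵀ + q qᵀ + lam (A + B)` -/
noncomputable def base (A B : Matrix (Fin 2) (Fin 2) S6) : Fin 3 → S6 :=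
  ![X 1 ^ 2 + X 3 ^ 2 + X 5 * (A 0 0 + B 0 0), X 1 * X 2 + X 3 * X 4 + X 5 * (A 0 1 + B 0 1),
    X 2 ^ 2 + X 4 ^ 2 + X 5 * (A 1 1 + B 1 1)]

/-- a linear form is the sum of its coefficients times the variables -/
theorem eval_lin {f : S6} (hf : f.IsHomogeneous 1) (v : Fin 6 → ℂ) :
    eval v f = ∑ i, coeff (Finsupp.single i 1) f * v i := by
  rw [eval_eq']
  have h1 : ∀ d ∈ f.support, ∃ i, d = Finsupp.single i 1 := by
    intro d hd
    have h2 := hf (mem_support_iff.1 hd)
    rw [Finsupp.weight_apply] at h2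
    have h3 : d.sum (fun _ e => e) = 1 := by simpa [Finsupp.sum] using h2
    obtain ⟨i, hi⟩ := (Finsupp.sum_eq_one_iff d).1 h3
    exact ⟨i, hi⟩
  have h2 : f.support ⊆ Finset.univ.image fun i : Fin 6 => Finsupp.single i 1 := by
    intro d hd
    obtain ⟨i, rfl⟩ := h1 d hd
    exact Finset.mem_image_of_mem _ (Finset.mem_univ i)
  rw [Finset.sum_subset h2, Finset.sum_image]
  · refine Finset.sum_congr rfl fun i _ => ?_
    congr 1
    rw [Finset.prod_eq_single i]
    · simp
    · intro j _ hj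
      rw [Finsupp.single_eq_of_ne hj, pow_zero]
    · intro h
      exact absurd (Finset.mem_univ i) h
  · intro i _ j _ hij
    exact (Finsupp.single_left_inj one_ne_zero).1 hij
  · intro d _ hd
    rw [notMem_support_iff.1 hd, zero_mul]

/-- the point with `lam = 0` -/
private def pt (x : ℂ) (y : Fin 4 → ℂ) : Fin 6 → ℂ := ![x, y 0, y 1, y 2, y 3, 0]

/-- the coefficient of `X0` in the cubic at `lam = 0` -/
noncomputable def phi0 (A B : Matrix (Fin 2) (Fin 2) S6) (y : Fin 4 → ℂ) : ℂ :=
  (coeff (Finsupp.single 0 1) (A 1 1) * y 0 ^ 2 -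
      2 * coeff (Finsupp.single 0 1) (A 0 1) * (y 0 * y 1) +
      coeff (Finsupp.single 0 1) (A 0 0) * y 1 ^ 2) -
    (coeff (Finsupp.single 0 1) (B 1 1) * y 2 ^ 2 -
      2 * coeff (Finsupp.single 0 1) (B 0 1) * (y 2 * y 3) +
      coeff (Finsupp.single 0 1) (B 0 0) * y 3 ^ 2)

/-- the values of the base at `lam = 0` -/
def base0 (y : Fin 4 → ℂ) : Fin 3 → ℂ :=
  ![y 0 ^ 2 + y 2 ^ 2, y 0 * y 1 + y 2 * y 3, y 1 ^ 2 + y 3 ^ 2]

private theorem eval_pt_lin {f : S6} (hf : f.IsHomogeneous 1) (x : ℂ) (y : Fin 4 → ℂ) :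
    eval (pt x y) f = coeff (Finsupp.single 0 1) f * x + eval (pt 0 y) f := by
  rw [eval_lin hf, eval_lin hf, Fin.sum_univ_six, Fin.sum_univ_six]
  simp [pt]
  ring

private theorem eval_pt_cub {A B : Matrix (Fin 2) (Fin 2) S6}
    (hA : ∀ i j, (A i j).IsHomogeneous 1) (hB : ∀ i j, (B i j).IsHomogeneous 1)
    (x : ℂ) (y : Fin 4 → ℂ) :
    eval (pt x y) (cubF A B) = phi0 A B y * x + eval (pt 0 y) (cubF A B) := by
  unfold cubF phi0
  simp only [map_add, map_sub, map_mul, map_pow, eval_X, map_ofNat]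
  rw [eval_pt_lin (hA 1 1) x y, eval_pt_lin (hA 0 1) x y, eval_pt_lin (hA 0 0) x y,
    eval_pt_lin (hB 1 1) x y, eval_pt_lin (hB 0 1) x y, eval_pt_lin (hB 0 0) x y]
  simp [pt]
  ring

private theorem eval_pt_base (A B : Matrix (Fin 2) (Fin 2) S6) (x : ℂ) (y : Fin 4 → ℂ)
    (k : Fin 3) : eval (pt x y) (base A B k) = base0 y k := by
  fin_cases k
  · simp [base, base0, pt]
  · simp [base, base0, pt]
  · simp [base, base0, pt]

/-- the linear coordinates without `X0` -/
noncomputable def lc : Fin 5 → S6 := ![X 1, X 2, X 3, X 4, X 5]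

/-- a polynomial function on `ℂ⁴` which vanishes where `phi0` does not vanish is zero -/
private theorem zero_of_phi0 {A B : Matrix (Fin 2) (Fin 2) S6}
    (h0 : ∃ i j, coeff (Finsupp.single 0 1) (A i j) ≠ 0 ∨ coeff (Finsupp.single 0 1) (B i j) ≠ 0)
    (hAs : A 1 0 = A 0 1) (hBs : B 1 0 = B 0 1)
    (E : MvPolynomial (Fin 4) ℂ) (hE : ∀ y, phi0 A B y ≠ 0 → eval y E = 0) : E = 0 := by
  set a := fun i j => coeff (Finsupp.single 0 1) (A i j) with ha
  set b := fun i j => coeff (Finsupp.single 0 1) (B i j) with hb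
  set P : MvPolynomial (Fin 4) ℂ :=
    (C (a 1 1) * X 0 ^ 2 - 2 * C (a 0 1) * (X 0 * X 1) + C (a 0 0) * X 1 ^ 2) -
      (C (b 1 1) * X 2 ^ 2 - 2 * C (b 0 1) * (X 2 * X 3) + C (b 0 0) * X 3 ^ 2) with hP
  have hPe : ∀ y, eval y P = phi0 A B y := by
    intro y
    simp [hP, phi0, ha, hb]
  have hP0 : P ≠ 0 := by
    intro hP0
    have h1 : ∀ y, phi0 A B y = 0 := fun y => by rw [← hPe, hP0, map_zero]
    have e1 := h1 ![1, 0, 0, 0]
    have e2 := h1 ![0, 1, 0, 0]
    have e3 := h1 ![1, 1, 0, 0]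
    have e4 := h1 ![0, 0, 1, 0]
    have e5 := h1 ![0, 0, 0, 1]
    have e6 := h1 ![0, 0, 1, 1]
    simp [phi0] at e1 e2 e3 e4 e5 e6
    rw [e1, e2] at e3
    rw [e4, e5] at e6
    have e7 : coeff (Finsupp.single 0 1) (A 0 1) = 0 := by simpa using e3
    have e8 : coeff (Finsupp.single 0 1) (B 0 1) = 0 := by simpa using e6
    obtain ⟨i, j, hij⟩ := h0
    rcases hij with hij | hij
    · apply hij
      fin_cases i <;> fin_cases j
      · exact e2
      · exact e7
      · show coeff (Finsupp.single 0 1) (A 1 0) = 0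
        rw [hAs]; exact e7
      · exact e1
    · apply hij
      fin_cases i <;> fin_cases j
      · exact e5
      · exact e8
      · show coeff (Finsupp.single 0 1) (B 1 0) = 0
        rw [hBs]; exact e8
      · exact e4
  have h1 : E * P = 0 := by
    refine MvPolynomial.funext fun y => ?_
    rw [map_mul, map_zero, hPe]
    by_cases hy : phi0 A B y = 0
    · rw [hy, mul_zero]
    · rw [hE y hy, zero_mul]
  exact (mul_eq_zero.1 h1).resolve_right hP0

/-- four polynomials with `∑ C_k(base0 y) y_k = 0` on `ℂ⁴` are zero -/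
private theorem four_zero (c : Fin 4 → MvPolynomial (Fin 3) ℂ)
    (h : ∀ y : Fin 4 → ℂ, ∑ k, eval (base0 y) (c k) * y k = 0) : ∀ k, c k = 0 := by
  have hI : Complex.I * Complex.I = -1 := Complex.I_mul_I
  -- values at a general point
  have key : ∀ m : Fin 3 → ℂ, m 0 ≠ 0 → m 1 ^ 2 - m 0 * m 2 ≠ 0 → ∀ k, eval m (c k) = 0 := by
    intro m hm0 hd
    obtain ⟨r', hr'⟩ : ∃ r', r' ^ 2 = m 1 ^ 2 - m 0 * m 2 :=
      IsAlgClosed.exists_pow_nat_eq _ (by norm_num)
    have hr0 : r' ≠ 0 := by
      rintro rfl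
      apply hd
      rw [← hr']
      norm_num
    set r := (m 1 + r') / m 0 with hr
    have hrm : r * m 0 = m 1 + r' := by rw [hr, div_mul_cancel₀ _ hm0]
    -- `π = (1, r)`, `π' = (m0, 2 m1 - r m0)`
    have hrr : r * (2 * m 1 - r * m 0) = m 2 := by
      have h1 : m 0 * (r * (2 * m 1 - r * m 0)) = m 0 * m 2 := by
        have : m 0 * (r * (2 * m 1 - r * m 0)) = (r * m 0) * (2 * m 1 - r * m 0) := by ring
        rw [this, hrm]
        linear_combination -hr'
      exact mul_left_cancel₀ hm0 h1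
    -- the point belonging to `(π, π')`
    have hE : ∀ a0 a1 b0 b1 : ℂ, a0 * b0 = m 0 → a0 * b1 + a1 * b0 = 2 * m 1 → a1 * b1 = m 2 →
        eval m (c 0) * (a0 + b0) + eval m (c 1) * (a1 + b1) +
          Complex.I * (eval m (c 2) * (b0 - a0) + eval m (c 3) * (b1 - a1)) = 0 := by
      intro a0 a1 b0 b1 h0 h1 h2
      have h3 := h ![(a0 + b0) / 2, (a1 + b1) / 2, Complex.I * (b0 - a0) / 2,
        Complex.I * (b1 - a1) / 2]
      have h4 : base0 ![(a0 + b0) / 2, (a1 + b1) / 2, Complex.I * (b0 - a0) / 2,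
        Complex.I * (b1 - a1) / 2] = m := by
        funext k
        fin_cases k
        · simp [base0]
          linear_combination h0 + (b0 - a0) ^ 2 / 4 * hI
        · simp [base0]
          linear_combination h1 / 2 + (b0 - a0) * (b1 - a1) / 4 * hI
        · simp [base0]
          linear_combination h2 + (b1 - a1) ^ 2 / 4 * hI
      rw [h4, Fin.sum_univ_four] at h3
      simp at h3
      linear_combination 2 * h3
    have g1 := hE 1 r (m 0) (2 * m 1 - r * m 0) (by ring) (by ring) hrr
    have g2 := hE 2 (2 * r) (m 0 / 2) ((2 * m 1 - r * m 0) / 2) (by ring) (by ring)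
      (by rw [← hrr]; ring)
    have g3 := hE (m 0) (2 * m 1 - r * m 0) 1 r (by ring) (by ring) (by rw [← hrr]; ring)
    have g4 := hE (m 0 / 2) ((2 * m 1 - r * m 0) / 2) 2 (2 * r) (by ring) (by ring)
      (by rw [← hrr]; ring)
    set s := 2 * m 1 - r * m 0 with hs
    have hdet : s - r * m 0 ≠ 0 := by
      have : s - r * m 0 = -2 * r' := by
        rw [hs]
        linear_combination -2 * hrm
      rw [this]
      exact mul_ne_zero (by norm_num) hr0
    -- `a = c0 - i c2`, `b = c1 - i c3`; `a' = c0 + i c2`, `b' = c1 + i c3`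
    have k1 : (eval m (c 0) - Complex.I * eval m (c 2)) +
        (eval m (c 1) - Complex.I * eval m (c 3)) * r = 0 := by
      linear_combination (2 / 3 : ℂ) * g2 - (1 / 3 : ℂ) * g1
    have k2 : (eval m (c 0) + Complex.I * eval m (c 2)) * m 0 +
        (eval m (c 1) + Complex.I * eval m (c 3)) * s = 0 := by
      linear_combination (4 / 3 : ℂ) * g1 - (2 / 3 : ℂ) * g2
    have k3 : (eval m (c 0) - Complex.I * eval m (c 2)) * m 0 +
        (eval m (c 1) - Complex.I * eval m (c 3)) * s = 0 := by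
      linear_combination (4 / 3 : ℂ) * g3 - (2 / 3 : ℂ) * g4
    have k4 : (eval m (c 0) + Complex.I * eval m (c 2)) +
        (eval m (c 1) + Complex.I * eval m (c 3)) * r = 0 := by
      linear_combination (2 / 3 : ℂ) * g4 - (1 / 3 : ℂ) * g3
    have l1 : eval m (c 1) - Complex.I * eval m (c 3) = 0 := by
      have : (eval m (c 1) - Complex.I * eval m (c 3)) * (s - r * m 0) = 0 := by
        linear_combination k3 - m 0 * k1
      exact (mul_eq_zero.1 this).resolve_right hdet
    have l2 : eval m (c 1) + Complex.I * eval m (c 3) = 0 := by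
      have : (eval m (c 1) + Complex.I * eval m (c 3)) * (s - r * m 0) = 0 := by
        linear_combination k2 - m 0 * k4
      exact (mul_eq_zero.1 this).resolve_right hdet
    have l3 : eval m (c 0) - Complex.I * eval m (c 2) = 0 := by
      linear_combination k1 - r * l1
    have l4 : eval m (c 0) + Complex.I * eval m (c 2) = 0 := by
      linear_combination k4 - r * l2
    intro k
    fin_cases k
    · show eval m (c 0) = 0
      linear_combination (1 / 2 : ℂ) * l3 + (1 / 2 : ℂ) * l4
    · show eval m (c 1) = 0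
      linear_combination (1 / 2 : ℂ) * l1 + (1 / 2 : ℂ) * l2
    · show eval m (c 2) = 0
      linear_combination (Complex.I / 2) * l3 - (Complex.I / 2) * l4 + eval m (c 2) * hI
    · show eval m (c 3) = 0
      linear_combination (Complex.I / 2) * l1 - (Complex.I / 2) * l2 + eval m (c 3) * hI
  intro k
  have h1 : c k * (X 0 * (X 1 ^ 2 - X 0 * X 2)) = 0 := by
    refine MvPolynomial.funext fun m => ?_
    simp only [map_mul, map_sub, map_pow, eval_X, map_zero]
    by_cases hm : m 0 = 0
    · rw [hm]; ring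
    · by_cases hd : m 1 ^ 2 - m 0 * m 2 = 0
      · rw [hd]; ring
      · rw [key m hm hd k, zero_mul]
  refine (mul_eq_zero.1 h1).resolve_right ?_
  intro h2
  have h3 := congrArg (eval ![1, 1, 0]) h2
  simp at h3

/-- (X1): independence over the field of the base. -/
theorem indep {A B : Matrix (Fin 2) (Fin 2) S6} (hA : ∀ i j, (A i j).IsHomogeneous 1)
    (hB : ∀ i j, (B i j).IsHomogeneous 1) (hAs : A 1 0 = A 0 1) (hBs : B 1 0 = B 0 1)
    (h0 : ∃ i j, coeff (Finsupp.single 0 1) (A i j) ≠ 0 ∨ coeff (Finsupp.single 0 1) (B i j) ≠ 0)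
    (c : Fin 5 → MvPolynomial (Fin 3) ℂ)
    (h : cubF A B ∣ ∑ k, aeval (base A B) (c k) * lc k) : ∀ k, c k = 0 := by
  have haev : ∀ (C' : MvPolynomial (Fin 3) ℂ) (x : ℂ) (y : Fin 4 → ℂ),
      eval (pt x y) (aeval (base A B) C') = eval (base0 y) C' := by
    intro C' x y
    have h1 : (fun i => eval (pt x y) (base A B i)) = base0 y :=
      _root_.funext fun i => eval_pt_base A B x y i
    rw [← h1, ← aeval_eq_eval, ← aeval_eq_eval, comp_aeval_apply]
  -- where `phi0` does not vanish there is a zero of the cubic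
  have hpt : ∀ y, phi0 A B y ≠ 0 → ∃ x, eval (pt x y) (cubF A B) = 0 := by
    intro y hy
    refine ⟨-(eval (pt 0 y) (cubF A B)) / phi0 A B y, ?_⟩
    rw [eval_pt_cub hA hB, mul_div_cancel₀ _ hy]
    ring
  have h4 : ∀ k : Fin 4, c k.castSucc = 0 := by
    refine four_zero (fun k => c k.castSucc) fun y => ?_
    set E : MvPolynomial (Fin 4) ℂ := ∑ k : Fin 4,
      aeval (![X 0 ^ 2 + X 2 ^ 2, X 0 * X 1 + X 2 * X 3, X 1 ^ 2 + X 3 ^ 2] :
        Fin 3 → MvPolynomial (Fin 4) ℂ) (c k.castSucc) * X k with hE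
    have hEe : ∀ y, eval y E = ∑ k : Fin 4, eval (base0 y) (c k.castSucc) * y k := by
      intro y
      rw [hE, map_sum]
      refine Finset.sum_congr rfl fun k _ => ?_
      rw [map_mul, eval_X]
      congr 1
      have h1 : (fun i => eval y ((![X 0 ^ 2 + X 2 ^ 2, X 0 * X 1 + X 2 * X 3,
          X 1 ^ 2 + X 3 ^ 2] : Fin 3 → MvPolynomial (Fin 4) ℂ) i)) = base0 y := by
        funext i
        fin_cases i
        · simp [base0]
        · simp [base0]
        · simp [base0]
      rw [← h1, ← aeval_eq_eval, ← aeval_eq_eval, comp_aeval_apply]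
    have hE0 : E = 0 := by
      refine zero_of_phi0 h0 hAs hBs E fun y hy => ?_
      obtain ⟨x, hx⟩ := hpt y hy
      obtain ⟨H, hH⟩ := h
      have h2 := congrArg (eval (pt x y)) hH
      rw [map_mul, hx, zero_mul, map_sum, Fin.sum_univ_castSucc] at h2
      have h3 : eval (pt x y) (lc (Fin.last 4)) = 0 := by
        show eval (pt x y) (X 5) = 0
        rw [eval_X]
        rfl
      rw [map_mul, h3, mul_zero, add_zero] at h2
      rw [hEe, ← h2]
      refine Finset.sum_congr rfl fun k _ => ?_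
      rw [map_mul, haev]
      congr 1
      fin_cases k
      · show y 0 = eval (pt x y) (X 1)
        rw [eval_X]; rfl
      · show y 1 = eval (pt x y) (X 2)
        rw [eval_X]; rfl
      · show y 2 = eval (pt x y) (X 3)
        rw [eval_X]; rfl
      · show y 3 = eval (pt x y) (X 4)
        rw [eval_X]; rfl
    rw [← hEe, hE0, map_zero]
  have h5 : c (Fin.last 4) = 0 := by
    rw [Fin.sum_univ_castSucc] at h
    have h6 : ∑ k : Fin 4, aeval (base A B) (c k.castSucc) * lc k.castSucc = 0 :=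
      Finset.sum_eq_zero fun k _ => by rw [h4 k, map_zero, zero_mul]
    rw [h6, zero_add] at h
    have h7 : cubF A B ∣ aeval (base A B) (c (Fin.last 4)) * X 5 := h
    obtain ⟨H, hH⟩ := h7
    have hnd : ¬ (X 5 : S6) ∣ cubF A B := by
      rintro ⟨G, hG⟩
      have h8 : (1 : MvPolynomial (Fin 4) ℂ) = 0 := by
        refine zero_of_phi0 h0 hAs hBs 1 fun y hy => ?_
        exfalso
        apply hy
        have e1 := congrArg (eval (pt 1 y)) hG
        have e2 := congrArg (eval (pt 0 y)) hG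
        rw [map_mul, eval_X] at e1 e2
        have e3 : pt 1 y 5 = 0 := rfl
        have e4 : pt 0 y 5 = 0 := rfl
        rw [e3, zero_mul, eval_pt_cub hA hB] at e1
        rw [e4, zero_mul] at e2
        rw [e2, add_zero, mul_one] at e1
        exact e1
      exact one_ne_zero h8
    have h8 : (X 5 : S6) ∣ cubF A B * H := ⟨aeval (base A B) (c (Fin.last 4)), by
      rw [← hH, mul_comm]⟩
    obtain ⟨H', hH'⟩ := (X_prime.dvd_or_dvd h8).resolve_left hnd
    have h9 : aeval (base A B) (c (Fin.last 4)) = cubF A B * H' := by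
      have : X 5 * aeval (base A B) (c (Fin.last 4)) = X 5 * (cubF A B * H') := by
        rw [mul_comm, hH, hH']
        ring
      exact mul_left_cancel₀ (X_ne_zero 5) this
    have h10 : ∀ y, eval (base0 y) (c (Fin.last 4)) = 0 := by
      intro y
      set E : MvPolynomial (Fin 4) ℂ :=
        aeval (![X 0 ^ 2 + X 2 ^ 2, X 0 * X 1 + X 2 * X 3, X 1 ^ 2 + X 3 ^ 2] :
          Fin 3 → MvPolynomial (Fin 4) ℂ) (c (Fin.last 4)) with hE
      have hEe : ∀ y, eval y E = eval (base0 y) (c (Fin.last 4)) := by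
        intro y
        have h1 : (fun i => eval y ((![X 0 ^ 2 + X 2 ^ 2, X 0 * X 1 + X 2 * X 3,
            X 1 ^ 2 + X 3 ^ 2] : Fin 3 → MvPolynomial (Fin 4) ℂ) i)) = base0 y := by
          funext i
          fin_cases i
          · simp [base0]
          · simp [base0]
          · simp [base0]
        rw [hE, ← h1, ← aeval_eq_eval, ← aeval_eq_eval, comp_aeval_apply]
      have hE0 : E = 0 := by
        refine zero_of_phi0 h0 hAs hBs E fun y hy => ?_
        obtain ⟨x, hx⟩ := hpt y hy
        have h2 := congrArg (eval (pt x y)) h9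
        rw [map_mul, hx, zero_mul, haev] at h2
        rw [hEe, h2]
      rw [← hEe, hE0, map_zero]
    have h11 := four_zero (fun k => if k = 0 then c (Fin.last 4) else 0) fun y => by
      rw [Fin.sum_univ_four]
      simp only [if_pos, h10 y, zero_mul, zero_add]
      simp
    simpa using h11 0
  intro k
  refine Fin.lastCases h5 h4 k

end Pool.Agent.GSX
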