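import Pool.Agent.GSX.SqRed
import Pool.Agent.GSX.Indep

/-! Squares among the polynomials in the base: the core statement about polynomials. -/

set_option autoImplicit false

namespace Pool.Agent.GSX.Sq

open MvPolynomial

/-- the part of the base free of `x0` -/
noncomputable def be (D : Dat) : Fin 3 → A5 :=
  ![X 1 ^ 2 + X 3 ^ 2 + X 0 * (D.a' 0 + D.b' 0), X 1 * X 2 + X 3 * X 4 + X 0 * (D.a' 1 + D.b' 1),
    X 2 ^ 2 + X 4 ^ 2 + X 0 * (D.a' 2 + D.b' 2)]

/-- the base -/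
noncomputable def bs (D : Dat) (k : Fin 3) : MvPolynomial (Fin 6) ℂ :=
  io (be D k) + C (D.a k + D.b k) * (X 5 * X 0)

/-- the base at `lam = 0` -/
noncomputable def b0p : Fin 3 → B4 :=
  ![X 0 ^ 2 + X 2 ^ 2, X 0 * X 1 + X 2 * X 3, X 1 ^ 2 + X 3 ^ 2]

lemma pi0_be (D : Dat) (k : Fin 3) : pi0 (be D k) = b0p k := by
  have e1 : pi0 (X 1) = X 0 := by rw [pi0, aeval_X]; rfl
  have e2 : pi0 (X 2) = X 1 := by rw [pi0, aeval_X]; rfl
  have e3 : pi0 (X 3) = X 2 := by rw [pi0, aeval_X]; rfl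
  have e4 : pi0 (X 4) = X 3 := by rw [pi0, aeval_X]; rfl
  fin_cases k
  · change pi0 (X 1 ^ 2 + X 3 ^ 2 + X 0 * (D.a' 0 + D.b' 0)) = X 0 ^ 2 + X 2 ^ 2
    rw [map_add, map_add, map_mul, map_pow, map_pow, pi0_X0, zero_mul, add_zero, e1, e3]
  · change pi0 (X 1 * X 2 + X 3 * X 4 + X 0 * (D.a' 1 + D.b' 1)) = X 0 * X 1 + X 2 * X 3
    rw [map_add, map_add, map_mul, map_mul, map_mul, pi0_X0, zero_mul, add_zero, e1, e2, e3, e4]
  · change pi0 (X 2 ^ 2 + X 4 ^ 2 + X 0 * (D.a' 2 + D.b' 2)) = X 1 ^ 2 + X 3 ^ 2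
    rw [map_add, map_add, map_mul, map_pow, map_pow, pi0_X0, zero_mul, add_zero, e2, e4]

/-- polynomials in the base in terms of `1, ξ` -/
theorem red3 (D : Dat) (hD : del D ≠ 0) (G : MvPolynomial (Fin 3) ℂ) : ∃ C0 C1 : A5,
    (∀ (M : Type) [Field M] [Algebra ℂ M] (x : Fin 6 → M), Gen D x →
      aeval x (aeval (bs D) G) = ph x C0 + ph x C1 * xi D x) ∧ pi0 C0 = aeval b0p G := by
  induction G using MvPolynomial.induction_on with
  | C a =>
    refine ⟨C a, 0, fun M _ _ x _ => ?_, ?_⟩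
    · rw [aeval_C, map_zero, ph_C, zero_mul, add_zero]
      exact (aeval x).commutes a
    · rw [aeval_C]
      exact pi0.commutes a
  | add G G' hG hG' =>
    obtain ⟨C0, C1, h, h0⟩ := hG
    obtain ⟨C0', C1', h', h0'⟩ := hG'
    refine ⟨C0 + C0', C1 + C1', fun M _ _ x hx => ?_, ?_⟩
    · rw [map_add, map_add, h M x hx, h' M x hx, map_add, map_add]
      ring
    · rw [map_add, map_add, h0, h0']
  | mul_X G i hG =>
    obtain ⟨C0, C1, h, h0⟩ := hG
    set c : A5 := C ((D.a i + D.b i) * (del D)⁻¹) with hc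
    refine ⟨C0 * be D i + C1 * c * PP D, C0 * c + C1 * be D i + C1 * c * dd D,
      fun M _ _ x hx => ?_, ?_⟩
    · have h1 : aeval x (bs D i) = ph x (be D i) + ph x c * xi D x := by
        unfold bs
        rw [map_add, map_mul, map_mul, aeval_io, aeval_X, aeval_X, aeval_C, hc, ph_C, map_mul,
          map_inv₀]
        unfold xi
        have hdC : algebraMap ℂ M (del D) ≠ 0 := (map_ne_zero _).mpr hD
        field_simp
      rw [map_mul, map_mul, aeval_X, h M x hx, h1]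
      simp only [map_add, map_mul]
      linear_combination (ph x C1 * ph x c) * hx.xi_sq
    · rw [map_add, map_mul, map_mul, pi0_PP, mul_zero, add_zero, h0, pi0_be, map_mul, aeval_X]

/-- **The core.** -/
theorem core (D : Dat) (hD : del D ≠ 0) (hF : Irreducible (FF D)) (G : MvPolynomial (Fin 3) ℂ)
    (Y Z : MvPolynomial (Fin 6) ℂ) (h : FF D ∣ aeval (bs D) G * Z ^ 2 - Y ^ 2)
    (hZ : ¬ FF D ∣ Z) : ∃ r w : B4, r ≠ 0 ∧ w ^ 2 = r ^ 2 * aeval b0p G := by
  have hP : Prime (FF D) := UniqueFactorizationMonoid.irreducible_iff_prime.mp hF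
  haveI : (Ideal.span {FF D}).IsPrime := (Ideal.span_singleton_prime hF.ne_zero).mpr hP
  let Q := MvPolynomial (Fin 6) ℂ ⧸ Ideal.span {FF D}
  let M := FractionRing Q
  let mk : MvPolynomial (Fin 6) ℂ →ₐ[ℂ] M :=
    (IsScalarTower.toAlgHom ℂ Q M).comp (Ideal.Quotient.mkₐ ℂ (Ideal.span {FF D}))
  let x : Fin 6 → M := fun i => mk (X i)
  have hx : ∀ G, aeval x G = mk G := by
    intro G
    have h1 : aeval x = mk := by
      refine MvPolynomial.algHom_ext fun i => ?_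
      rw [aeval_X]
    rw [h1]
  have hmk : ∀ G, mk G = 0 ↔ FF D ∣ G := by
    intro G
    change algebraMap Q M (Ideal.Quotient.mk _ G) = 0 ↔ _
    rw [map_eq_zero_iff _ (IsFractionRing.injective Q M), Ideal.Quotient.eq_zero_iff_mem,
      Ideal.mem_span_singleton]
  have hgen : Gen D x := by
    refine ⟨fun G => by rw [hx, hmk], fun z => ?_⟩
    obtain ⟨y, d, hd, rfl⟩ := IsFractionRing.div_surjective (A := Q) z
    obtain ⟨Y, rfl⟩ := Ideal.Quotient.mk_surjective y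
    obtain ⟨Z, rfl⟩ := Ideal.Quotient.mk_surjective d
    have hd0 : algebraMap Q M (Ideal.Quotient.mk _ Z) ≠ 0 := by
      intro h0
      exact nonZeroDivisors.ne_zero hd
        ((IsFractionRing.injective Q M) (h0.trans (map_zero _).symm))
    refine ⟨Y, Z, ?_, ?_⟩
    · rw [hx]
      exact hd0
    · rw [hx, hx]
      exact div_mul_cancel₀ _ hd0
  obtain ⟨C0, C1, h1, h2⟩ := red3 D hD G
  have hZ0 : aeval x Z ≠ 0 := by
    rw [hx]
    intro h0
    exact hZ ((hmk Z).mp h0)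
  have h3 : aeval x (aeval (bs D) G) * aeval x Z ^ 2 = aeval x Y ^ 2 := by
    have h4 : aeval x (aeval (bs D) G * Z ^ 2 - Y ^ 2) = 0 := by
      rw [hgen.ker]
      exact h
    rw [map_sub, map_mul, map_pow, map_pow] at h4
    exact sub_eq_zero.mp h4
  obtain ⟨r, w, hr, hw⟩ := hgen.red0 hD (aeval x Y / aeval x Z) C0 C1 (by
    rw [← h1 M x hgen, div_pow, ← h3]
    exact mul_div_cancel_right₀ _ (pow_ne_zero 2 hZ0))
  exact ⟨r, w, hr, by rw [hw, h2]⟩

end Pool.Agent.GSX.Sq
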