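import Pool.Agent.GSX.Sq

/-!
# The determinant of the base is not a square of the function field

The second place: the exceptional divisor of the point `(1 : 0 : … : 0)` of the cubic.
-/

set_option autoImplicit false

namespace Pool.Agent.GSX.Sq

open MvPolynomial Matrix

section
variable {D : Dat} {M : Type} [Field M] [Algebra ℂ M] {x : Fin 6 → M}

/-- **The reduction at the second place.** -/
theorem Gen.redP (hx : Gen D x) (hD : del D ≠ 0) (z : M) (C0 C1 : A5)
    (hz : z ^ 2 = ph x C0 + ph x C1 * xi D x) :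
    ∃ r w : B4, r ≠ 0 ∧ w ^ 2 = r ^ 2 * (pi0 C0 - pi0 C1 * pi0 (LL D)) := by
  have hsq := hx.xi_sq
  have main : ∀ r : A5, r ≠ 0 → ∀ p q : A5, ph x r * z = ph x p + ph x q * xi D x →
      p ^ 2 + q ^ 2 * PP D = r ^ 2 * C0 ∧ 2 * p * q + q ^ 2 * dd D = r ^ 2 * C1 := by
    intro r _ p q h
    have h1 : ph x (p ^ 2 + q ^ 2 * PP D - r ^ 2 * C0) +
        ph x (2 * p * q + q ^ 2 * dd D - r ^ 2 * C1) * xi D x = 0 := by
      simp only [map_add, map_sub, map_mul, map_pow, map_ofNat]
      linear_combination (-(ph x q) ^ 2) * hsq + (ph x r) ^ 2 * hz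
        - (ph x r * z + ph x p + ph x q * xi D x) * h
    obtain ⟨h2, h3⟩ := hx.indep_xi hD h1
    exact ⟨sub_eq_zero.mp h2, sub_eq_zero.mp h3⟩
  have step : ∀ r : A5, r ≠ 0 → ∀ p q : A5, ph x r * z = ph x p + ph x q * xi D x →
      ∃ r p q : A5, pi0 r ≠ 0 ∧ ph x r * z = ph x p + ph x q * xi D x := by
    intro r
    induction r using (wellFounded_dvdNotUnit (α := A5)).induction with
    | _ r ih =>
      intro hr p q h
      by_cases hr0 : pi0 r = 0
      · obtain ⟨h1, h2⟩ := main r hr p q h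
        have h1' := congrArg pi0 h1
        have h2' := congrArg pi0 h2
        simp only [map_add, map_mul, map_pow, map_ofNat, hr0, pi0_PP] at h1' h2'
        have hp : pi0 p = 0 := by
          have : pi0 p ^ 2 = 0 := by linear_combination h1'
          exact pow_eq_zero_iff (two_ne_zero) |>.mp this
        have hd : pi0 (dd D) = -pi0 (LL D) := by rw [dd, map_neg]
        have hq : pi0 q = 0 := by
          rw [hp, hd] at h2'
          have : pi0 q ^ 2 * pi0 (LL D) = 0 := by linear_combination -h2'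
          exact pow_eq_zero_iff (two_ne_zero) |>.mp
            ((mul_eq_zero.mp this).resolve_right (pi0_LL_ne D hD))
        obtain ⟨r', rfl⟩ := X_dvd_of_pi0 hr0
        obtain ⟨p', rfl⟩ := X_dvd_of_pi0 hp
        obtain ⟨q', rfl⟩ := X_dvd_of_pi0 hq
        have hr' : r' ≠ 0 := right_ne_zero_of_mul hr
        refine ih r' ⟨hr', X 0, ?_, mul_comm _ _⟩ hr' p' q' ?_
        · intro hu
          have h7 := hu.map pi0
          rw [pi0_X0] at h7
          exact not_isUnit_zero h7
        · apply mul_left_cancel₀ (hx.x5_ne hD)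
          rw [map_mul, map_mul, map_mul, ph_X0] at h
          linear_combination h
      · exact ⟨r, p, q, hr0, h⟩
  obtain ⟨r, p, q, hr, h⟩ := hx.pres hD z
  obtain ⟨r, p, q, hr, h⟩ := step r hr p q h
  have hr' : r ≠ 0 := by
    rintro rfl
    exact hr (map_zero _)
  obtain ⟨h1, h2⟩ := main r hr' p q h
  refine ⟨pi0 r, pi0 p - pi0 q * pi0 (LL D), hr, ?_⟩
  have h1' := congrArg pi0 h1
  have h2' := congrArg pi0 h2
  have hd : pi0 (dd D) = -pi0 (LL D) := by rw [dd, map_neg]
  simp only [map_add, map_mul, map_pow, map_ofNat, pi0_PP, hd] at h1' h2'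
  linear_combination h1' - pi0 (LL D) * h2'

end

/-- the base at the second place (times `del`) -/
noncomputable def mP (D : Dat) (k : Fin 3) : B4 :=
  b0p k - C ((D.a k + D.b k) * (del D)⁻¹) * pi0 (LL D)

/-- polynomials in the base in terms of `1, ξ`, second place -/
theorem redP3 (D : Dat) (hD : del D ≠ 0) (G : MvPolynomial (Fin 3) ℂ) : ∃ C0 C1 : A5,
    (∀ (M : Type) [Field M] [Algebra ℂ M] (x : Fin 6 → M), Gen D x →
      aeval x (aeval (bs D) G) = ph x C0 + ph x C1 * xi D x) ∧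
      pi0 C0 - pi0 C1 * pi0 (LL D) = aeval (mP D) G := by
  induction G using MvPolynomial.induction_on with
  | C a =>
    refine ⟨C a, 0, fun M _ _ x _ => ?_, ?_⟩
    · rw [aeval_C, map_zero, ph_C, zero_mul, add_zero]
      exact (aeval x).commutes a
    · rw [aeval_C, map_zero, zero_mul, sub_zero]
      exact pi0.commutes a
  | add G G' hG hG' =>
    obtain ⟨C0, C1, h, h0⟩ := hG
    obtain ⟨C0', C1', h', h0'⟩ := hG'
    refine ⟨C0 + C0', C1 + C1', fun M _ _ x hx => ?_, ?_⟩
    · rw [map_add, map_add, h M x hx, h' M x hx, map_add, map_add]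
      ring
    · rw [map_add, map_add, map_add, ← h0, ← h0']
      ring
  | mul_X G i hG =>
    obtain ⟨C0, C1, h, h0⟩ := hG
    set c : A5 := C ((D.a i + D.b i) * (del D)⁻¹) with hc
    refine ⟨C0 * be D i + C1 * c * PP D, C0 * c + C1 * be D i + C1 * c * dd D,
      fun M _ _ x hx => ?_, ?_⟩
    · have h1 : aeval x (bs D i) = ph x (be D i) + ph x c * xi D x := by
        unfold bs
        rw [map_add, map_mul, map_mul, aeval_io, aeval_X, aeval_X, aeval_C, hc, ph_C, map_mul,
          map_inv₀]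
        unfold xi
        have hdC : algebraMap ℂ M (del D) ≠ 0 := (map_ne_zero _).mpr hD
        field_simp
      rw [map_mul, map_mul, aeval_X, h M x hx, h1]
      simp only [map_add, map_mul]
      linear_combination (ph x C1 * ph x c) * hx.xi_sq
    · have hd : pi0 (dd D) = -pi0 (LL D) := by rw [dd, map_neg]
      have hc0 : pi0 c = C ((D.a i + D.b i) * (del D)⁻¹) := pi0.commutes _
      rw [map_mul, aeval_X, ← h0]
      unfold mP
      simp only [map_add, map_mul, pi0_PP, pi0_be, hd, hc0]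
      ring

/-- **The core at the second place.** -/
theorem coreP (D : Dat) (hD : del D ≠ 0) (hF : Irreducible (FF D)) (G : MvPolynomial (Fin 3) ℂ)
    (Y Z : MvPolynomial (Fin 6) ℂ) (h : FF D ∣ aeval (bs D) G * Z ^ 2 - Y ^ 2)
    (hZ : ¬ FF D ∣ Z) : ∃ r w : B4, r ≠ 0 ∧ w ^ 2 = r ^ 2 * aeval (mP D) G := by
  have hP : Prime (FF D) := UniqueFactorizationMonoid.irreducible_iff_prime.mp hF
  haveI : (Ideal.span {FF D}).IsPrime := (Ideal.span_singleton_prime hF.ne_zero).mpr hP
  let Q := MvPolynomial (Fin 6) ℂ ⧸ Ideal.span {FF D}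
  let M := FractionRing Q
  let mk : MvPolynomial (Fin 6) ℂ →ₐ[ℂ] M :=
    (IsScalarTower.toAlgHom ℂ Q M).comp (Ideal.Quotient.mkₐ ℂ (Ideal.span {FF D}))
  let x : Fin 6 → M := fun i => mk (X i)
  have hx : ∀ G, aeval x G = mk G := by
    intro G
    have h1 : aeval x = mk := by
      refine MvPolynomial.algHom_ext fun i => ?_
      rw [aeval_X]
    rw [h1]
  have hmk : ∀ G, mk G = 0 ↔ FF D ∣ G := by
    intro G
    change algebraMap Q M (Ideal.Quotient.mk _ G) = 0 ↔ _
    rw [map_eq_zero_iff _ (IsFractionRing.injective Q M), Ideal.Quotient.eq_zero_iff_mem,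
      Ideal.mem_span_singleton]
  have hgen : Gen D x := by
    refine ⟨fun G => by rw [hx, hmk], fun z => ?_⟩
    obtain ⟨y, d, hd, rfl⟩ := IsFractionRing.div_surjective (A := Q) z
    obtain ⟨Y, rfl⟩ := Ideal.Quotient.mk_surjective y
    obtain ⟨Z, rfl⟩ := Ideal.Quotient.mk_surjective d
    have hd0 : algebraMap Q M (Ideal.Quotient.mk _ Z) ≠ 0 := by
      intro h0
      exact nonZeroDivisors.ne_zero hd
        ((IsFractionRing.injective Q M) (h0.trans (map_zero _).symm))
    refine ⟨Y, Z, ?_, ?_⟩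
    · rw [hx]
      exact hd0
    · rw [hx, hx]
      exact div_mul_cancel₀ _ hd0
  obtain ⟨C0, C1, h1, h2⟩ := redP3 D hD G
  have hZ0 : aeval x Z ≠ 0 := by
    rw [hx]
    intro h0
    exact hZ ((hmk Z).mp h0)
  have h3 : aeval x (aeval (bs D) G) * aeval x Z ^ 2 = aeval x Y ^ 2 := by
    have h4 : aeval x (aeval (bs D) G * Z ^ 2 - Y ^ 2) = 0 := by
      rw [hgen.ker]
      exact h
    rw [map_sub, map_mul, map_pow, map_pow] at h4
    exact sub_eq_zero.mp h4
  obtain ⟨r, w, hr, hw⟩ := hgen.redP hD (aeval x Y / aeval x Z) C0 C1 (by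
    rw [← h1 M x hgen, div_pow, ← h3]
    exact mul_div_cancel_right₀ _ (pow_ne_zero 2 hZ0))
  exact ⟨r, w, hr, by rw [hw, h2]⟩

/-! ### The quartic form on the exceptional divisor -/

/-- `p^T adj(a) p` -/
def qf (a : Fin 3 → ℂ) (u v : ℂ) : ℂ := a 2 * u ^ 2 - 2 * a 1 * (u * v) + a 0 * v ^ 2

/-- the determinant -/
def dt (a : Fin 3 → ℂ) : ℂ := a 0 * a 2 - a 1 ^ 2

/-- two independent isotropic vectors -/
theorem exists_iso {a : Fin 3 → ℂ} (ha : dt a ≠ 0) :
    ∃ e0 e1 f0 f1 : ℂ, qf a e0 e1 = 0 ∧ qf a f0 f1 = 0 ∧ e0 * f1 - e1 * f0 ≠ 0 := by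
  unfold dt at ha
  by_cases h2 : a 2 = 0
  · rw [h2, mul_zero, zero_sub, neg_ne_zero] at ha
    have h1 : a 1 ≠ 0 := fun h => ha (by rw [h]; ring)
    refine ⟨1, 0, a 0, 2 * a 1, ?_, ?_, ?_⟩
    · unfold qf
      rw [h2]
      ring
    · unfold qf
      rw [h2]
      ring
    · rw [zero_mul, sub_zero, one_mul]
      exact mul_ne_zero two_ne_zero h1
  · obtain ⟨r, hr⟩ := IsAlgClosed.exists_pow_nat_eq (a 1 ^ 2 - a 0 * a 2) (by norm_num : 0 < 2)
    have hr0 : r ≠ 0 := by
      rintro rfl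
      apply ha
      linear_combination hr
    refine ⟨a 1 + r, a 2, a 1 - r, a 2, ?_, ?_, ?_⟩
    · unfold qf
      linear_combination a 2 * hr
    · unfold qf
      linear_combination a 2 * hr
    · have : (a 1 + r) * a 2 - a 2 * (a 1 - r) = 2 * r * a 2 := by ring
      rw [this]
      exact mul_ne_zero (mul_ne_zero two_ne_zero hr0) h2

/-- the quartic -/
noncomputable def qu (a b : Fin 3 → ℂ) (c p0 p1 q0 q1 : ℂ) : ℂ :=
  (p0 * q1 - p1 * q0) ^ 2 - (qf a p0 p1 - qf b q0 q1) / c *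
    (qf (fun k => a k + b k) p0 p1 + qf (fun k => a k + b k) q0 q1) +
    ((qf a p0 p1 - qf b q0 q1) / c) ^ 2 * dt fun k => a k + b k

theorem poly_step {h : Polynomial ℂ} {P2 P4 : ℂ}
    (hh : h ^ 2 = Polynomial.C P2 * Polynomial.X ^ 2 + Polynomial.C P4 * Polynomial.X ^ 4) :
    P2 * P4 = 0 := by
  have hd : h.natDegree ≤ 2 := by
    have h1 : (h ^ 2).natDegree ≤ 4 := by
      rw [hh]
      refine (Polynomial.natDegree_add_le _ _).trans (max_le ?_ ?_)
      · exact (Polynomial.natDegree_C_mul_X_pow_le _ _).trans (by norm_num)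
      · exact Polynomial.natDegree_C_mul_X_pow_le _ _
    rw [Polynomial.natDegree_pow] at h1
    omega
  have h2 : h = Polynomial.C (h.coeff 0) + Polynomial.C (h.coeff 1) * Polynomial.X +
      Polynomial.C (h.coeff 2) * Polynomial.X ^ 2 := by
    conv_lhs => rw [h.as_sum_range_C_mul_X_pow' (show h.natDegree < 3 by omega)]
    rw [Finset.sum_range_succ, Finset.sum_range_succ, Finset.sum_range_one, pow_zero, mul_one,
      pow_one]
  set u := h.coeff 0
  set v := h.coeff 1
  set w := h.coeff 2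
  have h3 : ∀ t : ℂ, (u + v * t + w * t ^ 2) ^ 2 = P2 * t ^ 2 + P4 * t ^ 4 := by
    intro t
    have h4 := congrArg (Polynomial.eval t) hh
    rw [h2] at h4
    simpa using h4
  have e0 := h3 0
  have hu : u = 0 := by
    have : u ^ 2 = 0 := by linear_combination e0
    exact pow_eq_zero_iff (two_ne_zero) |>.mp this
  rw [hu] at h3
  have e1 := h3 1
  have e2 := h3 (-1)
  have e3 := h3 2
  -- `v ^ 2 + 2 v w t + w ^ 2 t ^ 2 = P2 + P4 t ^ 2`
  have hvw : v * w = 0 := by linear_combination (1 / 4 : ℂ) * e1 - (1 / 4 : ℂ) * e2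
  have k1 : v ^ 2 + w ^ 2 = P2 + P4 := by linear_combination e1 - 2 * hvw
  have k2 : v ^ 2 + 4 * w ^ 2 = P2 + 4 * P4 := by linear_combination (1 / 4 : ℂ) * e3 - 4 * hvw
  have k3 : w ^ 2 = P4 := by linear_combination (1 / 3 : ℂ) * k2 - (1 / 3 : ℂ) * k1
  have k4 : v ^ 2 = P2 := by linear_combination k1 - k3
  rw [← k3, ← k4]
  linear_combination (v * w) * hvw

/-- `P2` and `P4` as polynomials in `y` -/
theorem qu_e {a b : Fin 3 → ℂ} {c : ℂ} {e0 e1 : ℂ} (he : qf a e0 e1 = 0) (y0 y1 t : ℂ) :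
    qu a b c e0 e1 (y0 * t) (y1 * t) =
      ((e0 * y1 - e1 * y0) ^ 2 + qf b y0 y1 / c * qf (fun k => a k + b k) e0 e1) * t ^ 2 +
      (qf b y0 y1 / c * (qf (fun k => a k + b k) y0 y1 +
        qf b y0 y1 / c * dt fun k => a k + b k)) * t ^ 4 := by
  unfold qu
  rw [he]
  have h1 : qf b (y0 * t) (y1 * t) = qf b y0 y1 * t ^ 2 := by unfold qf; ring
  have h2 : qf (fun k => a k + b k) (y0 * t) (y1 * t) =
      qf (fun k => a k + b k) y0 y1 * t ^ 2 := by unfold qf; ring
  rw [h1, h2]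
  ring

/-- a form as a polynomial -/
noncomputable def qp (a : Fin 3 → ℂ) : S2 :=
  C (a 2) * X 0 ^ 2 - 2 * C (a 1) * (X 0 * X 1) + C (a 0) * X 1 ^ 2

lemma eval_qp (a : Fin 3 → ℂ) (v : Fin 2 → ℂ) : eval v (qp a) = qf a (v 0) (v 1) := by
  unfold qp qf
  simp only [map_add, map_sub, map_mul, map_pow, map_ofNat, eval_C, eval_X]

/-- a form which vanishes identically -/
lemma qf_zero {a : Fin 3 → ℂ} (h : ∀ u v, qf a u v = 0) : a = 0 := by
  have h1 := h 1 0
  have h2 := h 0 1
  have h3 := h 1 1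
  unfold qf at h1 h2 h3
  have e2 : a 2 = 0 := by linear_combination h1
  have e0 : a 0 = 0 := by linear_combination h2
  have e1 : a 1 = 0 := by linear_combination (1 / 2 : ℂ) * h1 + (1 / 2 : ℂ) * h2 - (1 / 2 : ℂ) * h3
  funext k
  fin_cases k
  · exact e0
  · exact e1
  · exact e2

theorem quartic_not_square {a b : Fin 3 → ℂ} {c : ℂ} (hc : c = dt a - dt b) (hc0 : c ≠ 0)
    (ha : dt a ≠ 0) (hb : b ≠ 0) (g : B4)
    (hg : ∀ p0 p1 q0 q1 : ℂ, eval ![p0, p1, q0, q1] g ^ 2 = qu a b c p0 p1 q0 q1) : False := by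
  obtain ⟨e0, e1, f0, f1, he, hf, hef⟩ := exists_iso ha
  -- the product vanishes
  have prod : ∀ e0 e1 : ℂ, qf a e0 e1 = 0 → ∀ y0 y1 : ℂ,
      ((e0 * y1 - e1 * y0) ^ 2 + qf b y0 y1 / c * qf (fun k => a k + b k) e0 e1) *
      (qf b y0 y1 / c * (qf (fun k => a k + b k) y0 y1 +
        qf b y0 y1 / c * dt fun k => a k + b k)) = 0 := by
    intro e0 e1 he y0 y1
    set h : Polynomial ℂ := aeval (R := ℂ) ![Polynomial.C e0, Polynomial.C e1,
      Polynomial.C y0 * Polynomial.X, Polynomial.C y1 * Polynomial.X] g with hh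
    apply poly_step (h := h)
    refine Polynomial.funext fun t => ?_
    have h1 : Polynomial.eval t h = eval ![e0, e1, y0 * t, y1 * t] g := by
      have h2 : ((Polynomial.aeval t).comp (aeval (R := ℂ) ![Polynomial.C e0, Polynomial.C e1,
          Polynomial.C y0 * Polynomial.X, Polynomial.C y1 * Polynomial.X]) : B4 →ₐ[ℂ] ℂ) =
          aeval ![e0, e1, y0 * t, y1 * t] := by
        refine MvPolynomial.algHom_ext fun i => ?_
        rw [AlgHom.comp_apply, aeval_X, aeval_X]
        fin_cases i <;> simp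
      have h3 := DFunLike.congr_fun h2 g
      rw [AlgHom.comp_apply, aeval_eq_eval] at h3
      rw [← h3, hh, Polynomial.coe_aeval_eq_eval]
    rw [Polynomial.eval_pow, h1, hg, qu_e he]
    simp only [Polynomial.eval_add, Polynomial.eval_mul, Polynomial.eval_C, Polynomial.eval_pow,
      Polynomial.eval_X]
  -- as polynomials
  have hpol : ∀ e0 e1 : ℂ, qf a e0 e1 = 0 →
      (∀ y0 y1, (e0 * y1 - e1 * y0) ^ 2 + qf b y0 y1 / c * qf (fun k => a k + b k) e0 e1 = 0) ∨
      (∀ y0 y1, qf b y0 y1 / c * (qf (fun k => a k + b k) y0 y1 +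
        qf b y0 y1 / c * dt fun k => a k + b k) = 0) := by
    intro e0 e1 he
    set R1 : S2 := (C e0 * X 1 - C e1 * X 0) ^ 2 +
      C (c⁻¹ * qf (fun k => a k + b k) e0 e1) * qp b with hR1
    set R2 : S2 := C c⁻¹ * qp b * (qp (fun k => a k + b k) +
      C (c⁻¹ * dt fun k => a k + b k) * qp b) with hR2
    have v1 : ∀ v : Fin 2 → ℂ, eval v R1 = (e0 * v 1 - e1 * v 0) ^ 2 +
        qf b (v 0) (v 1) / c * qf (fun k => a k + b k) e0 e1 := by
      intro v
      rw [hR1]
      simp only [map_add, map_sub, map_mul, map_pow, eval_C, eval_X, eval_qp]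
      ring
    have v2 : ∀ v : Fin 2 → ℂ, eval v R2 = qf b (v 0) (v 1) / c *
        (qf (fun k => a k + b k) (v 0) (v 1) +
        qf b (v 0) (v 1) / c * dt fun k => a k + b k) := by
      intro v
      rw [hR2]
      simp only [map_add, map_mul, eval_C, eval_qp]
      ring
    have h1 : R1 * R2 = 0 := by
      refine MvPolynomial.funext fun v => ?_
      rw [map_mul, map_zero, v1, v2]
      exact prod e0 e1 he (v 0) (v 1)
    rcases mul_eq_zero.mp h1 with h2 | h2
    · left
      intro y0 y1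
      have := v1 ![y0, y1]
      rw [h2, map_zero] at this
      exact this.symm
    · right
      intro y0 y1
      have := v2 ![y0, y1]
      rw [h2, map_zero] at this
      exact this.symm
  by_cases hP4 : ∀ y0 y1, qf b y0 y1 / c * (qf (fun k => a k + b k) y0 y1 +
      qf b y0 y1 / c * dt fun k => a k + b k) = 0
  · -- `c (a + b) = - κ b`
    set κ := dt fun k => a k + b k with hκ
    have h1 : ∀ y0 y1, qf (fun k => c * (a k + b k) + κ * b k) y0 y1 = 0 := by
      have h2 : qp b * qp (fun k => c * (a k + b k) + κ * b k) = 0 := by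
        refine MvPolynomial.funext fun v => ?_
        rw [map_mul, map_zero, eval_qp, eval_qp]
        have h3 := hP4 (v 0) (v 1)
        have h4 : qf (fun k => c * (a k + b k) + κ * b k) (v 0) (v 1) =
            c * qf (fun k => a k + b k) (v 0) (v 1) + κ * qf b (v 0) (v 1) := by
          unfold qf
          ring
        rw [h4]
        field_simp at h3
        linear_combination h3
      have h3 : qp b ≠ 0 := by
        intro h4
        apply hb
        refine qf_zero fun u v => ?_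
        have := eval_qp b ![u, v]
        rw [h4, map_zero] at this
        exact this.symm
      have h4 := (mul_eq_zero.mp h2).resolve_left h3
      intro y0 y1
      have := eval_qp (fun k => c * (a k + b k) + κ * b k) ![y0, y1]
      rw [h4, map_zero] at this
      exact this.symm
    have h2 := qf_zero h1
    have h3 : ∀ k, c * (a k + b k) + κ * b k = 0 := fun k => congrFun h2 k
    -- `a = μ b`
    set μ := -(κ + c) / c with hμ
    have h4 : ∀ k, a k = μ * b k := by
      intro k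
      rw [hμ]
      field_simp
      linear_combination h3 k
    have h5 : dt a = μ ^ 2 * dt b := by
      unfold dt
      rw [h4 0, h4 1, h4 2]
      ring
    have h6 : κ = (μ + 1) ^ 2 * dt b := by
      rw [hκ]
      unfold dt
      simp only [h4]
      ring
    have h7 : c * (μ + 1) = -κ := by
      rw [hμ]
      field_simp
      ring
    have h8 : (μ + 1) ^ 2 * (μ * dt b) = 0 := by
      rw [h6, hc, h5] at h7
      linear_combination h7
    rcases mul_eq_zero.mp h8 with h9 | h9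
    · have h10 : μ + 1 = 0 := pow_eq_zero_iff (two_ne_zero) |>.mp h9
      apply hc0
      rw [hc, h5]
      linear_combination (μ - 1) * dt b * h10
    · rcases mul_eq_zero.mp h9 with h10 | h10
      · apply ha
        rw [h5, h10]
        ring
      · apply hc0
        rw [hc, h5, h10]
        ring
  · have hE := (hpol e0 e1 he).resolve_right hP4
    have hF := (hpol f0 f1 hf).resolve_right hP4
    -- the value of the third form is not zero
    have hne : ∀ e0 e1 g0 g1 : ℂ, (e0 * g1 - e1 * g0 ≠ 0) →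
        (∀ y0 y1, (e0 * y1 - e1 * y0) ^ 2 + qf b y0 y1 / c * qf (fun k => a k + b k) e0 e1 = 0) →
        qf b e0 e1 = 0 := by
      intro e0 e1 g0 g1 hg0 h
      have h1 := h e0 e1
      have h2 : qf (fun k => a k + b k) e0 e1 ≠ 0 := by
        intro h3
        have h4 := h g0 g1
        rw [h3, mul_zero, add_zero] at h4
        exact hg0 (pow_eq_zero_iff (two_ne_zero) |>.mp h4)
      have h3 : qf b e0 e1 / c * qf (fun k => a k + b k) e0 e1 = 0 := by
        linear_combination h1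
      have h4 := (mul_eq_zero.mp h3).resolve_right h2
      exact (div_eq_zero_iff.mp h4).resolve_right hc0
    have hbf : qf b f0 f1 = 0 := by
      refine hne f0 f1 e0 e1 ?_ hF
      intro h
      apply hef
      linear_combination -h
    have h5 := hE f0 f1
    rw [hbf, zero_div, zero_mul, add_zero] at h5
    exact hef (pow_eq_zero_iff (two_ne_zero) |>.mp h5)

theorem quartic_not_square' {a b : Fin 3 → ℂ} {c : ℂ} (hc : c = dt a - dt b) (hc0 : c ≠ 0)
    (ha : a ≠ 0) (hb : b ≠ 0) (g : B4)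
    (hg : ∀ p0 p1 q0 q1 : ℂ, eval ![p0, p1, q0, q1] g ^ 2 = qu a b c p0 p1 q0 q1) : False := by
  by_cases hd : dt a = 0
  · have hd' : dt b ≠ 0 := by
      intro h
      apply hc0
      rw [hc, hd, h, sub_zero]
    refine quartic_not_square (a := b) (b := a) (c := -c) (by rw [hc]; ring) (neg_ne_zero.mpr hc0)
      hd' ha (aeval ![X 2, X 3, X 0, X 1] g) fun p0 p1 q0 q1 => ?_
    have h1 : eval ![p0, p1, q0, q1] (aeval ![(X 2 : B4), X 3, X 0, X 1] g) =
        eval ![q0, q1, p0, p1] g := by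
      have h2 : ((aeval ![p0, p1, q0, q1]).comp (aeval ![(X 2 : B4), X 3, X 0, X 1]) :
          B4 →ₐ[ℂ] ℂ) = aeval ![q0, q1, p0, p1] := by
        refine MvPolynomial.algHom_ext fun i => ?_
        rw [AlgHom.comp_apply, aeval_X, aeval_X]
        fin_cases i <;> simp
      have h3 := DFunLike.congr_fun h2 g
      rw [AlgHom.comp_apply, aeval_eq_eval, aeval_eq_eval] at h3
      exact h3
    rw [h1, hg]
    unfold qu
    have h2 : (fun k => b k + a k) = fun k => a k + b k := by
      funext k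
      ring
    rw [h2]
    have h3 : (qf b p0 p1 - qf a q0 q1) / -c = (qf a q0 q1 - qf b p0 p1) / c := by
      rw [div_neg, ← neg_div, neg_sub]
    rw [h3]
    ring
  · exact quartic_not_square hc hc0 hd hb g hg

/-- **The determinant is not a square**, polynomial form. -/
theorem det_poly (D : Dat) (hD : del D ≠ 0) (ha : D.a ≠ 0) (hb : D.b ≠ 0)
    (hF : Irreducible (FF D)) (Y Z : S6)
    (h : FF D ∣ (bs D 0 * bs D 2 - bs D 1 ^ 2) * Z ^ 2 - Y ^ 2) : FF D ∣ Z := by
  by_contra hZ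
  obtain ⟨r, w, hr, hw⟩ := coreP D hD hF (X 0 * X 2 - X 1 ^ 2) Y Z (by
    simp only [map_sub, map_mul, map_pow, aeval_X]
    exact h) hZ
  have h1 : r ^ 2 ∣ w ^ 2 := ⟨_, hw⟩
  rw [IsIntegrallyClosed.pow_dvd_pow_iff two_ne_zero] at h1
  obtain ⟨g, rfl⟩ := h1
  have h2 : g ^ 2 = aeval (mP D) (X 0 * X 2 - X 1 ^ 2 : MvPolynomial (Fin 3) ℂ) := by
    apply mul_left_cancel₀ (pow_ne_zero 2 hr)
    rw [← hw]
    ring
  refine quartic_not_square' (a := D.a) (b := D.b) (c := del D) rfl hD ha hb g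
    fun p0 p1 q0 q1 => ?_
  rw [← map_pow, h2]
  simp only [map_sub, map_mul, map_pow, aeval_X]
  have e0 : eval ![p0, p1, q0, q1] (X 0 : B4) = p0 := by rw [eval_X]; rfl
  have e1 : eval ![p0, p1, q0, q1] (X 1 : B4) = p1 := by rw [eval_X]; rfl
  have e2 : eval ![p0, p1, q0, q1] (X 2 : B4) = q0 := by rw [eval_X]; rfl
  have e3 : eval ![p0, p1, q0, q1] (X 3 : B4) = q1 := by rw [eval_X]; rfl
  have hL : eval ![p0, p1, q0, q1] (pi0 (LL D)) = qf D.a p0 p1 - qf D.b q0 q1 := by
    rw [pi0_LL]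
    simp only [map_add, map_sub, map_mul, map_pow, map_ofNat, eval_C, e0, e1, e2, e3]
    rfl
  have m0 : eval ![p0, p1, q0, q1] (mP D 0) = p0 ^ 2 + q0 ^ 2 -
      (D.a 0 + D.b 0) * (del D)⁻¹ * (qf D.a p0 p1 - qf D.b q0 q1) := by
    unfold mP
    rw [map_sub, map_mul, hL, eval_C]
    change eval _ (X 0 ^ 2 + X 2 ^ 2) - _ = _
    rw [map_add, map_pow, map_pow, e0, e2]
  have m1 : eval ![p0, p1, q0, q1] (mP D 1) = p0 * p1 + q0 * q1 -
      (D.a 1 + D.b 1) * (del D)⁻¹ * (qf D.a p0 p1 - qf D.b q0 q1) := by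
    unfold mP
    rw [map_sub, map_mul, hL, eval_C]
    change eval _ (X 0 * X 1 + X 2 * X 3) - _ = _
    rw [map_add, map_mul, map_mul, e0, e1, e2, e3]
  have m2 : eval ![p0, p1, q0, q1] (mP D 2) = p1 ^ 2 + q1 ^ 2 -
      (D.a 2 + D.b 2) * (del D)⁻¹ * (qf D.a p0 p1 - qf D.b q0 q1) := by
    unfold mP
    rw [map_sub, map_mul, hL, eval_C]
    change eval _ (X 1 ^ 2 + X 3 ^ 2) - _ = _
    rw [map_add, map_pow, map_pow, e1, e3]
  rw [m0, m1, m2]
  unfold qu
  have hq : ∀ u v : ℂ, qf (fun k => D.a k + D.b k) u v = (D.a 2 + D.b 2) * u ^ 2 -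
      2 * (D.a 1 + D.b 1) * (u * v) + (D.a 0 + D.b 0) * v ^ 2 := fun u v => rfl
  have hdt : (dt fun k => D.a k + D.b k) = (D.a 0 + D.b 0) * (D.a 2 + D.b 2) -
      (D.a 1 + D.b 1) ^ 2 := rfl
  rw [hq, hq, hdt, div_eq_mul_inv]
  ring

/-- The determinant of the base is not a square in the function field of the cubic. -/
theorem det_nsqP {A B : Matrix (Fin 2) (Fin 2) S6} (hA : ∀ i j, (A i j).IsHomogeneous 1)
    (hB : ∀ i j, (B i j).IsHomogeneous 1) (hAs : A 1 0 = A 0 1) (hBs : B 1 0 = B 0 1)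
    (hdet : coeff (Finsupp.single 0 1) (A 0 0) * coeff (Finsupp.single 0 1) (A 1 1) -
      coeff (Finsupp.single 0 1) (A 0 1) ^ 2 ≠ coeff (Finsupp.single 0 1) (B 0 0) *
      coeff (Finsupp.single 0 1) (B 1 1) - coeff (Finsupp.single 0 1) (B 0 1) ^ 2)
    (hA0 : ∃ i j, coeff (Finsupp.single 0 1) (A i j) ≠ 0)
    (hB0 : ∃ i j, coeff (Finsupp.single 0 1) (B i j) ≠ 0)
    (hF : Irreducible (cubF A B)) {Ω : Type} [Field Ω] [Algebra ℂ Ω] {x : Fin 6 → Ω}
    (x0 : x 0 = 1)
    (hker : ∀ (G : S6) (m : ℕ), G.IsHomogeneous m → (aeval x G = 0 ↔ cubF A B ∣ G))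
    (hgen : IntermediateField.adjoin ℂ (Set.range x) = ⊤) :
    ¬ IsSquare (aeval x (base A B 0) * aeval x (base A B 2) - aeval x (base A B 1) ^ 2) := by
  rintro ⟨u, hu⟩
  have hD : del (dat A B) ≠ 0 := sub_ne_zero.mpr hdet
  have hFF := FF_dat hA hB hAs hBs
  have hbs := bs_dat hA hB
  have ha : (dat A B).a ≠ 0 := by
    obtain ⟨i, j, hij⟩ := hA0
    intro h
    apply hij
    have h0 : coeff (Finsupp.single 0 1) (A 0 0) = 0 := congrFun h 0
    have h1 : coeff (Finsupp.single 0 1) (A 0 1) = 0 := congrFun h 1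
    have h2 : coeff (Finsupp.single 0 1) (A 1 1) = 0 := congrFun h 2
    fin_cases i <;> fin_cases j
    · exact h0
    · exact h1
    · change coeff (Finsupp.single 0 1) (A 1 0) = 0
      rw [hAs]
      exact h1
    · exact h2
  have hb : (dat A B).b ≠ 0 := by
    obtain ⟨i, j, hij⟩ := hB0
    intro h
    apply hij
    have h0 : coeff (Finsupp.single 0 1) (B 0 0) = 0 := congrFun h 0
    have h1 : coeff (Finsupp.single 0 1) (B 0 1) = 0 := congrFun h 1
    have h2 : coeff (Finsupp.single 0 1) (B 1 1) = 0 := congrFun h 2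
    fin_cases i <;> fin_cases j
    · exact h0
    · exact h1
    · change coeff (Finsupp.single 0 1) (B 1 0) = 0
      rw [hBs]
      exact h1
    · exact h2
  have humem : u ∈ IntermediateField.adjoin ℂ (Set.range x) := by
    rw [hgen]
    trivial
  obtain ⟨Y, Z, hYZ⟩ := (IntermediateField.mem_adjoin_range_iff ℂ x u).1 humem
  have hcase : ∃ Y Z : S6, aeval x Z ≠ 0 ∧ u * aeval x Z = aeval x Y := by
    by_cases hZ0 : aeval x Z = 0
    · refine ⟨0, 1, by rw [map_one]; exact one_ne_zero, ?_⟩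
      rw [hYZ, hZ0, div_zero, zero_mul, map_zero]
    · exact ⟨Y, Z, hZ0, by rw [hYZ, div_mul_cancel₀ _ hZ0]⟩
  obtain ⟨Y, Z, hZ0, hYZ⟩ := hcase
  set d := max Y.totalDegree Z.totalDegree with hd
  have hY1 : aeval x (hz (d + 2) Y) = aeval x Y :=
    aeval_hz x0 (le_trans (le_max_left _ _) (Nat.le_add_right _ _))
  have hZ1 : aeval x (hz d Z) = aeval x Z := aeval_hz x0 (le_max_right _ _)
  have hhom : ((base A B 0 * base A B 2 - base A B 1 ^ 2) * hz d Z ^ 2 -
      hz (d + 2) Y ^ 2).IsHomogeneous (2 * (d + 2)) := by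
    have h3 : (base A B 0 * base A B 2 - base A B 1 ^ 2).IsHomogeneous 4 :=
      ((base_hom hA hB 0).mul (base_hom hA hB 2)).sub ((base_hom hA hB 1).pow 2)
    have h4 := h3.mul ((hz_hom d Z).pow 2)
    have h5 := (hz_hom (d + 2) Y).pow 2
    rw [show 4 + d * 2 = 2 * (d + 2) by ring] at h4
    rw [show (d + 2) * 2 = 2 * (d + 2) by ring] at h5
    exact h4.sub h5
  have hdvd : cubF A B ∣ (base A B 0 * base A B 2 - base A B 1 ^ 2) * hz d Z ^ 2 -
      hz (d + 2) Y ^ 2 := by
    rw [← hker _ _ hhom]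
    simp only [map_sub, map_mul, map_pow]
    rw [hZ1, hY1, hu, ← hYZ]
    ring
  have hfin := det_poly (dat A B) hD ha hb (by rw [hFF]; exact hF) (hz (d + 2) Y) (hz d Z)
    (by rw [hFF, hbs]; exact hdvd)
  rw [hFF, ← hker _ _ (hz_hom d Z), hZ1] at hfin
  exact hZ0 hfin

/-- **The field of the base is quadratically closed in the function field.** -/
theorem sq_closed {A B : Matrix (Fin 2) (Fin 2) S6} (hA : ∀ i j, (A i j).IsHomogeneous 1)
    (hB : ∀ i j, (B i j).IsHomogeneous 1) (hAs : A 1 0 = A 0 1) (hBs : B 1 0 = B 0 1)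
    (hdet : coeff (Finsupp.single 0 1) (A 0 0) * coeff (Finsupp.single 0 1) (A 1 1) -
      coeff (Finsupp.single 0 1) (A 0 1) ^ 2 ≠ coeff (Finsupp.single 0 1) (B 0 0) *
      coeff (Finsupp.single 0 1) (B 1 1) - coeff (Finsupp.single 0 1) (B 0 1) ^ 2)
    (hA0 : ∃ i j, coeff (Finsupp.single 0 1) (A i j) ≠ 0)
    (hB0 : ∃ i j, coeff (Finsupp.single 0 1) (B i j) ≠ 0)
    (hF : Irreducible (cubF A B)) {Ω : Type} [Field Ω] [Algebra ℂ Ω] {x : Fin 6 → Ω}
    (x0 : x 0 = 1)
    (hker : ∀ (G : S6) (m : ℕ), G.IsHomogeneous m → (aeval x G = 0 ↔ cubF A B ∣ G))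
    (hgen : IntermediateField.adjoin ℂ (Set.range x) = ⊤)
    [Algebra Kf Ω] [IsScalarTower ℂ Kf Ω]
    (hm : aeval x (base A B 0) ≠ 0)
    (hs : algebraMap Kf Ω ks = aeval x (base A B 1) / aeval x (base A B 0))
    (ht : algebraMap Kf Ω kt = aeval x (base A B 2) / aeval x (base A B 0))
    {δ : Kf} (h : IsSquare (algebraMap Kf Ω δ)) : IsSquare δ := by
  rcases sq_delta hA hB hAs hBs hdet hF x0 hker hgen hm hs ht h with h1 | h1
  · exact h1
  · by_cases hδ : δ = 0
    · exact ⟨0, by rw [hδ, mul_zero]⟩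
    · exfalso
      obtain ⟨y, hy⟩ := h
      obtain ⟨c, hc⟩ := h1
      apply det_nsqP hA hB hAs hBs hdet hA0 hB0 hF x0 hker hgen
      have hδ' : algebraMap Kf Ω δ ≠ 0 := (map_ne_zero _).mpr hδ
      have hy0 : y ≠ 0 := by
        rintro rfl
        exact hδ' (by rw [hy, mul_zero])
      set m : Fin 3 → Ω := fun k => aeval x (base A B k) with hmd
      have h2 : algebraMap Kf Ω (ks ^ 2 - kt) = (m 1 / m 0) ^ 2 - m 2 / m 0 := by
        rw [map_sub, map_pow, hs, ht]
      have h3 : algebraMap Kf Ω δ * ((m 1 / m 0) ^ 2 - m 2 / m 0) =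
          algebraMap Kf Ω c * algebraMap Kf Ω c := by
        rw [← h2, ← map_mul, hc, map_mul]
      rw [hy] at h3
      have hI : algebraMap ℂ Ω Complex.I * algebraMap ℂ Ω Complex.I = -1 := by
        rw [← map_mul, Complex.I_mul_I, map_neg, map_one]
      refine ⟨algebraMap ℂ Ω Complex.I * (m 0 * (algebraMap Kf Ω c / y)), ?_⟩
      change m 0 * m 2 - m 1 ^ 2 = _
      have h4 : (algebraMap Kf Ω c / y) * (algebraMap Kf Ω c / y) =
          (m 1 / m 0) ^ 2 - m 2 / m 0 := by
        rw [div_mul_div_comm, ← h3]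
        field_simp
      have h5 : algebraMap ℂ Ω Complex.I * (m 0 * (algebraMap Kf Ω c / y)) *
          (algebraMap ℂ Ω Complex.I * (m 0 * (algebraMap Kf Ω c / y))) =
          (algebraMap ℂ Ω Complex.I * algebraMap ℂ Ω Complex.I) * m 0 ^ 2 *
          ((algebraMap Kf Ω c / y) * (algebraMap Kf Ω c / y)) := by ring
      rw [h5, h4, hI]
      have hm0 : m 0 ≠ 0 := hm
      field_simp
      ring

end Pool.Agent.GSX.Sq
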