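import Mathlib

/-! The function field of the cone over a cubic of `C_24` (symmetric form) as a quadratic extension of
`ℂ(lam, p, q)`, and its reduction at `lam = 0`. Variables of the cubic: `x0 = X 0`, `p = (X 1, X 2)`,
`q = (X 3, X 4)`, `lam = X 5`; variables of `A5`: `lam = X 0`, `p = (X 1, X 2)`, `q = (X 3, X 4)`. -/

set_option autoImplicit false

namespace Pool.Agent.GSX.Sq

open MvPolynomial

/-- `ℂ[lam, p, q]` -/
abbrev A5 : Type := MvPolynomial (Fin 5) ℂ

/-- `ℂ[p, q]` -/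
abbrev B4 : Type := MvPolynomial (Fin 4) ℂ

/-- `A = a x0 + a'`, `B = b x0 + b'` (entries `00, 01, 11`) -/
structure Dat where
  a : Fin 3 → ℂ
  b : Fin 3 → ℂ
  a' : Fin 3 → A5
  b' : Fin 3 → A5

/-- `det a - det b` -/
def del (D : Dat) : ℂ := D.a 0 * D.a 2 - D.a 1 ^ 2 - (D.b 0 * D.b 2 - D.b 1 ^ 2)

/-- the coefficient of `x0` -/
noncomputable def LL (D : Dat) : A5 :=
  (C (D.a 2) * X 1 ^ 2 - 2 * C (D.a 1) * (X 1 * X 2) + C (D.a 0) * X 2 ^ 2) -
    (C (D.b 2) * X 3 ^ 2 - 2 * C (D.b 1) * (X 3 * X 4) + C (D.b 0) * X 4 ^ 2) +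
    X 0 * (C (D.a 0) * D.a' 2 + C (D.a 2) * D.a' 0 - 2 * C (D.a 1) * D.a' 1 -
      (C (D.b 0) * D.b' 2 + C (D.b 2) * D.b' 0 - 2 * C (D.b 1) * D.b' 1))

/-- the coefficient of `1` -/
noncomputable def NN (D : Dat) : A5 :=
  (D.a' 2 * X 1 ^ 2 - 2 * D.a' 1 * (X 1 * X 2) + D.a' 0 * X 2 ^ 2) -
    (D.b' 2 * X 3 ^ 2 - 2 * D.b' 1 * (X 3 * X 4) + D.b' 0 * X 4 ^ 2) +
    X 0 * (D.a' 0 * D.a' 2 - D.a' 1 ^ 2 - (D.b' 0 * D.b' 2 - D.b' 1 ^ 2))

/-- the variables of `A5` among those of the cubic -/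
def e5 : Fin 5 → Fin 6 := ![5, 1, 2, 3, 4]

/-- the inclusion of `A5` -/
noncomputable def io : A5 →ₐ[ℂ] MvPolynomial (Fin 6) ℂ := rename e5

/-- the cubic `lam (det a - det b) x0 ^ 2 + LL x0 + NN` -/
noncomputable def FF (D : Dat) : MvPolynomial (Fin 6) ℂ :=
  X 5 * C (del D) * X 0 ^ 2 + io (LL D) * X 0 + io (NN D)

/-- the reduction `lam = 0` -/
noncomputable def pi0 : A5 →ₐ[ℂ] B4 := aeval ![0, X 0, X 1, X 2, X 3]

/-- a generic point of the affine cone over the cubic -/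
structure Gen (D : Dat) {M : Type} [Field M] [Algebra ℂ M] (x : Fin 6 → M) : Prop where
  ker : ∀ G : MvPolynomial (Fin 6) ℂ, aeval x G = 0 ↔ FF D ∣ G
  gen : ∀ z : M, ∃ Y Z : MvPolynomial (Fin 6) ℂ, aeval x Z ≠ 0 ∧ z * aeval x Z = aeval x Y

/-! ### `X 0` and the reduction -/

theorem X_dvd_of_pi0 {p : A5} (h : pi0 p = 0) : (X 0 : A5) ∣ p := by
  have h1 : pi0 p = (finSuccEquiv ℂ 4 p).coeff 0 := by
    have h2 : (pi0 : A5 →ₐ[ℂ] B4) =
        ((Polynomial.aeval (0 : B4)).restrictScalars ℂ).comp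
          (finSuccEquiv ℂ 4 : A5 →ₐ[ℂ] Polynomial B4) := by
      refine MvPolynomial.algHom_ext fun i => ?_
      refine Fin.cases ?_ (fun j => ?_) i
      · simp [pi0, finSuccEquiv_X_zero]
      · have e : (finSuccEquiv ℂ 4) (X j.succ) = Polynomial.C (X j) := finSuccEquiv_X_succ
        change _ = (Polynomial.aeval (0 : B4)) ((finSuccEquiv ℂ 4) (X j.succ))
        rw [e, Polynomial.aeval_C, pi0, aeval_X]
        fin_cases j <;> rfl
    rw [h2]
    simp [Polynomial.coeff_zero_eq_eval_zero, Polynomial.aeval_def, Polynomial.eval₂_eq_eval_map]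
  rw [h1] at h
  obtain ⟨q, hq⟩ := Polynomial.X_dvd_iff.mpr h
  refine ⟨(finSuccEquiv ℂ 4).symm q, ?_⟩
  apply (finSuccEquiv ℂ 4).injective
  rw [map_mul, finSuccEquiv_X_zero, AlgEquiv.apply_symm_apply, hq]

/-! ### The basis `1, x0` -/

/-- polynomials in `x0` over `A5` -/
noncomputable def th : MvPolynomial (Fin 6) ℂ →ₐ[ℂ] Polynomial A5 :=
  aeval ![Polynomial.X, Polynomial.C (X 1), Polynomial.C (X 2), Polynomial.C (X 3),
    Polynomial.C (X 4), Polynomial.C (X 0)]

/-- `Polynomial.C` as an algebra homomorphism over `ℂ` -/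
noncomputable def CA : A5 →ₐ[ℂ] Polynomial A5 where
  toRingHom := Polynomial.C
  commutes' _ := rfl

lemma th_io (p : A5) : th (io p) = Polynomial.C p := by
  have h : th.comp io = CA := by
    refine MvPolynomial.algHom_ext fun i => ?_
    rw [AlgHom.comp_apply, io, rename_X, th, aeval_X]
    fin_cases i <;> rfl
  exact DFunLike.congr_fun h p

lemma th_zero : th (X 0) = Polynomial.X := by
  rw [th, aeval_X]
  rfl

lemma th_five : th (X 5) = Polynomial.C (X 0) := by
  rw [th, aeval_X]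
  rfl

lemma th_FF (D : Dat) : th (FF D) = Polynomial.C (X 0 * C (del D)) * Polynomial.X ^ 2 +
    Polynomial.C (LL D) * Polynomial.X + Polynomial.C (NN D) := by
  unfold FF
  rw [map_add, map_add, map_mul, map_mul, map_mul, map_pow, th_io, th_io, th_zero, th_five,
    map_mul]
  congr 3
  congr 1
  exact th.commutes (del D)

theorem zero_of_dvd (D : Dat) (hD : del D ≠ 0) {G : MvPolynomial (Fin 6) ℂ} {p q : A5}
    (hG : th G = Polynomial.C p + Polynomial.C q * Polynomial.X) (h : FF D ∣ G) :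
    p = 0 ∧ q = 0 := by
  have h1 : th (FF D) ∣ th G := map_dvd th h
  rw [hG, th_FF] at h1
  have h2 : (Polynomial.C (X 0 * C (del D) : A5) * Polynomial.X ^ 2 +
      Polynomial.C (LL D) * Polynomial.X + Polynomial.C (NN D)).natDegree = 2 := by
    refine Polynomial.natDegree_quadratic (mul_ne_zero (X_ne_zero _) ?_)
    intro h
    exact hD (C_eq_zero.mp h)
  have h3 : Polynomial.C p + Polynomial.C q * Polynomial.X = 0 := by
    by_contra h4
    have h5 := Polynomial.natDegree_le_of_dvd h1 h4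
    rw [h2, add_comm] at h5
    have h6 := Polynomial.natDegree_linear_le (a := q) (b := p)
    omega
  constructor
  · have := congrArg (fun r => Polynomial.coeff r 0) h3
    simpa using this
  · have := congrArg (fun r => Polynomial.coeff r 1) h3
    simpa using this

section
variable {D : Dat} {M : Type} [Field M] [Algebra ℂ M] {x : Fin 6 → M}

/-- the polynomials in `lam, p, q` as elements of `M` -/
noncomputable def ph (x : Fin 6 → M) : A5 →ₐ[ℂ] M := aeval fun i => x (e5 i)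

/-- `ξ = (det a - det b) lam x0` -/
noncomputable def xi (D : Dat) (x : Fin 6 → M) : M := algebraMap ℂ M (del D) * x 5 * x 0

lemma ph_X (i : Fin 5) : ph x (X i) = x (e5 i) := by
  rw [ph, aeval_X]

lemma ph_X0 : ph x (X 0) = x 5 := ph_X 0

lemma ph_C (a : ℂ) : ph x (C a) = algebraMap ℂ M a := by
  rw [ph, aeval_C]

lemma aeval_io (p : A5) : aeval x (io p) = ph x p := by
  rw [io, aeval_rename]
  rfl

lemma Gen.lin_indep (hx : Gen D x) (hD : del D ≠ 0) {p q : A5} (h : ph x p + ph x q * x 0 = 0) :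
    p = 0 ∧ q = 0 := by
  apply zero_of_dvd D hD (G := io p + io q * X 0)
  · rw [map_add, map_mul, th_zero, th_io, th_io]
  · rw [← hx.ker, map_add, map_mul, aeval_X, aeval_io, aeval_io]
    exact h

lemma Gen.ph_injective (hx : Gen D x) (hD : del D ≠ 0) {p : A5} (h : ph x p = 0) : p = 0 :=
  (hx.lin_indep hD (q := 0) (by rw [h, map_zero, zero_mul, zero_add])).1

lemma Gen.x5_ne (hx : Gen D x) (hD : del D ≠ 0) : x 5 ≠ 0 := by
  intro h
  have h1 : ph x (X 0) = 0 := by rw [ph_X0]; exact h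
  exact X_ne_zero _ (hx.ph_injective hD h1)

lemma Gen.indep_xi (hx : Gen D x) (hD : del D ≠ 0) {p q : A5}
    (h : ph x p + ph x q * xi D x = 0) : p = 0 ∧ q = 0 := by
  have h1 : ph x p + ph x (q * (C (del D) * X 0)) * x 0 = 0 := by
    rw [map_mul, map_mul, ph_X0, ph_C, ← h]
    unfold xi
    ring
  obtain ⟨h2, h3⟩ := hx.lin_indep hD h1
  refine ⟨h2, (mul_eq_zero.mp h3).resolve_right (mul_ne_zero ?_ (X_ne_zero _))⟩
  intro h
  exact hD (C_eq_zero.mp h)

/-- `ξ ^ 2 = dd ξ + PP` -/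
noncomputable def dd (D : Dat) : A5 := -LL D

/-- `ξ ^ 2 = dd ξ + PP` -/
noncomputable def PP (D : Dat) : A5 := -(C (del D) * X 0 * NN D)

lemma Gen.xi_sq (hx : Gen D x) : xi D x ^ 2 = ph x (dd D) * xi D x + ph x (PP D) := by
  have h1 : aeval x (FF D) = 0 := by
    rw [hx.ker]
  unfold FF at h1
  rw [map_add, map_add, map_mul, map_mul, map_mul, map_pow, aeval_X, aeval_X, aeval_C, aeval_io,
    aeval_io] at h1
  unfold dd PP
  rw [map_neg, map_neg, map_mul, map_mul, ph_X0, ph_C]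
  unfold xi
  linear_combination algebraMap ℂ M (del D) * x 5 * h1

/-- every element of `M` is `(p + q ξ) / r` -/
lemma Gen.pres (hx : Gen D x) (hD : del D ≠ 0) (z : M) :
    ∃ r p q : A5, r ≠ 0 ∧ ph x r * z = ph x p + ph x q * xi D x := by
  have hsq := hx.xi_sq
  have h0 := hx.x5_ne hD
  have hdC : algebraMap ℂ M (del D) ≠ 0 := (map_ne_zero _).mpr hD
  have key : ∀ Y : MvPolynomial (Fin 6) ℂ, ∃ (n : ℕ) (p q : A5),
      x 5 ^ n * aeval x Y = ph x p + ph x q * xi D x := by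
    intro Y
    induction Y using MvPolynomial.induction_on with
    | C a => exact ⟨0, C a, 0, by rw [map_zero, ph_C, aeval_C]; ring⟩
    | add Y Z hY hZ =>
      obtain ⟨n, p, q, h⟩ := hY
      obtain ⟨m, p', q', h'⟩ := hZ
      refine ⟨n + m, X 0 ^ m * p + X 0 ^ n * p', X 0 ^ m * q + X 0 ^ n * q', ?_⟩
      simp only [map_add, map_mul, map_pow, ph_X0]
      linear_combination x 5 ^ m * h + x 5 ^ n * h'
    | mul_X Y i hY =>
      obtain ⟨n, p, q, h⟩ := hY
      rw [map_mul, aeval_X]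
      have hi : (∃ j : Fin 5, i = e5 j) ∨ i = 0 := by
        fin_cases i
        · right; rfl
        · left; exact ⟨1, rfl⟩
        · left; exact ⟨2, rfl⟩
        · left; exact ⟨3, rfl⟩
        · left; exact ⟨4, rfl⟩
        · left; exact ⟨0, rfl⟩
      rcases hi with ⟨j, rfl⟩ | rfl
      · refine ⟨n, p * X j, q * X j, ?_⟩
        rw [map_mul, map_mul, ph_X]
        linear_combination x (e5 j) * h
      · -- `lam x0 = ξ / del`
        refine ⟨n + 1, C (del D)⁻¹ * (q * PP D), C (del D)⁻¹ * (p + q * dd D), ?_⟩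
        simp only [map_add, map_mul, ph_C]
        have h5 : x 5 * x 0 = algebraMap ℂ M (del D)⁻¹ * xi D x := by
          unfold xi
          rw [map_inv₀]
          field_simp
        linear_combination (x 5 * x 0) * h + (ph x p + ph x q * xi D x) * h5
          + algebraMap ℂ M (del D)⁻¹ * ph x q * hsq
  obtain ⟨Y, Z, hZ, hz⟩ := hx.gen z
  obtain ⟨n, p, q, h⟩ := key Z
  obtain ⟨m, p', q', h'⟩ := key Y
  set N : A5 := p ^ 2 + p * q * dd D - q ^ 2 * PP D with hN
  have hN1 : ph x N = (ph x p + ph x q * xi D x) * (ph x (p + q * dd D) - ph x q * xi D x) := by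
    rw [hN]
    simp only [map_add, map_sub, map_mul, map_pow]
    linear_combination (ph x q) ^ 2 * hsq
  have hN0 : N ≠ 0 := by
    intro hN0
    rw [hN0, map_zero] at hN1
    rcases mul_eq_zero.mp hN1.symm with h1 | h1
    · rw [← h] at h1
      exact mul_ne_zero (pow_ne_zero _ h0) hZ h1
    · have h2 : ph x (p + q * dd D) + ph x (-q) * xi D x = 0 := by
        rw [map_neg, ← h1]
        ring
      obtain ⟨h3, h4⟩ := hx.indep_xi hD h2
      have h5 : q = 0 := neg_eq_zero.mp h4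
      rw [h5, zero_mul, add_zero] at h3
      rw [h3, h5, map_zero, zero_mul, add_zero] at h
      exact mul_ne_zero (pow_ne_zero _ h0) hZ h
  refine ⟨X 0 ^ m * N, X 0 ^ n * (p' * (p + q * dd D) - q' * q * PP D),
    X 0 ^ n * (q' * (p + q * dd D) - p' * q - q' * q * dd D),
    mul_ne_zero (pow_ne_zero _ (X_ne_zero _)) hN0, ?_⟩
  rw [map_mul, hN1, ← h]
  simp only [map_add, map_sub, map_mul, map_pow, ph_X0]
  linear_combination (x 5 ^ m * x 5 ^ n * (ph x p + ph x q * ph x (dd D) - ph x q * xi D x)) * hz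
    + x 5 ^ n * (ph x p + ph x q * ph x (dd D) - ph x q * xi D x) * h'
    - x 5 ^ n * (ph x q' * ph x q) * hsq

/-! ### Reduction -/

lemma pi0_X0 : pi0 (X 0) = 0 := by rw [pi0, aeval_X]; rfl

lemma pi0_PP (D : Dat) : pi0 (PP D) = 0 := by
  unfold PP
  rw [map_neg, map_mul, map_mul, pi0_X0, mul_zero, zero_mul, neg_zero]

lemma pi0_LL (D : Dat) : pi0 (LL D) =
    (C (D.a 2) * X 0 ^ 2 - 2 * C (D.a 1) * (X 0 * X 1) + C (D.a 0) * X 1 ^ 2) -
    (C (D.b 2) * X 2 ^ 2 - 2 * C (D.b 1) * (X 2 * X 3) + C (D.b 0) * X 3 ^ 2) := by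
  unfold LL
  have e : ∀ a : ℂ, pi0 (C a) = C a := fun a => pi0.commutes a
  have e1 : pi0 (X 1) = X 0 := by rw [pi0, aeval_X]; rfl
  have e2 : pi0 (X 2) = X 1 := by rw [pi0, aeval_X]; rfl
  have e3 : pi0 (X 3) = X 2 := by rw [pi0, aeval_X]; rfl
  have e4 : pi0 (X 4) = X 3 := by rw [pi0, aeval_X]; rfl
  simp only [map_add, map_sub, map_mul, map_pow, map_ofNat, e, e1, e2, e3, e4, pi0_X0, zero_mul,
    add_zero]

lemma pi0_LL_ne (D : Dat) (hD : del D ≠ 0) : pi0 (LL D) ≠ 0 := by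
  intro h
  rw [pi0_LL] at h
  apply hD
  have h1 := congrArg (eval ![(1 : ℂ), 0, 0, 0]) h
  have h2 := congrArg (eval ![(0 : ℂ), 1, 0, 0]) h
  have h3 := congrArg (eval ![(1 : ℂ), 1, 0, 0]) h
  have h4 := congrArg (eval ![(0 : ℂ), 0, 1, 0]) h
  have h5 := congrArg (eval ![(0 : ℂ), 0, 0, 1]) h
  have h6 := congrArg (eval ![(0 : ℂ), 0, 1, 1]) h
  simp at h1 h2 h3 h4 h5 h6
  rw [h1, h2] at h3
  rw [h4, h5] at h6
  have h7 : D.a 1 = 0 := by simpa using h3
  have h8 : D.b 1 = 0 := by simpa using h6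
  unfold del
  rw [h1, h2, h4, h5, h7, h8]
  ring

/-- **The reduction at `lam = 0`.** -/
theorem Gen.red0 (hx : Gen D x) (hD : del D ≠ 0) (z : M) (C0 C1 : A5)
    (hz : z ^ 2 = ph x C0 + ph x C1 * xi D x) :
    ∃ r w : B4, r ≠ 0 ∧ w ^ 2 = r ^ 2 * pi0 C0 := by
  have hsq := hx.xi_sq
  have main : ∀ r : A5, r ≠ 0 → ∀ p q : A5, ph x r * z = ph x p + ph x q * xi D x →
      p ^ 2 + q ^ 2 * PP D = r ^ 2 * C0 ∧ 2 * p * q + q ^ 2 * dd D = r ^ 2 * C1 := by
    intro r _ p q h
    have h1 : ph x (p ^ 2 + q ^ 2 * PP D - r ^ 2 * C0) +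
        ph x (2 * p * q + q ^ 2 * dd D - r ^ 2 * C1) * xi D x = 0 := by
      simp only [map_add, map_sub, map_mul, map_pow, map_ofNat]
      linear_combination (-(ph x q) ^ 2) * hsq + (ph x r) ^ 2 * hz
        - (ph x r * z + ph x p + ph x q * xi D x) * h
    obtain ⟨h2, h3⟩ := hx.indep_xi hD h1
    exact ⟨sub_eq_zero.mp h2, sub_eq_zero.mp h3⟩
  have step : ∀ r : A5, r ≠ 0 → ∀ p q : A5, ph x r * z = ph x p + ph x q * xi D x →
      ∃ r p q : A5, pi0 r ≠ 0 ∧ ph x r * z = ph x p + ph x q * xi D x := by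
    intro r
    induction r using (wellFounded_dvdNotUnit (α := A5)).induction with
    | _ r ih =>
      intro hr p q h
      by_cases hr0 : pi0 r = 0
      · obtain ⟨h1, h2⟩ := main r hr p q h
        have h1' := congrArg pi0 h1
        have h2' := congrArg pi0 h2
        simp only [map_add, map_mul, map_pow, map_ofNat, hr0, pi0_PP] at h1' h2'
        have hp : pi0 p = 0 := by
          have : pi0 p ^ 2 = 0 := by linear_combination h1'
          exact pow_eq_zero_iff (two_ne_zero) |>.mp this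
        have hd : pi0 (dd D) = -pi0 (LL D) := by rw [dd, map_neg]
        have hq : pi0 q = 0 := by
          rw [hp, hd] at h2'
          have : pi0 q ^ 2 * pi0 (LL D) = 0 := by linear_combination -h2'
          exact pow_eq_zero_iff (two_ne_zero) |>.mp
            ((mul_eq_zero.mp this).resolve_right (pi0_LL_ne D hD))
        obtain ⟨r', rfl⟩ := X_dvd_of_pi0 hr0
        obtain ⟨p', rfl⟩ := X_dvd_of_pi0 hp
        obtain ⟨q', rfl⟩ := X_dvd_of_pi0 hq
        have hr' : r' ≠ 0 := right_ne_zero_of_mul hr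
        refine ih r' ⟨hr', X 0, ?_, mul_comm _ _⟩ hr' p' q' ?_
        · intro hu
          have h7 := hu.map pi0
          rw [pi0_X0] at h7
          exact not_isUnit_zero h7
        · apply mul_left_cancel₀ (hx.x5_ne hD)
          rw [map_mul, map_mul, map_mul, ph_X0] at h
          linear_combination h
      · exact ⟨r, p, q, hr0, h⟩
  obtain ⟨r, p, q, hr, h⟩ := hx.pres hD z
  obtain ⟨r, p, q, hr, h⟩ := step r hr p q h
  have hr' : r ≠ 0 := by
    rintro rfl
    exact hr (map_zero _)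
  obtain ⟨h1, h2⟩ := main r hr' p q h
  refine ⟨pi0 r, pi0 p, hr, ?_⟩
  have h1' := congrArg pi0 h1
  simp only [map_add, map_mul, map_pow, pi0_PP] at h1'
  linear_combination h1'

end

end Pool.Agent.GSX.Sq
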