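import Pool.Agent.GSX.ArcF

/-!
# GSX: the coordinate `x0` is rational over the field of the base and the other coordinates (X4)

`x4`: `x` a generic point of `F = cubF A B = 0`, `T` a field which contains the two quotients of
the entries of the base. If `c x_i` belongs to `T` for `i ≠ 0` then `c x_0` belongs to `T`.
-/

set_option autoImplicit false

namespace Pool.Agent.GSX

open MvPolynomial Matrix

theorem cubF_hom {A B : Matrix (Fin 2) (Fin 2) S6} (hA : ∀ i j, (A i j).IsHomogeneous 1)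
    (hB : ∀ i j, (B i j).IsHomogeneous 1) : (cubF A B).IsHomogeneous 3 := by
  have h1 : ∀ i j : Fin 6, (X i * X j : S6).IsHomogeneous 2 := fun i j =>
    (isHomogeneous_X ℂ i).mul (isHomogeneous_X ℂ j)
  have h2 : ∀ M : Matrix (Fin 2) (Fin 2) S6, (∀ i j, (M i j).IsHomogeneous 1) → ∀ i j : Fin 6,
      (M 1 1 * X i ^ 2 - 2 * M 0 1 * (X i * X j) + M 0 0 * X j ^ 2).IsHomogeneous 3 := by
    intro M hM i j
    have e1 : (M 1 1 * X i ^ 2 - 2 * M 0 1 * (X i * X j) + M 0 0 * X j ^ 2 : S6) =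
        M 1 1 * (X i * X i) - C 2 * (M 0 1 * (X i * X j)) + M 0 0 * (X j * X j) := by
      rw [show (C 2 : S6) = 2 from map_ofNat _ 2]
      ring
    rw [e1]
    have e2 : (C 2 * (M 0 1 * (X i * X j)) : S6).IsHomogeneous 3 := by
      have := (isHomogeneous_C (Fin 6) (2 : ℂ)).mul ((hM 0 1).mul (h1 i j))
      rwa [zero_add] at this
    exact (((hM 1 1).mul (h1 i i)).sub e2).add ((hM 0 0).mul (h1 j j))
  have h3 : ∀ M : Matrix (Fin 2) (Fin 2) S6, (∀ i j, (M i j).IsHomogeneous 1) →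
      M.det.IsHomogeneous 2 := by
    intro M hM
    rw [det_fin_two]
    exact ((hM 0 0).mul (hM 1 1)).sub ((hM 0 1).mul (hM 1 0))
  unfold cubF
  exact ((h2 A hA 1 2).sub (h2 B hB 3 4)).add
    ((isHomogeneous_X ℂ 5).mul ((h3 A hA).sub (h3 B hB)))

/-- values of a form at proportional points. -/
theorem aeval_smul_hom' {n : ℕ} {L : Type} [CommRing L] [Algebra ℂ L]
    {P : S6} (hP : P.IsHomogeneous n) (c : L) (z : Fin 6 → L) :
    aeval (fun i => c * z i) P = c ^ n * aeval z P := by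
  rw [aeval_def, aeval_def, eval₂_eq, eval₂_eq, Finset.mul_sum]
  refine Finset.sum_congr rfl fun d hd => ?_
  have h1 : ∑ i ∈ d.support, d i = n := by
    have := hP (mem_support_iff.1 hd)
    rw [Finsupp.weight_apply] at this
    simpa [Finsupp.sum] using this
  have h2 : ∏ i ∈ d.support, (c * z i) ^ d i = c ^ n * ∏ i ∈ d.support, z i ^ d i := by
    rw [← h1, ← Finset.prod_pow_eq_pow_sum, ← Finset.prod_mul_distrib]
    exact Finset.prod_congr rfl fun i _ => mul_pow _ _ _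
  rw [h2]
  ring

section Gen

variable {A B : Matrix (Fin 2) (Fin 2) S6} {Ω : Type} [Field Ω] [Algebra ℂ Ω] {x : Fin 6 → Ω}

/-- forms in the entries of the base do not vanish at the generic point -/
theorem base_ne (hA : ∀ i j, (A i j).IsHomogeneous 1)
    (hB : ∀ i j, (B i j).IsHomogeneous 1) (hAs : A 1 0 = A 0 1) (hBs : B 1 0 = B 0 1)
    (h0 : ∃ i j, coeff (Finsupp.single 0 1) (A i j) ≠ 0 ∨ coeff (Finsupp.single 0 1) (B i j) ≠ 0)
    (hker : ∀ (G : S6) (m : ℕ), G.IsHomogeneous m → (aeval x G = 0 ↔ cubF A B ∣ G))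
    {P : MvPolynomial (Fin 3) ℂ} {n : ℕ} (hP : P.IsHomogeneous n) (hP0 : P ≠ 0) :
    aeval (fun k => aeval x (base A B k)) P ≠ 0 := by
  intro h1
  rw [← comp_aeval_apply] at h1
  have h2 : (aeval (base A B) P).IsHomogeneous (2 * n) := hP.aeval _ (base_hom hA hB)
  rw [hker _ _ h2] at h1
  have h3 := indep hA hB hAs hBs h0 ![0, 0, 0, 0, P] (by
    rw [Fin.sum_univ_five]
    simp only [Matrix.cons_val_zero, Matrix.cons_val_one, Matrix.cons_val, map_zero, zero_mul,
      zero_add]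
    exact h1.mul_right _)
  exact hP0 (h3 4)

theorem m00_ne (hA : ∀ i j, (A i j).IsHomogeneous 1)
    (hB : ∀ i j, (B i j).IsHomogeneous 1) (hAs : A 1 0 = A 0 1) (hBs : B 1 0 = B 0 1)
    (h0 : ∃ i j, coeff (Finsupp.single 0 1) (A i j) ≠ 0 ∨ coeff (Finsupp.single 0 1) (B i j) ≠ 0)
    (hker : ∀ (G : S6) (m : ℕ), G.IsHomogeneous m → (aeval x G = 0 ↔ cubF A B ∣ G)) :
    aeval x (base A B 0) ≠ 0 := by
  have h1 := base_ne hA hB hAs hBs h0 hker (isHomogeneous_X ℂ (0 : Fin 3)) (X_ne_zero 0)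
  rwa [aeval_X] at h1

theorem x5_ne (hA : ∀ i j, (A i j).IsHomogeneous 1)
    (hB : ∀ i j, (B i j).IsHomogeneous 1) (hAs : A 1 0 = A 0 1) (hBs : B 1 0 = B 0 1)
    (h0 : ∃ i j, coeff (Finsupp.single 0 1) (A i j) ≠ 0 ∨ coeff (Finsupp.single 0 1) (B i j) ≠ 0)
    (hker : ∀ (G : S6) (m : ℕ), G.IsHomogeneous m → (aeval x G = 0 ↔ cubF A B ∣ G)) :
    x 5 ≠ 0 := by
  intro h1
  have h2 := (hker (X 5) 1 (isHomogeneous_X ℂ 5)).1 (by rw [aeval_X, h1])
  have h3 := indep hA hB hAs hBs h0 ![0, 0, 0, 0, 1] (by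
    rw [Fin.sum_univ_five]
    simp only [Matrix.cons_val_zero, Matrix.cons_val_one, Matrix.cons_val, map_zero, zero_mul,
      zero_add, map_one, one_mul]
    exact h2)
  exact one_ne_zero (h3 4)

/-- the linear form without `X0` -/
noncomputable def del0 (f : S6) : S6 := f - C (coeff (Finsupp.single 0 1) f) * X 0

theorem del0_hom {f : S6} (hf : f.IsHomogeneous 1) : (del0 f).IsHomogeneous 1 := by
  refine hf.sub ?_
  have := (isHomogeneous_C (Fin 6) (coeff (Finsupp.single 0 1) f)).mul (isHomogeneous_X ℂ 0)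
  rwa [zero_add] at this

theorem aeval_del0 (f : S6) : aeval x f =
    algebraMap ℂ Ω (coeff (Finsupp.single 0 1) f) * x 0 + aeval x (del0 f) := by
  unfold del0
  rw [map_sub, map_mul, aeval_X, ← algebraMap_eq, AlgHom.commutes]
  ring

theorem del0_mem {f : S6} (hf : f.IsHomogeneous 1) {T : IntermediateField ℂ Ω}
    (hT : ∀ i, i ≠ 0 → x i ∈ T) : aeval x (del0 f) ∈ T := by
  have h1 : aeval x (del0 f) = ∑ i : Fin 5, algebraMap ℂ Ω (coeff (Finsupp.single i.succ 1) f) *
      x i.succ := by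
    have h2 := aeval_del0 (x := x) f
    rw [aeval_lin hf, Fin.sum_univ_succ] at h2
    linear_combination -h2
  rw [h1]
  exact sum_mem fun i _ => mul_mem (T.algebraMap_mem _) (hT _ (Fin.succ_ne_zero i))

private theorem x4_aux (hA : ∀ i j, (A i j).IsHomogeneous 1)
    (hB : ∀ i j, (B i j).IsHomogeneous 1) (hAs : A 1 0 = A 0 1) (hBs : B 1 0 = B 0 1)
    (h0 : ∃ i j, coeff (Finsupp.single 0 1) (A i j) ≠ 0 ∨ coeff (Finsupp.single 0 1) (B i j) ≠ 0)
    (hker : ∀ (G : S6) (m : ℕ), G.IsHomogeneous m → (aeval x G = 0 ↔ cubF A B ∣ G))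
    {T : IntermediateField ℂ Ω}
    (hs : aeval x (base A B 1) / aeval x (base A B 0) ∈ T)
    (ht : aeval x (base A B 2) / aeval x (base A B 0) ∈ T) (hT : ∀ i, i ≠ 0 → x i ∈ T) :
    x 0 ∈ T := by
  have hm0 := m00_ne hA hB hAs hBs h0 hker
  have hx5 := x5_ne hA hB hAs hBs h0 hker
  set s := aeval x (base A B 1) / aeval x (base A B 0) with hsd
  set t := aeval x (base A B 2) / aeval x (base A B 0) with htd
  have es : s * aeval x (base A B 0) = aeval x (base A B 1) := div_mul_cancel₀ _ hm0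
  have et : t * aeval x (base A B 0) = aeval x (base A B 2) := div_mul_cancel₀ _ hm0
  set a11 := algebraMap ℂ Ω (coeff (Finsupp.single 0 1) (A 1 1)) with ha11
  set a01 := algebraMap ℂ Ω (coeff (Finsupp.single 0 1) (A 0 1)) with ha01
  set a00 := algebraMap ℂ Ω (coeff (Finsupp.single 0 1) (A 0 0)) with ha00
  set b11 := algebraMap ℂ Ω (coeff (Finsupp.single 0 1) (B 1 1)) with hb11
  set b01 := algebraMap ℂ Ω (coeff (Finsupp.single 0 1) (B 0 1)) with hb01
  set b00 := algebraMap ℂ Ω (coeff (Finsupp.single 0 1) (B 0 0)) with hb00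
  have lA11 : aeval x (A 1 1) = a11 * x 0 + aeval x (del0 (A 1 1)) := aeval_del0 _
  have lA01 : aeval x (A 0 1) = a01 * x 0 + aeval x (del0 (A 0 1)) := aeval_del0 _
  have lA00 : aeval x (A 0 0) = a00 * x 0 + aeval x (del0 (A 0 0)) := aeval_del0 _
  have lB11 : aeval x (B 1 1) = b11 * x 0 + aeval x (del0 (B 1 1)) := aeval_del0 _
  have lB01 : aeval x (B 0 1) = b01 * x 0 + aeval x (del0 (B 0 1)) := aeval_del0 _
  have lB00 : aeval x (B 0 0) = b00 * x 0 + aeval x (del0 (B 0 0)) := aeval_del0 _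
  have mA11 := del0_mem (hA 1 1) hT
  have mA01 := del0_mem (hA 0 1) hT
  have mA00 := del0_mem (hA 0 0) hT
  have mB11 := del0_mem (hB 1 1) hT
  have mB01 := del0_mem (hB 0 1) hT
  have mB00 := del0_mem (hB 0 0) hT
  have x1 := hT 1 (by decide)
  have x2 := hT 2 (by decide)
  have x3 := hT 3 (by decide)
  have x4 := hT 4 (by decide)
  have x5 := hT 5 (by decide)
  have n0 : aeval x (base A B 0) = x 1 ^ 2 + x 3 ^ 2 + x 5 * (aeval x (del0 (A 0 0)) +
      aeval x (del0 (B 0 0))) + x 5 * (a00 + b00) * x 0 := by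
    show aeval x (X 1 ^ 2 + X 3 ^ 2 + X 5 * (A 0 0 + B 0 0)) = _
    simp only [map_add, map_mul, map_pow, aeval_X, lA00, lB00]
    ring
  have n1 : aeval x (base A B 1) = x 1 * x 2 + x 3 * x 4 + x 5 * (aeval x (del0 (A 0 1)) +
      aeval x (del0 (B 0 1))) + x 5 * (a01 + b01) * x 0 := by
    show aeval x (X 1 * X 2 + X 3 * X 4 + X 5 * (A 0 1 + B 0 1)) = _
    simp only [map_add, map_mul, aeval_X, lA01, lB01]
    ring
  have n2 : aeval x (base A B 2) = x 2 ^ 2 + x 4 ^ 2 + x 5 * (aeval x (del0 (A 1 1)) +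
      aeval x (del0 (B 1 1))) + x 5 * (a11 + b11) * x 0 := by
    show aeval x (X 2 ^ 2 + X 4 ^ 2 + X 5 * (A 1 1 + B 1 1)) = _
    simp only [map_add, map_mul, map_pow, aeval_X, lA11, lB11]
    ring
  have am : ∀ z : ℂ, algebraMap ℂ Ω z ∈ T := fun z => T.algebraMap_mem z
  -- one of the two linear equations
  by_cases k1 : a01 + b01 - s * (a00 + b00) = 0
  swap
  · have e1 : x 0 = (s * (x 1 ^ 2 + x 3 ^ 2 + x 5 * (aeval x (del0 (A 0 0)) +
        aeval x (del0 (B 0 0)))) - (x 1 * x 2 + x 3 * x 4 + x 5 * (aeval x (del0 (A 0 1)) +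
        aeval x (del0 (B 0 1))))) / (x 5 * (a01 + b01 - s * (a00 + b00))) := by
      rw [eq_div_iff (mul_ne_zero hx5 k1)]
      rw [n0, n1] at es
      linear_combination -es
    rw [e1]
    exact div_mem (sub_mem (mul_mem hs (add_mem (add_mem (pow_mem x1 2) (pow_mem x3 2))
      (mul_mem x5 (add_mem mA00 mB00)))) (add_mem (add_mem (mul_mem x1 x2) (mul_mem x3 x4))
      (mul_mem x5 (add_mem mA01 mB01)))) (mul_mem x5 (sub_mem (add_mem (am _) (am _))
      (mul_mem hs (add_mem (am _) (am _)))))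
  by_cases k2 : a11 + b11 - t * (a00 + b00) = 0
  swap
  · have e1 : x 0 = (t * (x 1 ^ 2 + x 3 ^ 2 + x 5 * (aeval x (del0 (A 0 0)) +
        aeval x (del0 (B 0 0)))) - (x 2 ^ 2 + x 4 ^ 2 + x 5 * (aeval x (del0 (A 1 1)) +
        aeval x (del0 (B 1 1))))) / (x 5 * (a11 + b11 - t * (a00 + b00))) := by
      rw [eq_div_iff (mul_ne_zero hx5 k2)]
      rw [n0, n2] at et
      linear_combination -et
    rw [e1]
    exact div_mem (sub_mem (mul_mem ht (add_mem (add_mem (pow_mem x1 2) (pow_mem x3 2))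
      (mul_mem x5 (add_mem mA00 mB00)))) (add_mem (add_mem (pow_mem x2 2) (pow_mem x4 2))
      (mul_mem x5 (add_mem mA11 mB11)))) (mul_mem x5 (sub_mem (add_mem (am _) (am _))
      (mul_mem ht (add_mem (am _) (am _)))))
  -- both are trivial
  have inj : Function.Injective (algebraMap ℂ Ω) := FaithfulSMul.algebraMap_injective ℂ Ω
  have key : ∀ (u v : ℂ) (k : Fin 3), k ≠ 0 → algebraMap ℂ Ω u * aeval x (base A B 0) -
      algebraMap ℂ Ω v * aeval x (base A B k) = 0 → u = 0 ∧ v = 0 := by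
    intro u v k hk huv
    have e1 : aeval (fun k => aeval x (base A B k)) (C u * X 0 - C v * X k :
        MvPolynomial (Fin 3) ℂ) = 0 := by
      rw [map_sub, map_mul, map_mul, aeval_X, aeval_X, aeval_C, aeval_C]
      exact huv
    have e2 : (C u * X 0 - C v * X k : MvPolynomial (Fin 3) ℂ) = 0 := by
      by_contra e3
      refine base_ne hA hB hAs hBs h0 hker (n := 1) ?_ e3 e1
      have e4 := (isHomogeneous_C (Fin 3) u).mul (isHomogeneous_X ℂ (0 : Fin 3))
      have e5 := (isHomogeneous_C (Fin 3) v).mul (isHomogeneous_X ℂ k)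
      rw [zero_add] at e4 e5
      exact e4.sub e5
    have e3 := congrArg (eval (Pi.single 0 1 : Fin 3 → ℂ)) e2
    have e4 := congrArg (eval (Pi.single k 1 : Fin 3 → ℂ)) e2
    simp [hk, hk.symm] at e3 e4
    exact ⟨e3, e4⟩
  have g1 : coeff (Finsupp.single 0 1) (A 0 1) + coeff (Finsupp.single 0 1) (B 0 1) = 0 ∧
      coeff (Finsupp.single 0 1) (A 0 0) + coeff (Finsupp.single 0 1) (B 0 0) = 0 := by
    refine key _ _ 1 (by decide) ?_
    rw [map_add, map_add, ← es, ← ha01, ← hb01, ← ha00, ← hb00]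
    linear_combination aeval x (base A B 0) * k1
  have g2 : coeff (Finsupp.single 0 1) (A 1 1) + coeff (Finsupp.single 0 1) (B 1 1) = 0 ∧
      coeff (Finsupp.single 0 1) (A 0 0) + coeff (Finsupp.single 0 1) (B 0 0) = 0 := by
    refine key _ _ 2 (by decide) ?_
    rw [map_add, map_add, ← et, ← ha11, ← hb11, ← ha00, ← hb00]
    linear_combination aeval x (base A B 0) * k2
  have q01 : b01 = -a01 := by
    have := congrArg (algebraMap ℂ Ω) g1.1
    rw [map_add, map_zero, ← ha01, ← hb01] at this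
    linear_combination this
  have q00 : b00 = -a00 := by
    have := congrArg (algebraMap ℂ Ω) g1.2
    rw [map_add, map_zero, ← ha00, ← hb00] at this
    linear_combination this
  have q11 : b11 = -a11 := by
    have := congrArg (algebraMap ℂ Ω) g2.1
    rw [map_add, map_zero, ← ha11, ← hb11] at this
    linear_combination this
  -- the cubic is linear in `x0`
  set Lp : S6 := (C (coeff (Finsupp.single 0 1) (A 1 1)) * (X 1 * X 1) -
      C (2 * coeff (Finsupp.single 0 1) (A 0 1)) * (X 1 * X 2) +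
      C (coeff (Finsupp.single 0 1) (A 0 0)) * (X 2 * X 2)) -
    (C (coeff (Finsupp.single 0 1) (B 1 1)) * (X 3 * X 3) -
      C (2 * coeff (Finsupp.single 0 1) (B 0 1)) * (X 3 * X 4) +
      C (coeff (Finsupp.single 0 1) (B 0 0)) * (X 4 * X 4)) +
    X 5 * (C (coeff (Finsupp.single 0 1) (A 0 0)) * del0 (A 1 1) +
      C (coeff (Finsupp.single 0 1) (A 1 1)) * del0 (A 0 0) -
      C (2 * coeff (Finsupp.single 0 1) (A 0 1)) * del0 (A 0 1) -
      (C (coeff (Finsupp.single 0 1) (B 0 0)) * del0 (B 1 1) +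
      C (coeff (Finsupp.single 0 1) (B 1 1)) * del0 (B 0 0) -
      C (2 * coeff (Finsupp.single 0 1) (B 0 1)) * del0 (B 0 1))) with hLp
  have hLh : Lp.IsHomogeneous 2 := by
    have h1 : ∀ (z : ℂ) (i j : Fin 6), (C z * (X i * X j) : S6).IsHomogeneous 2 := by
      intro z i j
      have := (isHomogeneous_C (Fin 6) z).mul
        ((isHomogeneous_X ℂ i).mul (isHomogeneous_X ℂ j))
      rwa [zero_add] at this
    have h2 : ∀ (z : ℂ) (f : S6), f.IsHomogeneous 1 → (C z * del0 f : S6).IsHomogeneous 1 := by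
      intro z f hf
      have := (isHomogeneous_C (Fin 6) z).mul (del0_hom hf)
      rwa [zero_add] at this
    refine ((((h1 _ 1 1).sub (h1 _ 1 2)).add (h1 _ 2 2)).sub
      (((h1 _ 3 3).sub (h1 _ 3 4)).add (h1 _ 4 4))).add ?_
    exact (isHomogeneous_X ℂ 5).mul ((((h2 _ _ (hA 1 1)).add (h2 _ _ (hA 0 0))).sub
      (h2 _ _ (hA 0 1))).sub (((h2 _ _ (hB 1 1)).add (h2 _ _ (hB 0 0))).sub (h2 _ _ (hB 0 1))))
  have hLv : aeval x Lp = (a11 * (x 1 * x 1) - 2 * a01 * (x 1 * x 2) + a00 * (x 2 * x 2)) -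
      (b11 * (x 3 * x 3) - 2 * b01 * (x 3 * x 4) + b00 * (x 4 * x 4)) +
      x 5 * (a00 * aeval x (del0 (A 1 1)) + a11 * aeval x (del0 (A 0 0)) -
        2 * a01 * aeval x (del0 (A 0 1)) - (b00 * aeval x (del0 (B 1 1)) +
        b11 * aeval x (del0 (B 0 0)) - 2 * b01 * aeval x (del0 (B 0 1)))) := by
    rw [hLp]
    simp only [map_add, map_sub, map_mul, aeval_X, aeval_C, map_ofNat]
    rfl
  have hLT : aeval x Lp ∈ T := by
    rw [hLv]
    have h2 : (2 : Ω) ∈ T := by
      have := am 2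
      rwa [map_ofNat] at this
    exact add_mem (sub_mem (add_mem (sub_mem (mul_mem (am _) (mul_mem x1 x1))
      (mul_mem (mul_mem h2 (am _)) (mul_mem x1 x2))) (mul_mem (am _) (mul_mem x2 x2)))
      (add_mem (sub_mem (mul_mem (am _) (mul_mem x3 x3))
      (mul_mem (mul_mem h2 (am _)) (mul_mem x3 x4))) (mul_mem (am _) (mul_mem x4 x4))))
      (mul_mem x5 (sub_mem (sub_mem (add_mem (mul_mem (am _) mA11) (mul_mem (am _) mA00))
      (mul_mem (mul_mem h2 (am _)) mA01)) (sub_mem (add_mem (mul_mem (am _) mB11)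
      (mul_mem (am _) mB00)) (mul_mem (mul_mem h2 (am _)) mB01))))
  have hLne : aeval x Lp ≠ 0 := by
    intro h1
    rw [hker _ _ hLh] at h1
    obtain ⟨H, hH⟩ := h1
    have hLp0 : Lp = 0 := by
      by_contra h2
      have h3 : cubF A B ≠ 0 := fun h4 => h2 (by rw [hH, h4, zero_mul])
      have h4 : H ≠ 0 := fun h4 => h2 (by rw [hH, h4, mul_zero])
      have h5 := totalDegree_mul_of_isDomain h3 h4
      rw [← hH, hLh.totalDegree h2, (cubF_hom hA hB).totalDegree h3] at h5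
      omega
    have ev : ∀ v : Fin 6 → ℂ, v 5 = 0 →
        (coeff (Finsupp.single 0 1) (A 1 1) * (v 1 * v 1) -
          2 * coeff (Finsupp.single 0 1) (A 0 1) * (v 1 * v 2) +
          coeff (Finsupp.single 0 1) (A 0 0) * (v 2 * v 2)) -
        (coeff (Finsupp.single 0 1) (B 1 1) * (v 3 * v 3) -
          2 * coeff (Finsupp.single 0 1) (B 0 1) * (v 3 * v 4) +
          coeff (Finsupp.single 0 1) (B 0 0) * (v 4 * v 4)) = 0 := by
      intro v hv
      have h2 := congrArg (eval v) hLp0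
      rw [hLp] at h2
      simp only [map_add, map_sub, map_mul, eval_X, eval_C, map_zero, hv, zero_mul,
        add_zero] at h2
      exact h2
    have e1 := ev ![0, 1, 0, 0, 0, 0] rfl
    have e2 := ev ![0, 0, 1, 0, 0, 0] rfl
    have e3 := ev ![0, 1, 1, 0, 0, 0] rfl
    simp at e1 e2 e3
    rw [e1, e2] at e3
    have e4 : coeff (Finsupp.single 0 1) (A 0 1) = 0 := by simpa using e3
    have z11 : coeff (Finsupp.single 0 1) (B 1 1) = 0 := by
      have := g2.1
      rwa [e1, zero_add] at this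
    have z00 : coeff (Finsupp.single 0 1) (B 0 0) = 0 := by
      have := g2.2
      rwa [e2, zero_add] at this
    have z01 : coeff (Finsupp.single 0 1) (B 0 1) = 0 := by
      have := g1.1
      rwa [e4, zero_add] at this
    obtain ⟨i, j, hij⟩ := h0
    rcases hij with hij | hij
    · apply hij
      fin_cases i <;> fin_cases j
      · exact e2
      · exact e4
      · show coeff (Finsupp.single 0 1) (A 1 0) = 0
        rw [hAs]; exact e4
      · exact e1
    · apply hij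
      fin_cases i <;> fin_cases j
      · exact z00
      · exact z01
      · show coeff (Finsupp.single 0 1) (B 1 0) = 0
        rw [hBs]; exact z01
      · exact z11
  have hF : aeval x (cubF A B) = 0 := (hker _ _ (cubF_hom hA hB)).2 dvd_rfl
  have e1 : x 0 = -((aeval x (del0 (A 1 1)) * x 1 ^ 2 - 2 * aeval x (del0 (A 0 1)) * (x 1 * x 2) +
      aeval x (del0 (A 0 0)) * x 2 ^ 2) - (aeval x (del0 (B 1 1)) * x 3 ^ 2 -
      2 * aeval x (del0 (B 0 1)) * (x 3 * x 4) + aeval x (del0 (B 0 0)) * x 4 ^ 2) +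
      x 5 * (aeval x (del0 (A 0 0)) * aeval x (del0 (A 1 1)) -
        aeval x (del0 (A 0 1)) * aeval x (del0 (A 0 1)) -
        (aeval x (del0 (B 0 0)) * aeval x (del0 (B 1 1)) -
        aeval x (del0 (B 0 1)) * aeval x (del0 (B 0 1))))) / aeval x Lp := by
    rw [eq_div_iff hLne, hLv, q01, q00, q11]
    unfold cubF at hF
    rw [det_fin_two, det_fin_two] at hF
    simp only [hAs, hBs, map_add, map_sub, map_mul, map_pow, aeval_X, map_ofNat, lA11, lA01,
      lA00, lB11, lB01, lB00, q01, q00, q11] at hF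
    linear_combination hF
  rw [e1]
  have h2 : (2 : Ω) ∈ T := by
    have := am 2
    rwa [map_ofNat] at this
  exact div_mem (neg_mem (add_mem (sub_mem (add_mem (sub_mem (mul_mem mA11 (pow_mem x1 2))
    (mul_mem (mul_mem h2 mA01) (mul_mem x1 x2))) (mul_mem mA00 (pow_mem x2 2)))
    (add_mem (sub_mem (mul_mem mB11 (pow_mem x3 2))
    (mul_mem (mul_mem h2 mB01) (mul_mem x3 x4))) (mul_mem mB00 (pow_mem x4 2))))
    (mul_mem x5 (sub_mem (sub_mem (mul_mem mA00 mA11) (mul_mem mA01 mA01))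
    (sub_mem (mul_mem mB00 mB11) (mul_mem mB01 mB01)))))) hLT

/-- (X4) -/
theorem x4 (hA : ∀ i j, (A i j).IsHomogeneous 1)
    (hB : ∀ i j, (B i j).IsHomogeneous 1) (hAs : A 1 0 = A 0 1) (hBs : B 1 0 = B 0 1)
    (h0 : ∃ i j, coeff (Finsupp.single 0 1) (A i j) ≠ 0 ∨ coeff (Finsupp.single 0 1) (B i j) ≠ 0)
    (hker : ∀ (G : S6) (m : ℕ), G.IsHomogeneous m → (aeval x G = 0 ↔ cubF A B ∣ G))
    {T : IntermediateField ℂ Ω}
    (hs : aeval x (base A B 1) / aeval x (base A B 0) ∈ T)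
    (ht : aeval x (base A B 2) / aeval x (base A B 0) ∈ T) {c : Ω} (hc : c ≠ 0)
    (hT : ∀ i, i ≠ 0 → c * x i ∈ T) : ∀ i, c * x i ∈ T := by
  have h1 : ∀ k, aeval (fun i => c * x i) (base A B k) = c ^ 2 * aeval x (base A B k) :=
    fun k => aeval_smul_hom' (base_hom hA hB k) c x
  have h2 : c * x 0 ∈ T := by
    refine x4_aux (x := fun i => c * x i) hA hB hAs hBs h0 ?_ ?_ ?_ hT
    · intro G m hG
      rw [aeval_smul_hom' hG, mul_eq_zero, ← hker G m hG]
      simp [hc]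
    · rw [h1, h1, mul_div_mul_left _ _ (pow_ne_zero 2 hc)]
      exact hs
    · rw [h1, h1, mul_div_mul_left _ _ (pow_ne_zero 2 hc)]
      exact ht
  intro i
  by_cases hi : i = 0
  · rw [hi]
    exact h2
  · exact hT i hi

/-- (X4), quotients of coordinates -/
theorem x4_div (hA : ∀ i j, (A i j).IsHomogeneous 1)
    (hB : ∀ i j, (B i j).IsHomogeneous 1) (hAs : A 1 0 = A 0 1) (hBs : B 1 0 = B 0 1)
    (h0 : ∃ i j, coeff (Finsupp.single 0 1) (A i j) ≠ 0 ∨ coeff (Finsupp.single 0 1) (B i j) ≠ 0)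
    (hker : ∀ (G : S6) (m : ℕ), G.IsHomogeneous m → (aeval x G = 0 ↔ cubF A B ∣ G))
    {T : IntermediateField ℂ Ω}
    (hs : aeval x (base A B 1) / aeval x (base A B 0) ∈ T)
    (ht : aeval x (base A B 2) / aeval x (base A B 0) ∈ T) {c : Ω} (hc : c ≠ 0)
    (hT : ∀ i, i ≠ 0 → c * x i ∈ T) (i j : Fin 6) : x i / x j ∈ T := by
  have h1 := x4 hA hB hAs hBs h0 hker hs ht hc hT
  have h2 : x i / x j = (c * x i) / (c * x j) := by rw [mul_div_mul_left _ _ hc]
  rw [h2]
  exact div_mem (h1 i) (h1 j)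

end Gen

end Pool.Agent.GSX
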