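import Pool.Agent.GSX.GenX

/-!
# GSX: the component in `L` of the generic point is not zero

The place `lam = 0`: `kap : KK → ℂ(y)`, `y = (p, q)`, is given by the ratios of the entries of
`p pᵀ + q qᵀ`. `Gen.place`: a quadratic relation over `KK` between `x 1, …, x 5` gives the
relation between `y 0, …, y 3, 0`. `Gen.xi_ne`: the component in `L` of the point of `W` over the
generic point is not zero, since at `lam = 0` the numerator is `-8 d ^ 4 γ φ`, where `γ` is the entry 00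
of `C_0` and `φ = pᵀ adj(A_0) p - qᵀ adj(B_0) q`.
-/

set_option autoImplicit false

noncomputable section

namespace Pool.Agent.GSX

open MvPolynomial Matrix Pool.Agent.GSH

/-- the polynomials in `p`, `q` -/
abbrev R4 : Type := MvPolynomial (Fin 4) ℂ

/-- the field of rational functions in `p`, `q` -/
abbrev K4 : Type := FractionRing R4

/-- the entries of `p pᵀ + q qᵀ` -/
def b4 : Fin 3 → R4 := ![X 0 ^ 2 + X 2 ^ 2, X 0 * X 1 + X 2 * X 3, X 1 ^ 2 + X 3 ^ 2]

theorem b4_inj {P : MvPolynomial (Fin 3) ℂ} (h : aeval b4 P = 0) : P = 0 := by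
  have h1 : P * X 0 = 0 := by
    refine MvPolynomial.funext fun m => ?_
    rw [map_mul, eval_X, map_zero]
    by_cases hm : m 0 = 0
    · rw [hm, mul_zero]
    · obtain ⟨a, ha⟩ : ∃ a : ℂ, a ^ 2 = m 0 := IsAlgClosed.exists_pow_nat_eq _ (by norm_num)
      have ha0 : a ≠ 0 := by
        rintro rfl
        exact hm (by rw [← ha]; norm_num)
      obtain ⟨b, hb⟩ : ∃ b : ℂ, b ^ 2 = m 2 - m 1 ^ 2 / m 0 :=
        IsAlgClosed.exists_pow_nat_eq _ (by norm_num)
      have h2 := congrArg (eval ![a, m 1 / a, 0, b]) h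
      rw [map_zero, ← aeval_eq_eval, comp_aeval_apply] at h2
      have h3 : (fun i => aeval ![a, m 1 / a, 0, b] (b4 i)) = m := by
        funext i
        fin_cases i
        · simp [b4, ha]
        · simp [b4]
          field_simp
        · simp [b4]
          rw [hb, div_pow, ha]
          ring
      rw [h3, aeval_eq_eval] at h2
      rw [h2, zero_mul]
  exact (mul_eq_zero.1 h1).resolve_right (X_ne_zero 0)

/-- the entries of `p pᵀ + q qᵀ` in the field -/
def bK (k : Fin 3) : K4 := algebraMap R4 K4 (b4 k)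

/-- the variables in the field -/
def yK (k : Fin 4) : K4 := algebraMap R4 K4 (X k)

theorem alg4_inj : Function.Injective (algebraMap R4 K4) := IsFractionRing.injective R4 K4

theorem bK0_ne : bK 0 ≠ 0 := by
  intro h
  have h1 : (b4 0 : R4) = 0 := alg4_inj (h.trans (map_zero _).symm)
  have h2 := congrArg (eval ![1, 0, 0, 0]) h1
  simp [b4] at h2

/-- the values of `s`, `t` -/
def kap0 : MvPolynomial (Fin 2) ℂ →ₐ[ℂ] K4 := aeval ![bK 1 / bK 0, bK 2 / bK 0]

theorem kap0_inj : Function.Injective kap0 := by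
  rw [injective_iff_map_eq_zero]
  intro n hn
  obtain ⟨h, _, hh⟩ := hom3 n n.totalDegree le_rfl
  have h1 := hh K4 (bK 0) (bK 1 / bK 0) (bK 2 / bK 0)
  have h2 : aeval ![bK 1 / bK 0, bK 2 / bK 0] n = 0 := hn
  rw [h2, mul_zero, mul_div_cancel₀ _ bK0_ne, mul_div_cancel₀ _ bK0_ne] at h1
  have h3 : (![bK 0, bK 1, bK 2] : Fin 3 → K4) = fun k => algebraMap R4 K4 (b4 k) := by
    funext k
    fin_cases k <;> rfl
  have h4 : aeval b4 h = 0 := by
    apply alg4_inj
    rw [map_zero, ← h1, h3]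
    have h5 := comp_aeval_apply (f := b4) (IsScalarTower.toAlgHom ℂ R4 K4) h
    exact h5
  have h5 := b4_inj h4
  have h6 := hh (MvPolynomial (Fin 2) ℂ) 1 (X 0) (X 1)
  have h7 : (![X 0, X 1] : Fin 2 → MvPolynomial (Fin 2) ℂ) = X := by
    funext i
    fin_cases i <;> rfl
  rw [h5, map_zero, one_pow, one_mul, h7, aeval_X_left_apply] at h6
  exact h6.symm

/-- the embedding of the field of the base at `lam = 0` -/
def kap : KK →+* K4 := IsFractionRing.lift (A := MvPolynomial (Fin 2) ℂ) (g := kap0.toRingHom)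
  kap0_inj

theorem kap_alg (n : MvPolynomial (Fin 2) ℂ) :
    kap (algebraMap (MvPolynomial (Fin 2) ℂ) KK n) = aeval ![bK 1 / bK 0, bK 2 / bK 0] n :=
  IsFractionRing.lift_algebraMap _ n

theorem kap_s : kap sK = bK 1 / bK 0 := by
  unfold sK
  rw [kap_alg, aeval_X]
  rfl

theorem kap_t : kap tK = bK 2 / bK 0 := by
  unfold tK
  rw [kap_alg, aeval_X]
  rfl

theorem kap_C (z : ℂ) : kap (algebraMap ℂ KK z) = algebraMap ℂ K4 z := by
  rw [IsScalarTower.algebraMap_apply ℂ (MvPolynomial (Fin 2) ℂ) KK, kap_alg, AlgHom.commutes]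

/-- the point at `lam = 0` -/
def yy : Fin 5 → K4 := ![yK 0, yK 1, yK 2, yK 3, 0]

/-- `φ = pᵀ adj(A_0) p - qᵀ adj(B_0) q` -/
def phK (D : Cub ℂ) : R4 :=
  (C (D.a 0 2) * X 0 ^ 2 - 2 * C (D.a 0 1) * (X 0 * X 1) + C (D.a 0 0) * X 1 ^ 2) -
    (C (D.b 0 2) * X 2 ^ 2 - 2 * C (D.b 0 1) * (X 2 * X 3) + C (D.b 0 0) * X 3 ^ 2)

theorem phK_ne {D : Cub ℂ} (h0 : D.a 0 ≠ 0) : phK D ≠ 0 := by
  intro h
  have h1 := congrArg (eval ![1, 0, 0, 0]) h
  have h2 := congrArg (eval ![0, 1, 0, 0]) h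
  have h3 := congrArg (eval ![1, 1, 0, 0]) h
  simp [phK] at h1 h2 h3
  rw [h1, h2] at h3
  apply h0
  funext i
  fin_cases i
  · exact h2
  · simpa using h3
  · exact h1

/-- the values of the linear forms at `lam = 0`, `X0 = 0` -/
def l4 (c : Fin 6 → ℂ) : R4 := C (c 1) * X 0 + C (c 2) * X 1 + C (c 3) * X 2 + C (c 4) * X 3

/-- `F` at `lam = 0`, `X0 = 0` -/
def psK (D : Cub ℂ) : R4 :=
  (l4 (fun k => D.a k 2) * X 0 ^ 2 - 2 * l4 (fun k => D.a k 1) * (X 0 * X 1) +
    l4 (fun k => D.a k 0) * X 1 ^ 2) -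
    (l4 (fun k => D.b k 2) * X 2 ^ 2 - 2 * l4 (fun k => D.b k 1) * (X 2 * X 3) +
    l4 (fun k => D.b k 0) * X 3 ^ 2)

/-- the place -/
def rho (D : Cub ℂ) : S6 →ₐ[ℂ] K4 :=
  aeval ![-(algebraMap R4 K4 (psK D)) / algebraMap R4 K4 (phK D), yK 0, yK 1, yK 2, yK 3, 0]

theorem rho_lin (D : Cub ℂ) (c : Fin 6 → ℂ) : rho D (lin c) =
    algebraMap ℂ K4 (c 0) * (-(algebraMap R4 K4 (psK D)) / algebraMap R4 K4 (phK D)) +
      algebraMap R4 K4 (l4 c) := by
  have hC : ∀ z : ℂ, algebraMap R4 K4 (C z) = algebraMap ℂ K4 z := by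
    intro z
    rw [IsScalarTower.algebraMap_apply ℂ R4 K4, MvPolynomial.algebraMap_eq]
  unfold lin l4 rho
  rw [map_sum, Fin.sum_univ_six]
  simp only [map_mul, map_add, aeval_X, aeval_C, hC]
  simp [yK]
  ring

theorem rho_F {D : Cub ℂ} (h0 : D.a 0 ≠ 0) : rho D D.F = 0 := by
  have hph : algebraMap R4 K4 (phK D) ≠ 0 := by
    intro h
    exact phK_ne h0 (alg4_inj (h.trans (map_zero _).symm))
  have hC : ∀ z : ℂ, algebraMap R4 K4 (C z) = algebraMap ℂ K4 z := by
    intro z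
    rw [IsScalarTower.algebraMap_apply ℂ R4 K4, MvPolynomial.algebraMap_eq]
  unfold Cub.F cubF
  rw [D.A00, D.A01, D.A11, D.B00, D.B01, D.B11]
  have hX1 : rho D (X 1) = yK 0 := by unfold rho; rw [aeval_X]; rfl
  have hX2 : rho D (X 2) = yK 1 := by unfold rho; rw [aeval_X]; rfl
  have hX3 : rho D (X 3) = yK 2 := by unfold rho; rw [aeval_X]; rfl
  have hX4 : rho D (X 4) = yK 3 := by unfold rho; rw [aeval_X]; rfl
  have hX5 : rho D (X 5) = 0 := by unfold rho; rw [aeval_X]; rfl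
  simp only [map_add, map_sub, map_mul, map_pow, map_ofNat, hX1, hX2, hX3, hX4, hX5, rho_lin,
    zero_mul, add_zero]
  have e1 : algebraMap R4 K4 (phK D) =
      (algebraMap ℂ K4 (D.a 0 2) * yK 0 ^ 2 - 2 * algebraMap ℂ K4 (D.a 0 1) * (yK 0 * yK 1) +
      algebraMap ℂ K4 (D.a 0 0) * yK 1 ^ 2) -
      (algebraMap ℂ K4 (D.b 0 2) * yK 2 ^ 2 - 2 * algebraMap ℂ K4 (D.b 0 1) * (yK 2 * yK 3) +
      algebraMap ℂ K4 (D.b 0 0) * yK 3 ^ 2) := by
    unfold phK yK
    simp only [map_add, map_sub, map_mul, map_pow, map_ofNat, hC]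
  have e2 : algebraMap R4 K4 (psK D) =
      (algebraMap R4 K4 (l4 fun k => D.a k 2) * yK 0 ^ 2 -
        2 * algebraMap R4 K4 (l4 fun k => D.a k 1) * (yK 0 * yK 1) +
      algebraMap R4 K4 (l4 fun k => D.a k 0) * yK 1 ^ 2) -
      (algebraMap R4 K4 (l4 fun k => D.b k 2) * yK 2 ^ 2 -
        2 * algebraMap R4 K4 (l4 fun k => D.b k 1) * (yK 2 * yK 3) +
      algebraMap R4 K4 (l4 fun k => D.b k 0) * yK 3 ^ 2) := by
    unfold psK yK
    simp only [map_add, map_sub, map_mul, map_pow, map_ofNat]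
  set Φ := algebraMap R4 K4 (phK D) with hΦ
  set Ψ := algebraMap R4 K4 (psK D) with hΨ
  have e3 : -Ψ / Φ * Φ + Ψ = 0 := by
    rw [div_mul_cancel₀ _ hph]
    ring
  linear_combination e3 - (-Ψ / Φ) * e1 - e2

theorem rho_base (D : Cub ℂ) (k : Fin 3) : rho D (base D.A D.B k) = bK k := by
  have hX1 : rho D (X 1) = yK 0 := by unfold rho; rw [aeval_X]; rfl
  have hX2 : rho D (X 2) = yK 1 := by unfold rho; rw [aeval_X]; rfl
  have hX3 : rho D (X 3) = yK 2 := by unfold rho; rw [aeval_X]; rfl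
  have hX4 : rho D (X 4) = yK 3 := by unfold rho; rw [aeval_X]; rfl
  have hX5 : rho D (X 5) = 0 := by unfold rho; rw [aeval_X]; rfl
  fin_cases k
  · show rho D (X 1 ^ 2 + X 3 ^ 2 + X 5 * (D.A 0 0 + D.B 0 0)) = algebraMap R4 K4 (b4 0)
    simp only [map_add, map_mul, map_pow, hX1, hX3, hX5, zero_mul, add_zero]
    simp [b4, yK]
  · show rho D (X 1 * X 2 + X 3 * X 4 + X 5 * (D.A 0 1 + D.B 0 1)) = algebraMap R4 K4 (b4 1)
    simp only [map_add, map_mul, hX1, hX2, hX3, hX4, hX5, zero_mul, add_zero]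
    simp [b4, yK]
  · show rho D (X 2 ^ 2 + X 4 ^ 2 + X 5 * (D.A 1 1 + D.B 1 1)) = algebraMap R4 K4 (b4 2)
    simp only [map_add, map_mul, map_pow, hX2, hX4, hX5, zero_mul, add_zero]
    simp [b4, yK]

variable {D : Cub ℂ} {Ω : Type} [Field Ω] [Algebra ℂ Ω] [Algebra KK Ω]
  [IsScalarTower ℂ KK Ω] {x : Fin 6 → Ω}

/-- a quadratic relation over `KK` at the place `lam = 0` -/
theorem Gen.place (hG : Gen D x) (h0 : D.a 0 ≠ 0) (c : Fin 5 × Fin 5 → KK)
    (h : ∑ k, algebraMap KK Ω (c k) * (x k.1.succ * x k.2.succ) = 0) :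
    ∑ k, kap (c k) * (yy k.1 * yy k.2) = 0 := by
  obtain ⟨b, hb⟩ := IsLocalization.exist_integer_multiples_of_finite
    (nonZeroDivisors (MvPolynomial (Fin 2) ℂ)) c
  choose n hn using hb
  have hb0 : algebraMap (MvPolynomial (Fin 2) ℂ) KK b ≠ 0 :=
    IsFractionRing.to_map_ne_zero_of_mem_nonZeroDivisors b.2
  have hn' : ∀ k, algebraMap (MvPolynomial (Fin 2) ℂ) KK (n k) =
      algebraMap (MvPolynomial (Fin 2) ℂ) KK b * c k := by
    intro k
    rw [hn k, Algebra.smul_def]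
  set N := Finset.univ.sup fun k => (n k).totalDegree with hN
  have hNk : ∀ k, (n k).totalDegree ≤ N := fun k =>
    Finset.le_sup (f := fun k => (n k).totalDegree) (Finset.mem_univ k)
  choose H hH1 hH2 using fun k => hom3 (n k) N (hNk k)
  have hm : (fun k => D.mv x k) = ![D.mv x 0, D.mv x 0 * algebraMap KK Ω sK,
      D.mv x 0 * algebraMap KK Ω tK] := by
    funext k
    fin_cases k
    · rfl
    · exact hG.hs.symm
    · exact hG.ht.symm
  have h4 : ∀ k, aeval x (lc k) = x k.succ := by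
    intro k
    fin_cases k <;> simp [lc]
  have h1 : aeval x (∑ k : Fin 5 × Fin 5, aeval (base D.A D.B) (H k) * (lc k.1 * lc k.2)) = 0 := by
    rw [map_sum]
    have h2 : ∀ k : Fin 5 × Fin 5, aeval x (aeval (base D.A D.B) (H k) * (lc k.1 * lc k.2)) =
        D.mv x 0 ^ N * algebraMap KK Ω (algebraMap (MvPolynomial (Fin 2) ℂ) KK b) *
          (algebraMap KK Ω (c k) * (x k.1.succ * x k.2.succ)) := by
      intro k
      have h3 : aeval x (aeval (base D.A D.B) (H k)) = aeval (fun k => D.mv x k) (H k) := by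
        rw [comp_aeval_apply]
        rfl
      rw [map_mul, map_mul, h3, h4, h4, hm, hH2, ← algebraMap_poly, hn', map_mul]
      ring
    rw [Finset.sum_congr rfl fun k _ => h2 k, ← Finset.mul_sum, h, mul_zero]
  have hlc : ∀ k, (lc k).IsHomogeneous 1 := by
    intro k
    fin_cases k <;> exact isHomogeneous_X _ _
  have h2 : (∑ k : Fin 5 × Fin 5,
      aeval (base D.A D.B) (H k) * (lc k.1 * lc k.2)).IsHomogeneous (2 * N + (1 + 1)) := by
    refine IsHomogeneous.sum _ _ _ fun k _ => ?_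
    exact IsHomogeneous.mul ((hH1 k).aeval _ (base_hom D)) ((hlc _).mul (hlc _))
  obtain ⟨E, hE⟩ := (hG.ker _ _ h2).1 h1
  have h3 := congrArg (rho D) hE
  rw [map_mul, rho_F h0, zero_mul, map_sum] at h3
  have h5 : ∀ k, rho D (lc k) = yy k := by
    intro k
    fin_cases k
    · show rho D (X 1) = _
      unfold rho; rw [aeval_X]; rfl
    · show rho D (X 2) = _
      unfold rho; rw [aeval_X]; rfl
    · show rho D (X 3) = _
      unfold rho; rw [aeval_X]; rfl
    · show rho D (X 4) = _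
      unfold rho; rw [aeval_X]; rfl
    · show rho D (X 5) = _
      unfold rho; rw [aeval_X]; rfl
  have h6 : ∀ k : Fin 5 × Fin 5, rho D (aeval (base D.A D.B) (H k) * (lc k.1 * lc k.2)) =
      bK 0 ^ N * kap (algebraMap (MvPolynomial (Fin 2) ℂ) KK b) *
        (kap (c k) * (yy k.1 * yy k.2)) := by
    intro k
    have h7 : rho D (aeval (base D.A D.B) (H k)) = aeval (fun k => bK k) (H k) := by
      rw [comp_aeval_apply]
      congr 2
      funext j
      exact rho_base D j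
    have h8 : (fun k => bK k) = ![bK 0, bK 0 * (bK 1 / bK 0), bK 0 * (bK 2 / bK 0)] := by
      rw [mul_div_cancel₀ _ bK0_ne, mul_div_cancel₀ _ bK0_ne]
      funext j
      fin_cases j <;> rfl
    rw [map_mul, map_mul, h7, h5, h5, h8, hH2, ← kap_alg, hn', map_mul]
    ring
  rw [Finset.sum_congr rfl fun k _ => h6 k, ← Finset.mul_sum] at h3
  refine (mul_eq_zero.1 h3).resolve_left (mul_ne_zero (pow_ne_zero _ bK0_ne) ?_)
  intro h9
  exact hb0 (kap.injective (h9.trans (map_zero _).symm))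

end Pool.Agent.GSX
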